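import Mathlib

/-!
Abstract Hilbert space tools: the resolvent `(1 + A*A)⁻¹` of a closed operator given by its
graph, and completeness of eigenvectors.
-/

open Filter Topology
open scoped InnerProductSpace ComplexConjugate

noncomputable section

namespace Pool.Agent.Lib.MP_169ce5_an

section Resolvent

variable {H G : Type*} [NormedAddCommGroup H] [InnerProductSpace ℂ H]
  [NormedAddCommGroup G] [InnerProductSpace ℂ G]

/-- `R = (1 + A*A)⁻¹` and `S = A R`, where `Γ` is the graph of `A`. -/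
structure Res (Γ : Submodule ℂ (H × G)) (R : H →L[ℂ] H) (S : H →L[ℂ] G) : Prop where
  mem : ∀ f, (R f, S f) ∈ Γ
  eq : ∀ f, ∀ y ∈ Γ, ⟪y.1, R f⟫_ℂ + ⟪y.2, S f⟫_ℂ = ⟪y.1, f⟫_ℂ

theorem exists_res [CompleteSpace H] [CompleteSpace G] (Γ : Submodule ℂ (H × G))
    (hΓ : IsClosed (Γ : Set (H × G))) : ∃ R S, Res Γ R S := by
  let e : WithLp 2 (H × G) ≃L[ℂ] (H × G) := WithLp.prodContinuousLinearEquiv 2 ℂ H G
  let Γ' : Submodule ℂ (WithLp 2 (H × G)) := Γ.comap (e : WithLp 2 (H × G) →ₗ[ℂ] (H × G))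
  have hΓ' : IsClosed (Γ' : Set (WithLp 2 (H × G))) := hΓ.preimage e.continuous
  have : CompleteSpace Γ' := hΓ'.completeSpace_coe
  let j : Γ' →L[ℂ] H :=
    ((ContinuousLinearMap.fst ℂ H G).comp (e : WithLp 2 (H × G) →L[ℂ] (H × G))).comp Γ'.subtypeL
  let k : Γ' →L[ℂ] G :=
    ((ContinuousLinearMap.snd ℂ H G).comp (e : WithLp 2 (H × G) →L[ℂ] (H × G))).comp Γ'.subtypeL
  refine ⟨j.comp (ContinuousLinearMap.adjoint j), k.comp (ContinuousLinearMap.adjoint j),
    ⟨fun f => ?_, fun f y hy => ?_⟩⟩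
  · exact (ContinuousLinearMap.adjoint j f).2
  · have hy' : e.symm y ∈ Γ' := by
      change e (e.symm y) ∈ Γ
      rw [e.apply_symm_apply]; exact hy
    have h := ContinuousLinearMap.adjoint_inner_right j (⟨e.symm y, hy'⟩ : Γ') f
    have h1 : j ⟨e.symm y, hy'⟩ = y.1 := by
      change (e (e.symm y)).1 = y.1
      rw [e.apply_symm_apply]
    rw [h1] at h
    rw [← h, Submodule.coe_inner, WithLp.prod_inner_apply]
    rfl

variable {Γ : Submodule ℂ (H × G)} {R : H →L[ℂ] H} {S : H →L[ℂ] G}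

theorem Res.unique (hR : Res Γ R S) {f x : H} {s : G} (hx : (x, s) ∈ Γ)
    (h : ∀ y ∈ Γ, ⟪y.1, x⟫_ℂ + ⟪y.2, s⟫_ℂ = ⟪y.1, f⟫_ℂ) : R f = x ∧ S f = s := by
  have hd : (x - R f, s - S f) ∈ Γ := by
    have := Γ.sub_mem hx (hR.mem f)
    simpa using this
  have h1 := h _ hd
  have h2 := hR.eq f _ hd
  have h3 : ⟪x - R f, x - R f⟫_ℂ + ⟪s - S f, s - S f⟫_ℂ = 0 := by
    rw [inner_sub_right (x - R f) x, inner_sub_right (s - S f) s]
    simp only at h1 h2
    linear_combination h1 - h2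
  rw [inner_self_eq_norm_sq_to_K, inner_self_eq_norm_sq_to_K] at h3
  have h4 : ‖x - R f‖ ^ 2 + ‖s - S f‖ ^ 2 = 0 := by
    have h3' : ((‖x - R f‖ ^ 2 + ‖s - S f‖ ^ 2 : ℝ) : ℂ) = 0 := by
      push_cast; exact h3
    exact_mod_cast h3'
  have h5 : ‖x - R f‖ = 0 := by nlinarith [sq_nonneg ‖x - R f‖, sq_nonneg ‖s - S f‖]
  have h6 : ‖s - S f‖ = 0 := by nlinarith [sq_nonneg ‖x - R f‖, sq_nonneg ‖s - S f‖]
  constructor
  · exact (sub_eq_zero.mp (norm_eq_zero.mp h5)).symm
  · exact (sub_eq_zero.mp (norm_eq_zero.mp h6)).symm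

theorem Res.symm (hR : Res Γ R S) : (R : H →ₗ[ℂ] H).IsSymmetric := by
  intro f g
  have h1 := hR.eq g _ (hR.mem f)
  have h2 := hR.eq f _ (hR.mem g)
  simp only at h1 h2
  change ⟪R f, g⟫_ℂ = ⟪f, R g⟫_ℂ
  rw [← h1]
  have h3 : ⟪f, R g⟫_ℂ = conj ⟪R g, f⟫_ℂ := (inner_conj_symm _ _).symm
  rw [h3, ← h2, map_add, inner_conj_symm, inner_conj_symm]

theorem Res.norm_sq (hR : Res Γ R S) (f : H) : ‖R f‖ ^ 2 + ‖S f‖ ^ 2 ≤ ‖R f‖ * ‖f‖ := by
  have h1 := hR.eq f _ (hR.mem f)
  simp only at h1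
  rw [inner_self_eq_norm_sq_to_K, inner_self_eq_norm_sq_to_K] at h1
  have h2 : ‖R f‖ ^ 2 + ‖S f‖ ^ 2 = RCLike.re ⟪R f, f⟫_ℂ := by
    rw [← h1]
    norm_cast
  rw [h2]
  exact (RCLike.re_le_norm _).trans (norm_inner_le_norm _ _)

theorem Res.norm_le (hR : Res Γ R S) (f : H) : ‖R f‖ ≤ ‖f‖ := by
  have h := hR.norm_sq f
  by_contra hlt
  push Not at hlt
  have h0 := norm_nonneg (R f)
  nlinarith [sq_nonneg ‖S f‖, norm_nonneg f]

theorem Res.norm_sq_le (hR : Res Γ R S) (f : H) : ‖R f‖ ^ 2 + ‖S f‖ ^ 2 ≤ ‖f‖ ^ 2 := by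
  have h := hR.norm_sq f
  have h' := hR.norm_le f
  nlinarith [norm_nonneg f]

theorem Res.norm_S_le (hR : Res Γ R S) (f : H) : ‖S f‖ ≤ ‖f‖ := by
  have h := hR.norm_sq_le f
  have := norm_nonneg f
  by_contra hlt
  push Not at hlt
  nlinarith [sq_nonneg ‖R f‖]

/-- If the domain is dense then `R` is injective. -/
theorem Res.injective (hR : Res Γ R S) (hd : ∀ f : H, (∀ y ∈ Γ, ⟪y.1, f⟫_ℂ = 0) → f = 0)
    {f : H} (hf : R f = 0) : f = 0 := by
  apply hd
  have hS : S f = 0 := by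
    have h := hR.norm_sq f
    rw [hf] at h
    simp only [norm_zero] at h
    have : ‖S f‖ ^ 2 ≤ 0 := by nlinarith
    have h' : ‖S f‖ = 0 := by nlinarith [sq_nonneg ‖S f‖]
    exact norm_eq_zero.mp h'
  intro y hy
  rw [← hR.eq f y hy, hf, hS]
  simp

/-- The range of `(R, S)` is dense in the graph: testing against it is enough. -/
theorem Res.core [CompleteSpace H] [CompleteSpace G] (hR : Res Γ R S)
    (hΓ : IsClosed (Γ : Set (H × G))) (hgraph : ∀ s : G, ((0 : H), s) ∈ Γ → s = 0) {x : G}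
    (h : ∀ g : H, ⟪x, S g⟫_ℂ = 0) : ∀ y ∈ Γ, ⟪x, y.2⟫_ℂ = 0 := by
  let e : WithLp 2 (H × G) ≃L[ℂ] (H × G) := WithLp.prodContinuousLinearEquiv 2 ℂ H G
  let Γ' : Submodule ℂ (WithLp 2 (H × G)) := Γ.comap (e : WithLp 2 (H × G) →ₗ[ℂ] (H × G))
  have hΓ' : IsClosed (Γ' : Set (WithLp 2 (H × G))) := hΓ.preimage e.continuous
  have : CompleteSpace Γ' := hΓ'.completeSpace_coe
  let j : Γ' →L[ℂ] H :=
    ((ContinuousLinearMap.fst ℂ H G).comp (e : WithLp 2 (H × G) →L[ℂ] (H × G))).comp Γ'.subtypeL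
  let k : Γ' →L[ℂ] G :=
    ((ContinuousLinearMap.snd ℂ H G).comp (e : WithLp 2 (H × G) →L[ℂ] (H × G))).comp Γ'.subtypeL
  have hS : ∀ f, S f = k (ContinuousLinearMap.adjoint j f) := by
    intro f
    refine (hR.unique (x := j (ContinuousLinearMap.adjoint j f)) ?_ ?_).2
    · exact (ContinuousLinearMap.adjoint j f).2
    · intro y hy
      have hy' : e.symm y ∈ Γ' := by
        change e (e.symm y) ∈ Γ
        rw [e.apply_symm_apply]; exact hy
      have h := ContinuousLinearMap.adjoint_inner_right j (⟨e.symm y, hy'⟩ : Γ') f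
      have h1 : j ⟨e.symm y, hy'⟩ = y.1 := by
        change (e (e.symm y)).1 = y.1
        rw [e.apply_symm_apply]
      rw [h1] at h
      rw [← h, Submodule.coe_inner, WithLp.prod_inner_apply]
      rfl
  have hker : (ContinuousLinearMap.adjoint j).rangeᗮ = ⊥ := by
    rw [ContinuousLinearMap.orthogonal_range, ContinuousLinearMap.adjoint_adjoint]
    rw [eq_bot_iff]
    intro w hw
    have hw1 : j w = 0 := hw
    have hw2 : (e w.1).1 = 0 := hw1
    have hw3 : (0, (e w.1).2) ∈ Γ := by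
      have : e w.1 ∈ Γ := w.2
      rw [← hw2]; exact this
    have hw4 := hgraph _ hw3
    have hw5 : e w.1 = 0 := Prod.ext hw2 hw4
    have hw6 : (w : WithLp 2 (H × G)) = 0 := e.map_eq_zero_iff.mp hw5
    rw [Submodule.mem_bot]
    exact Subtype.ext hw6
  have hdense : Dense ((ContinuousLinearMap.adjoint j).range : Set Γ') := by
    rw [Submodule.dense_iff_topologicalClosure_eq_top,
      Submodule.topologicalClosure_eq_top_iff]
    exact hker
  -- the continuous functional `w ↦ ⟪x, k w⟫` vanishes on a dense set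
  have hcont : Continuous fun w : Γ' => ⟪x, k w⟫_ℂ := continuous_const.inner k.continuous
  have hzero : (fun w : Γ' => ⟪x, k w⟫_ℂ) = fun _ => 0 := by
    refine hcont.ext_on hdense continuous_const ?_
    rintro w ⟨f, rfl⟩
    change ⟪x, k (ContinuousLinearMap.adjoint j f)⟫_ℂ = 0
    rw [← hS f]
    exact h f
  intro y hy
  have hy' : e.symm y ∈ Γ' := by
    change e (e.symm y) ∈ Γ
    rw [e.apply_symm_apply]; exact hy
  have := congrFun hzero ⟨e.symm y, hy'⟩
  have h2 : k ⟨e.symm y, hy'⟩ = y.2 := by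
    change (e (e.symm y)).2 = y.2
    rw [e.apply_symm_apply]
  simpa [h2] using this

end Resolvent

section Total

variable {H : Type*} [NormedAddCommGroup H] [InnerProductSpace ℂ H] [CompleteSpace H]

/-- Eigenvectors of `R` are total. -/
def EigTotal (R : H →L[ℂ] H) : Prop :=
  ∀ x : H, (∀ (μ : ℂ) (e : H), R e = μ • e → ⟪e, x⟫_ℂ = 0) → x = 0

theorem eigTotal_of_modes {ι : Type*} {R : H →L[ℂ] H} (hR : (R : H →ₗ[ℂ] H).IsSymmetric)
    (V : ι → Submodule ℂ H) (hV : ∀ i, IsClosed (V i : Set H))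
    (hinv : ∀ i, ∀ x ∈ V i, R x ∈ V i)
    (hcomp : ∀ i, ∀ ε > 0, ∃ F : Submodule ℂ H, FiniteDimensional ℂ F ∧
      ∀ x ∈ V i, ∃ y ∈ F, ‖R x - y‖ ≤ ε * ‖x‖)
    (htot : ∀ x : H, (∀ i, ∀ y ∈ V i, ⟪y, x⟫_ℂ = 0) → x = 0) : EigTotal R := by
  intro x hx
  apply htot
  intro i
  have : CompleteSpace (V i) := (hV i).completeSpace_coe
  let Ti : V i →L[ℂ] V i := R.restrict (hinv i)
  have hTi : ∀ v : V i, ((Ti v : V i) : H) = R v := fun v => rfl
  have hsymm : (Ti : V i →ₗ[ℂ] V i).IsSymmetric := by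
    intro v w
    exact hR v w
  have hcompact : IsCompactOperator Ti := by
    have h1 : IsCompactOperator (R.comp (V i).subtypeL : V i →L[ℂ] H) := by
      choose F hF1 hF2 using hcomp i
      let u : ℕ → ℝ := fun n => 1 / ((n : ℝ) + 1)
      have hu : ∀ n, 0 < u n := fun n => by positivity
      have hu0 : Tendsto u atTop (𝓝 0) := tendsto_one_div_add_atTop_nhds_zero_nat
      let A : ℕ → (V i →L[ℂ] H) := fun n =>
        haveI := hF1 (u n) (hu n)
        (F (u n) (hu n)).starProjection.comp (R.comp (V i).subtypeL)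
      refine isCompactOperator_of_tendsto (l := atTop) (F := A) ?_ (Eventually.of_forall ?_)
      · rw [tendsto_iff_norm_sub_tendsto_zero]
        refine squeeze_zero (fun n => norm_nonneg _) (fun n => ?_) hu0
        refine ContinuousLinearMap.opNorm_le_bound _ (hu n).le fun v => ?_
        have := hF1 (u n) (hu n)
        obtain ⟨y, hy, hy2⟩ := hF2 (u n) (hu n) v v.2
        have h3 : ‖R v - (F (u n) (hu n)).starProjection (R v)‖ ≤ ‖R v - y‖ := by
          rw [(Submodule.starProjection_minimal (U := F (u n) (hu n)) (R v))]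
          exact ciInf_le ⟨0, by rintro _ ⟨w, rfl⟩; positivity⟩ (⟨y, hy⟩ : F (u n) (hu n))
        calc ‖(A n - R.comp (V i).subtypeL) v‖
            = ‖R v - (F (u n) (hu n)).starProjection (R v)‖ := by
              rw [norm_sub_rev]; rfl
          _ ≤ ‖R v - y‖ := h3
          _ ≤ u n * ‖(v : H)‖ := hy2
      · intro n
        have := hF1 (u n) (hu n)
        have h4 : IsCompactOperator
            ((F (u n) (hu n)).orthogonalProjectionOnto : H →L[ℂ] F (u n) (hu n)) :=
          haveI : ProperSpace (F (u n) (hu n)) := FiniteDimensional.proper ℂ _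
          isCompactOperator_of_locallyCompactSpace_dom
            ((F (u n) (hu n)).orthogonalProjectionOnto)
        exact (h4.clm_comp (F (u n) (hu n)).subtypeL).comp_clm (R.comp (V i).subtypeL)
    exact h1.codRestrict (fun v => hinv i v v.2) (hV i)
  have hspec := ContinuousLinearMap.orthogonalComplement_iSup_eigenspaces_eq_bot hcompact hsymm
  let xi : V i := (V i).orthogonalProjectionOnto x
  have hxi : xi ∈ (⨆ μ, Module.End.eigenspace (Ti : Module.End ℂ (V i)) μ)ᗮ := by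
    rw [Submodule.mem_orthogonal]
    intro w hw
    refine Submodule.iSup_induction _ (motive := fun w => ⟪w, xi⟫_ℂ = 0) hw ?_ ?_ ?_
    · intro μ e he
      have he' : Ti e = μ • e := Module.End.mem_eigenspace_iff.mp he
      have he2 : R (e : H) = μ • (e : H) := by
        exact congrArg (fun v : V i => (v : H)) he'
      have h5 := hx μ e he2
      have h6 : ⟪e, xi⟫_ℂ = ⟪(e : H), x⟫_ℂ := by
        simp only [xi]
        rw [Submodule.coe_inner]
        exact Submodule.inner_orthogonalProjectionOnto_eq_of_mem_left e x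
      rw [h6, h5]
    · simp
    · intro a b ha hb
      rw [inner_add_left, ha, hb, add_zero]
  rw [hspec, Submodule.mem_bot] at hxi
  intro y hy
  have h7 : ⟪(⟨y, hy⟩ : V i), xi⟫_ℂ = ⟪y, x⟫_ℂ := by
    simp only [xi]
    rw [Submodule.coe_inner]
    exact Submodule.inner_orthogonalProjectionOnto_eq_of_mem_left (⟨y, hy⟩ : V i) x
  rw [← h7, hxi, inner_zero_right]

/-- A bounded symmetric operator whose eigenvectors are total has a Hilbert basis of
eigenvectors. -/
theorem exists_hilbertBasis_of_eigTotal {H : Type} [NormedAddCommGroup H]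
    [InnerProductSpace ℂ H] [CompleteSpace H] {R : H →L[ℂ] H}
    (hR : (R : H →ₗ[ℂ] H).IsSymmetric) (htot : EigTotal R) :
    ∃ (ι : Type) (b : HilbertBasis ι ℂ H), ∀ i, ∃ μ : ℂ, R (b i) = μ • b i := by
  have hclosed : ∀ μ : ℂ, IsClosed (Module.End.eigenspace (R : Module.End ℂ H) μ : Set H) := by
    intro μ
    have : (Module.End.eigenspace (R : Module.End ℂ H) μ : Set H) = {x | R x = μ • x} := by
      ext x
      exact Module.End.mem_eigenspace_iff
    rw [this]
    exact isClosed_eq R.continuous (continuous_const.smul continuous_id)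
  have hcs : ∀ μ : ℂ, CompleteSpace (Module.End.eigenspace (R : Module.End ℂ H) μ) :=
    fun μ => (hclosed μ).completeSpace_coe
  choose w b hb using fun μ : ℂ =>
    exists_hilbertBasis ℂ (Module.End.eigenspace (R : Module.End ℂ H) μ)
  let v : (Σ μ : ℂ, w μ) → H := fun p => ((b p.1 p.2 : _) : H)
  have hortho : Orthonormal ℂ v := by
    have h1 := hR.orthogonalFamily_eigenspaces
    have := OrthogonalFamily.orthonormal_sigma_orthonormal (𝕜 := ℂ) h1
      (v_family := fun μ => (b μ : w μ → _)) (fun μ => (b μ).orthonormal)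
    exact this
  have hspan : ⊤ ≤ (Submodule.span ℂ (Set.range v)).topologicalClosure := by
    rw [top_le_iff, Submodule.topologicalClosure_eq_top_iff, eq_bot_iff]
    intro x hx
    rw [Submodule.mem_bot]
    apply htot
    intro μ e he
    have he' : e ∈ Module.End.eigenspace (R : Module.End ℂ H) μ :=
      Module.End.mem_eigenspace_iff.mpr he
    -- `⟪e, x⟫ = ⟪e, P x⟫` and `P x` is orthogonal to the basis
    have hcs' := hcs μ
    let P := (Module.End.eigenspace (R : Module.End ℂ H) μ).orthogonalProjectionOnto x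
    have hP : ∀ i, ⟪b μ i, P⟫_ℂ = 0 := by
      intro i
      have h2 : ⟪b μ i, P⟫_ℂ = ⟪((b μ i : _) : H), x⟫_ℂ := by
        rw [Submodule.coe_inner]
        exact Submodule.inner_orthogonalProjectionOnto_eq_of_mem_left (b μ i) x
      rw [h2]
      rw [Submodule.mem_orthogonal] at hx
      exact hx _ (Submodule.subset_span ⟨⟨μ, i⟩, rfl⟩)
    have hP0 : P = 0 := by
      apply (b μ).repr.injective
      ext i
      rw [(b μ).repr_apply_apply, hP i]
      simp
    have h3 : ⟪(⟨e, he'⟩ : Module.End.eigenspace (R : Module.End ℂ H) μ), P⟫_ℂ = ⟪e, x⟫_ℂ := by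
      rw [Submodule.coe_inner]
      exact Submodule.inner_orthogonalProjectionOnto_eq_of_mem_left
        (⟨e, he'⟩ : Module.End.eigenspace (R : Module.End ℂ H) μ) x
    rw [← h3, hP0, inner_zero_right]
  refine ⟨_, HilbertBasis.mk hortho hspan, fun i => ⟨i.1, ?_⟩⟩
  rw [HilbertBasis.coe_mk]
  exact Module.End.mem_eigenspace_iff.mp (b i.1 i.2).2

end Total

end Pool.Agent.Lib.MP_169ce5_an
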