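import Pool.Agent.Lib.MP_169ce5_an.Second

/-!
The Poincare inequality for the adjoint of `∂̄` on `(0,1)`-forms and completeness of the
eigenvectors of its resolvent.
-/

open MeasureTheory Complex Filter Topology Set
open scoped ContDiff ComplexConjugate ENNReal InnerProductSpace

noncomputable section

namespace Pool.Agent.Lib.MP_169ce5_an

theorem IsTest.integrable {φ : ℂ × ℂ → ℂ} (hφ : IsTest φ) : Integrable φ volume :=
  hφ.1.continuous.integrable_of_hasCompactSupport hφ.2.1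

theorem IsTest.ibp_dv {φ ψ : ℂ × ℂ → ℂ} (hφ : IsTest φ) (hψ : IsTest ψ) (v : ℂ × ℂ) :
    ∫ z, φ z * fderiv ℝ ψ z v = - ∫ z, fderiv ℝ φ z v * ψ z := by
  have h := (hφ.mul hψ).integral_fderiv v
  have e : ∀ z, fderiv ℝ (fun z => φ z * ψ z) z v =
      φ z * fderiv ℝ ψ z v + fderiv ℝ φ z v * ψ z := by
    intro z
    rw [fderiv_fun_mul (hφ.differentiableAt z) (hψ.differentiableAt z)]
    simp only [add_apply, smul_apply, smul_eq_mul]
    ring
  simp only [e] at h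
  rw [integral_add (hφ.mul (hψ.dv v)).integrable ((hφ.dv v).mul hψ).integrable] at h
  linear_combination h

theorem fderiv_conj_apply {φ : ℂ × ℂ → ℂ} (hφ : IsTest φ) (z v : ℂ × ℂ) :
    fderiv ℝ (fun w => conj (φ w)) z v = conj (fderiv ℝ φ z v) := by
  have h := (Complex.conjCLE : ℂ →L[ℝ] ℂ).hasFDerivAt.comp z (hφ.differentiableAt z).hasFDerivAt
  have h2 : HasFDerivAt (fun w => conj (φ w))
    ((Complex.conjCLE : ℂ →L[ℝ] ℂ).comp (fderiv ℝ φ z)) z := h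
  rw [h2.fderiv]
  rfl

theorem cross_zero {ψ : ℂ × ℂ → ℂ} (hψ : IsTest ψ) :
    ∫ z, fderiv ℝ ψ z (1, 0) * conj (fderiv ℝ ψ z (I, 0)) =
      ∫ z, fderiv ℝ ψ z (I, 0) * conj (fderiv ℝ ψ z (1, 0)) := by
  simp only [← fderiv_conj_apply hψ]
  rw [(hψ.dv (1, 0)).ibp_dv hψ.conj, (hψ.dv (I, 0)).ibp_dv hψ.conj]
  simp only [hψ.sym2 (1, 0) (I, 0)]

theorem norm_sq_dzbar1 (P Q : ℂ) :
    ((‖(1 / 2) * (P + I * Q)‖ ^ 2 : ℝ) : ℂ) =
      (1 / 4) * (((‖P‖ ^ 2 + ‖Q‖ ^ 2 : ℝ) : ℂ) - I * (P * conj Q) + I * (Q * conj P)) := by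
  have h : ∀ x : ℂ, ((‖x‖ ^ 2 : ℝ) : ℂ) = x * conj x := by
    intro x
    rw [Complex.mul_conj, Complex.normSq_eq_norm_sq]
  rw [h]
  push_cast
  have h1 := h P
  have h2 := h Q
  push_cast at h1 h2
  rw [h1, h2]
  simp only [map_mul, map_add, map_div₀, map_one, map_ofNat, Complex.conj_I]
  have hI : I * I = -1 := Complex.I_mul_I
  linear_combination (-(1 / 4) * Q * conj Q) * hI

theorem re_mul_conj (x : ℂ) : (x * conj x).re = ‖x‖ ^ 2 := by
  rw [Complex.mul_conj, Complex.ofReal_re, Complex.normSq_eq_norm_sq]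

theorem energy_eq {ψ : ℂ × ℂ → ℂ} (hψ : IsTest ψ) :
    ∫ z, ‖dzbar1 ψ z‖ ^ 2 =
      (1 / 4) * ((∫ z, ‖fderiv ℝ ψ z (1, 0)‖ ^ 2) + ∫ z, ‖fderiv ℝ ψ z (I, 0)‖ ^ 2) := by
  have hP := hψ.dv (1, 0)
  have hQ := hψ.dv (I, 0)
  have i1 : Integrable (fun z => ‖fderiv ℝ ψ z (1, 0)‖ ^ 2) volume := by
    have := (hP.mul hP.conj).integrable.re
    refine this.congr (ae_of_all _ fun z => ?_)
    exact re_mul_conj _
  have i2 : Integrable (fun z => ‖fderiv ℝ ψ z (I, 0)‖ ^ 2) volume := by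
    have := (hQ.mul hQ.conj).integrable.re
    refine this.congr (ae_of_all _ fun z => ?_)
    exact re_mul_conj _
  have i3 := (hP.mul hQ.conj).integrable
  have i4 := (hQ.mul hP.conj).integrable
  have h : ((∫ z, ‖dzbar1 ψ z‖ ^ 2 : ℝ) : ℂ) =
      (((1 / 4) * ((∫ z, ‖fderiv ℝ ψ z (1, 0)‖ ^ 2) + ∫ z, ‖fderiv ℝ ψ z (I, 0)‖ ^ 2) : ℝ) : ℂ) := by
    have e : ∀ z, ((‖dzbar1 ψ z‖ ^ 2 : ℝ) : ℂ) = (1 / 4) *
        (((‖fderiv ℝ ψ z (1, 0)‖ ^ 2 + ‖fderiv ℝ ψ z (I, 0)‖ ^ 2 : ℝ) : ℂ) -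
          I * (fderiv ℝ ψ z (1, 0) * conj (fderiv ℝ ψ z (I, 0))) +
          I * (fderiv ℝ ψ z (I, 0) * conj (fderiv ℝ ψ z (1, 0)))) := by
      intro z
      exact norm_sq_dzbar1 _ _
    rw [← integral_complex_ofReal]
    simp only [e]
    rw [integral_const_mul, integral_add, integral_sub, integral_const_mul, integral_const_mul,
      cross_zero hψ, integral_complex_ofReal, integral_add i1 i2]
    · push_cast; ring
    · exact (i1.add i2).ofReal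
    · exact i3.const_mul _
    · exact (i1.add i2).ofReal.sub (i3.const_mul _)
    · exact i4.const_mul _
  exact_mod_cast h

theorem poincare_x {ψ : ℂ × ℂ → ℂ} (hψ : IsTest ψ) :
    ∫ z, ‖ψ z‖ ^ 2 ≤ 4 * ∫ z, ‖fderiv ℝ ψ z (1, 0)‖ ^ 2 := by
  have hP := hψ.dv (1, 0)
  have i1 : Integrable (fun z => ‖fderiv ℝ ψ z (1, 0)‖ ^ 2) volume := by
    have := (hP.mul hP.conj).integrable.re
    refine this.congr (ae_of_all _ fun z => ?_)
    exact re_mul_conj _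
  have i0 : Integrable (fun z => ‖ψ z‖ ^ 2) volume := by
    have := (hψ.mul hψ.conj).integrable.re
    refine this.congr (ae_of_all _ fun z => ?_)
    exact re_mul_conj _
  -- the product `x ψ ψ̄`
  have hx : ContDiffOn ℝ ∞ (fun z : ℂ × ℂ => ((z.1.re : ℝ) : ℂ)) T := by
    apply ContDiff.contDiffOn
    exact (Complex.ofRealCLM.comp (Complex.reCLM.comp
      (ContinuousLinearMap.fst ℝ ℂ ℂ))).contDiff
  have ht := (hψ.mul hψ.conj).mul_left hx
  have h0 := ht.integral_fderiv (1, 0)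
  have e : ∀ z, fderiv ℝ (fun z => ((z.1.re : ℝ) : ℂ) * (ψ z * conj (ψ z))) z (1, 0) =
      ((‖ψ z‖ ^ 2 : ℝ) : ℂ) + ((z.1.re : ℝ) : ℂ) *
        (ψ z * conj (fderiv ℝ ψ z (1, 0)) + conj (ψ z) * fderiv ℝ ψ z (1, 0)) := by
    intro z
    have hd : HasFDerivAt (fun z : ℂ × ℂ => ((z.1.re : ℝ) : ℂ))
        (Complex.ofRealCLM.comp (Complex.reCLM.comp (ContinuousLinearMap.fst ℝ ℂ ℂ))) z :=
      (Complex.ofRealCLM.comp (Complex.reCLM.comp (ContinuousLinearMap.fst ℝ ℂ ℂ))).hasFDerivAt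
    rw [fderiv_fun_mul hd.differentiableAt ((hψ.mul hψ.conj).differentiableAt z), hd.fderiv,
      fderiv_fun_mul (hψ.differentiableAt z) (hψ.conj.differentiableAt z)]
    simp only [add_apply, smul_apply, smul_eq_mul, fderiv_conj_apply hψ]
    rw [Complex.mul_conj, Complex.normSq_eq_norm_sq]
    simp only [ContinuousLinearMap.comp_apply, ContinuousLinearMap.coe_fst', Complex.reCLM_apply,
      Complex.ofRealCLM_apply, Complex.one_re]
    push_cast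
    ring
  simp only [e] at h0
  -- real parts
  have h1 : ∫ z, (‖ψ z‖ ^ 2 + (((z.1.re : ℝ) : ℂ) *
        (ψ z * conj (fderiv ℝ ψ z (1, 0)) + conj (ψ z) * fderiv ℝ ψ z (1, 0))).re) = 0 := by
    have hint : Integrable (fun z => fderiv ℝ (fun z => ((z.1.re : ℝ) : ℂ) * (ψ z * conj (ψ z))) z
        (1, 0)) volume := ht.integrable_fderiv _
    simp only [e] at hint
    have := integral_re hint
    simp only [RCLike.re_eq_complex_re, h0] at this
    rw [Complex.zero_re] at this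
    rw [← this]
    congr 1
  have ix : Integrable (fun z : ℂ × ℂ => (((z.1.re : ℝ) : ℂ) *
        (ψ z * conj (fderiv ℝ ψ z (1, 0)) + conj (ψ z) * fderiv ℝ ψ z (1, 0))).re) volume := by
    have := (((hψ.mul hP.conj).add (hψ.conj.mul hP)).mul_left hx).integrable.re
    exact this
  rw [integral_add i0 ix] at h1
  have h2 : ∫ z, (((z.1.re : ℝ) : ℂ) *
        (ψ z * conj (fderiv ℝ ψ z (1, 0)) + conj (ψ z) * fderiv ℝ ψ z (1, 0))).re ≥
      ∫ z, -((1 / 2) * ‖ψ z‖ ^ 2 + 2 * ‖fderiv ℝ ψ z (1, 0)‖ ^ 2) := by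
    refine integral_mono ((i0.const_mul _).add (i1.const_mul _)).neg ix fun z => ?_
    by_cases hz : z ∈ T
    · have hx1 : |z.1.re| ≤ 1 := by
        have h3 := Complex.abs_re_le_norm z.1
        have h4 : ‖z.1‖ < 1 := hz.1.trans hz.2
        linarith
      have h5 : |(((z.1.re : ℝ) : ℂ) * (ψ z * conj (fderiv ℝ ψ z (1, 0)) +
          conj (ψ z) * fderiv ℝ ψ z (1, 0))).re| ≤ 2 * (‖ψ z‖ * ‖fderiv ℝ ψ z (1, 0)‖) := by
        refine (Complex.abs_re_le_norm _).trans ?_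
        rw [norm_mul, Complex.norm_real, Real.norm_eq_abs]
        have h6 : ‖ψ z * conj (fderiv ℝ ψ z (1, 0)) + conj (ψ z) * fderiv ℝ ψ z (1, 0)‖ ≤
            2 * (‖ψ z‖ * ‖fderiv ℝ ψ z (1, 0)‖) := by
          refine (norm_add_le _ _).trans ?_
          rw [norm_mul, norm_mul, RCLike.norm_conj, RCLike.norm_conj]
          linarith
        calc |z.1.re| * _ ≤ 1 * (2 * (‖ψ z‖ * ‖fderiv ℝ ψ z (1, 0)‖)) := by gcongr
          _ = _ := one_mul _
      have h7 := (abs_le.mp h5).1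
      nlinarith [sq_nonneg (‖ψ z‖ - 2 * ‖fderiv ℝ ψ z (1, 0)‖)]
    · simp only
      rw [hψ.zero_of_notMem hz, hψ.fderiv_zero_of_notMem hz]
      simp
  rw [integral_neg, integral_add (i0.const_mul _) (i1.const_mul _), integral_const_mul,
    integral_const_mul] at h2
  linarith

theorem poincare {ψ : ℂ × ℂ → ℂ} (hψ : IsTest ψ) :
    ∫ z, ‖ψ z‖ ^ 2 ≤ 16 * ∫ z, ‖dzbar1 ψ z‖ ^ 2 := by
  rw [energy_eq hψ]
  have h := poincare_x hψ
  have h2 : 0 ≤ ∫ z, ‖fderiv ℝ ψ z (I, 0)‖ ^ 2 := integral_nonneg fun z => by positivity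
  linarith

theorem norm_sq_L2 (F : L2) : ‖F‖ ^ 2 = ∫ z in T, ‖F z‖ ^ 2 := by
  have h0 : ‖F‖ ^ 2 = RCLike.re ⟪F, F⟫_ℂ := (inner_self_eq_norm_sq (𝕜 := ℂ) F).symm
  have h1 : ⟪F, F⟫_ℂ = ((∫ z in T, ‖F z‖ ^ 2 : ℝ) : ℂ) := by
    rw [inner_L2, ← integral_complex_ofReal]
    refine integral_congr_ae (ae_of_all _ fun z => ?_)
    simp only
    rw [Complex.mul_conj, Complex.normSq_eq_norm_sq]
  rw [h0, h1, RCLike.re_eq_complex_re, Complex.ofReal_re]

theorem setIntegral_test {ψ : ℂ × ℂ → ℂ} (hψ : IsTest ψ) : ∫ z in T, ‖ψ z‖ ^ 2 = ∫ z, ‖ψ z‖ ^ 2 := by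
  apply setIntegral_eq_integral_of_forall_compl_eq_zero
  intro z hz
  rw [hψ.zero_of_notMem hz, norm_zero]; norm_num

theorem norm_toLp_test {ψ : ℂ × ℂ → ℂ} (hψ : IsTest ψ) :
    ‖((memLp_conj hψ.memLp).toLp (fun z => conj (ψ z)) : L2)‖ ^ 2 = ∫ z, ‖ψ z‖ ^ 2 := by
  rw [norm_sq_L2]
  rw [← setIntegral_test hψ]
  refine integral_congr_ae ?_
  filter_upwards [(memLp_conj hψ.memLp).coeFn_toLp] with z hz
  rw [hz, RCLike.norm_conj]

theorem gap_yt {ψ : ℂ × ℂ → ℂ} (hψ : IsTest ψ) : ‖(yt hψ).1‖ ≤ 4 * ‖(yt hψ).2‖ := by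
  have h1 : ‖(yt hψ).1‖ ^ 2 = ∫ z, ‖ψ z‖ ^ 2 := norm_toLp_test hψ
  have h2 : ‖(yt hψ).2.snd‖ ^ 2 = ∫ z, ‖dzbar1 ψ z‖ ^ 2 := by
    have : ‖(yt hψ).2.snd‖ = ‖(memLp_conj hψ.memLp_dzbar1).toLp _‖ := norm_neg _
    rw [this]
    exact norm_toLp_test hψ.dzbar1
  have h3 := poincare hψ
  rw [← h1, ← h2] at h3
  have h4 := norm_snd_le (yt hψ).2
  have h5 : ‖(yt hψ).1‖ ≤ 4 * ‖(yt hψ).2.snd‖ := by
    refine le_of_sq_le_sq ?_ (by positivity)
    calc _ ≤ _ := h3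
      _ = _ := by ring
  linarith

theorem gap_of_mem_Yt {y : L2 × Form1} (hy : y ∈ Yt) : ‖y.1‖ ≤ 4 * ‖y.2‖ := by
  obtain ⟨ψ, hψ, rfl⟩ := hy
  exact gap_yt hψ

theorem isClosed_gap : IsClosed {y : L2 × Form1 | ‖y.1‖ ≤ 4 * ‖y.2‖} :=
  isClosed_le continuous_fst.norm (continuous_const.mul continuous_snd.norm)

theorem gap_adj1 {g : L2} {w : Form1} (h : (g, w) ∈ graph1.adjoint) : ‖g‖ ≤ 4 * ‖w‖ := by
  have hc : (g, w) ∈ closure (Yt : Set (L2 × Form1)) := adj1_sub_closure h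
  have hsub : (Yt : Set (L2 × Form1)) ⊆ {y : L2 × Form1 | ‖y.1‖ ≤ 4 * ‖y.2‖} :=
    fun y hy => gap_of_mem_Yt hy
  have h2 := closure_minimal hsub isClosed_gap hc
  exact h2

/-! ### Conjugation -/

/-- complex conjugation on `L²` -/
def cj (f : L2) : L2 := (memLp_conj (Lp.memLp f)).toLp _

theorem coeFn_cj (f : L2) : (cj f : ℂ × ℂ → ℂ) =ᵐ[muT] fun z => conj (f z) :=
  (memLp_conj (Lp.memLp f)).coeFn_toLp

theorem cj_cj (f : L2) : cj (cj f) = f := by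
  apply Lp.ext
  filter_upwards [coeFn_cj (cj f), coeFn_cj f] with z h1 h2
  rw [h1, h2, Complex.conj_conj]

theorem cj_add (f g : L2) : cj (f + g) = cj f + cj g := by
  apply Lp.ext
  filter_upwards [coeFn_cj (f + g), coeFn_cj f, coeFn_cj g, Lp.coeFn_add f g,
    Lp.coeFn_add (cj f) (cj g)] with z h1 h2 h3 h4 h5
  rw [h1, h5, Pi.add_apply, h2, h3, h4, Pi.add_apply, map_add]

theorem cj_smul (c : ℂ) (f : L2) : cj (c • f) = conj c • cj f := by
  apply Lp.ext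
  filter_upwards [coeFn_cj (c • f), coeFn_cj f, Lp.coeFn_smul c f,
    Lp.coeFn_smul (conj c) (cj f)] with z h1 h2 h3 h4
  rw [h1, h4, Pi.smul_apply, h2, h3, Pi.smul_apply, smul_eq_mul, smul_eq_mul, map_mul]

theorem cj_sub (f g : L2) : cj (f - g) = cj f - cj g := by
  have : f - g = f + (-1 : ℂ) • g := by simp [sub_eq_add_neg]
  rw [this, cj_add, cj_smul]
  simp [sub_eq_add_neg]

theorem norm_cj (f : L2) : ‖cj f‖ = ‖f‖ := by
  apply le_antisymm
  · refine Lp.norm_le_norm_of_ae_le ?_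
    filter_upwards [coeFn_cj f] with z hz
    rw [hz, RCLike.norm_conj]
  · refine Lp.norm_le_norm_of_ae_le ?_
    filter_upwards [coeFn_cj f] with z hz
    rw [hz, RCLike.norm_conj]

theorem integral_cj (f : L2) (F : ℂ × ℂ → ℂ) :
    ∫ z in T, (cj f : ℂ × ℂ → ℂ) z * F z = conj (∫ z in T, f z * conj (F z)) := by
  rw [← integral_conj]
  refine integral_congr_ae ?_
  filter_upwards [coeFn_cj f] with z hz
  rw [hz, map_mul, Complex.conj_conj]

theorem integral_inner_toLp {g : ℂ × ℂ → ℂ} (hg : MemLp g 2 muT) (f : L2) :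
    ⟪hg.toLp g, f⟫_ℂ = ∫ z in T, f z * conj (g z) := by
  rw [inner_L2]
  refine integral_congr_ae ?_
  filter_upwards [hg.coeFn_toLp] with z hz
  rw [hz]

theorem adj1_conj {g : L2} {w : Form1} (h : (g, w) ∈ graph1.adjoint) :
    (cj g, (WithLp.toLp 2 ((-1 : ℂ) • cj w.snd, cj w.fst) : Form1)) ∈ graph0 := by
  rw [mem_adjoint_iff'] at h
  intro ψ hψ
  constructor
  · have h1 := h _ (mem_graph1_of_classical_snd hψ.1.contDiffOn hψ.memLp hψ.memLp_dzbar1)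
    rw [WithLp.prod_inner_apply] at h1
    have h2 : ⟪hψ.memLp_dzbar1.toLp _, g⟫_ℂ = ⟪(0 : L2), w.fst⟫_ℂ +
      ⟪hψ.memLp.toLp _, w.snd⟫_ℂ := h1
    rw [inner_zero_left, zero_add, integral_inner_toLp, integral_inner_toLp] at h2
    change ∫ z in T, (cj g : ℂ × ℂ → ℂ) z * dzbar1 ψ z =
      - ∫ z in T, (((-1 : ℂ) • cj w.snd : L2) : ℂ × ℂ → ℂ) z * ψ z
    have e : ∫ z in T, (((-1 : ℂ) • cj w.snd : L2) : ℂ × ℂ → ℂ) z * ψ z =
        - ∫ z in T, (cj w.snd : ℂ × ℂ → ℂ) z * ψ z := by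
      rw [← integral_neg]
      refine integral_congr_ae ?_
      filter_upwards [Lp.coeFn_smul (-1 : ℂ) (cj w.snd)] with z hz
      rw [hz, Pi.smul_apply, smul_eq_mul]; ring
    rw [e, integral_cj, integral_cj, h2, neg_neg]
  · have h1 := h _ (mem_graph1_of_classical_fst hψ.1.contDiffOn hψ.memLp hψ.memLp_dzbar2)
    rw [WithLp.prod_inner_apply] at h1
    have h2 : ⟪- hψ.memLp_dzbar2.toLp _, g⟫_ℂ = ⟪hψ.memLp.toLp _, w.fst⟫_ℂ +
      ⟪(0 : L2), w.snd⟫_ℂ := h1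
    rw [inner_zero_left, add_zero, inner_neg_left, integral_inner_toLp, integral_inner_toLp] at h2
    change ∫ z in T, (cj g : ℂ × ℂ → ℂ) z * dzbar2 ψ z =
      - ∫ z in T, (cj w.fst : ℂ × ℂ → ℂ) z * ψ z
    rw [integral_cj, integral_cj, ← h2, map_neg, neg_neg]

theorem rot_cj (u v : Circle) (f : L2) : rot u v (cj f) = cj (rot u v f) := by
  apply Lp.ext
  have h2 := (measurePreserving_rho_T u v).quasiMeasurePreserving.ae_eq_comp (coeFn_cj f)
  filter_upwards [coeFn_rot u v (cj f), h2, coeFn_cj (rot u v f), coeFn_rot u v f] with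
    z h1 h2 h3 h4
  rw [h1, h3, h4]
  exact h2

theorem chr_neg (m : ℤ × ℤ) (u v : Circle) : chr (-m) u v = conj (chr m u v) := by
  unfold chr
  rw [map_mul, map_zpow₀, map_zpow₀, ← Circle.coe_inv_eq_conj, ← Circle.coe_inv_eq_conj,
    Circle.coe_inv, Circle.coe_inv, inv_zpow, inv_zpow, Prod.fst_neg, Prod.snd_neg, zpow_neg,
    zpow_neg]

theorem cj_mem_mode {m : ℤ × ℤ} {f : L2} (hf : f ∈ mode m) : cj f ∈ mode (-m) := by
  intro u v
  rw [rot_cj, hf u v, cj_smul, chr_neg]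

theorem eigTotal_res2 {R : L2 →L[ℂ] L2} {S : L2 →L[ℂ] Form1} (hR : Res graph1.adjoint R S) :
    EigTotal R := by
  classical
  refine eigTotal_of_modes hR.symm mode isClosed_mode (mode_inv_of_rot (res2_rot hR)) ?_
    (fun x hx => total_mode hx)
  intro m ε hε
  obtain ⟨F, hF, hF2⟩ := mode_compact (-m) (ε := ε / 3) (by positivity)
  obtain ⟨s, hs⟩ := (Module.finite_def.mp hF)
  have hs' : (Submodule.span ℂ ((s.image F.subtype : Finset L2) : Set L2)) = F := by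
    rw [Finset.coe_image, Submodule.span_image, hs, Submodule.map_subtype_top]
  refine ⟨Submodule.span ℂ (cj '' ((s.image F.subtype : Finset L2) : Set L2)),
    FiniteDimensional.span_of_finite ℂ ((Finset.finite_toSet _).image _), fun x hx => ?_⟩
  have hz := adj1_conj (hR.mem x)
  obtain ⟨w, hw, hw1, hw2⟩ := graph0_WX hz
  have hm : w.1 ∈ mode (-m) := by
    rw [hw1]; exact cj_mem_mode (mode_inv_of_rot (res2_rot hR) m x hx)
  obtain ⟨y, hy, hy2⟩ := hF2 w hw hm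
  refine ⟨cj y, ?_, ?_⟩
  · rw [← hs'] at hy
    refine Submodule.span_induction (p := fun y _ => cj y ∈ Submodule.span ℂ
      (cj '' ((s.image F.subtype : Finset L2) : Set L2))) ?_ ?_ ?_ ?_ hy
    · intro a ha
      exact Submodule.subset_span ⟨a, ha, rfl⟩
    · have : cj (0 : L2) = 0 := by
        have := cj_smul 0 (0 : L2)
        simpa using this
      rw [this]
      exact Submodule.zero_mem _
    · intro a b _ _ ha hb
      rw [cj_add]
      exact Submodule.add_mem _ ha hb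
    · intro c a _ ha
      rw [cj_smul]
      exact Submodule.smul_mem _ _ ha
  · rw [hw1] at hy2
    have h1 := hR.norm_S_le x
    have h2 : ‖R x - cj y‖ = ‖cj (R x) - y‖ := by
      rw [← norm_cj (R x - cj y), cj_sub, cj_cj]
    have h3 : ‖(WithLp.toLp 2 ((-1 : ℂ) • cj (S x).snd, cj (S x).fst) : Form1)‖ = ‖S x‖ := by
      have a := WithLp.prod_norm_sq_eq_of_L2
        (WithLp.toLp 2 ((-1 : ℂ) • cj (S x).snd, cj (S x).fst) : Form1)
      have b := WithLp.prod_norm_sq_eq_of_L2 (S x)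
      have c : ‖(WithLp.toLp 2 ((-1 : ℂ) • cj (S x).snd, cj (S x).fst) : Form1)‖ ^ 2 =
          ‖S x‖ ^ 2 := by
        rw [a, b]
        change ‖(-1 : ℂ) • cj (S x).snd‖ ^ 2 + ‖cj (S x).fst‖ ^ 2 = _
        rw [norm_smul, norm_cj, norm_cj]
        simp
        ring
      exact (sq_eq_sq₀ (norm_nonneg _) (norm_nonneg _)).mp c
    rw [h2]
    calc ‖cj (R x) - y‖ ≤ ε / 3 * ‖(WithLp.toLp 2 w.2 : Form1)‖ := hy2
      _ ≤ ε / 3 * (3 * ‖(WithLp.toLp 2 ((-1 : ℂ) • cj (S x).snd, cj (S x).fst) : Form1)‖) := by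
          gcongr
      _ = ε * ‖S x‖ := by rw [h3]; ring
      _ ≤ ε * ‖x‖ := by gcongr

end Pool.Agent.Lib.MP_169ce5_an
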