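import Pool.Agent.Lib.MP_169ce5_an.Dense

/-!
The orthonormal basis of orthogonalised monomials, Bessel's inequality for the weighted energy
and the resulting compactness estimate on each angular mode.
-/

open MeasureTheory Complex Filter Topology Set
open scoped ContDiff ComplexConjugate ENNReal InnerProductSpace

noncomputable section

namespace Pool.Agent.Lib.MP_169ce5_an

/-- indices with nonzero orthogonalised monomial -/
abbrev JJ : Type := {i : Idx // ehat i ≠ 0}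

/-- normalised orthogonal monomials -/
def pv (j : JJ) : L2 := ((‖ehat j.1‖⁻¹ : ℝ) : ℂ) • ehat j.1

theorem orthonormal_pv : Orthonormal ℂ pv := by
  constructor
  · intro j
    unfold pv
    have h : 0 < ‖ehat j.1‖ := norm_pos_iff.mpr j.2
    rw [norm_smul, Complex.norm_real, Real.norm_of_nonneg (by positivity)]
    exact inv_mul_cancel₀ h.ne'
  · intro i j hij
    unfold pv
    rw [inner_smul_left, inner_smul_right, inner_ehat (fun h => hij (Subtype.ext h))]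
    simp

theorem total_pv {x : L2} (hx : ∀ j : JJ, ⟪pv j, x⟫_ℂ = 0) : x = 0 := by
  have h1 : ∀ i : Idx, ⟪ehat i, x⟫_ℂ = 0 := by
    intro i
    by_cases h : ehat i = 0
    · rw [h, inner_zero_left]
    · have h2 := hx ⟨i, h⟩
      unfold pv at h2
      rw [inner_smul_left] at h2
      rcases mul_eq_zero.mp h2 with h3 | h3
      · exfalso
        have h4 : 0 < ‖ehat i‖ := norm_pos_iff.mpr h
        simp only [Complex.conj_ofReal, Complex.ofReal_eq_zero] at h3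
        have : 0 < ‖ehat i‖⁻¹ := inv_pos.mpr h4
        linarith
      · exact h3
  apply total_ei
  intro i
  have h2 := ei_mem_span i
  refine Submodule.span_induction (p := fun y _ => ⟪y, x⟫_ℂ = 0) ?_ ?_ ?_ ?_ h2
  · rintro _ ⟨j, _, rfl⟩; exact h1 j
  · simp
  · intro a b _ _ ha hb; rw [inner_add_left, ha, hb, add_zero]
  · intro c a _ ha; rw [inner_smul_left, ha, mul_zero]

/-- The Hilbert basis of orthogonalised monomials. -/
def pb : HilbertBasis JJ ℂ L2 :=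
  HilbertBasis.mkOfOrthogonalEqBot orthonormal_pv (by
    rw [eq_bot_iff]
    intro x hx
    rw [Submodule.mem_bot]
    apply total_pv
    intro j
    rw [Submodule.mem_orthogonal] at hx
    exact hx _ (Submodule.subset_span ⟨j, rfl⟩))

theorem pb_apply (j : JJ) : pb j = pv j := by
  unfold pb
  rw [HilbertBasis.coe_mkOfOrthogonalEqBot]

/-- total eigenvalue -/
def lam (i : Idx) : ℝ := lam1 i + lam2 i

theorem lam_nonneg (i : Idx) : 0 ≤ lam i := by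
  unfold lam lam1 lam2; positivity

theorem le_lam (i : Idx) : (i.2.1 : ℝ) + i.2.2.2 ≤ lam i := by
  unfold lam lam1 lam2
  have h1 : i.2.1 ≤ i.2.1 * (i.1 + 1) := Nat.le_mul_of_pos_right _ (by omega)
  have h2 : i.2.2.2 ≤ i.2.2.2 * (i.2.2.1 + 1) := Nat.le_mul_of_pos_right _ (by omega)
  have h1' : (i.2.1 : ℝ) ≤ ((i.2.1 * (i.1 + 1) : ℕ) : ℝ) := by exact_mod_cast h1
  have h2' : (i.2.2.2 : ℝ) ≤ ((i.2.2.2 * (i.2.2.1 + 1) : ℕ) : ℝ) := by exact_mod_cast h2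
  linarith

theorem one_le_lam {i : Idx} (h : lam i ≠ 0) : 1 ≤ lam i := by
  unfold lam lam1 lam2 at *
  have : ((i.2.1 * (i.1 + 1) : ℕ) : ℝ) + ((i.2.2.2 * (i.2.2.1 + 1) : ℕ) : ℝ) =
    ((i.2.1 * (i.1 + 1) + i.2.2.2 * (i.2.2.1 + 1) : ℕ) : ℝ) := by push_cast; ring
  rw [this] at h ⊢
  have h2 : (i.2.1 * (i.1 + 1) + i.2.2.2 * (i.2.2.1 + 1)) ≠ 0 := by exact_mod_cast h
  exact_mod_cast Nat.one_le_iff_ne_zero.mpr h2

theorem jEig_pv (j : JJ) : JEig (pv j) (lam1 j.1) (lam2 j.1) := by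
  obtain ⟨y1, y2, h⟩ := jEig_ehat j.1
  have := h.smul ((‖ehat j.1‖⁻¹ : ℝ) : ℂ)
  refine ⟨((‖ehat j.1‖⁻¹ : ℝ) : ℂ) • y1, ((‖ehat j.1‖⁻¹ : ℝ) : ℂ) • y2, ?_⟩
  rw [smul_comm _ ((lam1 j.1 : ℝ) : ℂ), smul_comm _ ((lam2 j.1 : ℝ) : ℂ)] at this
  exact this

/-- the vector `(√w1 X1 p, √w2 X2 p)` -/
def qv (j : JJ) : Form1 := WithLp.toLp 2 ((jEig_pv j).choose, (jEig_pv j).choose_spec.choose)

theorem qv_spec (j : JJ) : (pv j, (qv j).fst, (qv j).snd) ∈ WX ∧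
    ∀ w ∈ WX, ⟪(qv j).fst, w.2.1⟫_ℂ = lam1 j.1 * ⟪pv j, w.1⟫_ℂ ∧
      ⟪(qv j).snd, w.2.2⟫_ℂ = lam2 j.1 * ⟪pv j, w.1⟫_ℂ := by
  have h := (jEig_pv j).choose_spec.choose_spec
  refine ⟨h.1, fun w hw => ?_⟩
  have h2 := h.2 w hw
  simp only [inner_smul_left, Complex.conj_ofReal] at h2
  exact h2

theorem inner_qv (j : JJ) {w : L2 × L2 × L2} (hw : w ∈ WX) :
    ⟪qv j, (WithLp.toLp 2 w.2 : Form1)⟫_ℂ = lam j.1 * ⟪pv j, w.1⟫_ℂ := by
  rw [WithLp.prod_inner_apply]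
  have h := (qv_spec j).2 w hw
  change ⟪(qv j).fst, w.2.1⟫_ℂ + ⟪(qv j).snd, w.2.2⟫_ℂ = _
  rw [h.1, h.2]
  unfold lam
  push_cast
  ring

theorem inner_qv_qv (i j : JJ) : ⟪qv i, qv j⟫_ℂ = lam i.1 * ⟪pv i, pv j⟫_ℂ :=
  inner_qv i (qv_spec j).1

theorem norm_qv_sq (j : JJ) : ‖qv j‖ ^ 2 = lam j.1 := by
  have h := inner_qv_qv j j
  rw [inner_self_eq_norm_sq_to_K, inner_self_eq_norm_sq_to_K, orthonormal_pv.1 j] at h
  have h2 : ((‖qv j‖ ^ 2 : ℝ) : ℂ) = ((lam j.1 : ℝ) : ℂ) := by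
    push_cast
    rw [← RCLike.ofReal_eq_complex_ofReal] at *
    simpa using h
  exact_mod_cast h2

/-- indices with positive eigenvalue -/
abbrev JP : Type := {j : JJ // lam j.1 ≠ 0}

theorem lam_pos (j : JP) : 0 < lam j.1.1 := lt_of_lt_of_le one_pos (one_le_lam j.2)

theorem orthonormal_rv :
    Orthonormal ℂ (fun j : JP => (((Real.sqrt (lam j.1.1))⁻¹ : ℝ) : ℂ) • qv j.1) := by
  constructor
  · intro j
    have h := lam_pos j
    have h1 : 0 < Real.sqrt (lam j.1.1) := Real.sqrt_pos.mpr h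
    rw [norm_smul, Complex.norm_real, Real.norm_of_nonneg (by positivity)]
    have h2 : ‖qv j.1‖ = Real.sqrt (lam j.1.1) := by
      rw [← norm_qv_sq, Real.sqrt_sq (norm_nonneg _)]
    rw [h2]
    exact inv_mul_cancel₀ h1.ne'
  · intro i j hij
    simp only
    rw [inner_smul_left, inner_smul_right, inner_qv_qv,
      orthonormal_pv.2 (fun h => hij (Subtype.ext h))]
    simp

/-- Bessel's inequality for the weighted energy. -/
theorem bessel {w : L2 × L2 × L2} (hw : w ∈ WX) (s : Finset JP) :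
    ∑ j ∈ s, lam j.1.1 * ‖⟪pv j.1, w.1⟫_ℂ‖ ^ 2 ≤ ‖(WithLp.toLp 2 w.2 : Form1)‖ ^ 2 := by
  have h := orthonormal_rv.sum_inner_products_le (WithLp.toLp 2 w.2 : Form1) (s := s)
  refine le_trans (le_of_eq ?_) h
  refine Finset.sum_congr rfl fun j _ => ?_
  rw [inner_smul_left, inner_qv _ hw, norm_mul, norm_mul, Complex.conj_ofReal, Complex.norm_real,
    Complex.norm_real]
  have hp := lam_pos j
  have h1 : 0 < Real.sqrt (lam j.1.1) := Real.sqrt_pos.mpr hp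
  rw [Real.norm_of_nonneg (by positivity), Real.norm_of_nonneg hp.le, mul_pow, mul_pow, inv_pow,
    Real.sq_sqrt hp.le]
  field_simp

theorem parseval (x : L2) : HasSum (fun j : JJ => ‖⟪pv j, x⟫_ℂ‖ ^ 2) (‖x‖ ^ 2) := by
  have h := pb.hasSum_inner_mul_inner x x
  rw [inner_self_eq_norm_sq_to_K] at h
  have h2 := Complex.reCLM.hasSum h
  convert h2 using 1
  · funext j
    simp only [Complex.reCLM_apply]
    rw [pb_apply, ← inner_conj_symm x (pv j), Complex.conj_mul']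
    norm_cast
  · simp only [Complex.reCLM_apply]
    norm_cast

/-- The key estimate: approximation by the span of the basis vectors with small eigenvalue. -/
theorem approx_of_finite {w : L2 × L2 × L2} (hw : w ∈ WX) {Λ : ℝ} (hΛ : 0 < Λ)
    (s : Finset JJ) (hs : ∀ j : JJ, j ∉ s → lam j.1 < Λ → ⟪pv j, w.1⟫_ℂ = 0) :
    ‖w.1 - ∑ j ∈ s, ⟪pv j, w.1⟫_ℂ • pv j‖ ^ 2 ≤ ‖(WithLp.toLp 2 w.2 : Form1)‖ ^ 2 / Λ := by
  classical
  set y := ∑ j ∈ s, ⟪pv j, w.1⟫_ℂ • pv j with hy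
  have h1 : ∀ j : JJ, ⟪pv j, w.1 - y⟫_ℂ = if j ∈ s then 0 else ⟪pv j, w.1⟫_ℂ := by
    intro j
    rw [inner_sub_right, hy]
    by_cases hj : j ∈ s
    · rw [if_pos hj, orthonormal_pv.inner_right_sum _ hj, sub_self]
    · rw [if_neg hj, inner_sum, Finset.sum_eq_zero, sub_zero]
      intro i hi
      have hij : j ≠ i := by
        rintro rfl
        exact hj hi
      rw [inner_smul_right, orthonormal_pv.2 hij, mul_zero]
  refine hasSum_le_of_sum_le (parseval (w.1 - y)) fun t => ?_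
  -- restrict to indices outside `s` with positive eigenvalue
  let t' : Finset JP := (t.filter (fun j => j ∉ s)).subtype (fun j => lam j.1 ≠ 0)
  have h2 : ∑ j ∈ t, ‖⟪pv j, w.1 - y⟫_ℂ‖ ^ 2 ≤
      ∑ j ∈ t', (lam j.1.1 / Λ) * ‖⟪pv j.1, w.1⟫_ℂ‖ ^ 2 := by
    have h3 : ∑ j ∈ t', (lam j.1.1 / Λ) * ‖⟪pv j.1, w.1⟫_ℂ‖ ^ 2 =
        ∑ j ∈ (t.filter (fun j => j ∉ s)).filter (fun j => lam j.1 ≠ 0),
          (lam j.1 / Λ) * ‖⟪pv j, w.1⟫_ℂ‖ ^ 2 := by
      rw [Finset.sum_subtype_eq_sum_filter (s := t.filter (fun j => j ∉ s))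
        (f := fun j : JJ => (lam j.1 / Λ) * ‖⟪pv j, w.1⟫_ℂ‖ ^ 2)
        (p := fun j => lam j.1 ≠ 0)]
    rw [h3, Finset.sum_filter, Finset.sum_filter]
    refine Finset.sum_le_sum fun j _ => ?_
    rw [h1 j]
    by_cases hj : j ∈ s
    · simp [hj]
    · rw [if_neg hj, if_pos hj]
      by_cases hl : lam j.1 < Λ
      · rw [hs j hj hl]
        simp
      · push Not at hl
        have h0 : lam j.1 ≠ 0 := by linarith
        rw [if_pos h0]
        have : 1 ≤ lam j.1 / Λ := by rwa [le_div_iff₀ hΛ, one_mul]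
        calc ‖⟪pv j, w.1⟫_ℂ‖ ^ 2 = 1 * ‖⟪pv j, w.1⟫_ℂ‖ ^ 2 := (one_mul _).symm
          _ ≤ _ := mul_le_mul_of_nonneg_right this (by positivity)
  refine h2.trans ?_
  have h4 : ∑ j ∈ t', (lam j.1.1 / Λ) * ‖⟪pv j.1, w.1⟫_ℂ‖ ^ 2 =
      (∑ j ∈ t', lam j.1.1 * ‖⟪pv j.1, w.1⟫_ℂ‖ ^ 2) / Λ := by
    rw [Finset.sum_div]
    refine Finset.sum_congr rfl fun j _ => ?_
    ring
  rw [h4]
  gcongr
  exact bessel hw t'

theorem finite_mode_lam (m : ℤ × ℤ) (Λ : ℝ) :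
    {j : JJ | modeOf j.1 = m ∧ lam j.1 < Λ}.Finite := by
  obtain ⟨N, hN⟩ := exists_nat_gt Λ
  have hsub : (fun j : JJ => (j.1.2.1, j.1.2.2.2)) ''
      {j : JJ | modeOf j.1 = m ∧ lam j.1 < Λ} ⊆
      ((Finset.range N ×ˢ Finset.range N : Finset (ℕ × ℕ)) : Set (ℕ × ℕ)) := by
    rintro _ ⟨j, ⟨_, hj⟩, rfl⟩
    have h1 := le_lam j.1
    have h2 : (j.1.2.1 : ℝ) + j.1.2.2.2 < N := by linarith
    have h3 : j.1.2.1 + j.1.2.2.2 < N := by exact_mod_cast h2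
    simp only [Finset.coe_product, Finset.coe_range, mem_prod, mem_Iio]
    omega
  refine Set.Finite.of_finite_image ((Finset.finite_toSet _).subset hsub) ?_
  intro i hi j hj hij
  simp only [Prod.mk.injEq] at hij
  have hi1 := hi.1
  have hj1 := hj.1
  rw [← hj1] at hi1
  unfold modeOf at hi1
  simp only [Prod.mk.injEq] at hi1
  apply Subtype.ext
  refine Prod.ext ?_ (Prod.ext hij.1 (Prod.ext ?_ hij.2))
  · omega
  · omega

theorem pv_mem_mode (j : JJ) : pv j ∈ mode (modeOf j.1) :=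
  (mode _).smul_mem _ (ehat_mem_mode j.1)

/-- Compactness estimate on each mode. -/
theorem mode_compact (m : ℤ × ℤ) {ε : ℝ} (hε : 0 < ε) : ∃ F : Submodule ℂ L2,
    FiniteDimensional ℂ F ∧ ∀ w ∈ WX, w.1 ∈ mode m →
      ∃ y ∈ F, ‖w.1 - y‖ ≤ ε * ‖(WithLp.toLp 2 w.2 : Form1)‖ := by
  have hfin := finite_mode_lam m (1 / ε ^ 2)
  refine ⟨Submodule.span ℂ (pv '' {j : JJ | modeOf j.1 = m ∧ lam j.1 < 1 / ε ^ 2}),
    FiniteDimensional.span_of_finite ℂ (hfin.image _), fun w hw hwm => ?_⟩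
  refine ⟨∑ j ∈ hfin.toFinset, ⟪pv j, w.1⟫_ℂ • pv j, ?_, ?_⟩
  · refine Submodule.sum_mem _ fun j hj => Submodule.smul_mem _ _ (Submodule.subset_span ⟨j, ?_, rfl⟩)
    simpa using hj
  · have h := approx_of_finite hw (Λ := 1 / ε ^ 2) (by positivity) hfin.toFinset (by
      intro j hj hl
      have hjm : modeOf j.1 ≠ m := by
        intro hm
        apply hj
        simp only [Finite.mem_toFinset, mem_ofPred_eq]
        exact ⟨hm, hl⟩
      exact inner_mode hjm (pv_mem_mode j) hwm)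
    have h2 : ‖(WithLp.toLp 2 w.2 : Form1)‖ ^ 2 / (1 / ε ^ 2) =
        (ε * ‖(WithLp.toLp 2 w.2 : Form1)‖) ^ 2 := by
      field_simp
    rw [h2] at h
    exact le_of_sq_le_sq h (by positivity)

end Pool.Agent.Lib.MP_169ce5_an
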