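import Pool.Agent.Lib.MP_169ce5_an.Exact2

/-!
The `∂̄`-Neumann operator on the Hartogs triangle: existence, uniqueness and pure point spectrum.
-/

open MeasureTheory Complex Filter Topology Set
open scoped ContDiff ComplexConjugate ENNReal InnerProductSpace

noncomputable section

namespace Pool.Agent.Lib.MP_169ce5_an

theorem K0_graph0 {k : L2} (hk : k ∈ K0) : (k, (0 : Form1)) ∈ graph0 := by
  have h := K0_WXc hk
  have h2 : WeakX k (B2 (0 : Form1).fst) ((0 : Form1).snd + Bz (0 : Form1).fst) := by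
    rw [WeakX.iff]
    intro φ hφ
    obtain ⟨h1, h2⟩ := h φ hφ
    simp only [WithLp.zero_fst, WithLp.zero_snd, map_zero, neg_zero, add_zero] at h1 h2 ⊢
    exact ⟨h1, h2⟩
  exact h2.weakDbar0

theorem gap_graph0 {y : L2 × Form1} (hy : y ∈ graph0)
    (h : ∀ k, (k, (0 : Form1)) ∈ graph0 → ⟪k, y.1⟫_ℂ = 0) : ‖y.1‖ ≤ 4 * ‖y.2‖ := by
  obtain ⟨w, hw, hw1, hw2⟩ := graph0_WX (hy : (y.1, y.2) ∈ graph0)
  have h1 := norm_sub_K0_le hw
  have h2 : K0.starProjection w.1 = 0 := by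
    rw [hw1]
    apply (Submodule.starProjection_apply_eq_zero_iff K0).mpr
    rw [Submodule.mem_orthogonal]
    intro k hk
    exact h k (K0_graph0 hk)
  rw [h2, sub_zero, hw1] at h1
  have := norm_nonneg y.2
  linarith

theorem hc : HC graph0 graph1 graph0.adjoint graph1.adjoint 4 where
  cl0 := isClosed_graph0
  cl1 := isClosed_graph1
  adj0 := fun v f => mem_adjoint_iff' graph0 v f
  adj1 := fun g v => mem_adjoint_iff' graph1 g v
  comp := fun y hy => dd_zero (f := y.1) (u := y.2) hy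
  hC := by norm_num
  gap0 := fun y hy h => gap_graph0 hy h
  gap1 := fun y hy => gap_adj1 (g := y.1) (w := y.2) hy
  exact1 := fun u hu => exact_graph hu

theorem adj0_iff {v : Form1} {f : L2} : AdjDbar0 v f ↔ (v, f) ∈ graph0.adjoint := by
  rw [mem_adjoint_iff']
  exact ⟨fun h y hy => h y.1 y.2 hy, fun h g u hu => h (g, u) hu⟩

theorem adj1_iff {h : L2} {v : Form1} : AdjDbar1 h v ↔ (h, v) ∈ graph1.adjoint := by
  rw [mem_adjoint_iff']
  exact ⟨fun h y hy => h y.1 y.2 hy, fun h g u hu => h (g, u) hu⟩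

theorem isBox1_iff {u v : Form1} :
    IsBox1 u v ↔ Box graph0 graph1 graph0.adjoint graph1.adjoint u v := by
  unfold IsBox1 Box
  simp only [adj0_iff, adj1_iff]
  exact Iff.rfl

theorem exists_neumann : ∃ N : Form1 →L[ℂ] Form1, IsNeumann1 N := by
  obtain ⟨N, h1, h2⟩ := hc.exists_inverse
  exact ⟨N, fun v => isBox1_iff.mpr (h1 v), fun u v h => h2 u v (isBox1_iff.mp h)⟩

theorem neumann_unique {N N' : Form1 →L[ℂ] Form1} (h : IsNeumann1 N) (h' : IsNeumann1 N') :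
    N' = N := by
  ext1 v
  exact h'.2 _ _ (h.1 v)

theorem neumann_box {N : Form1 →L[ℂ] Form1} (h : IsNeumann1 N) :
    (∀ v, Box graph0 graph1 graph0.adjoint graph1.adjoint (N v) v) ∧
    ∀ u v, Box graph0 graph1 graph0.adjoint graph1.adjoint u v → N v = u :=
  ⟨fun v => isBox1_iff.mp (h.1 v), fun u v hb => h.2 u v (isBox1_iff.mpr hb)⟩

theorem neumann_symm {N : Form1 →L[ℂ] Form1} (h : IsNeumann1 N) :
    (N : Form1 →ₗ[ℂ] Form1).IsSymmetric := hc.symm_inverse (neumann_box h).1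

theorem neumann_total {N : Form1 →L[ℂ] Form1} (h : IsNeumann1 N) : EigTotal N := by
  obtain ⟨R0, S0, hR0⟩ := exists_res graph0 isClosed_graph0
  obtain ⟨R2, S2, hR2⟩ := exists_res graph1.adjoint (HC.isClosed_adj hc.adj1)
  exact hc.eigTotal_inverse (fun _ hs => graph0_unique hs) (fun _ hs => adj1_zero hs) hR0
    (eigTotal_res0 hR0) hR2 (eigTotal_res2 hR2) (neumann_box h).2

theorem neumann_pos {N : Form1 →L[ℂ] Form1} (h : IsNeumann1 N) {μ : ℂ} {e : Form1}
    (he : N e = μ • e) (h0 : e ≠ 0) : ∃ r : ℝ, 0 < r ∧ μ = r :=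
  hc.pos_eigenvalue (fun _ hs => graph0_unique hs) (fun _ hs => adj1_zero hs) (neumann_box h).1
    he h0

theorem neumann_basis {N : Form1 →L[ℂ] Form1} (h : IsNeumann1 N) :
    ∃ (ι : Type) (b : HilbertBasis ι ℂ Form1), ∀ i, ∃ r : ℝ, 0 < r ∧ N (b i) = (r : ℂ) • b i := by
  obtain ⟨ι, b, hb⟩ := exists_hilbertBasis_of_eigTotal (neumann_symm h) (neumann_total h)
  refine ⟨ι, b, fun i => ?_⟩
  obtain ⟨μ, hμ⟩ := hb i
  have h0 : b i ≠ 0 := by
    intro h0
    have := b.orthonormal.1 i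
    rw [h0, norm_zero] at this
    exact zero_ne_one this
  obtain ⟨r, hr, rfl⟩ := neumann_pos h hμ h0
  exact ⟨r, hr, hμ⟩

theorem neumann_spectrum {N : Form1 →L[ℂ] Form1} (h : IsNeumann1 N) :
    spectrum ℂ N = closure {μ : ℂ | Module.End.HasEigenvalue (N : Module.End ℂ Form1) μ} :=
  spectrum_eq_closure (neumann_symm h) (neumann_total h)

theorem orthonormal_countable {H : Type*} [NormedAddCommGroup H] [InnerProductSpace ℂ H]
    [TopologicalSpace.SeparableSpace H] {ι : Type*} {v : ι → H} (hv : Orthonormal ℂ v) :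
    Countable ι := by
  have hd : ∀ i j, i ≠ j → 1 ≤ dist (v i) (v j) := by
    intro i j hij
    have h1 : ‖v i - v j‖ ^ 2 = 2 := by
      have h2 : ⟪v i - v j, v i - v j⟫_ℂ = 2 := by
        rw [inner_sub_left, inner_sub_right, inner_sub_right, hv.2 hij, hv.2 hij.symm,
          inner_self_eq_norm_sq_to_K, inner_self_eq_norm_sq_to_K, hv.1 i, hv.1 j]
        norm_num
      rw [inner_self_eq_norm_sq_to_K] at h2
      have h3 : ((‖v i - v j‖ ^ 2 : ℝ) : ℂ) = ((2 : ℝ) : ℂ) := by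
        push_cast
        simpa using h2
      exact_mod_cast h3
    rw [dist_eq_norm]
    nlinarith [norm_nonneg (v i - v j)]
  -- disjoint balls
  have : (Set.univ : Set ι).Countable := by
    refine Set.PairwiseDisjoint.countable_of_isOpen (s := fun i => Metric.ball (v i) (1 / 2))
      ?_ (fun i _ => Metric.isOpen_ball) (fun i _ => ⟨v i, Metric.mem_ball_self (by norm_num)⟩)
    intro i _ j _ hij
    exact Metric.ball_disjoint_ball (by norm_num; exact hd i j hij)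
  exact Set.countable_univ_iff.mp this

theorem countable_eigenvalues {N : Form1 →L[ℂ] Form1} (h : IsNeumann1 N) :
    {μ : ℂ | Module.End.HasEigenvalue (N : Module.End ℂ Form1) μ}.Countable := by
  let E := {μ : ℂ | Module.End.HasEigenvalue (N : Module.End ℂ Form1) μ}
  have hex : ∀ μ : E, ∃ x : Form1, N x = (μ : ℂ) • x ∧ ‖x‖ = 1 := by
    intro μ
    obtain ⟨x, hx, hx0⟩ := μ.2.exists_hasEigenvector
    have h1 : N x = (μ : ℂ) • x := Module.End.mem_eigenspace_iff.mp hx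
    have hpos : 0 < ‖x‖ := norm_pos_iff.mpr hx0
    refine ⟨((‖x‖⁻¹ : ℝ) : ℂ) • x, ?_, ?_⟩
    · rw [map_smul, h1, smul_comm]
    · rw [norm_smul, Complex.norm_real, Real.norm_of_nonneg (by positivity)]
      exact inv_mul_cancel₀ hpos.ne'
  choose x hx hx1 using hex
  have : Fact ((2 : ℝ≥0∞) ≠ ⊤) := ⟨by norm_num⟩
  have h2c : SecondCountableTopology L2 := inferInstance
  have h2d : SecondCountableTopology Form1 :=
    (WithLp.prodContinuousLinearEquiv 2 ℂ L2 L2).toHomeomorph.secondCountableTopology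
  have ho : Orthonormal ℂ x := by
    refine ⟨hx1, fun μ ν hμν => ?_⟩
    have h1 := neumann_symm h (x μ) (x ν)
    change ⟪N (x μ), x ν⟫_ℂ = ⟪x μ, N (x ν)⟫_ℂ at h1
    rw [hx, hx, inner_smul_left, inner_smul_right] at h1
    have h2 : conj (μ : ℂ) = μ := (neumann_symm h).conj_eigenvalue_eq_self μ.2
    rw [h2] at h1
    by_contra hne
    apply hμν
    exact Subtype.ext (mul_right_cancel₀ hne h1)
  have : Countable E := orthonormal_countable ho
  exact Set.countable_coe_iff.mp this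

theorem eigenvalue_set (N : Form1 →L[ℂ] Form1) :
    {μ : ℂ | Module.End.HasEigenvalue (N : Module.End ℂ Form1) μ} =
      {μ : ℂ | ∃ u : Form1, u ≠ 0 ∧ N u = μ • u} := by
  ext μ
  constructor
  · intro h
    obtain ⟨x, hx, hx0⟩ := h.exists_hasEigenvector
    exact ⟨x, hx0, Module.End.mem_eigenspace_iff.mp hx⟩
  · rintro ⟨x, hx0, hx⟩
    exact Module.End.hasEigenvalue_of_hasEigenvector (x := x)
      ⟨Module.End.mem_eigenspace_iff.mpr hx, hx0⟩

theorem neumann_eigenvalue_iff {N : Form1 →L[ℂ] Form1} (h : IsNeumann1 N) (μ : ℂ) :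
    (∃ u : Form1, u ≠ 0 ∧ N u = μ • u) ↔
      μ ≠ 0 ∧ ∃ f : L2, f ≠ 0 ∧ (IsEig0 f μ⁻¹ ∨ IsEig2 f μ⁻¹) := by
  rw [hc.eigenvalue_iff (fun _ hs => graph0_unique hs) (fun _ hs => adj1_zero hs)
    (neumann_box h).1 (neumann_box h).2]
  refine and_congr_right fun _ => ?_
  constructor
  · rintro (⟨f, a, hf, m1, m2⟩ | ⟨f, b, hf, m1, m2⟩)
    · exact ⟨f, hf, Or.inl ⟨a, m1, adj0_iff.mpr m2⟩⟩
    · exact ⟨f, hf, Or.inr ⟨b, adj1_iff.mpr m1, m2⟩⟩
  · rintro ⟨f, hf, (⟨a, m1, m2⟩ | ⟨b, m1, m2⟩)⟩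
    · exact Or.inl ⟨f, a, hf, m1, adj0_iff.mp m2⟩
    · exact Or.inr ⟨f, b, hf, adj1_iff.mp m1, m2⟩

theorem main : ∃ N : Form1 →L[ℂ] Form1, IsNeumann1 N ∧ (∀ N', IsNeumann1 N' → N' = N) ∧
    HasEigenbasis N ∧ (eigenvalues N).Countable ∧ spectrum ℂ N = closure (eigenvalues N) ∧
    ∀ μ : ℂ, μ ∈ eigenvalues N ↔ μ ≠ 0 ∧ ∃ f : L2, f ≠ 0 ∧ (IsEig0 f μ⁻¹ ∨ IsEig2 f μ⁻¹) := by
  obtain ⟨N, hN⟩ := exists_neumann
  refine ⟨N, hN, fun N' h' => neumann_unique hN h', neumann_basis hN, ?_, ?_,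
    neumann_eigenvalue_iff hN⟩
  · unfold eigenvalues
    rw [← eigenvalue_set]; exact countable_eigenvalues hN
  · unfold eigenvalues
    rw [← eigenvalue_set]; exact neumann_spectrum hN

end Pool.Agent.Lib.MP_169ce5_an
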