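import Pool.Agent.Lib.MP_169ce5_an.Statement
import Pool.Agent.Lib.MP_169ce5_an.Main

/-!
The main theorem for the operators of `Statement.lean`.
-/

open MeasureTheory Complex
open scoped ContDiff ComplexConjugate InnerProductSpace

noncomputable section

namespace Pool.Agent.Lib.MP_169ce5_an.Hartogs

theorem weakDbar0_def (f : Fn) (u : Form) :
    WeakDbar0 f u = Pool.Agent.Lib.MP_169ce5_an.WeakDbar0 f u := rfl

theorem weakDbar1_def (u : Form) (h : Fn) :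
    WeakDbar1 u h = Pool.Agent.Lib.MP_169ce5_an.WeakDbar1 u h := rfl

theorem adjDbar0_def (v : Form) (f : Fn) :
    AdjDbar0 v f = Pool.Agent.Lib.MP_169ce5_an.AdjDbar0 v f := rfl

theorem adjDbar1_def (h : Fn) (v : Form) :
    AdjDbar1 h v = Pool.Agent.Lib.MP_169ce5_an.AdjDbar1 h v := rfl

theorem isBox1_def (u v : Form) :
    IsBox1 u v = Pool.Agent.Lib.MP_169ce5_an.IsBox1 u v := rfl

theorem isNeumann1_def (N : Form →L[ℂ] Form) :
    IsNeumann1 N = Pool.Agent.Lib.MP_169ce5_an.IsNeumann1 N := rfl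

theorem eigenvalues_def (N : Form →L[ℂ] Form) :
    eigenvalues N = Pool.Agent.Lib.MP_169ce5_an.eigenvalues N := rfl

theorem hasEigenbasis_def (N : Form →L[ℂ] Form) :
    HasEigenbasis N = Pool.Agent.Lib.MP_169ce5_an.HasEigenbasis N := rfl

theorem hmain :
    ∃ N : Form →L[ℂ] Form, IsNeumann1 N ∧ (∀ N', IsNeumann1 N' → N' = N) ∧
      HasEigenbasis N ∧ (eigenvalues N).Countable ∧ spectrum ℂ N = closure (eigenvalues N) ∧
      ∀ μ : ℂ, μ ∈ eigenvalues N ↔ μ ≠ 0 ∧ ∃ f : Fn, f ≠ 0 ∧ (IsEig0 f μ⁻¹ ∨ IsEig2 f μ⁻¹) :=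
  Pool.Agent.Lib.MP_169ce5_an.main

end Pool.Agent.Lib.MP_169ce5_an.Hartogs
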