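import Pool.Agent.Lib.MP_169ce5_an.EssMain

/-!
The spectrum of the `∂̄`-Neumann operator on the Hartogs triangle: essential and discrete parts.
-/

open MeasureTheory Complex Filter Topology Set
open scoped ContDiff ComplexConjugate ENNReal InnerProductSpace Nat

noncomputable section

namespace Pool.Agent.Lib.MP_169ce5_an.Ess

/-- isolated eigenvalue of finite multiplicity -/
def DiscW (N : Form1 →L[ℂ] Form1) (l : ℂ) : Prop :=
  l ∈ Pool.Agent.Lib.MP_169ce5_an.eigenvalues N ∧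
    (∃ δ > 0, ∀ μ ∈ spectrum ℂ N, ‖μ - l‖ < δ → μ = l) ∧
    ∃ (n : ℕ) (e : Fin n → Form1), ∀ u : Form1, N u = l • u → ∃ c : Fin n → ℂ, u = ∑ i, c i • e i

theorem exists_basis_real {N : Form1 →L[ℂ] Form1} (hN : IsNeumann1 N) :
    ∃ (ι : Type) (b : HilbertBasis ι ℂ Form1) (r : ι → ℝ), ∀ i, N (b i) = (r i : ℂ) • b i := by
  obtain ⟨ι, b, k, hbk⟩ := exists_basis hN
  have hb := b.orthonormal
  have hbne : ∀ i, b i ≠ 0 := by
    intro i hi
    have := hb.1 i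
    rw [hi, norm_zero] at this
    exact zero_ne_one this
  have hr : ∀ i, ∃ r : ℝ, 0 < r ∧ (k i).2.2 = r := fun i =>
    neumann_pos hN (hbk i).2.1 (hbne i)
  choose r hr0 hr1 using hr
  exact ⟨ι, b, r, fun i => by rw [← hr1]; exact (hbk i).2.1⟩

theorem eigenvalues_sub_spectrum {N : Form1 →L[ℂ] Form1} (hN : IsNeumann1 N) {μ : ℂ}
    {u : Form1} (hu : u ≠ 0) (hu2 : N u = μ • u) : μ ∈ spectrum ℂ N := by
  rw [neumann_spectrum hN]
  refine subset_closure ?_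
  rw [eigenvalue_set]
  exact ⟨u, hu, hu2⟩

theorem mem_spectrum_of_essW {N : Form1 →L[ℂ] Form1} (hN : IsNeumann1 N) {l : ℂ}
    (h : EssW N l) : l ∈ spectrum ℂ N := by
  obtain ⟨ι, b, r, hr⟩ := exists_basis_real hN
  obtain ⟨u, hu, hlim⟩ := h
  rw [neumann_spectrum hN, Metric.mem_closure_iff]
  intro ε hε
  obtain ⟨i, hi⟩ := (infinite_of_weyl (neumann_symm hN) b hr hu hlim hε).nonempty
  refine ⟨(r i : ℂ), ?_, ?_⟩
  · rw [eigenvalue_set]
    refine ⟨b i, ?_, hr i⟩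
    intro h0
    have := b.orthonormal.1 i
    rw [h0, norm_zero] at this
    exact zero_ne_one this
  · rw [dist_comm, dist_eq_norm]
    exact hi

theorem discW_of {N : Form1 →L[ℂ] Form1} (hN : IsNeumann1 N) {l : ℂ}
    (hl : l ∈ spectrum ℂ N) (h : ¬ EssW N l) : DiscW N l := by
  obtain ⟨⟨δ, hδ, h1⟩, h2⟩ := discrete hN h
  refine ⟨?_, ⟨δ, hδ, h1⟩, h2⟩
  rw [neumann_spectrum hN, Metric.mem_closure_iff] at hl
  obtain ⟨μ, hμ, hμ2⟩ := hl δ hδ
  rw [dist_comm, dist_eq_norm] at hμ2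
  have h3 : μ ∈ spectrum ℂ N := by
    rw [neumann_spectrum hN]
    exact subset_closure hμ
  have h4 := h1 μ h3 hμ2
  subst h4
  rw [eigenvalue_set] at hμ
  exact hμ

theorem not_essW_of_discW {N : Form1 →L[ℂ] Form1} (hN : IsNeumann1 N) {l : ℂ}
    (hd : DiscW N l) : ¬ EssW N l := by
  rintro ⟨u, hu, hlim⟩
  obtain ⟨-, ⟨δ, hδ, h1⟩, n, e, h2⟩ := hd
  obtain ⟨ι, b, r, hr⟩ := exists_basis_real hN
  have hinf := infinite_of_weyl (neumann_symm hN) b hr hu hlim hδ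
  have hbne : ∀ i, b i ≠ 0 := by
    intro i hi
    have := b.orthonormal.1 i
    rw [hi, norm_zero] at this
    exact zero_ne_one this
  have hmem : ∀ i ∈ {i | ‖(r i : ℂ) - l‖ < δ}, b i ∈ Submodule.span ℂ (Set.range e) := by
    intro i hi
    have h3 : (r i : ℂ) = l := h1 _ (eigenvalues_sub_spectrum hN (hbne i) (hr i)) hi
    have h4 := hr i
    rw [h3] at h4
    obtain ⟨c, hc⟩ := h2 _ h4
    rw [hc]
    exact Submodule.sum_mem _ fun j _ => Submodule.smul_mem _ _ (Submodule.subset_span ⟨j, rfl⟩)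
  have hfd : FiniteDimensional ℂ (Submodule.span ℂ (Set.range e)) :=
    FiniteDimensional.span_of_finite ℂ (Set.finite_range e)
  have hli : LinearIndependent ℂ (fun i : {i | ‖(r i : ℂ) - l‖ < δ} =>
      (⟨b i, hmem i i.2⟩ : Submodule.span ℂ (Set.range e))) := by
    have h5 : LinearIndependent ℂ (fun i : {i | ‖(r i : ℂ) - l‖ < δ} => b i) :=
      b.orthonormal.linearIndependent.comp _ Subtype.val_injective
    exact LinearIndependent.of_comp (Submodule.span ℂ (Set.range e)).subtype h5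
  have hfin := hli.finite_of_isNoetherian
  exact hinf (Set.toFinite _)

theorem main_ess : ∃ N : Form1 →L[ℂ] Form1, IsNeumann1 N ∧ (∀ N', IsNeumann1 N' → N' = N) ∧
    ∀ l : ℂ, EssW N l ↔ l = 0 ∨ ∃ (n : ℕ) (j : ℝ), 0 < j ∧ besselJ n j = 0 ∧
      (l = ((4 / j ^ 2 : ℝ) : ℂ) ∨ l = ((8 / j ^ 2 : ℝ) : ℂ)) := by
  obtain ⟨N, hN⟩ := exists_neumann
  exact ⟨N, hN, fun N' h' => neumann_unique hN h', essW_iff hN⟩

theorem main_spectrum : ∃ N : Form1 →L[ℂ] Form1, IsNeumann1 N ∧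
    (∀ N', IsNeumann1 N' → N' = N) ∧ HasEigenbasis N ∧
    (∀ l : ℂ, l ∈ spectrum ℂ N ↔ EssW N l ∨ DiscW N l) ∧
    (∀ l : ℂ, ¬ (EssW N l ∧ DiscW N l)) ∧
    (∀ l : ℂ, EssW N l ↔ l = 0 ∨ ∃ (n : ℕ) (j : ℝ), 0 < j ∧ besselJ n j = 0 ∧
      (l = ((4 / j ^ 2 : ℝ) : ℂ) ∨ l = ((8 / j ^ 2 : ℝ) : ℂ))) ∧
    ∀ μ : ℂ, μ ∈ Pool.Agent.Lib.MP_169ce5_an.eigenvalues N ↔
      μ ≠ 0 ∧ ∃ f : L2, f ≠ 0 ∧ (IsEig0 f μ⁻¹ ∨ IsEig2 f μ⁻¹) := by
  obtain ⟨N, hN⟩ := exists_neumann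
  refine ⟨N, hN, fun N' h' => neumann_unique hN h', neumann_basis hN, fun l => ⟨fun h => ?_, ?_⟩,
    fun l h => not_essW_of_discW hN h.2 h.1, essW_iff hN, neumann_eigenvalue_iff hN⟩
  · by_cases he : EssW N l
    · exact Or.inl he
    · exact Or.inr (discW_of hN h he)
  · rintro (h | h)
    · exact mem_spectrum_of_essW hN h
    · obtain ⟨u, hu, hu2⟩ := h.1
      exact eigenvalues_sub_spectrum hN hu hu2

end Pool.Agent.Lib.MP_169ce5_an.Ess
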