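import Pool.Agent.Lib.MP_169ce5_an.StatementEss
import Pool.Agent.Lib.MP_169ce5_an.Bridge
import Pool.Agent.Lib.MP_169ce5_an.EssMain2

/-!
The theorems on the essential spectrum for the operators of `Statement.lean`.
-/

open MeasureTheory Complex
open scoped ContDiff ComplexConjugate InnerProductSpace

noncomputable section

namespace Pool.Agent.Lib.MP_169ce5_an.Hartogs

theorem besselJ_def (n : ℕ) (x : ℝ) :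
    besselJ n x = Pool.Agent.Lib.MP_169ce5_an.Ess.besselJ n x := rfl

theorem isEss_def (N : Form →L[ℂ] Form) (l : ℂ) :
    IsEss N l = Pool.Agent.Lib.MP_169ce5_an.Ess.EssW N l := rfl

theorem isDiscrete_def (N : Form →L[ℂ] Form) (l : ℂ) :
    IsDiscrete N l = Pool.Agent.Lib.MP_169ce5_an.Ess.DiscW N l := rfl

theorem hess :
    ∃ N : Form →L[ℂ] Form, IsNeumann1 N ∧ (∀ N', IsNeumann1 N' → N' = N) ∧
      ∀ l : ℂ, IsEss N l ↔ l = 0 ∨ ∃ (n : ℕ) (j : ℝ), 0 < j ∧ besselJ n j = 0 ∧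
        (l = ((4 / j ^ 2 : ℝ) : ℂ) ∨ l = ((8 / j ^ 2 : ℝ) : ℂ)) :=
  Pool.Agent.Lib.MP_169ce5_an.Ess.main_ess

theorem hspectrum :
    ∃ N : Form →L[ℂ] Form, IsNeumann1 N ∧ (∀ N', IsNeumann1 N' → N' = N) ∧
      HasEigenbasis N ∧
      (∀ l : ℂ, l ∈ spectrum ℂ N ↔ IsEss N l ∨ IsDiscrete N l) ∧
      (∀ l : ℂ, ¬ (IsEss N l ∧ IsDiscrete N l)) ∧
      (∀ l : ℂ, IsEss N l ↔ l = 0 ∨ ∃ (n : ℕ) (j : ℝ), 0 < j ∧ besselJ n j = 0 ∧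
        (l = ((4 / j ^ 2 : ℝ) : ℂ) ∨ l = ((8 / j ^ 2 : ℝ) : ℂ))) ∧
      ∀ μ : ℂ, μ ∈ eigenvalues N ↔ μ ≠ 0 ∧ ∃ f : Fn, f ≠ 0 ∧ (IsEig0 f μ⁻¹ ∨ IsEig2 f μ⁻¹) :=
  Pool.Agent.Lib.MP_169ce5_an.Ess.main_spectrum

end Pool.Agent.Lib.MP_169ce5_an.Hartogs
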