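import Pool.Agent.Lib.MP_169ce5_an.Adj

/-!
Closed `(0,1)`-forms tested against functions vanishing on the boundary.
-/

open MeasureTheory Complex Filter Topology Set
open scoped ContDiff ComplexConjugate ENNReal InnerProductSpace

noncomputable section

namespace Pool.Agent.Lib.MP_169ce5_an

theorem err1 (f : L2) {h : ℂ × ℂ → ℂ} (hh : ContDiffOn ℝ ∞ h T) {C : ℝ}
    (hb : ∀ z ∈ T, ‖h z‖ ≤ C * w1 z * ‖z.2‖⁻¹) :
    (∀ k, MemLp (fun z => h z * X1 (chi k) z) 2 muT) ∧
      Tendsto (fun k => ∫ z in T, ‖f z * (h z * X1 (chi k) z)‖) atTop (𝓝 0) := by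
  have hbound : ∀ k, ∀ z ∈ T, ‖h z * X1 (chi k) z‖ ≤ (|C| * (2 * Ceta)) * ‖z.2‖⁻¹ := by
    intro k z hz
    rw [norm_mul]
    have hn2 : 0 ≤ ‖z.2‖⁻¹ := by positivity
    calc ‖h z‖ * ‖X1 (chi k) z‖ ≤ (C * w1 z * ‖z.2‖⁻¹) * ‖X1 (chi k) z‖ :=
          mul_le_mul_of_nonneg_right (hb z hz) (norm_nonneg _)
      _ ≤ (|C| * w1 z * ‖z.2‖⁻¹) * ‖X1 (chi k) z‖ := by
          have := w1_pos hz
          gcongr
          exact le_abs_self C
      _ = |C| * (‖X1 (chi k) z‖ * w1 z) * ‖z.2‖⁻¹ := by ring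
      _ ≤ |C| * (2 * Ceta) * ‖z.2‖⁻¹ :=
          mul_le_mul_of_nonneg_right (mul_le_mul_of_nonneg_left (X1_chi_bound k hz)
            (abs_nonneg _)) hn2
  have hYm : ∀ k, MemLp (fun z => h z * X1 (chi k) z) 2 muT := by
    intro k
    refine memLp_of_bound ?_ (hbound k)
    exact (ContDiffOn.aesm hh).mul
      (aesm_of_continuousOn (continuousOn_X1 (isTest_chi k).1.contDiffOn))
  refine ⟨hYm, ?_⟩
  refine tendsto_err (E := fun k z => ‖f z * (h z * X1 (chi k) z)‖) (b := fun _ _ => 0)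
    (a := fun z => ‖f z * ((|C| * (2 * Ceta) : ℝ) * (z.2)⁻¹)‖)
    (fun k z => norm_nonneg _) (fun k => (integrable_mul (hYm k)).1.norm)
    (ae_of_all _ fun z => norm_nonneg _) (fun k => ae_of_all _ fun z => le_refl _) ?_ ?_ ?_ ?_ ?_
  · intro k
    filter_upwards [ae_restrict_mem measurableSet_T] with z hz
    rw [add_zero, norm_mul (f z), norm_mul (f z)]
    refine mul_le_mul_of_nonneg_left ?_ (norm_nonneg _)
    rw [norm_mul ((|C| * (2 * Ceta) : ℝ) : ℂ), Complex.norm_real, norm_inv, Real.norm_eq_abs,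
      abs_of_nonneg (mul_nonneg (abs_nonneg C) (by linarith [Ceta_pos]))]
    exact hbound k z hz
  · exact (integrable_mul (memLp_inv_snd.const_mul _)).norm
  · intro k; exact integrable_zero _ _ _
  · simp
  · filter_upwards [ae_restrict_mem measurableSet_T] with z hz
    refine tendsto_const_nhds.congr' ?_
    filter_upwards [X1_chi_eventually hz] with k hk
    rw [hk]; simp

theorem err2 (f : L2) {h : ℂ × ℂ → ℂ} (hh : ContDiffOn ℝ ∞ h T) {C : ℝ}
    (hb : ∀ z ∈ T, ‖h z‖ ≤ C * w2 z * ‖z.2‖⁻¹) :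
    (∀ k, MemLp (fun z => h z * X2 (chi k) z) 2 muT) ∧
      Tendsto (fun k => ∫ z in T, ‖f z * (h z * X2 (chi k) z)‖) atTop (𝓝 0) := by
  have hbound : ∀ k, ∀ z ∈ T, ‖h z * X2 (chi k) z‖ ≤
      |C| * (2 * Ceta + Ceta * (k * (Ak k).indicator (fun _ => (1 : ℝ)) z)) := by
    intro k z hz
    rw [norm_mul]
    have hn := norm_snd_pos hz
    calc ‖h z‖ * ‖X2 (chi k) z‖ ≤ (C * w2 z * ‖z.2‖⁻¹) * ‖X2 (chi k) z‖ :=
          mul_le_mul_of_nonneg_right (hb z hz) (norm_nonneg _)
      _ ≤ (|C| * w2 z * ‖z.2‖⁻¹) * ‖X2 (chi k) z‖ := by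
          have := w2_pos hz
          gcongr
          exact le_abs_self C
      _ = |C| * (‖X2 (chi k) z‖ * w2 z) * ‖z.2‖⁻¹ := by ring
      _ ≤ |C| * ((2 * Ceta + Ceta * (k * (Ak k).indicator (fun _ => (1 : ℝ)) z)) * ‖z.2‖) *
            ‖z.2‖⁻¹ :=
          mul_le_mul_of_nonneg_right (mul_le_mul_of_nonneg_left (X2_chi_bound k hz)
            (abs_nonneg _)) (by positivity)
      _ = _ := by field_simp
  have hind : ∀ k : ℕ, ∀ z, (k : ℝ) * (Ak k).indicator (fun _ => (1 : ℝ)) z ≤ k := by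
    intro k z
    have : (Ak k).indicator (fun _ => (1 : ℝ)) z ≤ 1 :=
      indicator_le_self' (fun _ _ => zero_le_one) z |>.trans (le_refl _)
    calc (k : ℝ) * (Ak k).indicator (fun _ => (1 : ℝ)) z ≤ k * 1 := by gcongr
      _ = k := mul_one _
  have hind0 : ∀ k : ℕ, ∀ z, 0 ≤ (k : ℝ) * (Ak k).indicator (fun _ => (1 : ℝ)) z := by
    intro k z
    have : 0 ≤ (Ak k).indicator (fun _ => (1 : ℝ)) z := indicator_nonneg (fun _ _ => zero_le_one) z
    positivity
  have hYm : ∀ k, MemLp (fun z => h z * X2 (chi k) z) 2 muT := by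
    intro k
    refine memLp_of_bounded (C := |C| * (2 * Ceta + Ceta * k)) ?_ fun z hz => ?_
    · exact (ContDiffOn.aesm hh).mul
        (aesm_of_continuousOn (continuousOn_X2 (isTest_chi k).1.contDiffOn))
    · refine (hbound k z hz).trans ?_
      have := Ceta_pos
      gcongr
      exact hind k z
  have hif : ∀ k : ℕ, Integrable
      (fun z => (k * (Ak k).indicator (fun _ => (1 : ℝ)) z) * ‖f z‖) muT := by
    intro k
    have h1 : Integrable (fun z => ‖f z‖) muT := ((Lp.memLp f).integrable (by norm_num)).norm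
    refine (h1.const_mul (k : ℝ)).mono ?_ ?_
    · exact ((measurable_const.indicator (measurableSet_Ak k)).const_mul
        _).aestronglyMeasurable.mul h1.1
    · filter_upwards with z
      rw [norm_mul (_ * _), norm_mul, norm_norm, ← norm_mul, Real.norm_of_nonneg (hind0 k z),
        Real.norm_of_nonneg (mul_nonneg (Nat.cast_nonneg k) (norm_nonneg (f z)))]
      exact mul_le_mul_of_nonneg_right (hind k z) (norm_nonneg _)
  refine ⟨hYm, ?_⟩
  refine tendsto_err (E := fun k z => ‖f z * (h z * X2 (chi k) z)‖)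
    (b := fun k z => (|C| * Ceta) *
      ((k * (Ak k).indicator (fun _ => (1 : ℝ)) z) * ‖f z‖))
    (a := fun z => (|C| * (2 * Ceta)) * ‖f z‖)
    (fun k z => norm_nonneg _) (fun k => (integrable_mul (hYm k)).1.norm)
    (ae_of_all _ fun z => by have := Ceta_pos; positivity)
    (fun k => ae_of_all _ fun z => by
      have := Ceta_pos
      have := hind0 k z
      positivity) ?_ ?_ ?_ ?_ ?_
  · intro k
    filter_upwards [ae_restrict_mem measurableSet_T] with z hz
    rw [norm_mul]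
    calc ‖f z‖ * ‖h z * X2 (chi k) z‖ ≤ ‖f z‖ *
        (|C| * (2 * Ceta + Ceta * (k * (Ak k).indicator (fun _ => (1 : ℝ)) z))) :=
          mul_le_mul_of_nonneg_left (hbound k z hz) (norm_nonneg _)
      _ = _ := by ring
  · exact ((Lp.memLp f).integrable (by norm_num)).norm.const_mul _
  · intro k; exact (hif k).const_mul _
  · simp only [integral_const_mul]
    have := (tendsto_core f).const_mul (|C| * Ceta)
    rw [mul_zero] at this
    exact this
  · filter_upwards [ae_restrict_mem measurableSet_T] with z hz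
    refine tendsto_const_nhds.congr' ?_
    filter_upwards [X2_chi_eventually hz] with k hk
    rw [hk]; simp

theorem closed_limit {U1 U2 : L2}
    (hcl : ∀ ψ, IsTest ψ → ∫ z in T, U2 z * X1 ψ z =
      ∫ z in T, U1 z * (X2 ψ z + ψ z * (conj z.2)⁻¹))
    {h : ℂ × ℂ → ℂ} (hh : ContDiffOn ℝ ∞ h T) {C C' : ℝ}
    (hb1 : ∀ z ∈ T, ‖h z‖ ≤ C * w1 z * ‖z.2‖⁻¹) (hb2 : ∀ z ∈ T, ‖h z‖ ≤ C * w2 z * ‖z.2‖⁻¹)
    (hx1 : ∀ z ∈ T, ‖X1 h z‖ ≤ C' * ‖z.2‖⁻¹)
    (hx2 : ∀ z ∈ T, ‖X2 h z + h z * (conj z.2)⁻¹‖ ≤ C' * ‖z.2‖⁻¹) :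
    ∫ z in T, U2 z * X1 h z = ∫ z in T, U1 z * (X2 h z + h z * (conj z.2)⁻¹) := by
  have hx1m : MemLp (X1 h) 2 muT := memLp_of_bound (aesm_of_continuousOn (continuousOn_X1 hh)) hx1
  have hx2m : MemLp (fun z => X2 h z + h z * (conj z.2)⁻¹) 2 muT :=
    memLp_of_bound (aesm_of_continuousOn ((continuousOn_X2 hh).add
      (hh.continuousOn.mul continuousOn_inv_conj_snd))) hx2
  obtain ⟨m1, l1⟩ := err1 U2 hh hb1
  obtain ⟨m2, l2⟩ := err2 U1 hh hb2
  have i1 : Integrable (fun z => U2 z * X1 h z) muT := integrable_mul hx1m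
  have i2 : Integrable (fun z => U1 z * (X2 h z + h z * (conj z.2)⁻¹)) muT := integrable_mul hx2m
  have t1 := tendsto_chi_mul i1
  have t2 := tendsto_chi_mul i2
  have t3 : Tendsto (fun k => ∫ z in T, U2 z * (h z * X1 (chi k) z)) atTop (𝓝 0) :=
    squeeze_zero_norm (fun k => norm_integral_le_integral_norm _) l1
  have t4 : Tendsto (fun k => ∫ z in T, U1 z * (h z * X2 (chi k) z)) atTop (𝓝 0) :=
    squeeze_zero_norm (fun k => norm_integral_le_integral_norm _) l2
  have t5 := t1.add t3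
  have t6 := t2.add t4
  rw [add_zero] at t5 t6
  have ic : ∀ {F : ℂ × ℂ → ℂ} (k : ℕ), Integrable F muT →
      Integrable (fun z => chi k z * F z) muT := by
    intro F k hF
    refine hF.norm.mono' ((isTest_chi k).1.continuous.aestronglyMeasurable.mul hF.1) ?_
    filter_upwards with z
    rw [norm_mul]
    exact mul_le_of_le_one_left (norm_nonneg _) (norm_chi_le k z)
  refine tendsto_nhds_unique t5 (t6.congr fun k => ?_)
  have ht : IsTest (fun z => h z * chi k z) := (isTest_chi k).mul_left hh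
  have h1 := hcl _ ht
  have e1 : ∫ z in T, U2 z * X1 (fun z => h z * chi k z) z =
      ∫ z in T, (chi k z * (U2 z * X1 h z) + U2 z * (h z * X1 (chi k) z)) := by
    refine setIntegral_congr_fun measurableSet_T ?_
    intro z hz
    have := ((hasX_of_contDiffOn hh hz).mul (hasX_of_contDiffOn (isTest_chi k).1.contDiffOn hz)).e1
    simp only [this]
    ring
  have e2 : ∫ z in T, U1 z * (X2 (fun z => h z * chi k z) z + h z * chi k z * (conj z.2)⁻¹) =
      ∫ z in T, (chi k z * (U1 z * (X2 h z + h z * (conj z.2)⁻¹)) +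
        U1 z * (h z * X2 (chi k) z)) := by
    refine setIntegral_congr_fun measurableSet_T ?_
    intro z hz
    have := ((hasX_of_contDiffOn hh hz).mul (hasX_of_contDiffOn (isTest_chi k).1.contDiffOn hz)).e2
    simp only [this]
    ring
  rw [e1, e2, integral_add (ic k i1) (integrable_mul (m1 k)),
    integral_add (ic k i2) (integrable_mul (m2 k))] at h1
  exact h1.symm

/-- closedness of a form in the coordinates `U1 = z̄₂ u₁`, `U2 = u₂ + (z̄₁/z̄₂) u₁` -/
theorem closed_coords {u : Form1} (h : (u, (0 : L2)) ∈ graph1) :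
    ∀ ψ, IsTest ψ → ∫ z in T, ((u.snd + Bz u.fst : L2) : ℂ × ℂ → ℂ) z * X1 ψ z =
      ∫ z in T, (B2 u.fst : ℂ × ℂ → ℂ) z * (X2 ψ z + ψ z * (conj z.2)⁻¹) := by
  intro ψ hψ
  have ht := hψ.mul_left contDiffOn_conj_snd
  have h' : WeakDbar1 u 0 := h
  rw [weakDbar1_iff] at h'
  have h1 := h' _ ht
  rw [map_zero, neg_zero, pairL_apply, pairL_apply] at h1
  have d2 : ∀ z, dzbar2 (fun w : ℂ × ℂ => conj w.2 * ψ w) z = ψ z + conj z.2 * dzbar2 ψ z := by
    intro z
    rw [dzbar2_mul (fderiv_conj_snd z).differentiableAt (hψ.differentiableAt z)]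
    have : dzbar2 (fun w : ℂ × ℂ => conj w.2) z = 1 := by
      unfold dzbar2
      rw [(fderiv_conj_snd z).fderiv]
      simp only [ContinuousLinearMap.comp_apply, ContinuousLinearMap.coe_snd',
        ContinuousLinearEquiv.coe_coe, Complex.conjCLE_apply, map_one, Complex.conj_I]
      have hI : I * I = -1 := Complex.I_mul_I
      linear_combination (-1 / 2) * hI
    rw [this]; ring
  simp only [X1_eq_dzbar1 hψ, d2] at h1
  have m1 := hψ.memLp_X1
  have mt : MemLp (fun z => conj (z.1 / z.2) * X1 ψ z) 2 muT := by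
    refine MemLp.of_le_mul (c := 1) m1 ?_ ?_
    · exact measurable_conj_zt.aestronglyMeasurable.mul m1.1
    · filter_upwards [ae_restrict_mem measurableSet_T] with z hz
      rw [norm_mul, one_mul]
      exact mul_le_of_le_one_left (norm_nonneg _) (norm_conj_zt_le z hz)
  have m2 : MemLp (fun z => ψ z + conj z.2 * dzbar2 ψ z) 2 muT := by
    have := ht.memLp_dzbar2
    refine (memLp_congr_ae (ae_of_all _ fun z => ?_)).mp this
    exact d2 z
  have e1 : ∫ z in T, ((u.snd + Bz u.fst : L2) : ℂ × ℂ → ℂ) z * X1 ψ z =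
      (∫ z in T, u.snd z * X1 ψ z) + ∫ z in T, u.fst z * (conj (z.1 / z.2) * X1 ψ z) := by
    rw [← integral_add (integrable_mul m1) (integrable_mul mt)]
    refine integral_congr_ae ?_
    filter_upwards [Lp.coeFn_add u.snd (Bz u.fst),
      coeFn_mulC measurable_conj_zt norm_conj_zt_le u.fst] with z h1 h2
    rw [h1, Pi.add_apply]
    unfold Bz
    rw [h2]; ring
  have e2 : ∫ z in T, (B2 u.fst : ℂ × ℂ → ℂ) z * (X2 ψ z + ψ z * (conj z.2)⁻¹) =
      (∫ z in T, u.fst z * (ψ z + conj z.2 * dzbar2 ψ z)) +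
        ∫ z in T, u.fst z * (conj (z.1 / z.2) * X1 ψ z) := by
    unfold B2
    rw [integral_mulC, ← integral_add (integrable_mul m2) (integrable_mul mt)]
    refine setIntegral_congr_fun measurableSet_T fun z hz => ?_
    have hz2 : conj z.2 ≠ 0 := by simpa using snd_ne_zero hz
    unfold X2 X1
    have : conj z.2 * (conj z.2)⁻¹ = 1 := mul_inv_cancel₀ hz2
    linear_combination (u.fst z * ψ z) * this
  rw [e1, e2]
  linear_combination h1

end Pool.Agent.Lib.MP_169ce5_an
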