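import Pool.Agent.Lib.MP_169ce5_an.Ops

/-!
Comparison of the weak `∂̄` on the Hartogs triangle with the weak derivations `X1`, `X2`.
-/

open MeasureTheory Complex Filter Topology Set
open scoped ContDiff ComplexConjugate ENNReal InnerProductSpace

noncomputable section

namespace Pool.Agent.Lib.MP_169ce5_an

theorem memLp_mulC {m : ℂ × ℂ → ℂ} (hm : Measurable m) (hb : ∀ z ∈ T, ‖m z‖ ≤ 1)
    (f : L2) : MemLp (fun z => m z * f z) 2 muT := by
  refine MemLp.of_le_mul (c := 1) (Lp.memLp f) ?_ ?_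
  · exact hm.aestronglyMeasurable.mul (Lp.memLp f).1
  · filter_upwards [ae_restrict_mem measurableSet_T] with z hz
    rw [norm_mul, one_mul]
    exact mul_le_of_le_one_left (norm_nonneg _) (hb z hz)

/-- Multiplication operator by a function bounded by one on `T`. -/
def mulC (m : ℂ × ℂ → ℂ) (hm : Measurable m) (hb : ∀ z ∈ T, ‖m z‖ ≤ 1) : L2 →L[ℂ] L2 :=
  LinearMap.mkContinuous
    { toFun := fun f => (memLp_mulC hm hb f).toLp _
      map_add' := fun f g => by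
        rw [← MemLp.toLp_add]
        apply (MemLp.toLp_eq_toLp_iff _ _).mpr
        filter_upwards [Lp.coeFn_add f g] with z hz
        rw [hz, Pi.add_apply, Pi.add_apply]
        ring
      map_smul' := fun c f => by
        rw [RingHom.id_apply, ← MemLp.toLp_const_smul]
        apply (MemLp.toLp_eq_toLp_iff _ _).mpr
        filter_upwards [Lp.coeFn_smul c f] with z hz
        rw [hz, Pi.smul_apply, Pi.smul_apply, smul_eq_mul, smul_eq_mul]
        ring }
    1 (fun f => by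
      rw [one_mul]
      refine Lp.norm_le_norm_of_ae_le ?_
      filter_upwards [(memLp_mulC hm hb f).coeFn_toLp, ae_restrict_mem measurableSet_T] with z hz hT
      change ‖((memLp_mulC hm hb f).toLp _ : ℂ × ℂ → ℂ) z‖ ≤ _
      rw [hz, norm_mul]
      exact mul_le_of_le_one_left (norm_nonneg _) (hb z hT))

theorem coeFn_mulC {m : ℂ × ℂ → ℂ} (hm : Measurable m) (hb : ∀ z ∈ T, ‖m z‖ ≤ 1) (f : L2) :
    (mulC m hm hb f : ℂ × ℂ → ℂ) =ᵐ[muT] fun z => m z * f z :=
  (memLp_mulC hm hb f).coeFn_toLp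

theorem norm_mulC_le {m : ℂ × ℂ → ℂ} (hm : Measurable m) (hb : ∀ z ∈ T, ‖m z‖ ≤ 1) (f : L2) :
    ‖mulC m hm hb f‖ ≤ ‖f‖ := by
  refine Lp.norm_le_norm_of_ae_le ?_
  filter_upwards [coeFn_mulC hm hb f, ae_restrict_mem measurableSet_T] with z hz hT
  rw [hz, norm_mul]
  exact mul_le_of_le_one_left (norm_nonneg _) (hb z hT)

theorem integral_mulC {m : ℂ × ℂ → ℂ} (hm : Measurable m) (hb : ∀ z ∈ T, ‖m z‖ ≤ 1) (f : L2)
    (F : ℂ × ℂ → ℂ) : ∫ z in T, (mulC m hm hb f : ℂ × ℂ → ℂ) z * F z =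
      ∫ z in T, f z * (m z * F z) := by
  refine integral_congr_ae ?_
  filter_upwards [coeFn_mulC hm hb f] with z hz
  rw [hz]; ring

theorem measurable_conj_snd : Measurable fun z : ℂ × ℂ => conj z.2 :=
  Complex.continuous_conj.measurable.comp measurable_snd

theorem norm_conj_snd_le : ∀ z ∈ T, ‖conj z.2‖ ≤ 1 := by
  intro z hz
  rw [RCLike.norm_conj]
  exact hz.2.le

theorem measurable_conj_zt : Measurable fun z : ℂ × ℂ => conj (z.1 / z.2) :=
  Complex.continuous_conj.measurable.comp (measurable_fst.div measurable_snd)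

theorem norm_conj_zt_le : ∀ z ∈ T, ‖conj (z.1 / z.2)‖ ≤ 1 := by
  intro z hz
  rw [RCLike.norm_conj, norm_div]
  exact (div_le_one (lt_of_le_of_lt (norm_nonneg _) hz.1)).mpr hz.1.le

/-- multiplication by `z̄₂` -/
def B2 : L2 →L[ℂ] L2 := mulC _ measurable_conj_snd norm_conj_snd_le

/-- multiplication by `z̄₁/z̄₂` -/
def Bz : L2 →L[ℂ] L2 := mulC _ measurable_conj_zt norm_conj_zt_le

theorem contDiffOn_conj_snd : ContDiffOn ℝ ∞ (fun z : ℂ × ℂ => conj z.2) T := fun _ _ =>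
  (contDiffAt_conj contDiffAt_snd).contDiffWithinAt

theorem dzbar1_conj_snd (z : ℂ × ℂ) : dzbar1 (fun w : ℂ × ℂ => conj w.2) z = 0 := by
  unfold dzbar1
  rw [(fderiv_conj_snd z).fderiv]
  simp

theorem X1_eq_dzbar1 {φ : ℂ × ℂ → ℂ} (hφ : IsTest φ) (z : ℂ × ℂ) :
    dzbar1 (fun w => conj w.2 * φ w) z = X1 φ z := by
  rw [dzbar1_mul (fderiv_conj_snd z).differentiableAt (hφ.differentiableAt z), dzbar1_conj_snd,
    mul_zero, add_zero]
  rfl

theorem X2_eq {φ : ℂ × ℂ → ℂ} (hφ : IsTest φ) {z : ℂ × ℂ} (hz : z ∈ T) :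
    X2 φ z + φ z * (conj z.2)⁻¹ =
      dzbar2 φ z + dzbar1 (fun w => conj (w.1 / w.2) * φ w) z := by
  have hz2 := snd_ne_zero hz
  rw [dzbar1_mul (hasX_conj_zt hz2).diff (hφ.differentiableAt z), dzbar1_conj_zt hz2]
  unfold X2
  ring

theorem WeakDbar0.weakX {f : L2} {u : Form1} (h : WeakDbar0 f u) :
    WeakX f (B2 u.fst) (u.snd + Bz u.fst) := by
  constructor
  · intro φ hφ
    have h1 := (h _ (hφ.mul_left contDiffOn_conj_snd)).1
    simp only [X1_eq_dzbar1 hφ] at h1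
    rw [h1]
    unfold B2
    rw [integral_mulC]
  · intro φ hφ
    have ht := hφ.mul_left contDiffOn_conj_zt
    have h1 := (h _ ht).1
    have h2 := (h _ hφ).2
    have e1 : ∫ z in T, f z * (X2 φ z + φ z * (conj z.2)⁻¹) =
        ∫ z in T, (f z * dzbar2 φ z + f z * dzbar1 (fun w => conj (w.1 / w.2) * φ w) z) := by
      refine setIntegral_congr_fun measurableSet_T fun z hz => ?_
      rw [X2_eq hφ hz]; ring
    have e2 : ∫ z in T, ((u.snd + Bz u.fst : L2) : ℂ × ℂ → ℂ) z * φ z =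
        (∫ z in T, u.snd z * φ z) + ∫ z in T, (Bz u.fst : ℂ × ℂ → ℂ) z * φ z := by
      rw [← integral_add (integrable_mul hφ.memLp) (integrable_mul hφ.memLp)]
      refine integral_congr_ae ?_
      filter_upwards [Lp.coeFn_add u.snd (Bz u.fst)] with z hz
      rw [hz, Pi.add_apply]; ring
    rw [e1, integral_add (integrable_mul hφ.memLp_dzbar2) (integrable_mul ht.memLp_dzbar1), h1, h2,
      e2]
    unfold Bz
    rw [integral_mulC]
    ring

theorem WeakX.weakDbar0 {f : L2} {u : Form1} (h : WeakX f (B2 u.fst) (u.snd + Bz u.fst)) :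
    WeakDbar0 f u := by
  have h0 : ∀ φ, IsTest φ → ∫ z in T, f z * dzbar1 φ z = - ∫ z in T, u.fst z * φ z := by
    intro φ hφ
    have ht := hφ.mul_left contDiffOn_inv_conj_snd
    have h1 := h.1 _ ht
    have e1 : ∫ z in T, f z * X1 (fun w => (conj w.2)⁻¹ * φ w) z = ∫ z in T, f z * dzbar1 φ z := by
      refine setIntegral_congr_fun measurableSet_T fun z hz => ?_
      rw [← X1_eq_dzbar1 ht]
      congr 1
      unfold dzbar1
      have e : (fun w : ℂ × ℂ => conj w.2 * ((conj w.2)⁻¹ * φ w)) =ᶠ[𝓝 z] φ := by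
        filter_upwards [isOpen_T.mem_nhds hz] with w hw
        have : conj w.2 ≠ 0 := by simpa using snd_ne_zero hw
        rw [← mul_assoc, mul_inv_cancel₀ this, one_mul]
      rw [e.fderiv_eq]
    have e2 : ∫ z in T, (B2 u.fst : ℂ × ℂ → ℂ) z * ((conj z.2)⁻¹ * φ z) =
        ∫ z in T, u.fst z * φ z := by
      unfold B2
      rw [integral_mulC]
      refine setIntegral_congr_fun measurableSet_T fun z hz => ?_
      have : conj z.2 ≠ 0 := by simpa using snd_ne_zero hz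
      rw [← mul_assoc (conj z.2), mul_inv_cancel₀ this, one_mul]
    rw [e1, e2] at h1
    exact h1
  intro φ hφ
  refine ⟨h0 φ hφ, ?_⟩
  have ht := hφ.mul_left contDiffOn_conj_zt
  have h1 := h0 _ ht
  have h2 := h.2 _ hφ
  have e1 : ∫ z in T, f z * (X2 φ z + φ z * (conj z.2)⁻¹) =
      ∫ z in T, (f z * dzbar2 φ z + f z * dzbar1 (fun w => conj (w.1 / w.2) * φ w) z) := by
    refine setIntegral_congr_fun measurableSet_T fun z hz => ?_
    rw [X2_eq hφ hz]; ring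
  have e2 : ∫ z in T, ((u.snd + Bz u.fst : L2) : ℂ × ℂ → ℂ) z * φ z =
      (∫ z in T, u.snd z * φ z) + ∫ z in T, (Bz u.fst : ℂ × ℂ → ℂ) z * φ z := by
    rw [← integral_add (integrable_mul hφ.memLp) (integrable_mul hφ.memLp)]
    refine integral_congr_ae ?_
    filter_upwards [Lp.coeFn_add u.snd (Bz u.fst)] with z hz
    rw [hz, Pi.add_apply]; ring
  rw [e1, integral_add (integrable_mul hφ.memLp_dzbar2) (integrable_mul ht.memLp_dzbar1), h1,
    e2] at h2
  unfold Bz at h2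
  rw [integral_mulC] at h2
  linear_combination h2

theorem norm_fst_le (u : Form1) : ‖u.fst‖ ≤ ‖u‖ := by
  have h := WithLp.prod_norm_sq_eq_of_L2 u
  exact le_of_sq_le_sq (by rw [h]; nlinarith [sq_nonneg ‖u.snd‖]) (norm_nonneg _)

theorem norm_snd_le (u : Form1) : ‖u.snd‖ ≤ ‖u‖ := by
  have h := WithLp.prod_norm_sq_eq_of_L2 u
  exact le_of_sq_le_sq (by rw [h]; nlinarith [sq_nonneg ‖u.fst‖]) (norm_nonneg _)

theorem norm_S1_le (f : L2) : ‖S1 f‖ ≤ ‖f‖ := norm_mulL_le _ _ f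

theorem norm_S2_le (f : L2) : ‖S2 f‖ ≤ ‖f‖ := norm_mulL_le _ _ f

/-- an element of `graph0` gives an element of `WX` with a norm bound -/
theorem graph0_WX {f : L2} {u : Form1} (h : (f, u) ∈ graph0) :
    ∃ w ∈ WX, w.1 = f ∧ ‖(WithLp.toLp 2 w.2 : Form1)‖ ≤ 3 * ‖u‖ := by
  have hW := WeakDbar0.weakX h
  refine ⟨(f, S1 (B2 u.fst), S2 (u.snd + Bz u.fst)), ⟨_, _, hW, rfl, rfl⟩, rfl, ?_⟩
  have h1 : ‖S1 (B2 u.fst)‖ ≤ ‖u‖ :=
    (norm_S1_le _).trans ((norm_mulC_le _ _ _).trans (norm_fst_le u))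
  have h2 : ‖S2 (u.snd + Bz u.fst)‖ ≤ 2 * ‖u‖ := by
    refine (norm_S2_le _).trans ((norm_add_le _ _).trans ?_)
    have h3 := norm_snd_le u
    have h4 : ‖Bz u.fst‖ ≤ ‖u‖ := (norm_mulC_le _ _ _).trans (norm_fst_le u)
    linarith
  have h3 := WithLp.prod_norm_sq_eq_of_L2
    (WithLp.toLp 2 (S1 (B2 u.fst), S2 (u.snd + Bz u.fst)) : Form1)
  refine le_of_sq_le_sq ?_ (by positivity)
  rw [h3]
  change ‖S1 (B2 u.fst)‖ ^ 2 + ‖S2 (u.snd + Bz u.fst)‖ ^ 2 ≤ _
  have := norm_nonneg (S1 (B2 u.fst))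
  have := norm_nonneg (S2 (u.snd + Bz u.fst))
  have := norm_nonneg u
  nlinarith

end Pool.Agent.Lib.MP_169ce5_an
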