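import Pool.Agent.Lib.MP_169ce5_an.Rot

/-!
The monomials are total in `L²(T)`.
-/

open MeasureTheory Complex Filter Topology Set
open scoped ContDiff ComplexConjugate ENNReal InnerProductSpace

noncomputable section

namespace Pool.Agent.Lib.MP_169ce5_an

/-- honest polynomials in `z, z̄` -/
def pmon (a b c d : ℕ) (z : ℂ × ℂ) : ℂ := z.1 ^ a * conj z.1 ^ b * z.2 ^ c * conj z.2 ^ d

/-- span of the honest monomials -/
def PP : Submodule ℂ (ℂ × ℂ → ℂ) :=
  Submodule.span ℂ {p | ∃ a b c d : ℕ, p = pmon a b c d}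

theorem PP_mul {p q : ℂ × ℂ → ℂ} (hp : p ∈ PP) (hq : q ∈ PP) : p * q ∈ PP := by
  have h : p * q ∈ PP * PP := Submodule.mul_mem_mul hp hq
  unfold PP at h
  rw [Submodule.span_mul_span] at h
  refine Submodule.span_mono ?_ h
  rintro r ⟨p, ⟨a, b, c, d, rfl⟩, q, ⟨a', b', c', d', rfl⟩, rfl⟩
  refine ⟨a + a', b + b', c + c', d + d', ?_⟩
  funext z
  simp only [Pi.mul_apply, pmon]
  ring

theorem PP_star {p : ℂ × ℂ → ℂ} (hp : p ∈ PP) : (fun z => conj (p z)) ∈ PP := by
  unfold PP at hp
  refine Submodule.span_induction (p := fun p _ => (fun z => conj (p z)) ∈ PP) ?_ ?_ ?_ ?_ hp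
  · rintro x ⟨a, b, c, d, rfl⟩
    refine Submodule.subset_span ⟨b, a, d, c, ?_⟩
    funext z
    simp only [pmon, map_mul, map_pow, Complex.conj_conj]
    ring
  · have : (fun z : ℂ × ℂ => conj ((0 : ℂ × ℂ → ℂ) z)) = 0 := by
      funext z; simp
    rw [this]
    exact PP.zero_mem
  · intro x y _ _ hx hy
    have : (fun z : ℂ × ℂ => conj ((x + y) z)) = (fun z => conj (x z)) + fun z => conj (y z) := by
      funext z; simp
    rw [this]
    exact PP.add_mem hx hy
  · intro c x _ hx
    have : (fun z : ℂ × ℂ => conj ((c • x) z)) = (conj c) • fun z => conj (x z) := by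
      funext z; simp
    rw [this]
    exact PP.smul_mem _ hx

theorem PP_continuous {p : ℂ × ℂ → ℂ} (hp : p ∈ PP) : Continuous p := by
  unfold PP at hp
  refine Submodule.span_induction (p := fun p _ => Continuous p) ?_ ?_ ?_ ?_ hp
  · rintro x ⟨a, b, c, d, rfl⟩
    unfold pmon
    fun_prop
  · exact continuous_const
  · intro x y _ _ hx hy; exact hx.add hy
  · intro c x _ hx; exact hx.const_smul c

theorem approx_by_PP {φ : ℂ × ℂ → ℂ} (hφ : Continuous φ) {ε : ℝ} (hε : 0 < ε) :
    ∃ p ∈ PP, ∀ z ∈ T, ‖φ z - p z‖ < ε := by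
  let K : Set (ℂ × ℂ) := Metric.closedBall 0 1
  have hK : IsCompact K := isCompact_closedBall _ _
  have : CompactSpace K := isCompact_iff_compactSpace.mp hK
  let f1 : C(K, ℂ) := ⟨fun z => z.1.1, by fun_prop⟩
  let f2 : C(K, ℂ) := ⟨fun z => z.1.2, by fun_prop⟩
  let A : StarSubalgebra ℂ C(K, ℂ) := StarAlgebra.adjoin ℂ {f1, f2}
  have hsep : A.SeparatesPoints := by
    intro x y hxy
    have : x.1.1 ≠ y.1.1 ∨ x.1.2 ≠ y.1.2 := by
      by_contra hcon
      push Not at hcon
      exact hxy (Subtype.ext (Prod.ext hcon.1 hcon.2))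
    rcases this with h | h
    · exact ⟨f1, ⟨f1, StarAlgebra.subset_adjoin ℂ _ (by simp), rfl⟩, h⟩
    · exact ⟨f2, ⟨f2, StarAlgebra.subset_adjoin ℂ _ (by simp), rfl⟩, h⟩
  have htop := ContinuousMap.starSubalgebra_topologicalClosure_eq_top_of_separatesPoints A hsep
  let g : C(K, ℂ) := ⟨fun z => φ z.1, hφ.comp continuous_subtype_val⟩
  have hg : g ∈ A.topologicalClosure := by rw [htop]; exact StarSubalgebra.mem_top
  have hg2 : g ∈ closure (A : Set C(K, ℂ)) := hg
  obtain ⟨q, hqA, hq⟩ := Metric.mem_closure_iff.mp hg2 ε hε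
  have hrep : ∀ q ∈ A, ∃ p ∈ PP, ∀ z : K, q z = p z.1 := by
    intro q hq
    refine StarAlgebra.adjoin_induction (p := fun q _ => ∃ p ∈ PP, ∀ z : K, q z = p z.1)
      ?_ ?_ ?_ ?_ ?_ hq
    · intro x hx
      simp only [mem_insert_iff, mem_singleton_iff] at hx
      rcases hx with rfl | rfl
      · refine ⟨pmon 1 0 0 0, Submodule.subset_span ⟨1, 0, 0, 0, rfl⟩, fun z => ?_⟩
        simp [pmon, f1]
      · refine ⟨pmon 0 0 1 0, Submodule.subset_span ⟨0, 0, 1, 0, rfl⟩, fun z => ?_⟩
        simp [pmon, f2]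
    · intro r
      refine ⟨r • pmon 0 0 0 0, PP.smul_mem _ (Submodule.subset_span ⟨0, 0, 0, 0, rfl⟩),
        fun z => ?_⟩
      simp [pmon]
    · rintro x y _ _ ⟨p, hp, hp'⟩ ⟨q, hq, hq'⟩
      exact ⟨p + q, PP.add_mem hp hq, fun z => by simp [hp' z, hq' z]⟩
    · rintro x y _ _ ⟨p, hp, hp'⟩ ⟨q, hq, hq'⟩
      exact ⟨p * q, PP_mul hp hq, fun z => by simp [hp' z, hq' z]⟩
    · rintro x _ ⟨p, hp, hp'⟩
      exact ⟨_, PP_star hp, fun z => by simp [hp' z]⟩
  obtain ⟨p, hp, hp'⟩ := hrep q hqA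
  refine ⟨p, hp, fun z hz => ?_⟩
  have hzK : z ∈ K := Metric.ball_subset_closedBall (T_subset_ball hz)
  have h1 : dist (g ⟨z, hzK⟩) (q ⟨z, hzK⟩) < ε := (ContinuousMap.dist_apply_le_dist _).trans_lt hq
  rw [dist_eq_norm, hp'] at h1
  exact h1

theorem pmon_eq {z : ℂ × ℂ} (hz : z ∈ T) (a b c d : ℕ) :
    pmon a b c d z = nMon a b (a + c) (b + d + 1) z := by
  have h2 := snd_ne_zero hz
  have h2' : conj z.2 ≠ 0 := by simpa using h2
  unfold pmon nMon Mon
  rw [map_div₀, div_pow, div_pow, pow_add, pow_succ, pow_add]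
  field_simp

theorem total_ei {x : L2} (hx : ∀ i : Idx, ⟪ei i, x⟫_ℂ = 0) : x = 0 := by
  -- integrals against `nMon` vanish
  have h1 : ∀ a b c d : ℕ, ∫ z in T, x z * nMon a b c d z = 0 := by
    intro a b c d
    rw [← hx (b, a, d, c), inner_L2]
    refine integral_congr_ae ?_
    filter_upwards [coeFn_eL b a d c] with z hz
    change _ = x z * conj ((eL b a d c : ℂ × ℂ → ℂ) z)
    rw [hz, conj_eMon]
  have hxi : Integrable (fun z => x z) muT := (Lp.memLp x).integrable (by norm_num)
  have h2 : ∀ p ∈ PP, ∫ z in T, x z * p z = 0 := by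
    intro p hp
    have hint : ∀ p : ℂ × ℂ → ℂ, Continuous p → Integrable (fun z => x z * p z) muT :=
      fun p hp => integrable_mul (memLp_of_continuous hp)
    refine Submodule.span_induction (p := fun p hp => ∫ z in T, x z * p z = 0) ?_ ?_ ?_ ?_ hp
    · rintro _ ⟨a, b, c, d, rfl⟩
      rw [← h1 a b (a + c) (b + d + 1)]
      refine setIntegral_congr_fun measurableSet_T fun z hz => ?_
      change x z * pmon a b c d z = _
      rw [pmon_eq hz]
    · simp
    · intro p q hp hq ep eq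
      simp only [Pi.add_apply, mul_add]
      rw [integral_add (hint p (PP_continuous hp)) (hint q (PP_continuous hq)), ep, eq, add_zero]
    · intro c p hp ep
      simp only [Pi.smul_apply, smul_eq_mul]
      have : ∀ z, x z * (c * p z) = c * (x z * p z) := fun z => by ring
      simp only [this]
      rw [integral_const_mul, ep, mul_zero]
  have h3 : ∀ φ : ℂ × ℂ → ℂ, Continuous φ → ∫ z in T, x z * φ z = 0 := by
    intro φ hφ
    rw [← norm_eq_zero]
    refine le_antisymm (le_of_forall_pos_le_add fun ε hε => ?_) (norm_nonneg _)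
    set M := ∫ z in T, ‖x z‖ with hM
    have hM0 : 0 ≤ M := integral_nonneg fun z => norm_nonneg _
    obtain ⟨p, hp, hp'⟩ := approx_by_PP hφ (ε := ε / (M + 1)) (by positivity)
    have e1 : ∫ z in T, x z * φ z = ∫ z in T, x z * (φ z - p z) := by
      have : ∀ z, x z * (φ z - p z) = x z * φ z - x z * p z := fun z => by ring
      simp only [this]
      rw [integral_sub (integrable_mul (memLp_of_continuous hφ))
        (integrable_mul (memLp_of_continuous (PP_continuous hp))), h2 p hp, sub_zero]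
    rw [e1]
    calc ‖∫ z in T, x z * (φ z - p z)‖ ≤ ∫ z in T, ‖x z * (φ z - p z)‖ :=
          norm_integral_le_integral_norm _
      _ ≤ ∫ z in T, ‖x z‖ * (ε / (M + 1)) := by
          refine integral_mono_of_nonneg (ae_of_all _ fun z => norm_nonneg _)
            (hxi.norm.mul_const _) ?_
          filter_upwards [ae_restrict_mem measurableSet_T] with z hz
          rw [norm_mul]
          exact mul_le_mul_of_nonneg_left (hp' z hz).le (norm_nonneg _)
      _ = M * (ε / (M + 1)) := by rw [integral_mul_const]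
      _ ≤ 0 + ε := by
          rw [zero_add, mul_div_assoc', div_le_iff₀ (by positivity)]
          nlinarith
  have h4 : ∀ᵐ z ∂(volume : Measure (ℂ × ℂ)), z ∈ T → x z = 0 := by
    refine isOpen_T.ae_eq_zero_of_integral_contDiff_smul_eq_zero ?_ ?_
    · exact (IntegrableOn.locallyIntegrableOn hxi)
    · intro g hg hgc hgs
      have h5 := h3 (fun z => (g z : ℂ)) (Complex.continuous_ofReal.comp hg.continuous)
      rw [← setIntegral_eq_integral_of_forall_compl_eq_zero (s := T)]
      · rw [← h5]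
        refine integral_congr_ae (ae_of_all _ fun z => ?_)
        simp only [Complex.real_smul]
        ring
      · intro z hz
        have : g z = 0 := image_eq_zero_of_notMem_tsupport fun h => hz (hgs h)
        rw [this, zero_smul]
  apply Lp.ext
  have h5 : ∀ᵐ z ∂muT, x z = 0 := by
    rw [ae_restrict_iff' measurableSet_T]
    exact h4
  filter_upwards [h5, Lp.coeFn_zero ℂ 2 muT] with z hz hz2
  rw [hz, hz2]
  rfl

end Pool.Agent.Lib.MP_169ce5_an
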