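import Pool.Agent.Lib.MP_169ce5_an.Weak

/-!
Joint eigenvectors obtained from the triangular structure on monomials.
-/

open MeasureTheory Complex Filter Topology Set
open scoped ContDiff ComplexConjugate ENNReal InnerProductSpace

noncomputable section

namespace Pool.Agent.Lib.MP_169ce5_an

theorem IsTest.memLp {φ : ℂ × ℂ → ℂ} (hφ : IsTest φ) : MemLp φ 2 muT := by
  obtain ⟨C, hC⟩ := (isCompact_closedBall (0 : ℂ × ℂ) 1).exists_bound_of_continuousOn
    hφ.1.continuous.continuousOn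
  exact memLp_of_bounded hφ.1.continuous.aestronglyMeasurable fun z hz =>
    hC z (Metric.ball_subset_closedBall (T_subset_ball hz))

theorem IsTest.continuous_dzbar1 {φ : ℂ × ℂ → ℂ} (hφ : IsTest φ) : Continuous (dzbar1 φ) := by
  unfold dzbar1
  have h1 := hφ.1.continuous_fderiv (by simp)
  exact continuous_const.mul ((h1.clm_apply continuous_const).add
      (continuous_const.mul (h1.clm_apply continuous_const)))

theorem IsTest.continuous_dzbar2 {φ : ℂ × ℂ → ℂ} (hφ : IsTest φ) : Continuous (dzbar2 φ) := by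
  unfold dzbar2
  have h1 := hφ.1.continuous_fderiv (by simp)
  exact continuous_const.mul ((h1.clm_apply continuous_const).add
      (continuous_const.mul (h1.clm_apply continuous_const)))

theorem memLp_of_continuous {φ : ℂ × ℂ → ℂ} (hφ : Continuous φ) : MemLp φ 2 muT := by
  obtain ⟨C, hC⟩ := (isCompact_closedBall (0 : ℂ × ℂ) 1).exists_bound_of_continuousOn
    hφ.continuousOn
  exact memLp_of_bounded hφ.aestronglyMeasurable fun z hz =>
    hC z (Metric.ball_subset_closedBall (T_subset_ball hz))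

theorem IsTest.memLp_dzbar1 {φ : ℂ × ℂ → ℂ} (hφ : IsTest φ) : MemLp (dzbar1 φ) 2 muT :=
  memLp_of_continuous hφ.continuous_dzbar1

theorem IsTest.memLp_dzbar2 {φ : ℂ × ℂ → ℂ} (hφ : IsTest φ) : MemLp (dzbar2 φ) 2 muT :=
  memLp_of_continuous hφ.continuous_dzbar2

theorem IsTest.memLp_X1 {φ : ℂ × ℂ → ℂ} (hφ : IsTest φ) : MemLp (X1 φ) 2 muT :=
  memLp_of_continuous ((Complex.continuous_conj.comp continuous_snd).mul hφ.continuous_dzbar1)

theorem IsTest.memLp_X2 {φ : ℂ × ℂ → ℂ} (hφ : IsTest φ) :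
    MemLp (fun z => X2 φ z + φ z * (conj z.2)⁻¹) 2 muT := by
  have ht3 := hφ.mul_left contDiffOn_conj_zt
  have hm := memLp_of_continuous (hφ.continuous_dzbar2.add ht3.continuous_dzbar1)
  refine (memLp_congr_ae ?_).mp hm
  filter_upwards [ae_restrict_mem measurableSet_T] with z hz
  have hz2 := snd_ne_zero hz
  rw [Pi.add_apply, dzbar1_mul (hasX_conj_zt hz2).diff (hφ.differentiableAt z),
    dzbar1_conj_zt hz2]
  unfold X2
  ring

/-- pairing with a fixed `L²` function as a continuous linear functional -/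
def pairL {g : ℂ × ℂ → ℂ} (hg : MemLp g 2 muT) : L2 →L[ℂ] ℂ := innerSL ℂ ((memLp_conj hg).toLp _)

theorem pairL_apply {g : ℂ × ℂ → ℂ} (hg : MemLp g 2 muT) (f : L2) :
    pairL hg f = ∫ z in T, f z * g z := by
  unfold pairL
  rw [integral_pair f (memLp_conj hg)]
  rfl

theorem WeakX.iff {f g1 g2 : L2} : WeakX f g1 g2 ↔ ∀ (φ : ℂ × ℂ → ℂ) (hφ : IsTest φ),
    pairL hφ.memLp_X1 f = - pairL hφ.memLp g1 ∧ pairL hφ.memLp_X2 f = - pairL hφ.memLp g2 := by
  simp only [pairL_apply]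
  constructor
  · intro h φ hφ
    exact ⟨h.1 φ hφ, h.2 φ hφ⟩
  · intro h
    exact ⟨fun φ hφ => (h φ hφ).1, fun φ hφ => (h φ hφ).2⟩

theorem WeakX.add {f g1 g2 f' g1' g2' : L2} (h : WeakX f g1 g2) (h' : WeakX f' g1' g2') :
    WeakX (f + f') (g1 + g1') (g2 + g2') := by
  rw [WeakX.iff] at *
  intro φ hφ
  obtain ⟨a, b⟩ := h φ hφ
  obtain ⟨a', b'⟩ := h' φ hφ
  simp only [map_add, a, b, a', b']
  constructor <;> ring

theorem WeakX.smul {f g1 g2 : L2} (h : WeakX f g1 g2) (c : ℂ) :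
    WeakX (c • f) (c • g1) (c • g2) := by
  rw [WeakX.iff] at *
  intro φ hφ
  obtain ⟨a, b⟩ := h φ hφ
  simp only [map_smul, a, b, smul_eq_mul]
  constructor <;> ring

theorem WeakX.zero : WeakX 0 0 0 := by
  rw [WeakX.iff]
  intro φ hφ
  simp

/-- The class of triples `(f, √w1 X1 f, √w2 X2 f)`. -/
def WX : Submodule ℂ (L2 × L2 × L2) where
  carrier := {p | ∃ g1 g2, WeakX p.1 g1 g2 ∧ S1 g1 = p.2.1 ∧ S2 g2 = p.2.2}
  add_mem' := by
    rintro p q ⟨g1, g2, h, e1, e2⟩ ⟨g1', g2', h', e1', e2'⟩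
    refine ⟨g1 + g1', g2 + g2', h.add h', ?_, ?_⟩
    · rw [map_add, e1, e1']; rfl
    · rw [map_add, e2, e2']; rfl
  zero_mem' := ⟨0, 0, WeakX.zero, map_zero _, map_zero _⟩
  smul_mem' := by
    rintro c p ⟨g1, g2, h, e1, e2⟩
    refine ⟨c • g1, c • g2, h.smul c, ?_, ?_⟩
    · rw [map_smul, e1]; rfl
    · rw [map_smul, e2]; rfl

/-- `v` has weighted Laplacians `t1`, `t2`. -/
def Lap (v y1 y2 t1 t2 : L2) : Prop :=
  (v, y1, y2) ∈ WX ∧ ∀ w ∈ WX, ⟪y1, w.2.1⟫_ℂ = ⟪t1, w.1⟫_ℂ ∧ ⟪y2, w.2.2⟫_ℂ = ⟪t2, w.1⟫_ℂ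

theorem Lap.add {v y1 y2 t1 t2 v' y1' y2' t1' t2' : L2} (h : Lap v y1 y2 t1 t2)
    (h' : Lap v' y1' y2' t1' t2') : Lap (v + v') (y1 + y1') (y2 + y2') (t1 + t1') (t2 + t2') := by
  refine ⟨WX.add_mem h.1 h'.1, fun w hw => ?_⟩
  rw [inner_add_left, inner_add_left, inner_add_left, inner_add_left, (h.2 w hw).1, (h.2 w hw).2,
    (h'.2 w hw).1, (h'.2 w hw).2]
  exact ⟨rfl, rfl⟩

theorem Lap.smul {v y1 y2 t1 t2 : L2} (h : Lap v y1 y2 t1 t2) (c : ℂ) :
    Lap (c • v) (c • y1) (c • y2) (c • t1) (c • t2) := by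
  refine ⟨WX.smul_mem c h.1, fun w hw => ?_⟩
  rw [inner_smul_left, inner_smul_left, inner_smul_left, inner_smul_left, (h.2 w hw).1,
    (h.2 w hw).2]
  exact ⟨rfl, rfl⟩

theorem Lap.zero : Lap 0 0 0 0 0 := by
  refine ⟨WX.zero_mem, fun w hw => ?_⟩
  simp

theorem Lap.sub {v y1 y2 t1 t2 v' y1' y2' t1' t2' : L2} (h : Lap v y1 y2 t1 t2)
    (h' : Lap v' y1' y2' t1' t2') : Lap (v - v') (y1 - y1') (y2 - y2') (t1 - t1') (t2 - t2') := by
  have := h.add (h'.smul (-1))
  simpa [sub_eq_add_neg] using this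

theorem lap_eL (a b c d : ℕ) :
    Lap (eL a b c d) (S1 ((b : ℂ) • eL a (b - 1) c d)) (S2 ((d : ℂ) • eL a b c (d - 1)))
      (((b * (a + 1) : ℕ) : ℂ) • eL a b c d - ((a * b : ℕ) : ℂ) • eL (a - 1) (b - 1) c d)
      (((d * (c + 1) : ℕ) : ℂ) • eL a b c d - ((c * d : ℕ) : ℂ) • eL a b (c - 1) (d - 1)) := by
  refine ⟨⟨_, _, weakX_eL a b c d, rfl, rfl⟩, ?_⟩
  rintro ⟨f, G1, G2⟩ ⟨g1, g2, h, e1, e2⟩
  simp only at e1 e2 h ⊢
  subst e1 e2
  constructor
  · rcases b with _ | b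
    · simp
    · simp only [Nat.add_sub_cancel]
      rw [map_smul, inner_smul_left, weakX_pair1 h a b c d]
      rw [← inner_smul_left]
      congr 1
      rw [smul_sub, smul_smul, smul_smul]
      congr 1
      · congr 1
        push_cast
        ring
      · congr 1
        push_cast
        ring
  · rcases d with _ | d
    · simp
    · simp only [Nat.add_sub_cancel]
      rw [map_smul, inner_smul_left, weakX_pair2 h a b c d]
      rw [← inner_smul_left]
      congr 1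
      rw [smul_sub, smul_smul, smul_smul]
      congr 1
      · congr 1
        push_cast
        ring
      · congr 1
        push_cast
        ring

/-- A submodule stable under the weighted Laplacians. -/
def LapStable (S : Submodule ℂ L2) : Prop :=
  ∀ s ∈ S, ∃ y1 y2 t1 t2, Lap s y1 y2 t1 t2 ∧ t1 ∈ S ∧ t2 ∈ S

theorem lapStable_span {A : Set L2}
    (hA : ∀ s ∈ A, ∃ y1 y2 t1 t2, Lap s y1 y2 t1 t2 ∧ t1 ∈ Submodule.span ℂ A ∧
      t2 ∈ Submodule.span ℂ A) : LapStable (Submodule.span ℂ A) := by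
  intro s hs
  refine Submodule.span_induction (p := fun s _ => ∃ y1 y2 t1 t2, Lap s y1 y2 t1 t2 ∧
    t1 ∈ Submodule.span ℂ A ∧ t2 ∈ Submodule.span ℂ A) ?_ ?_ ?_ ?_ hs
  · intro x hx; exact hA x hx
  · exact ⟨0, 0, 0, 0, Lap.zero, Submodule.zero_mem _, Submodule.zero_mem _⟩
  · rintro x y _ _ ⟨y1, y2, t1, t2, h, m1, m2⟩ ⟨y1', y2', t1', t2', h', m1', m2'⟩
    exact ⟨_, _, _, _, h.add h', Submodule.add_mem _ m1 m1', Submodule.add_mem _ m2 m2'⟩
  · rintro c x _ ⟨y1, y2, t1, t2, h, m1, m2⟩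
    exact ⟨_, _, _, _, h.smul c, Submodule.smul_mem _ c m1, Submodule.smul_mem _ c m2⟩

/-- joint eigenvector -/
def JEig (v : L2) (α β : ℝ) : Prop := ∃ y1 y2, Lap v y1 y2 ((α : ℂ) • v) ((β : ℂ) • v)

theorem jEig_of_stable {S : Submodule ℂ L2} [S.HasOrthogonalProjection] (hS : LapStable S)
    {e y1 y2 l1 l2 : L2} {α β : ℝ} (he : Lap e y1 y2 ((α : ℂ) • e - l1) ((β : ℂ) • e - l2))
    (h1 : l1 ∈ S) (h2 : l2 ∈ S) : JEig (e - S.starProjection e) α β := by
  have hP : S.starProjection e ∈ S := Submodule.starProjection_apply_mem S e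
  obtain ⟨z1, z2, t1, t2, hz, m1, m2⟩ := hS _ hP
  have hd := he.sub hz
  set v := e - S.starProjection e with hv
  have hvS : ∀ s ∈ S, ⟪v, s⟫_ℂ = 0 := fun s hs =>
    Submodule.starProjection_inner_eq_zero (K := S) e s hs
  have hvS' : ∀ s ∈ S, ⟪s, v⟫_ℂ = 0 := fun s hs => by
    rw [← inner_conj_symm, hvS s hs, map_zero]
  -- the error terms
  set u1 := (α : ℂ) • e - l1 - t1 - (α : ℂ) • v with hu1
  set u2 := (β : ℂ) • e - l2 - t2 - (β : ℂ) • v with hu2
  have hu1S : u1 ∈ S := by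
    have : u1 = (α : ℂ) • S.starProjection e - l1 - t1 := by
      rw [hu1, hv, smul_sub]; abel
    rw [this]
    exact S.sub_mem (S.sub_mem (S.smul_mem _ hP) h1) m1
  have hu2S : u2 ∈ S := by
    have : u2 = (β : ℂ) • S.starProjection e - l2 - t2 := by
      rw [hu2, hv, smul_sub]; abel
    rw [this]
    exact S.sub_mem (S.sub_mem (S.smul_mem _ hP) h2) m2
  have key : ∀ s ∈ S, ⟪u1, s⟫_ℂ = 0 ∧ ⟪u2, s⟫_ℂ = 0 := by
    intro s hs
    obtain ⟨x1, x2, r1, r2, hx, n1, n2⟩ := hS s hs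
    have a1 := hd.2 _ hx.1
    have a2 := hx.2 _ hd.1
    simp only at a1 a2
    have b1 : ⟪y1 - z1, x1⟫_ℂ = 0 := by
      rw [← inner_conj_symm, a2.1, hvS' r1 n1, map_zero]
    have b2 : ⟪y2 - z2, x2⟫_ℂ = 0 := by
      rw [← inner_conj_symm, a2.2, hvS' r2 n2, map_zero]
    constructor
    · have : u1 = (α : ℂ) • e - l1 - t1 - (α : ℂ) • v := hu1
      rw [this, inner_sub_left, ← a1.1, b1, inner_smul_left, hvS s hs]
      simp
    · have : u2 = (β : ℂ) • e - l2 - t2 - (β : ℂ) • v := hu2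
      rw [this, inner_sub_left, ← a1.2, b2, inner_smul_left, hvS s hs]
      simp
  have z1' : u1 = 0 := inner_self_eq_zero.mp (key u1 hu1S).1
  have z2' : u2 = 0 := inner_self_eq_zero.mp (key u2 hu2S).2
  refine ⟨y1 - z1, y2 - z2, ?_⟩
  have e1 : (α : ℂ) • e - l1 - t1 = (α : ℂ) • v := sub_eq_zero.mp z1'
  have e2 : (β : ℂ) • e - l2 - t2 = (β : ℂ) • v := sub_eq_zero.mp z2'
  rw [e1, e2] at hd
  exact hd

theorem JEig.inner_eq {v w : L2} {α β α' β' : ℝ} (hv : JEig v α β) (hw : JEig w α' β')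
    (h : α ≠ α' ∨ β ≠ β') : ⟪v, w⟫_ℂ = 0 := by
  obtain ⟨y1, y2, hy⟩ := hv
  obtain ⟨x1, x2, hx⟩ := hw
  have a := hy.2 _ hx.1
  have b := hx.2 _ hy.1
  simp only [inner_smul_left, Complex.conj_ofReal] at a b
  have c1 : (α : ℂ) * ⟪v, w⟫_ℂ = α' * ⟪v, w⟫_ℂ := by
    rw [← a.1, ← inner_conj_symm, b.1, map_mul, Complex.conj_ofReal, inner_conj_symm]
  have c2 : (β : ℂ) * ⟪v, w⟫_ℂ = β' * ⟪v, w⟫_ℂ := by
    rw [← a.2, ← inner_conj_symm, b.2, map_mul, Complex.conj_ofReal, inner_conj_symm]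
  by_contra hne
  rcases h with h | h
  · exact h (by exact_mod_cast mul_right_cancel₀ hne c1)
  · exact h (by exact_mod_cast mul_right_cancel₀ hne c2)

/-! ### The chains -/

/-- Index set of the monomials. -/
abbrev Idx : Type := ℕ × ℕ × ℕ × ℕ

/-- monomial with index `i` -/
def ei (i : Idx) : L2 := eL i.1 i.2.1 i.2.2.1 i.2.2.2

/-- the element of the chain below `i` obtained by subtracting `k` and `l` -/
def low (i : Idx) (k l : ℕ) : Idx := (i.1 - k, i.2.1 - k, i.2.2.1 - l, i.2.2.2 - l)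

/-- strictly lower monomials in the same chain -/
def lowSet (i : Idx) : Set L2 :=
  {x | ∃ k l : ℕ, k ≤ i.1 ∧ k ≤ i.2.1 ∧ l ≤ i.2.2.1 ∧ l ≤ i.2.2.2 ∧ 0 < k + l ∧
    x = ei (low i k l)}

theorem lowSet_finite (i : Idx) : (lowSet i).Finite := by
  have : lowSet i ⊆ (fun p : ℕ × ℕ => ei (low i p.1 p.2)) ''
      ((Finset.range (i.1 + 1) ×ˢ Finset.range (i.2.2.1 + 1) : Finset (ℕ × ℕ)) : Set (ℕ × ℕ)) := by
    rintro x ⟨k, l, h1, h2, h3, h4, h5, rfl⟩
    refine ⟨(k, l), ?_, rfl⟩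
    simp only [Finset.coe_product, Finset.coe_range, mem_prod, mem_Iio]
    omega
  exact ((Finset.finite_toSet _).image _).subset this

/-- span of the strictly lower monomials -/
def lowSpan (i : Idx) : Submodule ℂ L2 := Submodule.span ℂ (lowSet i)

instance (i : Idx) : FiniteDimensional ℂ (lowSpan i) :=
  FiniteDimensional.span_of_finite ℂ (lowSet_finite i)

theorem lowSet_mem {i : Idx} {k l : ℕ} (h1 : k ≤ i.1) (h2 : k ≤ i.2.1) (h3 : l ≤ i.2.2.1)
    (h4 : l ≤ i.2.2.2) (h5 : 0 < k + l) {a b c d : ℕ} (ha : a = i.1 - k) (hb : b = i.2.1 - k)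
    (hc : c = i.2.2.1 - l) (hd : d = i.2.2.2 - l) : eL a b c d ∈ lowSpan i := by
  subst ha hb hc hd
  exact Submodule.subset_span ⟨k, l, h1, h2, h3, h4, h5, rfl⟩

theorem lapStable_lowSpan (i : Idx) : LapStable (lowSpan i) := by
  apply lapStable_span
  rintro s ⟨k, l, h1, h2, h3, h4, h5, rfl⟩
  refine ⟨_, _, _, _, lap_eL _ _ _ _, ?_, ?_⟩
  · refine Submodule.sub_mem _ (Submodule.smul_mem _ _ ?_) ?_
    · exact lowSet_mem h1 h2 h3 h4 h5 rfl rfl rfl rfl
    · by_cases h : (i.1 - k) * (i.2.1 - k) = 0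
      · simp only [low]
        rw [h]
        simp
      · apply Submodule.smul_mem
        have h' : i.1 - k ≠ 0 ∧ i.2.1 - k ≠ 0 := by
          constructor
          · intro h0; apply h; rw [h0, zero_mul]
          · intro h0; apply h; rw [h0, mul_zero]
        refine lowSet_mem (k := k + 1) (l := l) (by omega) (by omega) h3 h4 (by omega) ?_ ?_ ?_ ?_
        all_goals (simp only [low]; try omega)
  · refine Submodule.sub_mem _ (Submodule.smul_mem _ _ ?_) ?_
    · exact lowSet_mem h1 h2 h3 h4 h5 rfl rfl rfl rfl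
    · by_cases h : (i.2.2.1 - l) * (i.2.2.2 - l) = 0
      · simp only [low]
        rw [h]
        simp
      · apply Submodule.smul_mem
        have h' : i.2.2.1 - l ≠ 0 ∧ i.2.2.2 - l ≠ 0 := by
          constructor
          · intro h0; apply h; rw [h0, zero_mul]
          · intro h0; apply h; rw [h0, mul_zero]
        refine lowSet_mem (k := k) (l := l + 1) h1 h2 (by omega) (by omega) (by omega) ?_ ?_ ?_ ?_
        all_goals (simp only [low]; try omega)

/-- orthogonalised monomials -/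
def ehat (i : Idx) : L2 := ei i - (lowSpan i).starProjection (ei i)

/-- eigenvalues -/
def lam1 (i : Idx) : ℝ := ((i.2.1 * (i.1 + 1) : ℕ) : ℝ)

/-- eigenvalues -/
def lam2 (i : Idx) : ℝ := ((i.2.2.2 * (i.2.2.1 + 1) : ℕ) : ℝ)

theorem jEig_ehat (i : Idx) : JEig (ehat i) (lam1 i) (lam2 i) := by
  obtain ⟨a, b, c, d⟩ := i
  have h := lap_eL a b c d
  have e1 : (((b * (a + 1) : ℕ) : ℂ)) = ((lam1 (a, b, c, d) : ℝ) : ℂ) := by
    unfold lam1; norm_cast
  have e2 : (((d * (c + 1) : ℕ) : ℂ)) = ((lam2 (a, b, c, d) : ℝ) : ℂ) := by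
    unfold lam2; norm_cast
  rw [e1, e2] at h
  refine jEig_of_stable (lapStable_lowSpan (a, b, c, d)) (e := ei (a, b, c, d)) h ?_ ?_
  · by_cases h0 : a * b = 0
    · rw [h0]; simp
    · apply Submodule.smul_mem
      have h' : a ≠ 0 ∧ b ≠ 0 := by
        constructor
        · intro h1; apply h0; rw [h1, zero_mul]
        · intro h1; apply h0; rw [h1, mul_zero]
      exact lowSet_mem (i := (a, b, c, d)) (k := 1) (l := 0) (by simp; omega) (by simp; omega)
        (by simp) (by simp) (by omega) (by simp) (by simp) (by simp) (by simp)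
  · by_cases h0 : c * d = 0
    · rw [h0]; simp
    · apply Submodule.smul_mem
      have h' : c ≠ 0 ∧ d ≠ 0 := by
        constructor
        · intro h1; apply h0; rw [h1, zero_mul]
        · intro h1; apply h0; rw [h1, mul_zero]
      exact lowSet_mem (i := (a, b, c, d)) (k := 0) (l := 1) (by simp) (by simp)
        (by simp; omega) (by simp; omega) (by omega) (by simp) (by simp) (by simp) (by simp)

/-- every monomial is in the span of the orthogonalised ones (of the same chain) -/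
theorem ei_mem_span (i : Idx) : ei i ∈ Submodule.span ℂ (ehat '' {j | ∃ k l : ℕ, k ≤ i.1 ∧
    k ≤ i.2.1 ∧ l ≤ i.2.2.1 ∧ l ≤ i.2.2.2 ∧ j = low i k l}) := by
  -- strong induction on `i.1 + i.2.2.1`
  generalize hn : i.1 + i.2.2.1 = n
  induction n using Nat.strong_induction_on generalizing i with
  | _ n ih =>
    have h1 : ei i = ehat i + (lowSpan i).starProjection (ei i) := by
      unfold ehat; abel
    rw [h1]
    refine Submodule.add_mem _ (Submodule.subset_span ⟨i, ⟨0, 0, by simp, by simp, by simp,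
      by simp, ?_⟩, rfl⟩) ?_
    · simp [low]
    · have hP : (lowSpan i).starProjection (ei i) ∈ lowSpan i :=
        Submodule.starProjection_apply_mem _ _
      refine (Submodule.span_le.mpr ?_) hP
      rintro x ⟨k, l, h1, h2, h3, h4, h5, rfl⟩
      have hlt : (low i k l).1 + (low i k l).2.2.1 < n := by
        simp only [low]; omega
      have h6 := ih _ hlt (low i k l) rfl
      refine Submodule.span_mono ?_ h6
      rintro y ⟨j, ⟨k', l', m1, m2, m3, m4, rfl⟩, rfl⟩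
      simp only [low] at m1 m2 m3 m4
      refine ⟨_, ⟨k + k', l + l', by omega, by omega, by omega, by omega, ?_⟩, rfl⟩
      simp only [low, Prod.mk.injEq]
      omega

end Pool.Agent.Lib.MP_169ce5_an
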