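import Mathlib

/-!
The entire function `Σ (-κ)^i / (i! (n+i)!)` (Bessel functions of integer order) and the
recursion along the chains of monomials.
-/

open Filter Topology Finset
open scoped Nat

noncomputable section

namespace Pool.Agent.Lib.MP_169ce5_an.Ess

/-- `Σ_i (-κ)^i / (i! (n+i)!)`, so that `J_n(x) = (x/2)^n BB n (x²/4)` -/
def BB (n : ℕ) (κ : ℝ) : ℝ := ∑' i : ℕ, (-κ) ^ i / ((i ! : ℝ) * ((n + i)! : ℝ))

theorem summable_BB (n : ℕ) (κ : ℝ) :
    Summable fun i : ℕ => (-κ) ^ i / ((i ! : ℝ) * ((n + i)! : ℝ)) := by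
  refine Summable.of_norm_bounded (Real.summable_pow_div_factorial |κ|) fun i => ?_
  rw [norm_div, norm_pow, norm_neg, Real.norm_eq_abs, norm_mul, Real.norm_natCast,
    Real.norm_natCast]
  have h1 : (0 : ℝ) < (i ! : ℝ) := by exact_mod_cast i.factorial_pos
  have h2 : (1 : ℝ) ≤ ((n + i)! : ℝ) := by exact_mod_cast (n + i).factorial_pos
  refine div_le_div_of_nonneg_left (by positivity) h1 ?_
  nlinarith

/-- `t_i = (-κ)^i n! / (i! (n+i)!)` -/
def tt (n : ℕ) (κ : ℝ) (i : ℕ) : ℝ := (-κ) ^ i * (n ! : ℝ) / ((i ! : ℝ) * ((n + i)! : ℝ))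

theorem tt_zero (n : ℕ) (κ : ℝ) : tt n κ 0 = 1 := by
  unfold tt
  have h2 : ((n)! : ℝ) ≠ 0 := by exact_mod_cast n.factorial_ne_zero
  simp [div_self h2]

theorem tt_succ (n : ℕ) (κ : ℝ) (i : ℕ) :
    tt n κ (i + 1) * ((i + 1) * (n + i + 1)) = -κ * tt n κ i := by
  unfold tt
  have h1 : ((i)! : ℝ) ≠ 0 := by exact_mod_cast i.factorial_ne_zero
  have h2 : ((n + i)! : ℝ) ≠ 0 := by exact_mod_cast (n + i).factorial_ne_zero
  have h3 : (((i + 1)! : ℕ) : ℝ) = ((i : ℝ) + 1) * (i ! : ℝ) := by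
    rw [Nat.factorial_succ]; push_cast; ring
  have h4 : (((n + (i + 1))! : ℕ) : ℝ) = ((n : ℝ) + i + 1) * ((n + i)! : ℝ) := by
    rw [← add_assoc, Nat.factorial_succ]; push_cast; ring
  rw [h3, h4, pow_succ]
  have h5 : (i : ℝ) + 1 ≠ 0 := by positivity
  have h6 : (n : ℝ) + i + 1 ≠ 0 := by positivity
  field_simp

theorem hasSum_tt (n : ℕ) (κ : ℝ) : HasSum (tt n κ) ((n ! : ℝ) * BB n κ) := by
  have h := (summable_BB n κ).hasSum.mul_left (n ! : ℝ)
  have e : tt n κ = fun i : ℕ => (n ! : ℝ) * ((-κ) ^ i / ((i ! : ℝ) * ((n + i)! : ℝ))) := by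
    funext i
    unfold tt
    ring
  rw [e]
  exact h

theorem tendsto_sum_tt (n : ℕ) (κ : ℝ) :
    Tendsto (fun I => ∑ i ∈ range (I + 1), tt n κ i) atTop (𝓝 ((n ! : ℝ) * BB n κ)) :=
  (hasSum_tt n κ).tendsto_sum_nat.comp (tendsto_add_atTop_nat 1)

theorem tendsto_tt (n : ℕ) (κ : ℝ) : Tendsto (tt n κ) atTop (𝓝 0) :=
  (hasSum_tt n κ).summable.tendsto_atTop_zero

/-- recurrence -/
theorem BB_rec (n : ℕ) (κ : ℝ) : BB n κ = (n + 1) * BB (n + 1) κ - κ * BB (n + 2) κ := by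
  unfold BB
  rw [← tsum_mul_left, ← tsum_mul_left]
  have s1 := summable_BB n κ
  have s2 := (summable_BB (n + 1) κ).mul_left ((n : ℝ) + 1)
  have s3 := (summable_BB (n + 2) κ).mul_left κ
  rw [s1.tsum_eq_zero_add, s2.tsum_eq_zero_add]
  have e0 : (-κ) ^ 0 / (((0 : ℕ)! : ℝ) * ((n + 0)! : ℝ)) =
      ((n : ℝ) + 1) * ((-κ) ^ 0 / (((0 : ℕ)! : ℝ) * ((n + 1 + 0)! : ℝ))) := by
    have h2 : ((n)! : ℝ) ≠ 0 := by exact_mod_cast n.factorial_ne_zero
    have h3 : (((n + 1)! : ℕ) : ℝ) = ((n : ℝ) + 1) * (n ! : ℝ) := by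
      rw [Nat.factorial_succ]; push_cast; ring
    have h5 : (n : ℝ) + 1 ≠ 0 := by positivity
    rw [add_zero, add_zero, h3]
    simp only [pow_zero, Nat.factorial_zero, Nat.cast_one, one_mul]
    field_simp
  rw [e0, add_sub_assoc]
  congr 1
  have s2' : Summable fun b : ℕ => ((n : ℝ) + 1) * ((-κ) ^ (b + 1) /
      (((b + 1)! : ℝ) * ((n + 1 + (b + 1))! : ℝ))) := (summable_nat_add_iff 1).mpr s2
  rw [← Summable.tsum_sub s2' s3]
  congr 1
  funext i
  have h1 : ((i)! : ℝ) ≠ 0 := by exact_mod_cast i.factorial_ne_zero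
  have h3 : (((i + 1)! : ℕ) : ℝ) = ((i : ℝ) + 1) * (i ! : ℝ) := by
    rw [Nat.factorial_succ]; push_cast; ring
  have h2 : ((n + (i + 1))! : ℝ) ≠ 0 := by exact_mod_cast (n + (i + 1)).factorial_ne_zero
  have e1 : n + 1 + (i + 1) = (n + (i + 1)) + 1 := by ring
  have e2 : n + 2 + i = (n + (i + 1)) + 1 := by ring
  have h4 : (((n + (i + 1)) + 1)! : ℝ) = ((n : ℝ) + (i + 1) + 1) * ((n + (i + 1))! : ℝ) := by
    rw [Nat.factorial_succ]; push_cast; ring
  rw [e1, e2, h4, h3, pow_succ]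
  have h5 : (i : ℝ) + 1 ≠ 0 := by positivity
  have h6 : (n : ℝ) + (i + 1) + 1 ≠ 0 := by positivity
  field_simp
  ring

theorem BB_large (κ : ℝ) : ∃ N0 : ℕ, ∀ N ≥ N0, BB N κ ≠ 0 := by
  obtain ⟨N0, hN0⟩ := exists_nat_gt (Real.exp |κ|)
  refine ⟨N0, fun N hN => ?_⟩
  intro h0
  have h1 := hasSum_tt N κ
  rw [h0, mul_zero] at h1
  have h2 : HasSum (fun i => tt N κ (i + 1)) (-1) := by
    have := (hasSum_nat_add_iff' (f := tt N κ) 1).mpr h1
    simpa [tt_zero] using this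
  have h3 : HasSum (fun i : ℕ => |κ| ^ i / (i ! : ℝ)) (Real.exp |κ|) := by
    rw [Real.exp_eq_exp_ℝ]
    exact NormedSpace.expSeries_div_hasSum_exp |κ|
  have h4 : HasSum (fun i : ℕ => |κ| ^ (i + 1) / ((i + 1)! : ℝ)) (Real.exp |κ| - 1) := by
    have := (hasSum_nat_add_iff' (f := fun i : ℕ => |κ| ^ i / (i ! : ℝ)) 1).mpr h3
    simpa using this
  have hNpos : (0 : ℝ) < N + 1 := by positivity
  have h5 := h4.mul_left (1 / ((N : ℝ) + 1))
  have h6 : ‖(-1 : ℝ)‖ ≤ 1 / ((N : ℝ) + 1) * (Real.exp |κ| - 1) := by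
    rw [← h2.tsum_eq]
    refine tsum_of_norm_bounded h5 fun i => ?_
    unfold tt
    rw [norm_div, norm_mul, norm_pow, norm_neg, Real.norm_eq_abs, norm_mul, Real.norm_natCast,
      Real.norm_natCast, Real.norm_natCast]
    have g1 : (0 : ℝ) < ((i + 1)! : ℝ) := by exact_mod_cast (i + 1).factorial_pos
    have g2 : (0 : ℝ) < ((N + (i + 1))! : ℝ) := by exact_mod_cast (N + (i + 1)).factorial_pos
    have g3 : (((N + 1) * N ! : ℕ) : ℝ) ≤ ((N + (i + 1))! : ℝ) := by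
      rw [← Nat.factorial_succ]
      exact_mod_cast Nat.factorial_le (by omega)
    push_cast at g3
    rw [div_le_iff₀ (by positivity)]
    calc |κ| ^ (i + 1) * (N ! : ℝ)
        = (1 / ((N : ℝ) + 1)) * (|κ| ^ (i + 1) * (((N : ℝ) + 1) * (N ! : ℝ))) := by field_simp
      _ ≤ (1 / ((N : ℝ) + 1)) * (|κ| ^ (i + 1) * ((N + (i + 1))! : ℝ)) := by gcongr
      _ = 1 / ((N : ℝ) + 1) * (|κ| ^ (i + 1) / ((i + 1)! : ℝ)) *
          (((i + 1)! : ℝ) * ((N + (i + 1))! : ℝ)) := by field_simp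
  rw [norm_neg, norm_one, div_mul_eq_mul_div, one_mul, le_div_iff₀ hNpos] at h6
  have h7 : (N0 : ℝ) ≤ N := by exact_mod_cast hN
  linarith

/-- consecutive functions have no common zero -/
theorem BB_consec {n : ℕ} {κ : ℝ} (hκ : κ ≠ 0) (h0 : BB n κ = 0) : BB (n + 1) κ ≠ 0 := by
  intro h1
  obtain ⟨N0, hN0⟩ := BB_large κ
  have h2 : ∀ j, BB (n + j) κ = 0 ∧ BB (n + j + 1) κ = 0 := by
    intro j
    induction j with
    | zero => exact ⟨h0, h1⟩
    | succ j ih =>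
      refine ⟨ih.2, ?_⟩
      have h := BB_rec (n + j) κ
      rw [ih.1, ih.2] at h
      have h3 : κ * BB (n + j + 2) κ = 0 := by linarith
      exact (mul_eq_zero.mp h3).resolve_left hκ
  exact hN0 (n + N0) (by omega) (h2 N0).1

/-- The recursion along a chain: if `BB (p+q) κ ≠ 0` then all coefficients tend to zero. -/
theorem chain_zero {α : Type*} {l : Filter α} {p q : ℕ} (hpq : p = 0 ∨ q = 0) {κ : ℝ}
    (hκ : 0 < κ) (hB : BB (p + q) κ ≠ 0) {Z Y : ℕ → α → ℂ} {M : ℝ}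
    (hM : ∀ i, ∀ᶠ x in l, ‖Z i x‖ ≤ M)
    (h1 : ∀ i x, Y (i + 1) x + ((p : ℂ) + i + 1) * Z i x = Y 0 x)
    (h2 : ∀ i, Tendsto (fun x => ((q : ℂ) + i + 1) * Y i x - κ * Z i x) l (𝓝 0)) :
    ∀ i, Tendsto (Z i) l (𝓝 0) := by
  set n := p + q with hn
  have hrec : ∀ i : ℕ, tt n κ (i + 1) * (((p : ℝ) + i + 1) * (q + i + 1)) = -κ * tt n κ i := by
    intro i
    rw [← tt_succ]
    rcases hpq with rfl | rfl
    · rw [hn]; push_cast; ring
    · rw [hn]; push_cast; ring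
  have hq0 : ∀ i : ℕ, ((q : ℂ) + i + 1) ≠ 0 := by
    intro i
    exact_mod_cast (by positivity : ((q : ℝ) + i + 1) ≠ 0)
  have hκ0 : (κ : ℂ) ≠ 0 := by exact_mod_cast hκ.ne'
  -- step A
  have hA : ∀ i, Tendsto (fun x => ((tt n κ i * κ / (q + i + 1) : ℝ) : ℂ) * Z i x -
      ((∑ j ∈ range (i + 1), tt n κ j : ℝ) : ℂ) * Y 0 x) l (𝓝 0) := by
    intro i
    induction i with
    | zero =>
      have h3 := (h2 0).const_mul (-1 / ((q : ℂ) + (0 : ℕ) + 1))
      rw [mul_zero] at h3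
      refine h3.congr fun x => ?_
      rw [zero_add, sum_range_one, tt_zero]
      have := hq0 0
      push_cast at this ⊢
      field_simp
      ring
    | succ i ih =>
      have h3 := (h2 (i + 1)).const_mul (-(tt n κ (i + 1) : ℂ) / ((q : ℂ) + (i + 1 : ℕ) + 1))
      rw [mul_zero] at h3
      have h4 := ih.add h3
      rw [add_zero] at h4
      refine h4.congr fun x => ?_
      rw [sum_range_succ _ (i + 1)]
      have h5 := h1 i x
      have h6 := hrec i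
      have h6' : (tt n κ (i + 1) : ℂ) * (((p : ℂ) + i + 1) * (q + i + 1)) = -κ * tt n κ i := by
        exact_mod_cast h6
      have h7 := hq0 i
      have h8 := hq0 (i + 1)
      push_cast at h8 ⊢
      have h9 : ((tt n κ i : ℂ) * κ / (q + i + 1)) = - ((tt n κ (i + 1) : ℂ) * (p + i + 1)) := by
        field_simp
        linear_combination h6'
      rw [h9]
      field_simp
      linear_combination (-(tt n κ (i + 1) : ℂ) * (q + (i + 1) + 1)) * h5
  -- step B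
  set B0 : ℝ := (n ! : ℝ) * BB n κ with hB0
  have hB0' : 0 < |B0| := by
    rw [abs_pos, hB0]
    exact mul_ne_zero (by exact_mod_cast n.factorial_ne_zero) hB
  have hY : Tendsto (Y 0) l (𝓝 0) := by
    rw [Metric.tendsto_nhds]
    intro ε hε
    have hS := tendsto_sum_tt n κ
    have e1 : ∀ᶠ I in atTop, |B0| / 2 < |∑ i ∈ range (I + 1), tt n κ i| := by
      have := hS.abs
      rw [← hB0] at this
      exact this.eventually (lt_mem_nhds (by linarith))
    have e2 : ∀ᶠ I in atTop, |tt n κ I| * (κ * |M|) < ε * |B0| / 8 := by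
      have := (tendsto_tt n κ).abs.mul_const (κ * |M|)
      rw [abs_zero, zero_mul] at this
      exact this.eventually (gt_mem_nhds (by positivity))
    obtain ⟨I, hI1, hI2⟩ := (e1.and e2).exists
    have h3 := (Metric.tendsto_nhds.mp (hA I)) (ε * |B0| / 8) (by positivity)
    filter_upwards [h3, hM I] with x hx1 hx2
    rw [dist_zero_right] at hx1 ⊢
    have hx2' : ‖Z I x‖ ≤ |M| := hx2.trans (le_abs_self M)
    have h4 : ‖((tt n κ I * κ / (q + I + 1) : ℝ) : ℂ) * Z I x‖ ≤ |tt n κ I| * (κ * |M|) := by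
      rw [norm_mul, Complex.norm_real, Real.norm_eq_abs, abs_div, abs_mul, abs_of_pos hκ]
      have h5 : (1 : ℝ) ≤ |(q : ℝ) + I + 1| := by
        have : (0 : ℝ) ≤ (q : ℝ) + I := by positivity
        rw [abs_of_nonneg (by linarith)]
        linarith
      calc |tt n κ I| * κ / |(q : ℝ) + I + 1| * ‖Z I x‖ ≤ |tt n κ I| * κ / 1 * |M| := by
            gcongr
        _ = _ := by ring
    have h5 : |∑ i ∈ range (I + 1), tt n κ i| * ‖Y 0 x‖ ≤
        |tt n κ I| * (κ * |M|) + ε * |B0| / 8 := by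
      have h6 : |∑ i ∈ range (I + 1), tt n κ i| * ‖Y 0 x‖ =
          ‖((∑ i ∈ range (I + 1), tt n κ i : ℝ) : ℂ) * Y 0 x‖ := by
        rw [norm_mul, Complex.norm_real, Real.norm_eq_abs]
      rw [h6]
      calc _ = ‖((tt n κ I * κ / (q + I + 1) : ℝ) : ℂ) * Z I x -
          (((tt n κ I * κ / (q + I + 1) : ℝ) : ℂ) * Z I x -
            ((∑ i ∈ range (I + 1), tt n κ i : ℝ) : ℂ) * Y 0 x)‖ := by
            congr 1; ring
        _ ≤ _ := norm_sub_le _ _
        _ ≤ _ := add_le_add h4 hx1.le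
    have h7 : |B0| / 2 * ‖Y 0 x‖ ≤ |∑ i ∈ range (I + 1), tt n κ i| * ‖Y 0 x‖ := by gcongr
    have h9 : 0 < ε * |B0| := by positivity
    have h8 : |B0| / 2 * ‖Y 0 x‖ < |B0| / 2 * ε := by linarith
    exact lt_of_mul_lt_mul_left h8 (by positivity)
  -- step C
  intro i
  induction i with
  | zero =>
    have h3 := ((hY.const_mul ((q : ℂ) + (0 : ℕ) + 1)).sub (h2 0)).const_mul (1 / (κ : ℂ))
    rw [mul_zero, sub_zero, mul_zero] at h3
    refine h3.congr fun x => ?_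
    field_simp
    ring
  | succ i ih =>
    have h4 := hY.sub (ih.const_mul ((p : ℂ) + i + 1))
    rw [mul_zero, sub_zero] at h4
    have h3 := ((h4.const_mul ((q : ℂ) + (i + 1 : ℕ) + 1)).sub (h2 (i + 1))).const_mul
      (1 / (κ : ℂ))
    rw [mul_zero, sub_zero, mul_zero] at h3
    refine h3.congr fun x => ?_
    rw [← h1 i x]
    field_simp
    ring

end Pool.Agent.Lib.MP_169ce5_an.Ess
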