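import Pool.Agent.Lib.MP_169ce5_an.EssSup2

/-!
Functions in the domain of the adjoint of `∂̄` on `(0,1)`-forms are in the domain of `∂̄`.
-/

open MeasureTheory Complex Filter Topology Set
open scoped ContDiff ComplexConjugate ENNReal InnerProductSpace

noncomputable section

namespace Pool.Agent.Lib.MP_169ce5_an.Ess

theorem cross_zero_gen {ψ : ℂ × ℂ → ℂ} (hψ : IsTest ψ) (v w : ℂ × ℂ) :
    ∫ z, fderiv ℝ ψ z v * conj (fderiv ℝ ψ z w) =
      ∫ z, fderiv ℝ ψ z w * conj (fderiv ℝ ψ z v) := by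
  simp only [← fderiv_conj_apply hψ]
  rw [(hψ.dv v).ibp_dv hψ.conj, (hψ.dv w).ibp_dv hψ.conj]
  simp only [hψ.sym2 v w]

theorem energy_gen {ψ : ℂ × ℂ → ℂ} (hψ : IsTest ψ) (v w : ℂ × ℂ) :
    ∫ z, ‖(1 / 2) * (fderiv ℝ ψ z v + I * fderiv ℝ ψ z w)‖ ^ 2 =
      (1 / 4) * ((∫ z, ‖fderiv ℝ ψ z v‖ ^ 2) + ∫ z, ‖fderiv ℝ ψ z w‖ ^ 2) := by
  have hP := hψ.dv v
  have hQ := hψ.dv w
  have i1 : Integrable (fun z => ‖fderiv ℝ ψ z v‖ ^ 2) volume := by
    have := (hP.mul hP.conj).integrable.re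
    refine this.congr (ae_of_all _ fun z => ?_)
    exact re_mul_conj _
  have i2 : Integrable (fun z => ‖fderiv ℝ ψ z w‖ ^ 2) volume := by
    have := (hQ.mul hQ.conj).integrable.re
    refine this.congr (ae_of_all _ fun z => ?_)
    exact re_mul_conj _
  have i3 := (hP.mul hQ.conj).integrable
  have i4 := (hQ.mul hP.conj).integrable
  have h : ((∫ z, ‖(1 / 2) * (fderiv ℝ ψ z v + I * fderiv ℝ ψ z w)‖ ^ 2 : ℝ) : ℂ) =
      (((1 / 4) * ((∫ z, ‖fderiv ℝ ψ z v‖ ^ 2) + ∫ z, ‖fderiv ℝ ψ z w‖ ^ 2) : ℝ) : ℂ) := by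
    have e : ∀ z, ((‖(1 / 2) * (fderiv ℝ ψ z v + I * fderiv ℝ ψ z w)‖ ^ 2 : ℝ) : ℂ) = (1 / 4) *
        (((‖fderiv ℝ ψ z v‖ ^ 2 + ‖fderiv ℝ ψ z w‖ ^ 2 : ℝ) : ℂ) -
          I * (fderiv ℝ ψ z v * conj (fderiv ℝ ψ z w)) +
          I * (fderiv ℝ ψ z w * conj (fderiv ℝ ψ z v))) := by
      intro z
      exact norm_sq_dzbar1 _ _
    rw [← integral_complex_ofReal]
    simp only [e]
    rw [integral_const_mul, integral_add, integral_sub, integral_const_mul, integral_const_mul,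
      cross_zero_gen hψ, integral_complex_ofReal, integral_add i1 i2]
    · push_cast; ring
    · exact (i1.add i2).ofReal
    · exact i3.const_mul _
    · exact (i1.add i2).ofReal.sub (i3.const_mul _)
    · exact i4.const_mul _
  exact_mod_cast h

theorem energy_conj {ψ : ℂ × ℂ → ℂ} (hψ : IsTest ψ) (v w : ℂ × ℂ) :
    ∫ z, ‖(1 / 2) * (fderiv ℝ (fun z => conj (ψ z)) z v +
        I * fderiv ℝ (fun z => conj (ψ z)) z w)‖ ^ 2 =
      ∫ z, ‖(1 / 2) * (fderiv ℝ ψ z v + I * fderiv ℝ ψ z w)‖ ^ 2 := by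
  rw [energy_gen hψ, energy_gen hψ.conj]
  simp only [fderiv_conj_apply hψ, RCLike.norm_conj]

theorem norm_toLp_test' {ψ : ℂ × ℂ → ℂ} (hψ : IsTest ψ) :
    ‖(hψ.memLp.toLp ψ : L2)‖ ^ 2 = ∫ z, ‖ψ z‖ ^ 2 := by
  rw [norm_sq_L2]
  rw [← setIntegral_test hψ]
  refine integral_congr_ae ?_
  filter_upwards [hψ.memLp.coeFn_toLp] with z hz
  rw [hz]

theorem yt_graph0 {ψ : ℂ × ℂ → ℂ} (hψ : IsTest ψ) :
    ∃ u : Form1, ((yt hψ).1, u) ∈ graph0 ∧ ‖u‖ ≤ ‖(yt hψ).2‖ := by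
  have hc := hψ.conj
  refine ⟨_, mem_graph0_of_classical hc.1.contDiffOn hc.memLp hc.memLp_dzbar1 hc.memLp_dzbar2,
    le_of_eq ?_⟩
  have h1 := WithLp.prod_norm_sq_eq_of_L2
    (WithLp.toLp 2 (hc.memLp_dzbar1.toLp _, hc.memLp_dzbar2.toLp _) : Form1)
  have h2 := WithLp.prod_norm_sq_eq_of_L2 (yt hψ).2
  have e1 : ‖hc.memLp_dzbar1.toLp _‖ ^ 2 = ∫ z, ‖dzbar1 (fun z => conj (ψ z)) z‖ ^ 2 :=
    norm_toLp_test' hc.dzbar1
  have e2 : ‖hc.memLp_dzbar2.toLp _‖ ^ 2 = ∫ z, ‖dzbar2 (fun z => conj (ψ z)) z‖ ^ 2 :=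
    norm_toLp_test' hc.dzbar2
  have e3 : ‖(yt hψ).2.fst‖ ^ 2 = ∫ z, ‖dzbar2 ψ z‖ ^ 2 := norm_toLp_test hψ.dzbar2
  have e4 : ‖(yt hψ).2.snd‖ ^ 2 = ∫ z, ‖dzbar1 ψ z‖ ^ 2 := by
    have : ‖(yt hψ).2.snd‖ = ‖(memLp_conj hψ.memLp_dzbar1).toLp _‖ := norm_neg _
    rw [this]
    exact norm_toLp_test hψ.dzbar1
  have e5 : ∫ z, ‖dzbar1 (fun z => conj (ψ z)) z‖ ^ 2 = ∫ z, ‖dzbar1 ψ z‖ ^ 2 :=
    energy_conj hψ (1, 0) (I, 0)
  have e6 : ∫ z, ‖dzbar2 (fun z => conj (ψ z)) z‖ ^ 2 = ∫ z, ‖dzbar2 ψ z‖ ^ 2 :=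
    energy_conj hψ (0, 1) (0, I)
  refine (sq_eq_sq₀ (norm_nonneg _) (norm_nonneg _)).mp ?_
  rw [h2, e3, e4, ← e5, ← e6, ← e1, ← e2, add_comm]
  exact h1

theorem adj1_graph0 {h : L2} {w : Form1} (hw : (h, w) ∈ graph1.adjoint) :
    ∃ u : Form1, (h, u) ∈ graph0 ∧ ‖u‖ ≤ ‖w‖ := by
  have hc : (h, w) ∈ closure (Yt : Set (L2 × Form1)) := adj1_sub_closure hw
  obtain ⟨y, hy, hlim⟩ := mem_closure_iff_seq_limit.mp hc
  have hex : ∀ p ∈ Yt, ∃ u : Form1, (p.1, u) ∈ graph0 ∧ ‖u‖ ≤ ‖p.2‖ := by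
    rintro p ⟨ψ, hψ, rfl⟩
    exact yt_graph0 hψ
  choose! u hu1 hu2 using hex
  have hsub : ∀ n m, ‖u (y n) - u (y m)‖ ≤ ‖(y n).2 - (y m).2‖ := by
    intro n m
    have hd : y n - y m ∈ Yt := Yt.sub_mem (hy n) (hy m)
    have h1 := hu1 _ hd
    have h2 := graph0.sub_mem (hu1 _ (hy n)) (hu1 _ (hy m))
    have h3 := graph0.sub_mem h2 h1
    have e : ((y n).1, u (y n)) - ((y m).1, u (y m)) - ((y n - y m).1, u (y n - y m)) =
        ((0 : L2), u (y n) - u (y m) - u (y n - y m)) := by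
      refine Prod.ext ?_ rfl
      change (y n).1 - (y m).1 - ((y n).1 - (y m).1) = 0
      rw [sub_self]
    rw [e] at h3
    rw [sub_eq_zero.mp (graph0_unique h3)]
    exact hu2 _ hd
  have hcau : CauchySeq fun n => u (y n) := by
    rw [Metric.cauchySeq_iff]
    intro ε hε
    have hy2 : CauchySeq fun n => (y n).2 :=
      ((continuous_snd.tendsto _).comp hlim).cauchySeq
    obtain ⟨n0, hn0⟩ := Metric.cauchySeq_iff.mp hy2 ε hε
    refine ⟨n0, fun n hn m hm => ?_⟩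
    rw [dist_eq_norm]
    refine (hsub n m).trans_lt ?_
    rw [← dist_eq_norm]
    exact hn0 n hn m hm
  obtain ⟨v, hv⟩ := cauchySeq_tendsto_of_complete hcau
  refine ⟨v, ?_, ?_⟩
  · have h1 : Tendsto (fun n => ((y n).1, u (y n))) atTop (𝓝 (h, v)) :=
      ((continuous_fst.tendsto _).comp hlim).prodMk_nhds hv
    exact isClosed_graph0.mem_of_tendsto h1 (Eventually.of_forall fun n => hu1 _ (hy n))
  · have h1 := ((continuous_snd.tendsto (h, w)).comp hlim).norm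
    exact le_of_tendsto_of_tendsto hv.norm h1 (Eventually.of_forall fun n => hu2 _ (hy n))

/-- density of the domain of `∂̄` on functions -/
theorem dense_graph0 {x : L2} (hx : ∀ y ∈ graph0, ⟪y.1, x⟫_ℂ = 0) : x = 0 := by
  apply eq_zero_of_inner_test
  intro φ hφ
  exact hx _ (mem_graph0_of_classical hφ.1.contDiffOn hφ.memLp hφ.memLp_dzbar1 hφ.memLp_dzbar2)

theorem adj0_unique {g : L2} (h : ((0 : Form1), g) ∈ graph0.adjoint) : g = 0 := by
  rw [mem_adjoint_iff'] at h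
  apply dense_graph0
  intro y hy
  rw [← h _ hy, inner_zero_right]

/-! ### Modes and the operators -/

theorem chr_add (m n : ℤ × ℤ) (s t : Circle) : chr (m + n) s t = chr m s t * chr n s t := by
  unfold chr
  rw [Prod.fst_add, Prod.snd_add, zpow_add₀ (Circle.coe_ne_zero s),
    zpow_add₀ (Circle.coe_ne_zero t)]
  ring

theorem rotF_of_fmode {m : ℤ × ℤ} {v : Form1} (h : v ∈ fmode m) (s t : Circle) :
    rotF s t v = chr m s t • v := by
  have hs : conj (s : ℂ) * s = 1 := coe_inv_mul s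
  have ht : conj (t : ℂ) * t = 1 := coe_inv_mul t
  refine WithLp.ofLp_injective 2 (Prod.ext ?_ ?_)
  · change conj (s : ℂ) • rot s t v.fst = chr m s t • v.fst
    rw [h.1 s t, smul_smul]
    congr 1
    have e : ((m.1 + 1, m.2) : ℤ × ℤ) = m + (1, 0) := by
      refine Prod.ext rfl ?_
      simp
    rw [e, chr_add]
    have e2 : chr (1, 0) s t = s := by unfold chr; simp
    rw [e2]
    linear_combination (chr m s t) * hs
  · change conj (t : ℂ) • rot s t v.snd = chr m s t • v.snd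
    rw [h.2 s t, smul_smul]
    congr 1
    have e : ((m.1, m.2 + 1) : ℤ × ℤ) = m + (0, 1) := by
      refine Prod.ext ?_ rfl
      simp
    rw [e, chr_add]
    have e2 : chr (0, 1) s t = t := by unfold chr; simp
    rw [e2]
    linear_combination (chr m s t) * ht

theorem mode_of_adj0 {m : ℤ × ℤ} {v : Form1} {f : L2} (h : (v, f) ∈ graph0.adjoint)
    (hv : v ∈ fmode m) : f ∈ mode m := by
  intro s t
  rw [mem_adjoint_iff'] at h
  apply sub_eq_zero.mp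
  apply dense_graph0
  intro y hy
  have h1 : ⟪y.1, rot s t f⟫_ℂ = ⟪y.2, rotF s t v⟫_ℂ := by
    rw [inner_rotF, inner_rot_right]
    exact (h _ (graph0_rot s⁻¹ t⁻¹ _ _ hy)).symm
  rw [inner_sub_right, h1, rotF_of_fmode hv, inner_smul_right, inner_smul_right, h _ hy, sub_self]

theorem rotG_key (m : ℤ × ℤ) (s t : Circle) :
    chr (-1, -1) s t * chr (m.1 + 1, m.2 + 1) s t = chr m s t := by
  rw [← chr_add]
  congr 1
  refine Prod.ext ?_ ?_
  · simp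
  · simp

theorem conj_mul_conj (s t : Circle) : conj (s : ℂ) * conj (t : ℂ) = chr (-1, -1) s t := by
  unfold chr
  rw [conj_eq_zpow, conj_eq_zpow]

theorem mode_of_graph1 {m : ℤ × ℤ} {v : Form1} {h : L2} (hh : (v, h) ∈ graph1)
    (hv : v ∈ fmode m) : h ∈ mode (m.1 + 1, m.2 + 1) := by
  have h5 : h ∈ mode (m - (-1, -1)) := by
    apply mem_mode_of_conj_smul
    intro s t
    have h1 := graph1_rot s t _ _ hh
    have h2 := graph1.smul_mem (chr m s t) hh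
    have h3 := graph1.sub_mem h1 h2
    have h4 : (rotF s t v, rotG s t h) - chr m s t • (v, h) =
        ((0 : Form1), rotG s t h - chr m s t • h) := by
      refine Prod.ext ?_ rfl
      change rotF s t v - chr m s t • v = 0
      rw [rotF_of_fmode hv, sub_self]
    rw [h4] at h3
    have h5 := sub_eq_zero.mp (graph1_unique h3)
    unfold rotG at h5
    rw [conj_mul_conj] at h5
    exact h5
  have e : m - (-1, -1) = (m.1 + 1, m.2 + 1) := by
    refine Prod.ext ?_ ?_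
    · simp
    · simp
  rwa [e] at h5

theorem fmode_of_adj1 {m : ℤ × ℤ} {w : Form1} {h : L2} (hh : (h, w) ∈ graph1.adjoint)
    (hm : h ∈ mode m) : w ∈ fmode (m - (1, 1)) := by
  apply fmode_of_rotF
  intro s t
  have h1 := adj1_rot s t _ _ hh
  have h2 := graph1.adjoint.smul_mem (chr (m - (1, 1)) s t) hh
  have h3 := graph1.adjoint.sub_mem h1 h2
  have h4 : (rotG s t h, rotF s t w) - chr (m - (1, 1)) s t • (h, w) =
      ((0 : L2), rotF s t w - chr (m - (1, 1)) s t • w) := by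
    refine Prod.ext ?_ rfl
    change rotG s t h - chr (m - (1, 1)) s t • h = 0
    unfold rotG
    rw [hm s t, smul_smul, conj_mul_conj, ← chr_add]
    have e : ((-1, -1) : ℤ × ℤ) + m = m - (1, 1) := by
      refine Prod.ext ?_ ?_
      · simp; ring
      · simp; ring
    rw [e, sub_self]
  rw [h4] at h3
  exact sub_eq_zero.mp (adj1_zero h3)

end Pool.Agent.Lib.MP_169ce5_an.Ess
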