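import Pool.Agent.Lib.MP_169ce5_an.EssSub

/-!
The essential spectrum of the `∂̄`-Neumann operator on the Hartogs triangle.
-/

open MeasureTheory Complex Filter Topology Set
open scoped ContDiff ComplexConjugate ENNReal InnerProductSpace Nat

noncomputable section

namespace Pool.Agent.Lib.MP_169ce5_an.Ess

/-- The Bessel function `J_n` of the first kind of order `n`, by its power series. -/
def besselJ (n : ℕ) (x : ℝ) : ℝ :=
  ∑' k : ℕ, (-1) ^ k / ((k ! : ℝ) * ((n + k)! : ℝ)) * (x / 2) ^ (2 * k + n)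

theorem besselJ_eq (n : ℕ) (x : ℝ) : besselJ n x = (x / 2) ^ n * BB n (x ^ 2 / 4) := by
  unfold besselJ BB
  rw [← tsum_mul_left]
  congr 1
  funext k
  have h1 : (-(x ^ 2 / 4)) ^ k = (-1) ^ k * ((x / 2) ^ (2 * k)) := by
    rw [pow_mul, ← mul_pow]
    congr 1
    ring
  rw [h1, pow_add]
  ring

theorem besselJ_zero_iff (n : ℕ) {x : ℝ} (hx : 0 < x) : besselJ n x = 0 ↔ BB n (x ^ 2 / 4) = 0 := by
  rw [besselJ_eq]
  have : (x / 2) ^ n ≠ 0 := by positivity
  exact ⟨fun h => (mul_eq_zero.mp h).resolve_left this, fun h => by rw [h, mul_zero]⟩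

/-- `0` is in the essential spectrum -/
theorem essW_zero {N : Form1 →L[ℂ] Form1} (hN : IsNeumann1 N) : EssW N 0 := by
  have hinj : Function.Injective fun b : ℕ => modeOf (0, b, 0, 1) := by
    intro b b' h
    unfold modeOf at h
    simp only [Prod.mk.injEq] at h
    omega
  refine essW_of hinj fun ε hε => ?_
  obtain ⟨B, hB⟩ := exists_nat_gt (16 / ε ^ 2)
  filter_upwards [eventually_ge_atTop (B + 1)] with b hb
  have hb0 : 0 < b := by omega
  have hb0' : (0 : ℝ) < b := by exact_mod_cast hb0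
  let v : Form1 := WithLp.toLp 2 ((b : ℂ) • eL 0 (b - 1) 0 0, (1 - b : ℂ) • eL 0 b 0 0)
  have hg : (eL 0 b 0 1, v) ∈ graph0 := by
    refine mem_graph0_of (weakX_eL 0 b 0 1) ?_ ?_
    · change B2 ((b : ℂ) • eL 0 (b - 1) 0 0) = _
      rw [map_smul, B2_eL]
    · change (1 - b : ℂ) • eL 0 b 0 0 + Bz ((b : ℂ) • eL 0 (b - 1) 0 0) = _
      rw [map_smul, Bz_eL, Nat.sub_add_cancel hb0]
      have e1 : (1 - 1 : ℕ) = 0 := rfl
      rw [e1]
      push_cast
      module
  have h1 : ‖v.fst‖ ^ 2 = b * nu 0 0 := by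
    change ‖(b : ℂ) • eL 0 (b - 1) 0 0‖ ^ 2 = _
    rw [norm_smul, mul_pow, norm_sq_eL, nu_eq, Complex.norm_natCast]
    have e2 : ((0 + (b - 1) : ℕ) : ℝ) + 1 = b := by
      rw [zero_add, Nat.cast_sub hb0]
      push_cast
      ring
    rw [e2]
    push_cast
    field_simp
    ring
  have h2 : ‖eL 0 b 0 1‖ ^ 2 ≤ nu 0 0 := by
    rw [norm_sq_eL, nu_eq]
    have := nu_zero_pos
    push_cast
    exact div_le_self this.le (by nlinarith)
  have h3 := norm_fst_le v
  have hnu := nu_zero_pos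
  have hv : 0 < ‖v.fst‖ := by
    have h4 : 0 < ‖v.fst‖ ^ 2 := by rw [h1]; positivity
    by_contra hcon
    push Not at hcon
    have : ‖v.fst‖ = 0 := le_antisymm hcon (norm_nonneg _)
    rw [this] at h4
    norm_num at h4
  refine ⟨v, fmode_of_graph0 hg (eL_mem_mode 0 b 0 1), ?_, ?_⟩
  · intro h0
    have h4 : ‖v‖ = 0 := norm_eq_zero.mpr h0
    linarith
  · rw [zero_smul, sub_zero]
    refine (norm_N_le hc (neumann_box hN).1 hg).trans ?_
    refine le_of_sq_le_sq ?_ (by positivity)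
    have hbB : (B : ℝ) ≤ b := by exact_mod_cast (by omega : B ≤ b)
    have h5 : 16 ≤ ε ^ 2 * b := by
      have h6 : 16 / ε ^ 2 < b := lt_of_lt_of_le hB hbB
      rw [div_lt_iff₀ (by positivity)] at h6
      linarith
    calc (4 * ‖eL 0 b 0 1‖) ^ 2 = 16 * ‖eL 0 b 0 1‖ ^ 2 := by ring
      _ ≤ 16 * nu 0 0 := by gcongr
      _ ≤ (ε ^ 2 * b) * nu 0 0 := by gcongr
      _ = ε ^ 2 * ‖v.fst‖ ^ 2 := by rw [h1]; ring
      _ ≤ ε ^ 2 * ‖v‖ ^ 2 := by gcongr
      _ = _ := by ring

theorem essW_iff {N : Form1 →L[ℂ] Form1} (hN : IsNeumann1 N) (lam0 : ℂ) :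
    EssW N lam0 ↔ lam0 = 0 ∨ ∃ (n : ℕ) (j : ℝ), 0 < j ∧ besselJ n j = 0 ∧
      (lam0 = ((4 / j ^ 2 : ℝ) : ℂ) ∨ lam0 = ((8 / j ^ 2 : ℝ) : ℂ)) := by
  constructor
  · intro h
    by_cases h0 : lam0 = 0
    · exact Or.inl h0
    right
    obtain ⟨r0, hr0, rfl, ⟨n, hn⟩ | ⟨n, hn⟩⟩ := ess_sub hN h h0
    · have hr' : 0 < r0⁻¹ := inv_pos.mpr hr0
      have hs : 0 < Real.sqrt r0⁻¹ := Real.sqrt_pos.mpr hr'
      have e : (2 * Real.sqrt r0⁻¹) ^ 2 = 4 * r0⁻¹ := by
        rw [mul_pow, Real.sq_sqrt hr'.le]; ring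
      refine ⟨n, 2 * Real.sqrt r0⁻¹, by positivity, ?_, Or.inl ?_⟩
      · rw [besselJ_zero_iff n (by positivity), e]
        rw [div_one] at hn
        have e2 : 4 * r0⁻¹ / 4 = r0⁻¹ := by ring
        rw [e2]
        exact hn
      · rw [e]
        congr 1
        field_simp
    · have hr' : 0 < 2 * r0⁻¹ := by positivity
      have hs : 0 < Real.sqrt (2 * r0⁻¹) := Real.sqrt_pos.mpr hr'
      have e : (2 * Real.sqrt (2 * r0⁻¹)) ^ 2 = 8 * r0⁻¹ := by
        rw [mul_pow, Real.sq_sqrt hr'.le]; ring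
      refine ⟨n, 2 * Real.sqrt (2 * r0⁻¹), by positivity, ?_, Or.inr ?_⟩
      · rw [besselJ_zero_iff n (by positivity), e]
        have e2 : 8 * r0⁻¹ / 4 = r0⁻¹ / (1 / 2) := by ring
        rw [e2]
        exact hn
      · rw [e]
        congr 1
        field_simp
  · rintro (rfl | ⟨n, j, hj, hJ, rfl | rfl⟩)
    · exact essW_zero hN
    · have h1 := (besselJ_zero_iff n hj).mp hJ
      have h2 := reg2.essW hN (κ := j ^ 2 / 4) (by positivity) h1
      have e : (1 * (j ^ 2 / 4))⁻¹ = 4 / j ^ 2 := by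
        field_simp
      rwa [e] at h2
    · have h1 := (besselJ_zero_iff n hj).mp hJ
      have h2 := reg1.essW hN (κ := j ^ 2 / 4) (by positivity) h1
      have e : (1 / 2 * (j ^ 2 / 4))⁻¹ = 8 / j ^ 2 := by
        field_simp
        norm_num
      rwa [e] at h2

/-- Points of the spectrum outside the essential spectrum are isolated eigenvalues of finite
multiplicity. -/
theorem discrete {N : Form1 →L[ℂ] Form1} (hN : IsNeumann1 N) {lam0 : ℂ}
    (hlam : ¬ EssW N lam0) : (∃ δ > 0, ∀ μ ∈ spectrum ℂ N, ‖μ - lam0‖ < δ → μ = lam0) ∧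
      ∃ (n : ℕ) (e : Fin n → Form1), ∀ u : Form1, N u = lam0 • u →
        ∃ c : Fin n → ℂ, u = ∑ i, c i • e i := by
  classical
  obtain ⟨ι, b, k, hbk⟩ := exists_basis hN
  have hb := b.orthonormal
  have hNb : ∀ i, N (b i) = (k i).2.2 • b i := fun i => (hbk i).2.1
  have h1 : ∃ δ > 0, {i | ‖(k i).2.2 - lam0‖ < δ}.Finite := by
    by_contra hcon
    push Not at hcon
    apply hlam
    -- choose distinct basis vectors
    have h2 : ∀ n : ℕ, {i | ‖(k i).2.2 - lam0‖ < 1 / ((n : ℝ) + 1)}.Infinite := fun n =>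
      hcon _ (by positivity)
    have hex : ∀ (n : ℕ) (s : Finset ι), ∃ i, i ∉ s ∧ ‖(k i).2.2 - lam0‖ < 1 / ((n : ℝ) + 1) := by
      intro n s
      obtain ⟨i, hi, his⟩ := (h2 n).exists_notMem_finset s
      exact ⟨i, his, hi⟩
    choose F hF1 hF2 using hex
    let s : ℕ → Finset ι := fun n => Nat.rec ∅ (fun n t => insert (F n t) t) n
    have hs : ∀ n, s (n + 1) = insert (F n (s n)) (s n) := fun n => rfl
    have hmono : ∀ n m, n ≤ m → s n ⊆ s m := by
      intro n m hnm
      induction hnm with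
      | refl => exact Finset.Subset.refl _
      | step _ ih => exact ih.trans (by rw [hs]; exact Finset.subset_insert _ _)
    let g : ℕ → ι := fun n => F n (s n)
    have hg : ∀ n m, n < m → g n ≠ g m := by
      intro n m hnm heq
      have h3 : g n ∈ s (n + 1) := by rw [hs]; exact Finset.mem_insert_self _ _
      have h4 := hmono (n + 1) m hnm h3
      rw [heq] at h4
      exact hF1 m (s m) h4
    have hginj : Function.Injective g := by
      intro n m hnm
      rcases lt_trichotomy n m with h | h | h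
      · exact absurd hnm (hg n m h)
      · exact h
      · exact absurd hnm.symm (hg m n h)
    refine ⟨fun n => b (g n), hb.comp g hginj, ?_⟩
    refine squeeze_zero (fun n => norm_nonneg _) (fun n => ?_)
      tendsto_one_div_add_atTop_nhds_zero_nat
    rw [hNb, ← sub_smul, norm_smul, hb.1, mul_one]
    exact (hF2 n (s n)).le
  obtain ⟨δ, hδ, hfin⟩ := h1
  -- eigenvectors with eigenvalue `μ` are in the span of the corresponding basis vectors
  have hzero : ∀ (μ : ℂ) (u : Form1), N u = μ • u → ∀ i, (k i).2.2 ≠ μ → ⟪b i, u⟫_ℂ = 0 := by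
    intro μ u hu i hi
    have h3 := (neumann_symm hN).orthogonalFamily_eigenspaces hi
    exact h3 ⟨b i, Module.End.mem_eigenspace_iff.mpr (hNb i)⟩
      ⟨u, Module.End.mem_eigenspace_iff.mpr hu⟩
  have hrep : ∀ u : Form1, (∀ i, ⟪b i, u⟫_ℂ = 0) → u = 0 := by
    intro u hu
    apply b.repr.injective
    ext i
    rw [b.repr_apply_apply, hu i]
    simp
  constructor
  · -- isolated
    have hE : {μ : ℂ | Module.End.HasEigenvalue (N : Module.End ℂ Form1) μ} ∩
        Metric.ball lam0 δ ⊆ (fun i => (k i).2.2) '' (hfin.toFinset : Set ι) := by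
      rintro μ ⟨hμ, hμ2⟩
      obtain ⟨x, hx, hx0⟩ := hμ.exists_hasEigenvector
      have hx1 : N x = μ • x := Module.End.mem_eigenspace_iff.mp hx
      by_contra hno
      apply hx0
      apply hrep
      intro i
      apply hzero μ x hx1
      intro hi
      apply hno
      refine ⟨i, ?_, hi⟩
      rw [Metric.mem_ball, dist_eq_norm] at hμ2
      simp only [Finite.coe_toFinset, mem_ofPred_eq]
      rw [hi]
      exact hμ2
    have hEfin : ({μ : ℂ | Module.End.HasEigenvalue (N : Module.End ℂ Form1) μ} ∩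
        Metric.ball lam0 δ).Finite := ((Finset.finite_toSet _).image _).subset hE
    -- the spectrum in the ball is finite
    have hspec : ∀ μ ∈ spectrum ℂ N, ‖μ - lam0‖ < δ → μ ∈
        {μ : ℂ | Module.End.HasEigenvalue (N : Module.End ℂ Form1) μ} ∩ Metric.ball lam0 δ := by
      intro μ hμ hμ2
      rw [neumann_spectrum hN] at hμ
      have h3 : μ ∈ closure ({μ : ℂ | Module.End.HasEigenvalue (N : Module.End ℂ Form1) μ} ∩
          Metric.ball lam0 δ) := by
        have hball : μ ∈ Metric.ball lam0 δ := by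
          rw [Metric.mem_ball, dist_eq_norm]; exact hμ2
        rw [inter_comm]
        exact Metric.isOpen_ball.inter_closure ⟨hball, hμ⟩
      rwa [hEfin.isClosed.closure_eq] at h3
    -- choose a smaller radius
    have hfin2 : (({μ : ℂ | Module.End.HasEigenvalue (N : Module.End ℂ Form1) μ} ∩
        Metric.ball lam0 δ) \ {lam0}).Finite := hEfin.subset sdiff_subset
    obtain ⟨ε, hε, hε2⟩ : ∃ ε > 0, ∀ μ ∈ (({μ : ℂ | Module.End.HasEigenvalue
        (N : Module.End ℂ Form1) μ} ∩ Metric.ball lam0 δ) \ {lam0}), ε ≤ ‖μ - lam0‖ := by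
      have h4 : lam0 ∈ (({μ : ℂ | Module.End.HasEigenvalue
        (N : Module.End ℂ Form1) μ} ∩ Metric.ball lam0 δ) \ {lam0})ᶜ := by simp
      obtain ⟨ε, hε, hε2⟩ := Metric.isOpen_iff.mp hfin2.isClosed.isOpen_compl lam0 h4
      refine ⟨ε, hε, fun μ hμ => ?_⟩
      by_contra hlt
      push Not at hlt
      exact hε2 (by rw [Metric.mem_ball, dist_eq_norm]; exact hlt) hμ
    refine ⟨min ε δ, lt_min hε hδ, fun μ hμ hμ2 => ?_⟩
    by_contra hne
    have h5 := hspec μ hμ (lt_of_lt_of_le hμ2 (min_le_right _ _))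
    have h6 := hε2 μ ⟨h5, hne⟩
    have h7 := lt_of_lt_of_le hμ2 (min_le_left _ _)
    linarith
  · -- finite multiplicity
    let s := hfin.toFinset
    let eqv := s.equivFin
    refine ⟨s.card, fun i => b (eqv.symm i), fun u hu => ?_⟩
    refine ⟨fun i => ⟪b (eqv.symm i), u⟫_ℂ, ?_⟩
    have h3 : ∑ i : Fin s.card, ⟪b (eqv.symm i), u⟫_ℂ • b (eqv.symm i) =
        ∑ i ∈ s, ⟪b i, u⟫_ℂ • b i := by
      rw [← Finset.sum_coe_sort s]
      exact eqv.symm.sum_comp (fun i : s => ⟪b i, u⟫_ℂ • b i)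
    rw [h3]
    apply sub_eq_zero.mp
    apply hrep
    intro i
    rw [inner_sub_right]
    by_cases hi : i ∈ s
    · rw [hb.inner_right_sum _ hi, sub_self]
    · have h4 : ⟪b i, u⟫_ℂ = 0 := by
        apply hzero lam0 u hu i
        intro h5
        apply hi
        simp only [s, Finite.mem_toFinset, mem_ofPred_eq]
        rw [h5, sub_self, norm_zero]
        exact hδ
      rw [h4, zero_sub, inner_sum, Finset.sum_eq_zero, neg_zero]
      intro j hj
      have hij : i ≠ j := by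
        rintro rfl
        exact hi hj
      rw [inner_smul_right, hb.2 hij, mul_zero]

end Pool.Agent.Lib.MP_169ce5_an.Ess
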