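import Pool.Agent.Lib.MP_169ce5_an.EssTotal

/-!
Concentration of the mass on finitely many orthogonalised monomials; structure of the
orthogonalised monomials in the asymptotic regimes; compactness for `(0,2)`-forms.
-/

open MeasureTheory Complex Filter Topology Set
open scoped ContDiff ComplexConjugate ENNReal InnerProductSpace

noncomputable section

namespace Pool.Agent.Lib.MP_169ce5_an.Ess

theorem mass {w : L2 × L2 × L2} (hw : w ∈ WX) {m : ℤ × ℤ} (hm : w.1 ∈ mode m)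
    (hn : ‖w.1‖ = 1) {K : ℝ} (hK : ‖(WithLp.toLp 2 w.2 : Form1)‖ ^ 2 ≤ K) {n : ℕ} (hn0 : 0 < n)
    (hKn : 4 * K ≤ n) : ∃ j : JJ, modeOf j.1 = m ∧ lam j.1 < n ∧
      1 / (8 * (n : ℝ) ^ 2) ≤ ‖⟪w.1, pv j⟫_ℂ‖ ^ 2 := by
  classical
  have hfin := finite_mode_lam m n
  set s := hfin.toFinset with hs
  have hcard : s.card ≤ n ^ 2 := by
    have h1 : s.card ≤ (Finset.range n ×ˢ Finset.range n).card := by
      refine Finset.card_le_card_of_injOn (fun j : JJ => (j.1.2.1, j.1.2.2.2)) ?_ ?_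
      · intro j hj
        have hj' : modeOf j.1 = m ∧ lam j.1 < n := by
          simpa [hs] using hj
        have h1 := le_lam j.1
        have h2 : (j.1.2.1 : ℝ) + j.1.2.2.2 < n := by linarith [hj'.2]
        have h3 : j.1.2.1 + j.1.2.2.2 < n := by exact_mod_cast h2
        simp only [Finset.coe_product, Finset.coe_range, mem_prod, mem_Iio]
        omega
      · intro i hi j hj hij
        have hi' : modeOf i.1 = m ∧ lam i.1 < n := by simpa [hs] using hi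
        have hj' : modeOf j.1 = m ∧ lam j.1 < n := by simpa [hs] using hj
        simp only [Prod.mk.injEq] at hij
        have hi1 := hi'.1
        rw [← hj'.1] at hi1
        unfold modeOf at hi1
        simp only [Prod.mk.injEq] at hi1
        apply Subtype.ext
        refine Prod.ext ?_ (Prod.ext hij.1 (Prod.ext ?_ hij.2))
        · omega
        · omega
    rwa [Finset.card_product, Finset.card_range, ← sq] at h1
  have hn1 : (0 : ℝ) < n := by exact_mod_cast hn0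
  have happ := approx_of_finite hw (Λ := (n : ℝ)) hn1 s (by
    intro j hj hl
    have hjm : modeOf j.1 ≠ m := by
      intro hm
      apply hj
      rw [hs, Finite.mem_toFinset]
      exact ⟨hm, hl⟩
    exact inner_mode hjm (pv_mem_mode j) hm)
  set y := ∑ j ∈ s, ⟪pv j, w.1⟫_ℂ • pv j with hy
  have h1 : ‖w.1 - y‖ ≤ 1 / 2 := by
    refine le_of_sq_le_sq ?_ (by norm_num)
    refine happ.trans ?_
    rw [div_le_iff₀ hn1]
    linarith
  have h2 : 1 / 2 ≤ ‖y‖ := by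
    have h3 : ‖w.1‖ ≤ ‖w.1 - y‖ + ‖y‖ := by
      calc ‖w.1‖ = ‖(w.1 - y) + y‖ := by rw [sub_add_cancel]
        _ ≤ _ := norm_add_le _ _
    linarith
  have h3 : ‖y‖ ^ 2 = ∑ j ∈ s, ‖⟪pv j, w.1⟫_ℂ‖ ^ 2 := by
    have h4 := orthonormal_pv.inner_sum (fun j => ⟪pv j, w.1⟫_ℂ) (fun j => ⟪pv j, w.1⟫_ℂ) s
    rw [← hy, inner_self_eq_norm_sq_to_K] at h4
    have h5 : ((‖y‖ ^ 2 : ℝ) : ℂ) = ((∑ j ∈ s, ‖⟪pv j, w.1⟫_ℂ‖ ^ 2 : ℝ) : ℂ) := by
      push_cast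
      refine Eq.trans ?_ (h4.trans ?_)
      · rfl
      · refine Finset.sum_congr rfl fun j _ => ?_
        rw [Complex.conj_mul']
    exact_mod_cast h5
  by_contra hcon
  push Not at hcon
  have h4 : ∑ j ∈ s, ‖⟪pv j, w.1⟫_ℂ‖ ^ 2 ≤ ∑ j ∈ s, 1 / (8 * (n : ℝ) ^ 2) := by
    refine Finset.sum_le_sum fun j hj => ?_
    have hj' : modeOf j.1 = m ∧ lam j.1 < n := by
      rw [hs, Finite.mem_toFinset] at hj
      exact hj
    rw [norm_inner_symm]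
    exact (hcon j hj'.1 hj'.2).le
  rw [Finset.sum_const, nsmul_eq_mul] at h4
  have h5 : (s.card : ℝ) ≤ (n : ℝ) ^ 2 := by exact_mod_cast hcard
  have h6 : (s.card : ℝ) * (1 / (8 * (n : ℝ) ^ 2)) ≤ 1 / 8 := by
    calc (s.card : ℝ) * (1 / (8 * (n : ℝ) ^ 2)) ≤ (n : ℝ) ^ 2 * (1 / (8 * (n : ℝ) ^ 2)) := by
          gcongr
      _ = 1 / 8 := by field_simp
  have h7 : (1 / 2 : ℝ) ^ 2 ≤ ‖y‖ ^ 2 := by gcongr
  rw [h3] at h7
  norm_num at h7
  linarith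

theorem lowSpan_bot {i : Idx} (h1 : i.2.1 = 0) (h2 : i.2.2.2 = 0) : lowSpan i = ⊥ := by
  have : lowSet i = ∅ := by
    ext x
    simp only [mem_empty_iff_false, iff_false]
    rintro ⟨k, l, _, h4, _, h6, h7, _⟩
    omega
  unfold lowSpan
  rw [this, Submodule.span_empty]

theorem pv_hol {j : JJ} (h : lam j.1 = 0) : (pv j, (0 : Form1)) ∈ graph0 := by
  obtain ⟨⟨a, b, c, d⟩, hj⟩ := j
  have h1 : (((b * (a + 1) : ℕ) : ℝ)) + ((d * (c + 1) : ℕ) : ℝ) = 0 := h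
  have h2 : b * (a + 1) + d * (c + 1) = 0 := by exact_mod_cast h1
  have hb : b = 0 := by
    by_contra hb
    have : 0 < b * (a + 1) := Nat.mul_pos (Nat.pos_of_ne_zero hb) (by omega)
    omega
  have hd : d = 0 := by
    by_contra hd
    have : 0 < d * (c + 1) := Nat.mul_pos (Nat.pos_of_ne_zero hd) (by omega)
    omega
  subst hb hd
  have h3 : ehat (a, 0, c, 0) = eL a 0 c 0 := by
    unfold ehat
    have h4 : (lowSpan (a, 0, c, 0)).starProjection (ei (a, 0, c, 0)) ∈ lowSpan (a, 0, c, 0) :=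
      Submodule.starProjection_apply_mem _ _
    have hz : ∀ x ∈ lowSpan (a, 0, c, 0), x = 0 := by
      intro x hx
      rw [lowSpan_bot rfl rfl] at hx
      exact (Submodule.mem_bot ℂ).mp hx
    rw [hz _ h4, sub_zero]
    rfl
  have h5 := graph0.smul_mem ((‖ehat (a, 0, c, 0)‖⁻¹ : ℝ) : ℂ) (reg2.hol a c)
  have h6 : ((‖ehat (a, 0, c, 0)‖⁻¹ : ℝ) : ℂ) • (E2 a 0 c, (0 : Form1)) =
      (pv ⟨(a, 0, c, 0), hj⟩, (0 : Form1)) := by
    refine Prod.ext ?_ (smul_zero _)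
    change _ • E2 a 0 c = _ • ehat (a, 0, c, 0)
    rw [h3]
    rfl
  rwa [h6] at h5

/-! ### Eigenforms -/

theorem false_data {N : Form1 →L[ℂ] Form1} (hN : IsNeumann1 N) {m : ℤ × ℤ} {μ : ℂ} {u : Form1}
    (hu : u ∈ Wt N (false, m, μ)) (hu1 : ‖u‖ = 1) : ∃ (r c : ℝ) (f : L2), 0 < r ∧ 0 < c ∧
      μ = r ∧ (f, (c : ℂ) • u) ∈ graph0 ∧
      ((c : ℂ) • u, ((r⁻¹ : ℝ) : ℂ) • f) ∈ graph0.adjoint ∧ f ∈ mode m ∧ ‖f‖ = 1 := by
  have hu0 : u ≠ 0 := by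
    rintro rfl
    rw [norm_zero] at hu1
    exact zero_ne_one hu1
  obtain ⟨r, hr, rfl⟩ := neumann_pos hN hu.2.1 hu0
  obtain ⟨g, hg⟩ := hc.exact1 u hu.2.2
  obtain ⟨f, m1, m2, -⟩ := box_range hc hg ((neumann_box hN).1 u)
  have hNu : N u = (r : ℂ) • u := hu.2.1
  rw [hNu] at m1
  have hr0 : (r : ℂ) ≠ 0 := by exact_mod_cast hr.ne'
  have m3 : (u, ((r⁻¹ : ℝ) : ℂ) • f) ∈ graph0.adjoint := by
    have := graph0.adjoint.smul_mem (r : ℂ)⁻¹ m1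
    rw [Prod.smul_mk, smul_smul, inv_mul_cancel₀ hr0, one_smul] at this
    rw [Complex.ofReal_inv]
    exact this
  have m4 : f ∈ mode m := mode_of_adj0 m1 ((fmode m).smul_mem _ hu.1)
  have m5 := norm_sq_eig m2 m3
  rw [hu1] at m5
  have hr' : 0 < r⁻¹ := inv_pos.mpr hr
  have m6 : ‖f‖ ^ 2 = r := by
    field_simp at m5
    linarith
  set c : ℝ := Real.sqrt r⁻¹ with hcdef
  have hcpos : 0 < c := Real.sqrt_pos.mpr hr'
  refine ⟨r, c, (c : ℂ) • f, hr, hcpos, rfl, ?_, ?_, (mode m).smul_mem _ m4, ?_⟩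
  · exact graph0.smul_mem (c : ℂ) m2
  · have := graph0.adjoint.smul_mem (c : ℂ) m3
    rwa [Prod.smul_mk, smul_comm (c : ℂ)] at this
  · rw [norm_smul, Complex.norm_real, Real.norm_of_nonneg hcpos.le]
    have h1 : (c * ‖f‖) ^ 2 = 1 := by
      rw [mul_pow, hcdef, Real.sq_sqrt hr'.le, m6]
      field_simp
    have h2 : 0 ≤ c * ‖f‖ := by positivity
    nlinarith

theorem true_data {N : Form1 →L[ℂ] Form1} (hN : IsNeumann1 N) {m : ℤ × ℤ} {μ : ℂ} {u : Form1}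
    (hu : u ∈ Wt N (true, m, μ)) (hu1 : ‖u‖ = 1) : ∃ (r c : ℝ) (h : L2), 0 < r ∧ 0 < c ∧
      μ = r ∧ c ^ 2 = r⁻¹ ∧ (h, (c : ℂ) • u) ∈ graph1.adjoint ∧
      ((c : ℂ) • u, ((r⁻¹ : ℝ) : ℂ) • h) ∈ graph1 ∧ h ∈ mode (m.1 + 1, m.2 + 1) ∧ ‖h‖ = 1 := by
  have hu0 : u ≠ 0 := by
    rintro rfl
    rw [norm_zero] at hu1
    exact zero_ne_one hu1
  obtain ⟨r, hr, rfl⟩ := neumann_pos hN hu.2.1 hu0
  have hr0 : (r : ℂ) ≠ 0 := by exact_mod_cast hr.ne'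
  obtain ⟨f, h, a, b, m1, m2, m3, m4, m5⟩ := (neumann_box hN).1 u
  have hNu : N u = (r : ℂ) • u := hu.2.1
  rw [hNu] at m1 m3
  have hf : f = 0 := by
    have h1 := graph0.adjoint.smul_mem (r : ℂ) hu.2.2
    have h2 := graph0.adjoint.sub_mem m1 h1
    have h3 : ((r : ℂ) • u, f) - (r : ℂ) • (u, (0 : L2)) = ((0 : Form1), f) := by
      refine Prod.ext ?_ ?_
      · exact sub_self _
      · change f - (r : ℂ) • (0 : L2) = f
        simp
    rw [h3] at h2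
    exact adj0_unique h2
  subst hf
  have ha : a = 0 := graph0_unique m2
  rw [ha, zero_add] at m5
  subst m5
  have n3 : (u, ((r⁻¹ : ℝ) : ℂ) • h) ∈ graph1 := by
    have := graph1.smul_mem (r : ℂ)⁻¹ m3
    rw [Prod.smul_mk, smul_smul, inv_mul_cancel₀ hr0, one_smul] at this
    rw [Complex.ofReal_inv]
    exact this
  have n4 : h ∈ mode (m.1 + 1, m.2 + 1) := mode_of_graph1 m3 ((fmode m).smul_mem _ hu.1)
  have n5 : ‖h‖ ^ 2 = r := by
    have h1 := (hc.adj1 _ _).mp m4 _ n3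
    simp only at h1
    rw [inner_smul_left, inner_self_eq_norm_sq_to_K, inner_self_eq_norm_sq_to_K,
      Complex.conj_ofReal, hu1] at h1
    have h2 : ((r⁻¹ * ‖h‖ ^ 2 : ℝ) : ℂ) = ((1 : ℝ) : ℂ) := by
      push_cast at h1 ⊢
      simpa using h1
    have h3 : r⁻¹ * ‖h‖ ^ 2 = 1 := by exact_mod_cast h2
    field_simp at h3
    linarith
  have hr' : 0 < r⁻¹ := inv_pos.mpr hr
  set c : ℝ := Real.sqrt r⁻¹ with hcdef
  have hcpos : 0 < c := Real.sqrt_pos.mpr hr'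
  refine ⟨r, c, (c : ℂ) • h, hr, hcpos, rfl, Real.sq_sqrt hr'.le, ?_, ?_,
    (mode _).smul_mem _ n4, ?_⟩
  · exact graph1.adjoint.smul_mem (c : ℂ) m4
  · have := graph1.smul_mem (c : ℂ) n3
    rwa [Prod.smul_mk, smul_comm (c : ℂ)] at this
  · rw [norm_smul, Complex.norm_real, Real.norm_of_nonneg hcpos.le]
    have h1 : (c * ‖h‖) ^ 2 = 1 := by
      rw [mul_pow, hcdef, Real.sq_sqrt hr'.le, n5]
      field_simp
    have h2 : 0 ≤ c * ‖h‖ := by positivity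
    nlinarith

theorem conj_graph0 {h : L2} {w : Form1} (hw : (h, w) ∈ graph1.adjoint) :
    ∃ u : Form1, (cj h, u) ∈ graph0 ∧ ‖u‖ = ‖w‖ := by
  refine ⟨_, adj1_conj hw, ?_⟩
  have a := WithLp.prod_norm_sq_eq_of_L2
    (WithLp.toLp 2 ((-1 : ℂ) • cj w.snd, cj w.fst) : Form1)
  have b := WithLp.prod_norm_sq_eq_of_L2 w
  have c : ‖(WithLp.toLp 2 ((-1 : ℂ) • cj w.snd, cj w.fst) : Form1)‖ ^ 2 = ‖w‖ ^ 2 := by
    rw [a, b]
    change ‖(-1 : ℂ) • cj w.snd‖ ^ 2 + ‖cj w.fst‖ ^ 2 = _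
    rw [norm_smul, norm_cj, norm_cj]
    simp
    ring
  exact (sq_eq_sq₀ (norm_nonneg _) (norm_nonneg _)).mp c

/-- mass for elements of `graph0` -/
theorem mass_graph0 {f : L2} {u : Form1} (hf : (f, u) ∈ graph0) {m : ℤ × ℤ} (hm : f ∈ mode m)
    (hn : ‖f‖ = 1) {K : ℝ} (hK : ‖u‖ ^ 2 ≤ K) {n : ℕ} (hn0 : 0 < n) (hKn : 36 * K ≤ n) :
    ∃ j : JJ, modeOf j.1 = m ∧ lam j.1 < n ∧ 1 / (8 * (n : ℝ) ^ 2) ≤ ‖⟪f, pv j⟫_ℂ‖ ^ 2 := by
  obtain ⟨w, hw, hw1, hw2⟩ := graph0_WX hf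
  subst hw1
  refine mass hw hm hn (K := 9 * K) ?_ hn0 (by linarith)
  calc ‖(WithLp.toLp 2 w.2 : Form1)‖ ^ 2 ≤ (3 * ‖u‖) ^ 2 := by gcongr
    _ = 9 * ‖u‖ ^ 2 := by ring
    _ ≤ 9 * K := by gcongr

/-- Only finitely many eigenforms coming from `(0,2)`-forms have eigenvalue `≥ r0`. -/
theorem finite_true {N : Form1 →L[ℂ] Form1} (hN : IsNeumann1 N) {ι : Type} {b : ι → Form1}
    (hb : Orthonormal ℂ b) {k : ι → Bool × (ℤ × ℤ) × ℂ} (hbk : ∀ i, b i ∈ Wt N (k i)) {r0 : ℝ}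
    (hr0 : 0 < r0) : {i | (k i).1 = true ∧ r0 ≤ ‖(k i).2.2‖}.Finite := by
  let S := {i // (k i).1 = true ∧ r0 ≤ ‖(k i).2.2‖}
  have hdata : ∀ i : S, ∃ (r c : ℝ) (h : L2), 0 < r ∧ 0 < c ∧ (k i).2.2 = r ∧ c ^ 2 = r⁻¹ ∧
      (h, (c : ℂ) • b i) ∈ graph1.adjoint ∧
      ((c : ℂ) • b i, ((r⁻¹ : ℝ) : ℂ) • h) ∈ graph1 ∧
      h ∈ mode ((k i).2.1.1 + 1, (k i).2.1.2 + 1) ∧ ‖h‖ = 1 := by
    intro i
    refine true_data hN (u := b i) ?_ (hb.1 i)
    have h1 := hbk i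
    have h2 : k i = (true, (k i).2.1, (k i).2.2) := Prod.ext i.2.1 rfl
    rw [h2] at h1
    exact h1
  choose r c h h1 h2 h3 h4 h5 h6 h7 h8 using hdata
  have hort : Orthonormal ℂ h := by
    refine ⟨h8, fun i j hij => ?_⟩
    have g1 := (hc.adj1 _ _).mp (h5 j) _ (h6 i)
    simp only at g1
    have hbij : ⟪b i, b j⟫_ℂ = 0 := hb.2 (fun h => hij (Subtype.ext h))
    rw [inner_smul_left, inner_smul_left, inner_smul_right, hbij, mul_zero, mul_zero] at g1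
    refine (mul_eq_zero.mp g1).resolve_left ?_
    rw [Complex.conj_ofReal]
    exact_mod_cast (inv_pos.mpr (h1 i)).ne'
  have hrr : ∀ i : S, (r i)⁻¹ ≤ r0⁻¹ := by
    intro i
    have g1 := i.2.2
    rw [h3 i, Complex.norm_real, Real.norm_of_nonneg (h1 i).le] at g1
    exact inv_anti₀ hr0 g1
  have hen : ∀ i : S, ‖(c i : ℂ) • b i‖ ^ 2 ≤ r0⁻¹ := by
    intro i
    rw [norm_smul, hb.1 i, mul_one, Complex.norm_real, Real.norm_of_nonneg (h2 i).le, h4]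
    exact hrr i
  obtain ⟨n, hn⟩ := exists_nat_gt (36 * r0⁻¹)
  have hn0 : 0 < n := by
    have : (0 : ℝ) < n := lt_of_le_of_lt (by positivity) hn
    exact_mod_cast this
  have hj : ∀ i : S, ∃ j : JJ, modeOf j.1 = ((k i).2.1.1 + 1, (k i).2.1.2 + 1) ∧ lam j.1 < n ∧
      1 / (8 * (n : ℝ) ^ 2) ≤ ‖⟪h i, pv j⟫_ℂ‖ ^ 2 := by
    intro i
    obtain ⟨u, hu, hu2⟩ := adj1_graph0 (h5 i)
    refine mass_graph0 hu (h7 i) (h8 i) (K := r0⁻¹) ?_ hn0 hn.le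
    calc ‖u‖ ^ 2 ≤ ‖(c i : ℂ) • b i‖ ^ 2 := by gcongr
      _ ≤ _ := hen i
  have hj' : ∀ i : S, ∃ j : JJ, modeOf j.1 = -((k i).2.1.1 + 1, (k i).2.1.2 + 1) ∧
      lam j.1 < n := by
    intro i
    obtain ⟨u, hu, hu2⟩ := conj_graph0 (h5 i)
    obtain ⟨j, hj1, hj2, -⟩ := mass_graph0 hu (cj_mem_mode (h7 i))
      (by rw [norm_cj]; exact h8 i) (K := r0⁻¹) (by rw [hu2]; exact hen i) hn0 hn.le
    exact ⟨j, hj1, hj2⟩
  choose g g1 g2 g3 using hj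
  choose g' g1' g2' using hj'
  have hfin : (univ : Set S).Finite := by
    refine finite_of_image hort pv (c := 1 / (8 * (n : ℝ) ^ 2)) (by positivity) g
      (fun i _ => g3 i) ?_
    have hbox : {j : JJ | j.1.1 < 2 * n + 3 ∧ j.1.2.1 < 2 * n + 3 ∧ j.1.2.2.1 < 2 * n + 3 ∧
        j.1.2.2.2 < 2 * n + 3}.Finite := by
      have : (((Finset.range (2 * n + 3)) ×ˢ (Finset.range (2 * n + 3)) ×ˢ
        (Finset.range (2 * n + 3)) ×ˢ (Finset.range (2 * n + 3)) : Finset Idx) : Set Idx).Finite :=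
          Finset.finite_toSet _
      refine (this.preimage (Subtype.val_injective.injOn)).subset ?_
      rintro j ⟨hj1, hj2, hj3, hj4⟩
      simp only [mem_preimage, Finset.coe_product, Finset.coe_range, mem_prod, mem_Iio]
      exact ⟨hj1, hj2, hj3, hj4⟩
    refine hbox.subset ?_
    rintro _ ⟨i, -, rfl⟩
    have e1 := g1 i
    have e2 := g1' i
    have l1 := le_lam (g i).1
    have l2 := le_lam (g' i).1
    have l3 : ((g i).1.2.1 : ℝ) + (g i).1.2.2.2 < n := by linarith [g2 i]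
    have l4 : ((g' i).1.2.1 : ℝ) + (g' i).1.2.2.2 < n := by linarith [g2' i]
    have l5 : (g i).1.2.1 + (g i).1.2.2.2 < n := by exact_mod_cast l3
    have l6 : (g' i).1.2.1 + (g' i).1.2.2.2 < n := by exact_mod_cast l4
    unfold modeOf at e1 e2
    simp only [Prod.neg_mk, Prod.mk.injEq] at e1 e2
    simp only [mem_ofPred_eq]
    omega
  have := hfin.image (Subtype.val : S → ι)
  refine this.subset ?_
  intro i hi
  exact ⟨⟨i, hi⟩, mem_univ _, rfl⟩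

end Pool.Agent.Lib.MP_169ce5_an.Ess
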