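import Pool.Agent.Lib.MP_169ce5_an.Main

/-!
Inner products of the monomials and the explicit elements of the graph of `∂̄` built from them.
-/

open MeasureTheory Complex Filter Topology Set
open scoped ContDiff ComplexConjugate ENNReal InnerProductSpace

noncomputable section

namespace Pool.Agent.Lib.MP_169ce5_an.Ess

theorem inner_eL (a b c d a2 b2 c2 d2 : ℕ) : ⟪eL a b c d, eL a2 b2 c2 d2⟫_ℂ =
    ∫ z in T, Mon (a2 + b) (b2 + a) (c2 + d) (d2 + c) z * ((z.2)⁻¹ * (conj z.2)⁻¹) := by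
  rw [inner_L2]
  refine integral_congr_ae ?_
  filter_upwards [coeFn_eL a b c d, coeFn_eL a2 b2 c2 d2] with z h1 h2
  rw [h1, h2, conj_eMon]
  unfold eMon nMon Mon
  ring

theorem inner_eL_congr {a b c d a2 b2 c2 d2 a' b' c' d' a2' b2' c2' d2' : ℕ}
    (h1 : a2 + b = a2' + b') (h2 : b2 + a = b2' + a') (h3 : c2 + d = c2' + d')
    (h4 : d2 + c = d2' + c') :
    ⟪eL a b c d, eL a2 b2 c2 d2⟫_ℂ = ⟪eL a' b' c' d', eL a2' b2' c2' d2'⟫_ℂ := by
  rw [inner_eL, inner_eL, h1, h2, h3, h4]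

/-- the squared norm of `eL s 0 r 0` -/
def nu (s r : ℕ) : ℝ := ‖eL s 0 r 0‖ ^ 2

theorem inner_eL_eq {a b c d a2 b2 c2 d2 s r : ℕ}
    (h1 : a2 + b = s) (h2 : b2 + a = s) (h3 : c2 + d = r) (h4 : d2 + c = r) :
    ⟪eL a b c d, eL a2 b2 c2 d2⟫_ℂ = (nu s r : ℂ) := by
  have h : ⟪eL a b c d, eL a2 b2 c2 d2⟫_ℂ = ⟪eL s 0 r 0, eL s 0 r 0⟫_ℂ :=
    inner_eL_congr (by omega) (by omega) (by omega) (by omega)
  rw [h, inner_self_eq_norm_sq_to_K]
  unfold nu
  push_cast
  rfl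

theorem nu_rec1 (s r : ℕ) : ((s : ℝ) + 2) * nu (s + 1) r = (s + 1) * nu s r := by
  have h := weakX_pair1 (weakX_eL s 0 r 0) (s + 1) 0 r 0
  simp only [Nat.cast_zero, zero_smul, map_zero, inner_zero_right] at h
  rw [inner_sub_left, inner_smul_left, inner_smul_left,
    inner_eL_eq (s := s + 1) (r := r) (by omega) (by omega) (by omega) (by omega),
    inner_eL_eq (s := s) (r := r) (by omega) (by omega) (by omega) (by omega)] at h
  simp only [map_add, map_natCast, map_one] at h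
  have h2 : ((((s : ℝ) + 2) * nu (s + 1) r : ℝ) : ℂ) = (((s + 1) * nu s r : ℝ) : ℂ) := by
    push_cast
    push_cast at h
    linear_combination -h
  exact_mod_cast h2

theorem nu_rec2 (s r : ℕ) : ((r : ℝ) + 2) * nu s (r + 1) = (r + 1) * nu s r := by
  have h := weakX_pair2 (weakX_eL s 0 r 0) s 0 (r + 1) 0
  simp only [Nat.cast_zero, zero_smul, map_zero, inner_zero_right] at h
  rw [inner_sub_left, inner_smul_left, inner_smul_left,
    inner_eL_eq (s := s) (r := r + 1) (by omega) (by omega) (by omega) (by omega),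
    inner_eL_eq (s := s) (r := r) (by omega) (by omega) (by omega) (by omega)] at h
  simp only [map_add, map_natCast, map_one] at h
  have h2 : ((((r : ℝ) + 2) * nu s (r + 1) : ℝ) : ℂ) = (((r + 1) * nu s r : ℝ) : ℂ) := by
    push_cast
    push_cast at h
    linear_combination -h
  exact_mod_cast h2

theorem nu_eq (s r : ℕ) : nu s r = nu 0 0 / ((s + 1) * (r + 1)) := by
  induction s with
  | zero =>
    induction r with
    | zero => simp
    | succ r ih =>
      have h := nu_rec2 0 r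
      rw [ih] at h
      have h1 : (0 : ℝ) < (r : ℝ) + 1 := by positivity
      have h2 : (0 : ℝ) < (r : ℝ) + 2 := by positivity
      rw [eq_div_iff (by push_cast; positivity)]
      push_cast at h ⊢
      field_simp at h
      linarith
  | succ s ih =>
    have h := nu_rec1 s r
    rw [ih] at h
    have h1 : (0 : ℝ) < (s : ℝ) + 1 := by positivity
    have h2 : (0 : ℝ) < (s : ℝ) + 2 := by positivity
    have h3 : (0 : ℝ) < (r : ℝ) + 1 := by positivity
    rw [eq_div_iff (by push_cast; positivity)]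
    push_cast at h ⊢
    field_simp at h
    linarith

theorem eL_ne_zero : eL 0 0 0 0 ≠ 0 := by
  intro h
  have h1 := coeFn_eL 0 0 0 0
  rw [h] at h1
  have h2 : ∀ᵐ z ∂muT, False := by
    filter_upwards [h1, Lp.coeFn_zero ℂ 2 muT, ae_restrict_mem measurableSet_T] with z h3 h4 hz
    rw [h4] at h3
    unfold eMon Mon at h3
    simp only [Pi.zero_apply, pow_zero, mul_one, one_mul] at h3
    exact inv_ne_zero (snd_ne_zero hz) h3.symm
  have h3 : muT = 0 := by
    rw [← Measure.measure_univ_eq_zero]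
    have := ae_iff.mp h2
    simpa using this
  have h4 : (volume : Measure (ℂ × ℂ)) T = 0 := by
    have := Measure.restrict_apply_univ (μ := (volume : Measure (ℂ × ℂ))) T
    rw [← this]
    have h6 : muT univ = 0 := by rw [h3]; rfl
    exact h6
  have h5 : T.Nonempty := ⟨(0, 1 / 2), by
    constructor
    · simp
    · simp only
      rw [norm_div]; norm_num⟩
  exact (isOpen_T.measure_pos volume h5).ne' h4

theorem nu_zero_pos : 0 < nu 0 0 := by
  unfold nu
  have := norm_pos_iff.mpr eL_ne_zero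
  positivity

theorem nu_pos (s r : ℕ) : 0 < nu s r := by
  rw [nu_eq]
  have := nu_zero_pos
  positivity

theorem norm_sq_eL (a b c d : ℕ) : ‖eL a b c d‖ ^ 2 = nu (a + b) (c + d) := by
  have h : ⟪eL a b c d, eL a b c d⟫_ℂ = (nu (a + b) (c + d) : ℂ) :=
    inner_eL_eq (by omega) (by omega) (by omega) (by omega)
  rw [inner_self_eq_norm_sq_to_K] at h
  have h2 : ((‖eL a b c d‖ ^ 2 : ℝ) : ℂ) = ((nu (a + b) (c + d) : ℝ) : ℂ) := by
    push_cast
    exact h
  exact_mod_cast h2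

theorem norm_sub_sq_complex {H : Type*} [NormedAddCommGroup H] [InnerProductSpace ℂ H] {x y : H}
    {r : ℝ} (h : ⟪x, y⟫_ℂ = (r : ℂ)) : ‖x - y‖ ^ 2 = ‖x‖ ^ 2 - 2 * r + ‖y‖ ^ 2 := by
  rw [norm_sub_sq (𝕜 := ℂ), h]
  simp

/-- norm of `w2 e` -/
theorem norm_diff2 (a b c d : ℕ) : ‖eL a b c d - eL a b (c + 1) (d + 1)‖ ^ 2 =
    2 * nu 0 0 / ((a + b + 1) * ((c + d + 1) * (c + d + 2) * (c + d + 3))) := by
  rw [norm_sub_sq_complex (r := nu (a + b) (c + d + 1))
    (inner_eL_eq (by omega) (by omega) (by omega) (by omega)), norm_sq_eL, norm_sq_eL]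
  have e : (c + 1 + (d + 1)) = c + d + 2 := by omega
  rw [e, nu_eq (a + b) (c + d), nu_eq (a + b) (c + d + 1), nu_eq (a + b) (c + d + 2)]
  push_cast
  have h1 : (0 : ℝ) < (a : ℝ) + b + 1 := by positivity
  have h2 : (0 : ℝ) < (c : ℝ) + d + 1 := by positivity
  have h3 : (0 : ℝ) < (c : ℝ) + d + 1 + 1 := by positivity
  have h4 : (0 : ℝ) < (c : ℝ) + d + 2 + 1 := by positivity
  have h5 : (0 : ℝ) < (c : ℝ) + d + 2 := by positivity
  have h6 : (0 : ℝ) < (c : ℝ) + d + 3 := by positivity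
  field_simp
  ring

/-- norm of `w1 e` -/
theorem norm_diff1 (a b c d : ℕ) : ‖eL a b c d - eL (a + 1) (b + 1) c d‖ ^ 2 =
    2 * nu 0 0 / ((c + d + 1) * ((a + b + 1) * (a + b + 2) * (a + b + 3))) := by
  rw [norm_sub_sq_complex (r := nu (a + b + 1) (c + d))
    (inner_eL_eq (by omega) (by omega) (by omega) (by omega)), norm_sq_eL, norm_sq_eL]
  have e : (a + 1 + (b + 1)) = a + b + 2 := by omega
  rw [e, nu_eq (a + b) (c + d), nu_eq (a + b + 1) (c + d), nu_eq (a + b + 2) (c + d)]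
  push_cast
  have h1 : (0 : ℝ) < (a : ℝ) + b + 1 := by positivity
  have h2 : (0 : ℝ) < (c : ℝ) + d + 1 := by positivity
  have h3 : (0 : ℝ) < (a : ℝ) + b + 1 + 1 := by positivity
  have h4 : (0 : ℝ) < (a : ℝ) + b + 2 + 1 := by positivity
  have h5 : (0 : ℝ) < (a : ℝ) + b + 2 := by positivity
  have h6 : (0 : ℝ) < (a : ℝ) + b + 3 := by positivity
  field_simp
  ring

/-! ### Multiplication operators on monomials -/

theorem B2_eL (a b c d : ℕ) : B2 (eL a b c d) = eL a b c (d + 1) := by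
  apply Lp.ext
  unfold B2
  filter_upwards [coeFn_mulC measurable_conj_snd norm_conj_snd_le (eL a b c d), coeFn_eL a b c d,
    coeFn_eL a b c (d + 1)] with z h1 h2 h3
  rw [h1, h2, h3]
  unfold eMon Mon
  ring

theorem Bz_eL (a b c d : ℕ) : Bz (eL a b c d) = eL a (b + 1) c d := by
  apply Lp.ext
  unfold Bz
  filter_upwards [coeFn_mulC measurable_conj_zt norm_conj_zt_le (eL a b c d), coeFn_eL a b c d,
    coeFn_eL a (b + 1) c d] with z h1 h2 h3
  rw [h1, h2, h3]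
  unfold eMon Mon
  ring

theorem inner_B2 (a b c d : ℕ) (g : L2) : ⟪eL a b c d, B2 g⟫_ℂ = ⟪eL a b (c + 1) d, g⟫_ℂ := by
  rw [inner_L2, inner_L2]
  unfold B2
  refine integral_congr_ae ?_
  filter_upwards [coeFn_mulC measurable_conj_snd norm_conj_snd_le g, coeFn_eL a b c d,
    coeFn_eL a b (c + 1) d] with z h1 h2 h3
  rw [h1, h2, h3]
  unfold eMon Mon
  simp only [map_mul, map_pow, map_inv₀, Complex.conj_conj]
  ring

theorem inner_Bz (a b c d : ℕ) (g : L2) : ⟪eL a b c d, Bz g⟫_ℂ = ⟪eL (a + 1) b c d, g⟫_ℂ := by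
  rw [inner_L2, inner_L2]
  unfold Bz
  refine integral_congr_ae ?_
  filter_upwards [coeFn_mulC measurable_conj_zt norm_conj_zt_le g, coeFn_eL a b c d,
    coeFn_eL (a + 1) b c d] with z h1 h2 h3
  rw [h1, h2, h3]
  unfold eMon Mon
  simp only [map_mul, map_pow, Complex.conj_conj]
  ring

theorem norm_B2_le (g : L2) : ‖B2 g‖ ≤ ‖g‖ := norm_mulC_le _ _ _

theorem norm_Bz_le (g : L2) : ‖Bz g‖ ≤ ‖g‖ := norm_mulC_le _ _ _

/-! ### The exact chain relations -/

theorem inner_S1_eL (a b c d : ℕ) (g : L2) : ⟪S1 (eL a b c d), S1 g⟫_ℂ =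
    ⟪eL a b c d, g⟫_ℂ - ⟪eL (a + 1) (b + 1) c d, g⟫_ℂ := by
  rw [inner_S1, ← inner_sub_left, inner_L2]
  refine integral_congr_ae ?_
  filter_upwards [coeFn_eL a b c d, coeFn_eL (a + 1) (b + 1) c d,
    Lp.coeFn_sub (eL a b c d) (eL (a + 1) (b + 1) c d)] with z h1 h2 h3
  rw [h3, Pi.sub_apply, h1, h2, w1_eq]
  unfold eMon Mon
  simp only [map_mul, map_pow, map_sub, Complex.conj_conj]
  ring

theorem inner_S2_eL (a b c d : ℕ) (g : L2) : ⟪S2 (eL a b c d), S2 g⟫_ℂ =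
    ⟪eL a b c d, g⟫_ℂ - ⟪eL a b (c + 1) (d + 1), g⟫_ℂ := by
  rw [inner_S2, ← inner_sub_left, inner_L2]
  refine integral_congr_ae ?_
  filter_upwards [coeFn_eL a b c d, coeFn_eL a b (c + 1) (d + 1),
    Lp.coeFn_sub (eL a b c d) (eL a b (c + 1) (d + 1))] with z h1 h2 h3
  rw [h3, Pi.sub_apply, h1, h2, w2_eq]
  unfold eMon Mon
  simp only [map_mul, map_pow, map_sub, Complex.conj_conj]
  ring

theorem chain1 {f g1 g2 : L2} (h : WeakX f g1 g2) (a b c d : ℕ) :
    ⟪eL a b c d, g1⟫_ℂ - ⟪eL (a + 1) (b + 1) c d, g1⟫_ℂ =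
      ((a : ℂ) + 1) * ⟪eL a (b + 1) c d, f⟫_ℂ - (a : ℂ) * ⟪eL (a - 1) b c d, f⟫_ℂ := by
  rw [← inner_S1_eL, weakX_pair1 h, inner_sub_left, inner_smul_left, inner_smul_left]
  simp only [map_add, map_natCast, map_one]

theorem chain2 {f g1 g2 : L2} (h : WeakX f g1 g2) (a b c d : ℕ) :
    ⟪eL a b c d, g2⟫_ℂ - ⟪eL a b (c + 1) (d + 1), g2⟫_ℂ =
      ((c : ℂ) + 1) * ⟪eL a b c (d + 1), f⟫_ℂ - (c : ℂ) * ⟪eL a b (c - 1) d, f⟫_ℂ := by
  rw [← inner_S2_eL, weakX_pair2 h, inner_sub_left, inner_smul_left, inner_smul_left]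
  simp only [map_add, map_natCast, map_one]

end Pool.Agent.Lib.MP_169ce5_an.Ess
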