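import Pool.Agent.Lib.MP_169ce5_an.EssNorm

/-!
The two asymptotic regimes: monomials concentrating at the face `|z₂| = 1` and at the face
`|z₁| = |z₂|`.
-/

open MeasureTheory Complex Filter Topology Set
open scoped ContDiff ComplexConjugate ENNReal InnerProductSpace

noncomputable section

namespace Pool.Agent.Lib.MP_169ce5_an.Ess

/-- `‖x k‖ = o(1 / √k)` -/
def Small {H : Type*} [NormedAddCommGroup H] (x : ℕ → H) : Prop :=
  Tendsto (fun k : ℕ => Real.sqrt ((k : ℝ) + 1) * ‖x k‖) atTop (𝓝 0)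

section Small

variable {H : Type*} [NormedAddCommGroup H]

theorem Small.congr {x y : ℕ → H} (hx : Small x) (h : ∀ k, y k = x k) : Small y := by
  have : y = x := funext h
  rw [this]; exact hx

theorem Small.of_le {G : Type*} [NormedAddCommGroup G] {x : ℕ → H} {y : ℕ → G} (hy : Small y)
    (h : ∀ k, ‖x k‖ ≤ ‖y k‖) : Small x := by
  refine squeeze_zero (fun k => by positivity) (fun k => ?_) hy
  exact mul_le_mul_of_nonneg_left (h k) (Real.sqrt_nonneg _)

theorem Small.zero : Small (fun _ : ℕ => (0 : H)) := by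
  unfold Small
  simp

theorem Small.add {x y : ℕ → H} (hx : Small x) (hy : Small y) : Small (fun k => x k + y k) := by
  have h := Tendsto.add hx hy
  rw [add_zero] at h
  refine squeeze_zero (fun k => by positivity) (fun k => ?_) h
  rw [← mul_add]
  exact mul_le_mul_of_nonneg_left (norm_add_le _ _) (Real.sqrt_nonneg _)

theorem Small.smul [NormedSpace ℂ H] {x : ℕ → H} (hx : Small x) (c : ℂ) : Small (fun k => c • x k) := by
  have h := Tendsto.const_mul ‖c‖ hx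
  rw [mul_zero] at h
  refine h.congr fun k => ?_
  rw [norm_smul]
  ring

theorem Small.neg {x : ℕ → H} (hx : Small x) : Small (fun k => - x k) :=
  hx.of_le fun k => by rw [norm_neg]

theorem Small.sub {x y : ℕ → H} (hx : Small x) (hy : Small y) : Small (fun k => x k - y k) :=
  (hx.add hy.neg).congr fun k => by rw [sub_eq_add_neg]

theorem Small.sum {ι : Type*} (s : Finset ι) {x : ι → ℕ → H} (h : ∀ i ∈ s, Small (x i)) :
    Small (fun k => ∑ i ∈ s, x i k) := by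
  classical
  induction s using Finset.induction_on with
  | empty => simpa using Small.zero
  | insert i s his ih =>
    have h1 := h i (Finset.mem_insert_self i s)
    have h2 := ih fun j hj => h j (Finset.mem_insert_of_mem hj)
    exact (h1.add h2).congr fun k => by rw [Finset.sum_insert his]

theorem Small.of_sq_le {x : ℕ → H} {C : ℝ} (h : ∀ k : ℕ, ‖x k‖ ^ 2 ≤ C / ((k : ℝ) + 1) ^ 3) :
    Small x := by
  have hC : 0 ≤ C := by
    have := (sq_nonneg _).trans (h 0)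
    simpa using this
  have h1 : Tendsto (fun k : ℕ => Real.sqrt C * (1 / ((k : ℝ) + 1))) atTop (𝓝 0) := by
    have := (tendsto_one_div_add_atTop_nhds_zero_nat (𝕜 := ℝ)).const_mul (Real.sqrt C)
    rwa [mul_zero] at this
  refine squeeze_zero (fun k => by positivity) (fun k => ?_) h1
  have hk : (0 : ℝ) < (k : ℝ) + 1 := by positivity
  refine le_of_sq_le_sq ?_ (by positivity)
  rw [mul_pow, mul_pow, Real.sq_sqrt hk.le, Real.sq_sqrt hC]
  calc ((k : ℝ) + 1) * ‖x k‖ ^ 2 ≤ ((k : ℝ) + 1) * (C / ((k : ℝ) + 1) ^ 3) :=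
        mul_le_mul_of_nonneg_left (h k) hk.le
    _ = C * (1 / ((k : ℝ) + 1)) ^ 2 := by field_simp

end Small

theorem Small.pair {x y : ℕ → L2} (hx : Small x) (hy : Small y) :
    Small (fun k => (WithLp.toLp 2 (x k, y k) : Form1)) := by
  have h := Tendsto.add hx hy
  rw [add_zero] at h
  refine squeeze_zero (fun k => by positivity) (fun k => ?_) h
  rw [← mul_add]
  refine mul_le_mul_of_nonneg_left ?_ (Real.sqrt_nonneg _)
  have h1 : ‖(WithLp.toLp 2 (x k, y k) : Form1)‖ ^ 2 = ‖x k‖ ^ 2 + ‖y k‖ ^ 2 :=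
    WithLp.prod_norm_sq_eq_of_L2 _
  refine le_of_sq_le_sq ?_ (by positivity)
  rw [h1]
  nlinarith [norm_nonneg (x k), norm_nonneg (y k)]

theorem small_diff2 (a b c d : ℕ) :
    Small (fun k => eL a b (k + c) d - eL a b (k + c + 1) (d + 1)) := by
  refine Small.of_sq_le (C := 2 * nu 0 0) fun k => ?_
  rw [norm_diff2]
  have h0 := nu_zero_pos
  have h1 : (0 : ℝ) ≤ a := by positivity
  have h2 : (0 : ℝ) ≤ b := by positivity
  have h3 : (0 : ℝ) ≤ c := by positivity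
  have h4 : (0 : ℝ) ≤ d := by positivity
  have h5 : (0 : ℝ) ≤ k := by positivity
  refine div_le_div_of_nonneg_left (by positivity) (by positivity) ?_
  push_cast
  have e1 : (k : ℝ) + 1 ≤ k + c + d + 1 := by linarith
  have e2 : (k : ℝ) + 1 ≤ k + c + d + 2 := by linarith
  have e3 : (k : ℝ) + 1 ≤ k + c + d + 3 := by linarith
  have e4 : (1 : ℝ) ≤ a + b + 1 := by linarith
  calc ((k : ℝ) + 1) ^ 3 = 1 * (((k : ℝ) + 1) * ((k : ℝ) + 1) * ((k : ℝ) + 1)) := by ring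
    _ ≤ _ := by gcongr

theorem small_diff1 (a b c d : ℕ) :
    Small (fun k => eL (k + a) b c d - eL (k + a + 1) (b + 1) c d) := by
  refine Small.of_sq_le (C := 2 * nu 0 0) fun k => ?_
  rw [norm_diff1]
  have h0 := nu_zero_pos
  have h1 : (0 : ℝ) ≤ a := by positivity
  have h2 : (0 : ℝ) ≤ b := by positivity
  have h3 : (0 : ℝ) ≤ c := by positivity
  have h4 : (0 : ℝ) ≤ d := by positivity
  have h5 : (0 : ℝ) ≤ k := by positivity
  refine div_le_div_of_nonneg_left (by positivity) (by positivity) ?_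
  push_cast
  have e1 : (k : ℝ) + 1 ≤ k + a + b + 1 := by linarith
  have e2 : (k : ℝ) + 1 ≤ k + a + b + 2 := by linarith
  have e3 : (k : ℝ) + 1 ≤ k + a + b + 3 := by linarith
  have e4 : (1 : ℝ) ≤ c + d + 1 := by linarith
  calc ((k : ℝ) + 1) ^ 3 = 1 * (((k : ℝ) + 1) * ((k : ℝ) + 1) * ((k : ℝ) + 1)) := by ring
    _ ≤ _ := by gcongr

/-- An asymptotic regime. -/
structure Reg (θ ρ : ℝ) (E : ℕ → ℕ → ℕ → L2) (y : ℕ → ℕ → ℕ → Form1)
    (md : ℕ → ℕ → ℕ → ℤ × ℤ) : Prop where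
  hθ : 0 < θ
  hρ : 0 < ρ
  chain : ∀ {h : L2} {v : Form1}, (h, v) ∈ graph0 → ∀ a b k,
    ⟪y a b k, v⟫_ℂ - ⟪y (a + 1) (b + 1) k, v⟫_ℂ =
      ((a : ℂ) + 1) * ⟪E a (b + 1) k, h⟫_ℂ - (a : ℂ) * ⟪E (a - 1) b k, h⟫_ℂ
  hol : ∀ a k, (E a 0 k, (0 : Form1)) ∈ graph0
  quasi : ∀ a b, ∃ (η : ℕ → L2) (v : ℕ → Form1), (∀ k, (η k, v k) ∈ graph0) ∧
    (∀ k, η k ∈ mode (md a (b + 1) k)) ∧ Small (fun k => η k - E a (b + 1) k) ∧
    Small (fun k => v k - ((θ * (b + 1) : ℝ) : ℂ) • y a b k)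
  gram : ∀ {a b a' b' : ℕ}, a' + b = b' + a → ∀ k : ℕ,
    ((k : ℂ) + 1) * ⟪E a b k, E a' b' k⟫_ℂ = ((nu 0 0 / ((a' + b : ℕ) + 1) : ℝ) : ℂ)
  gramy : ∀ {a b a' b' : ℕ}, a' + b = b' + a →
    Tendsto (fun k : ℕ => ((k : ℂ) + 1) * ⟪y a b k, y a' b' k⟫_ℂ) atTop
      (𝓝 ((ρ * nu 0 0 / ((a' + b : ℕ) + 1) : ℝ) : ℂ))
  normy : ∀ a b (k : ℕ), ((k : ℝ) + 1) * ‖y a b k‖ ^ 2 ≤ 2 * nu 0 0
  md_congr : ∀ {a b a' b' : ℕ}, a + b' = a' + b → ∀ k, md a b k = md a' b' k
  md_inj : ∀ a b, Function.Injective (md a b)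

/-! ### The face `|z₂| = 1` -/

/-- monomials concentrating at `|z₂| = 1` -/
def E2 (a b k : ℕ) : L2 := eL a b k 0

/-- the corresponding forms -/
def y2 (a b k : ℕ) : Form1 := WithLp.toLp 2 (eL a b (k + 1) 0, (0 : L2))

/-- the corresponding modes -/
def md2 (a b k : ℕ) : ℤ × ℤ := modeOf (a, b, k, 0)

theorem mem_graph0_of {f : L2} {u : Form1} {g1 g2 : L2} (h : WeakX f g1 g2)
    (h1 : B2 u.fst = g1) (h2 : u.snd + Bz u.fst = g2) : (f, u) ∈ graph0 := by
  subst h1 h2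
  exact h.weakDbar0

theorem graph0_weakX {f : L2} {u : Form1} (h : (f, u) ∈ graph0) :
    WeakX f (B2 u.fst) (u.snd + Bz u.fst) := WeakDbar0.weakX h

theorem eL_mem_mode (a b c d : ℕ) : eL a b c d ∈ mode (modeOf (a, b, c, d)) :=
  ei_mem_mode (a, b, c, d)

theorem eL_mem_mode' {a b c d : ℕ} {m : ℤ × ℤ} (h : modeOf (a, b, c, d) = m) :
    eL a b c d ∈ mode m := h ▸ eL_mem_mode a b c d

theorem quasi2 (a b : ℕ) : ∃ (η : ℕ → L2) (v : ℕ → Form1), (∀ k, (η k, v k) ∈ graph0) ∧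
    (∀ k, η k ∈ mode (md2 a (b + 1) k)) ∧ Small (fun k => η k - E2 a (b + 1) k) ∧
    Small (fun k => v k - (((1 : ℝ) * (b + 1) : ℝ) : ℂ) • y2 a b k) := by
  refine ⟨fun k => (1 - b : ℂ) • eL a (b + 1) (k + 1) 1 + (b : ℂ) • eL a (b + 1) (k + 2) 2,
    fun k => WithLp.toLp 2
      (((b : ℂ) + 1) • ((1 - b : ℂ) • eL a b (k + 1) 0 + (b : ℂ) • eL a b (k + 2) 1),
      (b * (b - 1) : ℂ) • (eL a (b + 1) (k + 1) 0 - eL a (b + 1) (k + 2) 1)), ?_, ?_, ?_, ?_⟩
  · intro k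
    have h := ((weakX_eL a (b + 1) (k + 1) 1).smul (1 - b : ℂ)).add
      ((weakX_eL a (b + 1) (k + 2) 2).smul (b : ℂ))
    refine mem_graph0_of h ?_ ?_
    · change B2 (((b : ℂ) + 1) • ((1 - b : ℂ) • eL a b (k + 1) 0 + (b : ℂ) • eL a b (k + 2) 1)) = _
      simp only [map_smul, map_add, B2_eL, Nat.add_sub_cancel, Nat.cast_add, Nat.cast_one]
      module
    · change (b * (b - 1) : ℂ) • (eL a (b + 1) (k + 1) 0 - eL a (b + 1) (k + 2) 1) +
        Bz (((b : ℂ) + 1) • ((1 - b : ℂ) • eL a b (k + 1) 0 + (b : ℂ) • eL a b (k + 2) 1)) = _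
      simp only [map_smul, map_add, Bz_eL]
      have e1 : (1 - 1 : ℕ) = 0 := rfl
      have e2 : (2 - 1 : ℕ) = 1 := rfl
      rw [e1, e2]
      push_cast
      module
  · intro k
    refine (mode _).add_mem ((mode _).smul_mem _ (eL_mem_mode' ?_))
      ((mode _).smul_mem _ (eL_mem_mode' ?_))
    · unfold md2 modeOf
      simp only [Prod.mk.injEq]
      push_cast
      constructor
      · first | rfl | trivial | ring
      · ring
    · unfold md2 modeOf
      simp only [Prod.mk.injEq]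
      push_cast
      constructor
      · first | rfl | trivial | ring
      · ring
  · have h1 := small_diff2 a (b + 1) 0 0
    have h2 := (small_diff2 a (b + 1) 1 1).smul (b : ℂ)
    refine (h1.add h2).neg.congr fun k => ?_
    unfold E2
    simp only [add_zero, zero_add]
    module
  · have h1 := (small_diff2 a b 1 0).smul (-((b : ℂ) * (b + 1)))
    have h2 := (small_diff2 a (b + 1) 1 0).smul ((b : ℂ) * (b - 1))
    refine (h1.pair h2).congr fun k => ?_
    unfold y2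
    refine WithLp.ofLp_injective 2 (Prod.ext ?_ ?_)
    · change ((b : ℂ) + 1) • ((1 - b : ℂ) • eL a b (k + 1) 0 + (b : ℂ) • eL a b (k + 2) 1) -
        (((1 : ℝ) * (b + 1) : ℝ) : ℂ) • eL a b (k + 1) 0 =
        (-((b : ℂ) * (b + 1))) • (eL a b (k + 1) 0 - eL a b (k + 1 + 1) (0 + 1))
      simp only [zero_add]
      push_cast
      module
    · change (b * (b - 1) : ℂ) • (eL a (b + 1) (k + 1) 0 - eL a (b + 1) (k + 2) 1) -
        (((1 : ℝ) * (b + 1) : ℝ) : ℂ) • (0 : L2) =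
        ((b : ℂ) * (b - 1)) • (eL a (b + 1) (k + 1) 0 - eL a (b + 1) (k + 1 + 1) (0 + 1))
      simp only [zero_add, smul_zero, sub_zero]

theorem tendsto_ratio : Tendsto (fun k : ℕ => ((k : ℝ) + 1) / ((k : ℝ) + 2)) atTop (𝓝 1) := by
  have h : Tendsto (fun k : ℕ => 1 - 1 / (((k + 1 : ℕ) : ℝ) + 1)) atTop (𝓝 (1 - 0)) :=
    tendsto_const_nhds.sub
      ((tendsto_one_div_add_atTop_nhds_zero_nat (𝕜 := ℝ)).comp (tendsto_add_atTop_nat 1))
  rw [sub_zero] at h
  refine h.congr fun k => ?_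
  push_cast
  have : (0 : ℝ) < (k : ℝ) + 2 := by positivity
  have : (0 : ℝ) < (k : ℝ) + 1 + 1 := by positivity
  field_simp
  ring

theorem reg2 : Reg 1 1 E2 y2 md2 where
  hθ := one_pos
  hρ := one_pos
  chain := by
    intro h v hv a b k
    have e : ∀ a b, ⟪y2 a b k, v⟫_ℂ = ⟪eL a b k 0, B2 v.fst⟫_ℂ := by
      intro a b
      rw [inner_B2, WithLp.prod_inner_apply]
      change ⟪eL a b (k + 1) 0, v.fst⟫_ℂ + ⟪(0 : L2), v.snd⟫_ℂ = _
      rw [inner_zero_left, add_zero]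
    rw [e, e]
    exact chain1 (graph0_weakX hv) a b k 0
  hol := by
    intro a k
    refine mem_graph0_of (weakX_eL a 0 k 0) ?_ ?_
    · change B2 (0 : L2) = _
      simp
    · change (0 : L2) + Bz (0 : L2) = _
      simp
  quasi := quasi2
  gram := by
    intro a b a' b' h k
    unfold E2
    rw [inner_eL_eq (s := a' + b) (r := k) (by omega) (by omega) (by omega) (by omega), nu_eq]
    push_cast
    have h1 : ((k : ℂ) + 1) ≠ 0 := by exact_mod_cast (by positivity : ((k : ℝ) + 1) ≠ 0)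
    have h2 : ((a' : ℂ) + b + 1) ≠ 0 := by
      exact_mod_cast (by positivity : ((a' : ℝ) + b + 1) ≠ 0)
    field_simp
  gramy := by
    intro a b a' b' h
    have h1 : Tendsto (fun k : ℕ => ((((k : ℝ) + 1) / ((k : ℝ) + 2) *
        (nu 0 0 / ((a' + b : ℕ) + 1)) : ℝ) : ℂ)) atTop
        (𝓝 (((1 * (nu 0 0 / ((a' + b : ℕ) + 1)) : ℝ)) : ℂ)) :=
      (Complex.continuous_ofReal.tendsto _).comp (tendsto_ratio.mul_const _)
    have e : (1 : ℝ) * nu 0 0 / ((a' + b : ℕ) + 1) = 1 * (nu 0 0 / ((a' + b : ℕ) + 1)) := by ring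
    rw [e]
    refine h1.congr fun k => ?_
    have e2 : ⟪y2 a b k, y2 a' b' k⟫_ℂ = (nu (a' + b) (k + 1) : ℂ) := by
      rw [WithLp.prod_inner_apply]
      change ⟪eL a b (k + 1) 0, eL a' b' (k + 1) 0⟫_ℂ + ⟪(0 : L2), (0 : L2)⟫_ℂ = _
      rw [inner_zero_left, add_zero]
      exact inner_eL_eq (by omega) (by omega) (by omega) (by omega)
    rw [e2, nu_eq (a' + b)]
    push_cast
    have h1 : ((k : ℂ) + 1 + 1) ≠ 0 := by exact_mod_cast (by positivity : ((k : ℝ) + 1 + 1) ≠ 0)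
    have h3 : ((k : ℂ) + 2) ≠ 0 := by exact_mod_cast (by positivity : ((k : ℝ) + 2) ≠ 0)
    have h2 : ((a' : ℂ) + b + 1) ≠ 0 := by
      exact_mod_cast (by positivity : ((a' : ℝ) + b + 1) ≠ 0)
    field_simp
    ring
  normy := by
    intro a b k
    have e2 : ‖y2 a b k‖ ^ 2 = nu (a + b) (k + 1) := by
      have h1 : ‖y2 a b k‖ ^ 2 = ‖eL a b (k + 1) 0‖ ^ 2 + ‖(0 : L2)‖ ^ 2 :=
        WithLp.prod_norm_sq_eq_of_L2 _
      rw [h1, norm_sq_eL, norm_zero, add_zero]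
      ring
    rw [e2, nu_eq]
    have h0 := nu_zero_pos
    push_cast
    rw [← mul_div_assoc, div_le_iff₀ (by positivity)]
    have h1 : (1 : ℝ) ≤ (a : ℝ) + b + 1 := by
      have : (0 : ℝ) ≤ a := by positivity
      have : (0 : ℝ) ≤ b := by positivity
      linarith
    calc ((k : ℝ) + 1) * nu 0 0 = nu 0 0 * (1 * ((k : ℝ) + 1)) := by ring
      _ ≤ (2 * nu 0 0) * (((a : ℝ) + b + 1) * ((k : ℝ) + 1 + 1)) := by
          gcongr
          · linarith
          · linarith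
  md_congr := by
    intro a b a' b' h k
    unfold md2 modeOf
    simp only [Prod.mk.injEq]
    omega
  md_inj := by
    intro a b k k' h
    unfold md2 modeOf at h
    simp only [Prod.mk.injEq] at h
    omega

/-! ### The face `|z₁| = |z₂|` -/

/-- monomials concentrating at `|z₁| = |z₂|` -/
def E1 (a b k : ℕ) : L2 := eL k 0 a b

/-- the corresponding forms -/
def y1 (a b k : ℕ) : Form1 := WithLp.toLp 2 (eL (k + 1) 0 a b, eL k 0 a b)

/-- the corresponding modes -/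
def md1 (a b k : ℕ) : ℤ × ℤ := modeOf (k, 0, a, b)

theorem quasi1 (a b : ℕ) : ∃ (η : ℕ → L2) (v : ℕ → Form1), (∀ k, (η k, v k) ∈ graph0) ∧
    (∀ k, η k ∈ mode (md1 a (b + 1) k)) ∧ Small (fun k => η k - E1 a (b + 1) k) ∧
    Small (fun k => v k - (((1 / 2 : ℝ) * (b + 1) : ℝ) : ℂ) • y1 a b k) := by
  refine ⟨fun k => ((1 - b) / 2 : ℂ) • eL k 0 a (b + 1) +
      ((b + 1) / 2 : ℂ) • eL (k + 1) 1 a (b + 1),
    fun k => WithLp.toLp 2
      (((b + 1) / 2 : ℂ) • eL (k + 1) 0 a b,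
        ((b + 1) / 2 : ℂ) • ((1 - b : ℂ) • eL k 0 a b + (b : ℂ) • eL (k + 1) 1 a b)),
    ?_, ?_, ?_, ?_⟩
  · intro k
    have h := ((weakX_eL k 0 a (b + 1)).smul ((1 - b) / 2 : ℂ)).add
      ((weakX_eL (k + 1) 1 a (b + 1)).smul ((b + 1) / 2 : ℂ))
    refine mem_graph0_of h ?_ ?_
    · change B2 (((b + 1) / 2 : ℂ) • eL (k + 1) 0 a b) = _
      simp only [map_smul, B2_eL]
      have e1 : (1 - 1 : ℕ) = 0 := rfl
      rw [e1]
      push_cast
      module
    · change ((b + 1) / 2 : ℂ) • ((1 - b : ℂ) • eL k 0 a b + (b : ℂ) • eL (k + 1) 1 a b) +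
        Bz (((b + 1) / 2 : ℂ) • eL (k + 1) 0 a b) = _
      simp only [map_smul, Bz_eL, Nat.add_sub_cancel, zero_add]
      push_cast
      module
  · intro k
    refine (mode _).add_mem ((mode _).smul_mem _ (eL_mem_mode' ?_))
      ((mode _).smul_mem _ (eL_mem_mode' ?_))
    · rfl
    · unfold md1 modeOf
      simp only [Prod.mk.injEq]
      push_cast
      constructor
      · first | rfl | trivial | ring
      · ring
  · have h1 := (small_diff1 0 0 a (b + 1)).smul (-((b : ℂ) + 1) / 2)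
    refine h1.congr fun k => ?_
    unfold E1
    simp only [add_zero, zero_add]
    module
  · have h1 := (small_diff1 0 0 a b).smul (-(((b : ℂ) + 1) * b) / 2)
    refine ((Small.zero (H := L2)).pair h1).congr fun k => ?_
    unfold y1
    refine WithLp.ofLp_injective 2 (Prod.ext ?_ ?_)
    · change ((b + 1) / 2 : ℂ) • eL (k + 1) 0 a b -
        (((1 / 2 : ℝ) * (b + 1) : ℝ) : ℂ) • eL (k + 1) 0 a b = 0
      push_cast
      module
    · change ((b + 1) / 2 : ℂ) • ((1 - b : ℂ) • eL k 0 a b + (b : ℂ) • eL (k + 1) 1 a b) -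
        (((1 / 2 : ℝ) * (b + 1) : ℝ) : ℂ) • eL k 0 a b =
        (-(((b : ℂ) + 1) * b) / 2) • (eL (k + 0) 0 a b - eL (k + 0 + 1) (0 + 1) a b)
      simp only [add_zero, zero_add]
      push_cast
      module

theorem reg1 : Reg (1 / 2) 2 E1 y1 md1 where
  hθ := by norm_num
  hρ := by norm_num
  chain := by
    intro h v hv a b k
    have e : ∀ a b, ⟪y1 a b k, v⟫_ℂ = ⟪eL k 0 a b, v.snd + Bz v.fst⟫_ℂ := by
      intro a b
      rw [inner_add_right, inner_Bz, WithLp.prod_inner_apply]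
      change ⟪eL (k + 1) 0 a b, v.fst⟫_ℂ + ⟪eL k 0 a b, v.snd⟫_ℂ = _
      ring
    rw [e, e]
    exact chain2 (graph0_weakX hv) k 0 a b
  hol := by
    intro a k
    refine mem_graph0_of (weakX_eL k 0 a 0) ?_ ?_
    · change B2 (0 : L2) = _
      simp
    · change (0 : L2) + Bz (0 : L2) = _
      simp
  quasi := quasi1
  gram := by
    intro a b a' b' h k
    unfold E1
    rw [inner_eL_eq (s := k) (r := a' + b) (by omega) (by omega) (by omega) (by omega), nu_eq]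
    push_cast
    have h1 : ((k : ℂ) + 1) ≠ 0 := by exact_mod_cast (by positivity : ((k : ℝ) + 1) ≠ 0)
    have h2 : ((a' : ℂ) + b + 1) ≠ 0 := by
      exact_mod_cast (by positivity : ((a' : ℝ) + b + 1) ≠ 0)
    field_simp
  gramy := by
    intro a b a' b' h
    have h1 : Tendsto (fun k : ℕ => (((((k : ℝ) + 1) / ((k : ℝ) + 2) + 1) *
        (nu 0 0 / ((a' + b : ℕ) + 1)) : ℝ) : ℂ)) atTop
        (𝓝 ((((1 + 1) * (nu 0 0 / ((a' + b : ℕ) + 1)) : ℝ)) : ℂ)) :=
      (Complex.continuous_ofReal.tendsto _).comp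
        ((tendsto_ratio.add tendsto_const_nhds).mul_const _)
    have e : (2 : ℝ) * nu 0 0 / ((a' + b : ℕ) + 1) = (1 + 1) * (nu 0 0 / ((a' + b : ℕ) + 1)) := by
      ring
    rw [e]
    refine h1.congr fun k => ?_
    have e2 : ⟪y1 a b k, y1 a' b' k⟫_ℂ = (nu (k + 1) (a' + b) : ℂ) + nu k (a' + b) := by
      rw [WithLp.prod_inner_apply]
      change ⟪eL (k + 1) 0 a b, eL (k + 1) 0 a' b'⟫_ℂ + ⟪eL k 0 a b, eL k 0 a' b'⟫_ℂ = _
      congr 1
      · exact inner_eL_eq (by omega) (by omega) (by omega) (by omega)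
      · exact inner_eL_eq (by omega) (by omega) (by omega) (by omega)
    rw [e2, nu_eq k, nu_eq (k + 1)]
    push_cast
    have h1 : ((k : ℂ) + 1 + 1) ≠ 0 := by exact_mod_cast (by positivity : ((k : ℝ) + 1 + 1) ≠ 0)
    have h3 : ((k : ℂ) + 2) ≠ 0 := by exact_mod_cast (by positivity : ((k : ℝ) + 2) ≠ 0)
    have h4 : ((k : ℂ) + 1) ≠ 0 := by exact_mod_cast (by positivity : ((k : ℝ) + 1) ≠ 0)
    have h2 : ((a' : ℂ) + b + 1) ≠ 0 := by
      exact_mod_cast (by positivity : ((a' : ℝ) + b + 1) ≠ 0)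
    field_simp
    ring
  normy := by
    intro a b k
    have e2 : ‖y1 a b k‖ ^ 2 = nu (k + 1) (a + b) + nu k (a + b) := by
      have h1 : ‖y1 a b k‖ ^ 2 = ‖eL (k + 1) 0 a b‖ ^ 2 + ‖eL k 0 a b‖ ^ 2 :=
        WithLp.prod_norm_sq_eq_of_L2 _
      rw [h1, norm_sq_eL, norm_sq_eL]
      simp
    have h0 := nu_zero_pos
    have h1 : (1 : ℝ) ≤ (a : ℝ) + b + 1 := by
      have : (0 : ℝ) ≤ a := by positivity
      have : (0 : ℝ) ≤ b := by positivity
      linarith
    rw [e2, nu_eq k, nu_eq (k + 1), mul_add]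
    have e3 : ((k : ℝ) + 1) * (nu 0 0 / ((((k + 1 : ℕ) : ℝ) + 1) * (((a + b : ℕ) : ℝ) + 1))) ≤
        nu 0 0 := by
      push_cast
      rw [← mul_div_assoc, div_le_iff₀ (by positivity)]
      calc ((k : ℝ) + 1) * nu 0 0 = nu 0 0 * (((k : ℝ) + 1) * 1) := by ring
        _ ≤ (nu 0 0) * (((k : ℝ) + 1 + 1) * ((a : ℝ) + b + 1)) := by
            gcongr
            linarith
    have e4 : ((k : ℝ) + 1) * (nu 0 0 / (((k : ℝ) + 1) * (((a + b : ℕ) : ℝ) + 1))) ≤ nu 0 0 := by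
      push_cast
      rw [← mul_div_assoc, div_le_iff₀ (by positivity)]
      calc ((k : ℝ) + 1) * nu 0 0 = nu 0 0 * (((k : ℝ) + 1) * 1) := by ring
        _ ≤ (nu 0 0) * (((k : ℝ) + 1) * ((a : ℝ) + b + 1)) := by gcongr
    linarith
  md_congr := by
    intro a b a' b' h k
    unfold md1 modeOf
    refine Prod.ext rfl ?_
    change (a : ℤ) - b - 1 - ((k : ℤ) - (0 : ℕ)) = (a' : ℤ) - b' - 1 - ((k : ℤ) - (0 : ℕ))
    omega
  md_inj := by
    intro a b k k' h
    unfold md1 modeOf at h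
    simp only [Prod.mk.injEq] at h
    omega

end Pool.Agent.Lib.MP_169ce5_an.Ess
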