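import Pool.Agent.Lib.MP_169ce5_an.EssMass

/-!
Every nonzero point of the essential spectrum of the `∂̄`-Neumann operator comes from a zero of
one of the functions `BB n`.
-/

open MeasureTheory Complex Filter Topology Set
open scoped ContDiff ComplexConjugate ENNReal InnerProductSpace

noncomputable section

namespace Pool.Agent.Lib.MP_169ce5_an.Ess

variable {θ ρ : ℝ} {E : ℕ → ℕ → ℕ → L2} {y : ℕ → ℕ → ℕ → Form1} {md : ℕ → ℕ → ℕ → ℤ × ℤ}

/-- the indices of the monomials of a regime -/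
structure RegIdx (E : ℕ → ℕ → ℕ → L2) (idx : ℕ → ℕ → ℕ → Idx) : Prop where
  hE : ∀ a b k, ei (idx a b k) = E a b k
  hlow : ∀ a b k, lowSet (idx a b k) =
    (fun i => E (a - (i + 1)) (b - (i + 1)) k) '' (Finset.range (min a b) : Set ℕ)

theorem regIdx2 : RegIdx E2 (fun a b k => (a, b, k, 0)) where
  hE := fun _ _ _ => rfl
  hlow := by
    intro a b k
    ext x
    constructor
    · rintro ⟨j, l, h1, h2, h3, h4, h5, rfl⟩
      simp only at h1 h2 h3 h4
      have hl : l = 0 := by omega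
      subst hl
      refine ⟨j - 1, ?_, ?_⟩
      · simp only [Finset.coe_range, mem_Iio]; omega
      · unfold low ei E2
        simp only
        congr 1
        · omega
        · omega
    · rintro ⟨i, hi, rfl⟩
      simp only [Finset.coe_range, mem_Iio] at hi
      refine ⟨i + 1, 0, ?_, ?_, ?_, ?_, ?_, ?_⟩
      · simp only; omega
      · simp only; omega
      · simp
      · simp
      · omega
      · rfl

theorem regIdx1 : RegIdx E1 (fun a b k => (k, 0, a, b)) where
  hE := fun _ _ _ => rfl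
  hlow := by
    intro a b k
    ext x
    constructor
    · rintro ⟨j, l, h1, h2, h3, h4, h5, rfl⟩
      simp only at h1 h2 h3 h4
      have hl : j = 0 := by omega
      subst hl
      refine ⟨l - 1, ?_, ?_⟩
      · simp only [Finset.coe_range, mem_Iio]; omega
      · unfold low ei E1
        simp only
        congr 1
        · omega
        · omega
    · rintro ⟨i, hi, rfl⟩
      simp only [Finset.coe_range, mem_Iio] at hi
      refine ⟨0, i + 1, ?_, ?_, ?_, ?_, ?_, ?_⟩
      · simp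
      · simp
      · simp only; omega
      · simp only; omega
      · omega
      · rfl

theorem scal (hR : Reg θ ρ E y md) {a b a' b' : ℕ} (h : a' + b = b' + a) (k : ℕ) :
    ((k : ℂ) + 1) * ⟪E a b k, E a' b' k⟫_ℂ = ⟪E a b 0, E a' b' 0⟫_ℂ := by
  rw [hR.gram h k, ← hR.gram h 0]
  push_cast
  ring

theorem ehat_reg (hR : Reg θ ρ E y md) {idx : ℕ → ℕ → ℕ → Idx} (hI : RegIdx E idx) (a b : ℕ) :
    ∃ γ : ℕ → ℂ, ∀ k, ehat (idx a b k) = E a b k -
      ∑ i ∈ Finset.range (min a b), γ i • E (a - (i + 1)) (b - (i + 1)) k := by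
  have hmem0 : (lowSpan (idx a b 0)).starProjection (E a b 0) ∈ lowSpan (idx a b 0) :=
    Submodule.starProjection_apply_mem _ _
  have hmem : (lowSpan (idx a b 0)).starProjection (E a b 0) ∈
      Submodule.span ℂ ((fun i => E (a - (i + 1)) (b - (i + 1)) 0) ''
        (Finset.range (min a b) : Set ℕ)) := by
    have h1 := hmem0
    rw [← hI.hlow a b 0]
    exact h1
  obtain ⟨γ, hγ⟩ := (Submodule.mem_span_image_finset_iff_exists_fun' ℂ).mp hmem
  refine ⟨γ, fun k => ?_⟩
  unfold ehat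
  rw [hI.hE]
  congr 1
  refine Submodule.eq_starProjection_of_mem_of_inner_eq_zero ?_ ?_
  · refine Submodule.sum_mem _ fun i hi => Submodule.smul_mem _ _ ?_
    unfold lowSpan
    rw [hI.hlow]
    exact Submodule.subset_span ⟨i, hi, rfl⟩
  · intro w hw
    unfold lowSpan at hw
    rw [hI.hlow] at hw
    refine Submodule.span_induction (p := fun w _ => ⟪E a b k -
      ∑ i ∈ Finset.range (min a b), γ i • E (a - (i + 1)) (b - (i + 1)) k, w⟫_ℂ = 0)
      ?_ ?_ ?_ ?_ hw
    · rintro _ ⟨j, hj, rfl⟩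
      simp only [Finset.coe_range, mem_Iio] at hj
      have hk : ((k : ℂ) + 1) ≠ 0 := by exact_mod_cast (by positivity : ((k : ℝ) + 1) ≠ 0)
      have h1 : ((k : ℂ) + 1) * ⟪E a b k -
          ∑ i ∈ Finset.range (min a b), γ i • E (a - (i + 1)) (b - (i + 1)) k,
          E (a - (j + 1)) (b - (j + 1)) k⟫_ℂ =
          ⟪E a b 0 - ∑ i ∈ Finset.range (min a b), γ i • E (a - (i + 1)) (b - (i + 1)) 0,
          E (a - (j + 1)) (b - (j + 1)) 0⟫_ℂ := by
        rw [inner_sub_left, inner_sub_left, sum_inner, sum_inner, mul_sub, Finset.mul_sum,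
          scal hR (by omega)]
        congr 1
        refine Finset.sum_congr rfl fun i hi => ?_
        have hi' := Finset.mem_range.mp hi
        rw [inner_smul_left, inner_smul_left, mul_left_comm, scal hR (by omega)]
      have h2 : ⟪E a b 0 - ∑ i ∈ Finset.range (min a b),
          γ i • E (a - (i + 1)) (b - (i + 1)) 0, E (a - (j + 1)) (b - (j + 1)) 0⟫_ℂ = 0 := by
        rw [hγ]
        refine Submodule.starProjection_inner_eq_zero (K := lowSpan (idx a b 0)) _ _ ?_
        unfold lowSpan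
        rw [hI.hlow]
        refine Submodule.subset_span ⟨j, ?_, rfl⟩
        simpa using hj
      rw [h2] at h1
      exact (mul_eq_zero.mp h1).resolve_left hk
    · exact inner_zero_right _
    · intro x y _ _ hx hy
      rw [inner_add_right, hx, hy, add_zero]
    · intro c x _ hx
      rw [inner_smul_right, hx, mul_zero]

theorem norm_ehat_reg (hR : Reg θ ρ E y md) {idx : ℕ → ℕ → ℕ → Idx} (hI : RegIdx E idx)
    (a b k : ℕ) : ((k : ℝ) + 1) * ‖ehat (idx a b k)‖ ^ 2 = ‖ehat (idx a b 0)‖ ^ 2 := by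
  obtain ⟨γ, hγ⟩ := ehat_reg hR hI a b
  have h1 : ∀ k, ⟪ehat (idx a b k), ehat (idx a b k)⟫_ℂ = ⟪ehat (idx a b k), E a b k⟫_ℂ := by
    intro k
    have h2 : ehat (idx a b k) = ei (idx a b k) -
        (lowSpan (idx a b k)).starProjection (ei (idx a b k)) := rfl
    have h3 : ⟪ehat (idx a b k), (lowSpan (idx a b k)).starProjection (ei (idx a b k))⟫_ℂ = 0 := by
      rw [h2]
      exact Submodule.starProjection_inner_eq_zero _ _ (Submodule.starProjection_apply_mem _ _)
    calc ⟪ehat (idx a b k), ehat (idx a b k)⟫_ℂ = ⟪ehat (idx a b k), ei (idx a b k) -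
          (lowSpan (idx a b k)).starProjection (ei (idx a b k))⟫_ℂ := by rw [← h2]
      _ = _ := by rw [inner_sub_right, h3, sub_zero, hI.hE]
  have h2 : ((k : ℂ) + 1) * ⟪ehat (idx a b k), E a b k⟫_ℂ = ⟪ehat (idx a b 0), E a b 0⟫_ℂ := by
    rw [hγ k, hγ 0, inner_sub_left, inner_sub_left, sum_inner, sum_inner, mul_sub,
      Finset.mul_sum, scal hR (by omega)]
    congr 1
    refine Finset.sum_congr rfl fun i hi => ?_
    have hi' := Finset.mem_range.mp hi
    rw [inner_smul_left, inner_smul_left, mul_left_comm, scal hR (by omega)]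
  rw [← h1, ← h1, inner_self_eq_norm_sq_to_K, inner_self_eq_norm_sq_to_K] at h2
  have h3 : ((((k : ℝ) + 1) * ‖ehat (idx a b k)‖ ^ 2 : ℝ) : ℂ) =
      ((‖ehat (idx a b 0)‖ ^ 2 : ℝ) : ℂ) := by
    push_cast
    exact h2
  exact_mod_cast h3

theorem Reg.not_mass (hR : Reg θ ρ E y md) {idx : ℕ → ℕ → ℕ → Idx} (hI : RegIdx E idx)
    {α : Type*} {l : Filter α} {k : α → ℕ}
    (hk : Tendsto k l atTop) {κ : α → ℝ} {κ0 : ℝ} (hκ0 : 0 < κ0) (hκ : Tendsto κ l (𝓝 κ0))
    (hκp : ∀ x, 0 < κ x) {f : α → L2} {u : α → Form1} (hf : ∀ x, (f x, u x) ∈ graph0)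
    (hu : ∀ x, (u x, ((κ x : ℝ) : ℂ) • f x) ∈ graph0.adjoint) (hn : ∀ x, ‖f x‖ ≤ 1)
    (hB : ∀ n, BB n (κ0 / θ) ≠ 0) (a b : ℕ) {c0 : ℝ} (hc0 : 0 < c0) {j : α → JJ}
    (hj : ∀ᶠ x in l, (j x).1 = idx a b (k x))
    (hmass : ∀ x, c0 ≤ ‖⟪f x, pv (j x)⟫_ℂ‖ ^ 2) : ∀ᶠ _ in l, False := by
  obtain ⟨γ, hγ⟩ := ehat_reg hR hI a b
  have ht : ∀ a b, Tendsto (fun x => sk (k x) * ⟪E a b (k x), f x⟫_ℂ) l (𝓝 0) := fun a b =>
    hR.tendsto_zero hk hκ0 hκ hκp hf hu hn hB a b
  have h1 : Tendsto (fun x => sk (k x) * ⟪ehat (idx a b (k x)), f x⟫_ℂ) l (𝓝 0) := by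
    have h2 := (ht a b).sub (tendsto_finsetSum (s := Finset.range (min a b)) fun i _ =>
      (ht (a - (i + 1)) (b - (i + 1))).const_mul (conj (γ i)))
    simp only [mul_zero, Finset.sum_const_zero, sub_zero] at h2
    refine h2.congr fun x => ?_
    rw [hγ, inner_sub_left, sum_inner, mul_sub, Finset.mul_sum]
    congr 1
    refine Finset.sum_congr rfl fun i _ => ?_
    rw [inner_smul_left]
    ring
  by_cases hG : ehat (idx a b 0) = 0
  · filter_upwards [hj] with x hx
    have h2 := norm_ehat_reg hR hI a b (k x)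
    rw [hG, norm_zero, ← hx] at h2
    have h3 : 0 < ‖ehat (j x).1‖ := norm_pos_iff.mpr (j x).2
    have h4 : 0 < (((k x : ℕ) : ℝ) + 1) * ‖ehat (j x).1‖ ^ 2 := by positivity
    rw [h2] at h4
    norm_num at h4
  · have hG' : 0 < ‖ehat (idx a b 0)‖ := norm_pos_iff.mpr hG
    have h2 := h1.norm.pow 2
    rw [norm_zero, zero_pow two_ne_zero] at h2
    have h3 := h2.eventually (gt_mem_nhds (show 0 < ‖ehat (idx a b 0)‖ ^ 2 * c0 by positivity))
    filter_upwards [hj, h3] with x hx hx2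
    have h4 := norm_ehat_reg hR hI a b (k x)
    have h5 : 0 < ‖ehat (j x).1‖ := norm_pos_iff.mpr (j x).2
    have h6 := hmass x
    unfold pv at h6
    rw [inner_smul_right, norm_mul, Complex.norm_real, Real.norm_of_nonneg (by positivity),
      hx, norm_inner_symm] at h6
    rw [hx] at h5
    rw [norm_mul, norm_sk, mul_pow, Real.sq_sqrt (by positivity), ← h4] at hx2
    rw [mul_pow, inv_pow, ← div_eq_inv_mul, le_div_iff₀ (by positivity)] at h6
    have hk1 : (0 : ℝ) < ((k x : ℕ) : ℝ) + 1 := by positivity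
    have h7 : (((k x : ℕ) : ℝ) + 1) * (c0 * ‖ehat (idx a b (k x))‖ ^ 2) ≤
        (((k x : ℕ) : ℝ) + 1) * ‖⟪ehat (idx a b (k x)), f x⟫_ℂ‖ ^ 2 := by gcongr
    linarith

theorem ess_sub {N : Form1 →L[ℂ] Form1} (hN : IsNeumann1 N) {lam0 : ℂ} (hess : EssW N lam0)
    (h0 : lam0 ≠ 0) : ∃ r0 : ℝ, 0 < r0 ∧ lam0 = r0 ∧
      ((∃ n, BB n (r0⁻¹ / 1) = 0) ∨ ∃ n, BB n (r0⁻¹ / (1 / 2)) = 0) := by
  classical
  obtain ⟨ι, b, k, hbk⟩ := exists_basis hN
  have hb := b.orthonormal
  have hbne : ∀ i, b i ≠ 0 := by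
    intro i hi
    have := hb.1 i
    rw [hi, norm_zero] at this
    exact zero_ne_one this
  have hr : ∀ i, ∃ r : ℝ, 0 < r ∧ (k i).2.2 = r := fun i =>
    neumann_pos hN (hbk i).2.1 (hbne i)
  choose r hr0 hr1 using hr
  obtain ⟨u, hu, hlim⟩ := hess
  have hinf : ∀ δ > 0, {i | ‖(r i : ℂ) - lam0‖ < δ}.Infinite := fun δ hδ =>
    infinite_of_weyl (neumann_symm hN) b (fun i => by rw [← hr1]; exact (hbk i).2.1) hu hlim hδ
  -- `lam0` is real and positive
  have him : lam0.im = 0 := by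
    by_contra hne
    obtain ⟨i, hi⟩ := (hinf |lam0.im| (abs_pos.mpr hne)).nonempty
    have h1 := Complex.abs_im_le_norm ((r i : ℂ) - lam0)
    rw [Complex.sub_im, Complex.ofReal_im, zero_sub, abs_neg] at h1
    simp only [mem_ofPred_eq] at hi
    linarith
  have hre : 0 ≤ lam0.re := by
    by_contra hne
    push Not at hne
    obtain ⟨i, hi⟩ := (hinf (-lam0.re) (by linarith)).nonempty
    have h1 := Complex.abs_re_le_norm ((r i : ℂ) - lam0)
    rw [Complex.sub_re, Complex.ofReal_re] at h1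
    simp only [mem_ofPred_eq] at hi
    have h2 := le_abs_self (r i - lam0.re)
    have := hr0 i
    linarith
  have hlam : lam0 = (lam0.re : ℂ) := by
    apply Complex.ext
    · simp
    · simp [him]
  set r0 := lam0.re with hr0def
  have hr0pos : 0 < r0 := by
    refine lt_of_le_of_ne hre ?_
    intro h
    apply h0
    rw [hlam, ← h]
    simp
  refine ⟨r0, hr0pos, hlam, ?_⟩
  by_contra hcon
  push Not at hcon
  obtain ⟨hB2, hB1⟩ := hcon
  have hdist : ∀ i, ‖(r i : ℂ) - lam0‖ = |r i - r0| := by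
    intro i
    rw [hlam, ← Complex.ofReal_sub, Complex.norm_real, Real.norm_eq_abs]
  simp only [hdist] at hinf
  -- the eigenforms of the first type
  let S := {i // (k i).1 = false ∧ |r i - r0| < r0 / 2}
  have hSr : ∀ i : S, r0 / 2 < r i := by
    intro i
    have := (abs_lt.mp i.2.2).1
    linarith
  have hSinf : ∀ δ > 0, {i : S | |r i - r0| < δ}.Infinite := by
    intro δ hδ hfin
    have h1 := hinf (min δ (r0 / 2)) (by positivity)
    apply h1
    have h2 := finite_true hN hb hbk (r0 := r0 / 2) (by positivity)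
    refine (h2.union (hfin.image (Subtype.val : S → ι))).subset ?_
    intro i hi
    simp only [mem_ofPred_eq, lt_min_iff] at hi
    rcases hki : (k i).1 with _ | _
    · right
      exact ⟨⟨i, hki, hi.2⟩, hi.1, rfl⟩
    · left
      refine ⟨hki, ?_⟩
      rw [hr1, Complex.norm_real, Real.norm_of_nonneg (hr0 i).le]
      have := (abs_lt.mp hi.2).1
      linarith
  have hdata : ∀ i : S, ∃ (c : ℝ) (f : L2), 0 < c ∧ (f, (c : ℂ) • b i) ∈ graph0 ∧
      ((c : ℂ) • b i, (((r i)⁻¹ : ℝ) : ℂ) • f) ∈ graph0.adjoint ∧ f ∈ mode (k i).2.1 ∧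
      ‖f‖ = 1 := by
    intro i
    have h1 := hbk i
    have h2 : k i = (false, (k i).2.1, (k i).2.2) := Prod.ext i.2.1 rfl
    rw [h2] at h1
    obtain ⟨r', c, f, e1, e2, e3, e4, e5, e6, e7⟩ := false_data hN h1 (hb.1 i)
    have e8 : r' = r i := by
      rw [hr1 i] at e3
      exact_mod_cast e3.symm
    subst e8
    exact ⟨c, f, e2, e4, e5, e6, e7⟩
  choose c f hc0 hf hu' hfm hfn using hdata
  have hort : Orthonormal ℂ f := by
    refine ⟨hfn, fun i j hij => ?_⟩
    have g1 := adj_inner (hu' j) (hf i)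
    have hbij : ⟪b i, b j⟫_ℂ = 0 := hb.2 (fun h => hij (Subtype.ext h))
    rw [inner_smul_right, inner_smul_left, inner_smul_right, hbij, mul_zero, mul_zero] at g1
    refine (mul_eq_zero.mp g1.symm).resolve_left ?_
    exact_mod_cast (inv_pos.mpr (hr0 j)).ne'
  -- the mass
  obtain ⟨n0, hn0'⟩ := exists_nat_gt (36 * (r0 / 2)⁻¹)
  have hn0 : 0 < n0 := by
    have : (0 : ℝ) < n0 := lt_of_le_of_lt (by positivity) hn0'
    exact_mod_cast this
  have hmass : ∀ i : S, ∃ j : JJ, modeOf j.1 = (k i).2.1 ∧ lam j.1 < n0 ∧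
      1 / (8 * (n0 : ℝ) ^ 2) ≤ ‖⟪f i, pv j⟫_ℂ‖ ^ 2 := by
    intro i
    refine mass_graph0 (hf i) (hfm i) (hfn i) (K := (r0 / 2)⁻¹) ?_ hn0 hn0'.le
    rw [norm_sq_eig (hf i) (hu' i), hfn i, one_pow, mul_one]
    exact inv_anti₀ (by positivity) (hSr i).le
  choose g hg1 hg2 hg3 using hmass
  set c0 : ℝ := 1 / (8 * (n0 : ℝ) ^ 2) with hc0def
  have hc0pos : 0 < c0 := by positivity
  have hg4 : ∀ i : S, lam (g i).1 ≠ 0 := by
    intro i hzero
    have h1 := adj_inner (hu' i) (pv_hol hzero)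
    rw [inner_zero_left, inner_smul_right] at h1
    have h2 : ⟪pv (g i), f i⟫_ℂ = 0 := (mul_eq_zero.mp h1.symm).resolve_left
      (by exact_mod_cast (inv_pos.mpr (hr0 i)).ne')
    have h3 := hg3 i
    rw [norm_inner_symm, h2, norm_zero] at h3
    norm_num at h3
    linarith
  have hbox : ∀ n : ℕ, {j : JJ | j.1.1 < n ∧ j.1.2.1 < n ∧ j.1.2.2.1 < n ∧
      j.1.2.2.2 < n}.Finite := by
    intro n
    have : (((Finset.range n) ×ˢ (Finset.range n) ×ˢ
      (Finset.range n) ×ˢ (Finset.range n) : Finset Idx) : Set Idx).Finite :=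
        Finset.finite_toSet _
    refine (this.preimage (Subtype.val_injective.injOn)).subset ?_
    rintro j ⟨hj1, hj2, hj3, hj4⟩
    simp only [mem_preimage, Finset.coe_product, Finset.coe_range, mem_prod, mem_Iio]
    exact ⟨hj1, hj2, hj3, hj4⟩
  -- the sequence
  have hseq : ∀ n : ℕ, ∃ i : S, |r i - r0| < 1 / ((n : ℝ) + 1) ∧
      ¬ ((g i).1.1 < n ∧ (g i).1.2.1 < n ∧ (g i).1.2.2.1 < n ∧ (g i).1.2.2.2 < n) := by
    intro n
    by_contra hno
    push Not at hno
    apply hSinf (1 / ((n : ℝ) + 1)) (by positivity)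
    refine finite_of_image hort pv hc0pos g (fun i _ => hg3 i) ((hbox n).subset ?_)
    rintro _ ⟨i, hi, rfl⟩
    exact hno i hi
  choose q hq1 hq2 using hseq
  have hκ : Tendsto (fun n => (r (q n))⁻¹) atTop (𝓝 r0⁻¹) := by
    refine Tendsto.inv₀ ?_ hr0pos.ne'
    rw [tendsto_iff_dist_tendsto_zero]
    refine squeeze_zero (fun n => dist_nonneg) (fun n => ?_)
      (tendsto_one_div_add_atTop_nhds_zero_nat (𝕜 := ℝ))
    rw [Real.dist_eq]
    exact (hq1 n).le
  -- no concentration in the regimes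
  have key2 : ∀ a b' : ℕ, ∀ᶠ n : ℕ in atTop,
      ¬ ((g (q n)).1 = (a, b', (g (q n)).1.2.2.1, 0) ∧ n ≤ (g (q n)).1.2.2.1) := by
    intro a b'
    let A : Set ℕ := {n | (g (q n)).1 = (a, b', (g (q n)).1.2.2.1, 0) ∧ n ≤ (g (q n)).1.2.2.1}
    have h1 : ∀ᶠ _ in (atTop ⊓ 𝓟 A : Filter ℕ), False := by
      refine reg2.not_mass regIdx2 (k := fun n => (g (q n)).1.2.2.1) ?_ (inv_pos.mpr hr0pos)
        (hκ.mono_left inf_le_left) (fun n => inv_pos.mpr (hr0 _)) (fun n => hf (q n))
        (fun n => hu' (q n)) (fun n => (hfn _).le) hB2 a b' hc0pos (j := fun n => g (q n)) ?_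
        (fun n => hg3 (q n))
      · refine tendsto_atTop_mono' _ ?_ (tendsto_id.mono_left inf_le_left)
        filter_upwards [mem_inf_of_right (mem_principal_self A)] with n hn
        exact hn.2
      · filter_upwards [mem_inf_of_right (mem_principal_self A)] with n hn
        exact hn.1
    rw [Filter.eventually_inf_principal] at h1
    exact h1
  have key1 : ∀ a b' : ℕ, ∀ᶠ n : ℕ in atTop,
      ¬ ((g (q n)).1 = ((g (q n)).1.1, 0, a, b') ∧ n ≤ (g (q n)).1.1) := by
    intro a b'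
    let A : Set ℕ := {n | (g (q n)).1 = ((g (q n)).1.1, 0, a, b') ∧ n ≤ (g (q n)).1.1}
    have h1 : ∀ᶠ _ in (atTop ⊓ 𝓟 A : Filter ℕ), False := by
      refine reg1.not_mass regIdx1 (k := fun n => (g (q n)).1.1) ?_ (inv_pos.mpr hr0pos)
        (hκ.mono_left inf_le_left) (fun n => inv_pos.mpr (hr0 _)) (fun n => hf (q n))
        (fun n => hu' (q n)) (fun n => (hfn _).le) hB1 a b' hc0pos (j := fun n => g (q n)) ?_
        (fun n => hg3 (q n))
      · refine tendsto_atTop_mono' _ ?_ (tendsto_id.mono_left inf_le_left)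
        filter_upwards [mem_inf_of_right (mem_principal_self A)] with n hn
        exact hn.2
      · filter_upwards [mem_inf_of_right (mem_principal_self A)] with n hn
        exact hn.1
    rw [Filter.eventually_inf_principal] at h1
    exact h1
  have key : ∀ᶠ n : ℕ in atTop, ∀ a ∈ Finset.range n0, ∀ b' ∈ Finset.range n0,
      ¬ ((g (q n)).1 = (a, b', (g (q n)).1.2.2.1, 0) ∧ n ≤ (g (q n)).1.2.2.1) ∧
      ¬ ((g (q n)).1 = ((g (q n)).1.1, 0, a, b') ∧ n ≤ (g (q n)).1.1) := by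
    rw [Filter.eventually_all_finset]
    intro a _
    rw [Filter.eventually_all_finset]
    intro b' _
    exact (key2 a b').and (key1 a b')
  obtain ⟨n, hn, hnn0⟩ := (key.and (eventually_ge_atTop n0)).exists
  have a1 := hq2 n
  have a2 := hg2 (q n)
  have a3 := hg4 (q n)
  rcases hj : (g (q n)).1 with ⟨a, b', c', d⟩
  rw [hj] at hn a1 a2 a3
  simp only at hn a1
  have a4 : (((b' * (a + 1) : ℕ) : ℝ)) + ((d * (c' + 1) : ℕ) : ℝ) < n0 := a2
  have a5 : b' * (a + 1) + d * (c' + 1) < n0 := by exact_mod_cast a4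
  have a6 : b' ≠ 0 ∨ d ≠ 0 := by
    by_contra h
    push Not at h
    apply a3
    rw [h.1, h.2]
    simp [lam, lam1, lam2]
  by_cases hd : d = 0
  · subst hd
    have hb' : 0 < b' := by omega
    have a7 : b' * (a + 1) < n0 := by omega
    have a8 : a + 1 ≤ b' * (a + 1) := Nat.le_mul_of_pos_left _ hb'
    have a9 : b' ≤ b' * (a + 1) := Nat.le_mul_of_pos_right _ (by omega)
    refine (hn a (Finset.mem_range.mpr (by omega)) b' (Finset.mem_range.mpr (by omega))).1
      ⟨rfl, ?_⟩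
    by_contra hlt
    push Not at hlt
    exact a1 ⟨by omega, by omega, by omega, by omega⟩
  · have hd' : 0 < d := Nat.pos_of_ne_zero hd
    have a8 : c' + 1 ≤ d * (c' + 1) := Nat.le_mul_of_pos_left _ hd'
    have a9 : d ≤ d * (c' + 1) := Nat.le_mul_of_pos_right _ (by omega)
    by_cases hb' : b' = 0
    · subst hb'
      refine (hn c' (Finset.mem_range.mpr (by omega)) d (Finset.mem_range.mpr (by omega))).2
        ⟨rfl, ?_⟩
      by_contra hlt
      push Not at hlt
      exact a1 ⟨by omega, by omega, by omega, by omega⟩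
    · have hb'' : 0 < b' := Nat.pos_of_ne_zero hb'
      have a10 : a + 1 ≤ b' * (a + 1) := Nat.le_mul_of_pos_left _ hb''
      have a11 : b' ≤ b' * (a + 1) := Nat.le_mul_of_pos_right _ (by omega)
      exact a1 ⟨by omega, by omega, by omega, by omega⟩

end Pool.Agent.Lib.MP_169ce5_an.Ess
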