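import Pool.Agent.Lib.MP_169ce5_an.EssZero

/-!
Construction of Weyl sequences for the `∂̄`-Neumann operator.
-/

open MeasureTheory Complex Filter Topology Set
open scoped ContDiff ComplexConjugate ENNReal InnerProductSpace Nat

noncomputable section

namespace Pool.Agent.Lib.MP_169ce5_an.Ess

section Abstract

variable {H0 H1 H2 : Type*} [NormedAddCommGroup H0] [InnerProductSpace ℂ H0] [CompleteSpace H0]
  [NormedAddCommGroup H1] [InnerProductSpace ℂ H1] [CompleteSpace H1]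
  [NormedAddCommGroup H2] [InnerProductSpace ℂ H2] [CompleteSpace H2]
  {D0 : Submodule ℂ (H0 × H1)} {D1 : Submodule ℂ (H1 × H2)}
  {A0 : Submodule ℂ (H1 × H0)} {A1 : Submodule ℂ (H2 × H1)} {C : ℝ}

/-- `N` on the range of `D0` -/
theorem box_range (hX : HC D0 D1 A0 A1 C) {x u : H1} {η : H0} (hη : (η, u) ∈ D0)
    (hB : Box D0 D1 A0 A1 x u) : ∃ f, (x, f) ∈ A0 ∧ (f, u) ∈ D0 ∧ (x, (0 : H2)) ∈ D1 := by
  obtain ⟨f, k, a, b, m1, m2, m3, m4, rfl⟩ := hB
  have h1 := hX.comp _ hη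
  have h2 := hX.comp _ m2
  have h3 : (b, (0 : H2)) ∈ D1 := by
    have := D1.sub_mem h1 h2
    simpa using this
  have h4 : b = 0 := by
    have h5 := (hX.adj1 _ _).mp m4 _ h3
    simp only [inner_zero_left] at h5
    exact inner_self_eq_zero.mp h5.symm
  have h5 : k = 0 := by
    have := hX.gap1 _ m4
    simp only [h4, norm_zero, mul_zero] at this
    exact norm_le_zero_iff.mp this
  subst h4 h5
  exact ⟨f, m1, by simpa using m2, m3⟩

/-- subtract the kernel part -/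
theorem exists_perp (hX : HC D0 D1 A0 A1 C) {g : H0} {z : H1} (hg : (g, z) ∈ D0) :
    ∃ g', (g', z) ∈ D0 ∧ ∀ k, (k, (0 : H1)) ∈ D0 → ⟪k, g'⟫_ℂ = 0 := by
  let K : Submodule ℂ H0 := D0.comap (LinearMap.inl ℂ H0 H1)
  have hcl : IsClosed (K : Set H0) := HC.ker_closed hX.cl0
  have : CompleteSpace K := hcl.completeSpace_coe
  refine ⟨g - K.starProjection g, ?_, ?_⟩
  · have : (K.starProjection g, (0 : H1)) ∈ D0 := K.starProjection_apply_mem g
    have := D0.sub_mem hg this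
    simpa using this
  · intro k hk
    rw [← inner_conj_symm, Submodule.starProjection_inner_eq_zero (K := K) g k hk, map_zero]

theorem weyl_est (hX : HC D0 D1 A0 A1 C) {N : H1 →L[ℂ] H1}
    (hN : ∀ v, Box D0 D1 A0 A1 (N v) v) {η : H0} {u : H1} (hη : (η, u) ∈ D0) {κ ε : ℝ}
    (hκ : 0 < κ) (hε0 : 0 ≤ ε)
    (hε : ∀ h v, (h, v) ∈ D0 → (∀ k, (k, (0 : H1)) ∈ D0 → ⟪k, h⟫_ℂ = 0) →
      ‖⟪u, v⟫_ℂ - κ * ⟪η, h⟫_ℂ‖ ≤ ε * ‖v‖) : ‖N u - ((κ⁻¹ : ℝ) : ℂ) • u‖ ≤ κ⁻¹ * ε := by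
  obtain ⟨f, m1, m2, m3⟩ := box_range hX hη (hN u)
  obtain ⟨g, hg⟩ := hX.exact1 _ m3
  have hz0 : (g - ((κ⁻¹ : ℝ) : ℂ) • η, N u - ((κ⁻¹ : ℝ) : ℂ) • u) ∈ D0 :=
    D0.sub_mem hg (D0.smul_mem _ hη)
  obtain ⟨g', hg', hperp⟩ := exists_perp hX hz0
  set z := N u - ((κ⁻¹ : ℝ) : ℂ) • u with hz
  have e1 : ⟪z, N u⟫_ℂ = ⟪g', f⟫_ℂ := (hX.adj0 _ _).mp m1 _ hg'
  have e2 : ⟪g', f - η⟫_ℂ = 0 := by
    have : (f - η, (0 : H1)) ∈ D0 := by
      have := D0.sub_mem m2 hη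
      simpa using this
    rw [← inner_conj_symm, hperp _ this, map_zero]
  rw [inner_sub_right] at e2
  have hκ' : (κ : ℂ) ≠ 0 := by exact_mod_cast hκ.ne'
  have e3 : ⟪z, z⟫_ℂ = -((κ⁻¹ : ℝ) : ℂ) * conj (⟪u, z⟫_ℂ - κ * ⟪η, g'⟫_ℂ) := by
    rw [map_sub, map_mul, inner_conj_symm, inner_conj_symm, Complex.conj_ofReal]
    conv_lhs => rw [hz]
    rw [inner_sub_right, inner_smul_right]
    rw [← hz, e1]
    push_cast
    field_simp
    linear_combination (κ : ℂ) * e2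
  have h1 := hε _ _ hg' hperp
  have h2 : ‖z‖ ^ 2 ≤ κ⁻¹ * ε * ‖z‖ := by
    have h3 : ‖⟪z, z⟫_ℂ‖ = ‖z‖ ^ 2 := by
      rw [inner_self_eq_norm_sq_to_K]
      simp
    rw [← h3, e3, norm_mul, norm_neg, Complex.norm_real, RCLike.norm_conj,
      Real.norm_of_nonneg (by positivity), mul_assoc]
    gcongr
  by_contra hcon
  push Not at hcon
  have h4 : 0 ≤ κ⁻¹ * ε := by positivity
  nlinarith [norm_nonneg z]

theorem norm_N_le (hX : HC D0 D1 A0 A1 C) {N : H1 →L[ℂ] H1}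
    (hN : ∀ v, Box D0 D1 A0 A1 (N v) v) {η : H0} {u : H1} (hη : (η, u) ∈ D0) :
    ‖N u‖ ≤ C * ‖η‖ := by
  obtain ⟨f, m1, m2, m3⟩ := box_range hX hη (hN u)
  obtain ⟨g, hg⟩ := hX.exact1 _ m3
  obtain ⟨g', hg', hperp⟩ := exists_perp hX hg
  have e1 : ⟪N u, N u⟫_ℂ = ⟪g', f⟫_ℂ := (hX.adj0 _ _).mp m1 _ hg'
  have e2 : ⟪g', f - η⟫_ℂ = 0 := by
    have : (f - η, (0 : H1)) ∈ D0 := by
      have := D0.sub_mem m2 hη
      simpa using this
    rw [← inner_conj_symm, hperp _ this, map_zero]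
  rw [inner_sub_right, sub_eq_zero] at e2
  rw [e2] at e1
  have h3 : ‖N u‖ ^ 2 ≤ ‖g'‖ * ‖η‖ := by
    have := norm_inner_le_norm (𝕜 := ℂ) g' η
    rw [← e1, inner_self_eq_norm_sq_to_K] at this
    simpa using this
  have h4 := hX.gap0 _ hg' hperp
  simp only at h4
  have hC := hX.hC
  have h5 : ‖N u‖ ^ 2 ≤ C * ‖N u‖ * ‖η‖ := h3.trans (by gcongr)
  by_contra hcon
  push Not at hcon
  have h6 : 0 ≤ C * ‖η‖ := by positivity
  nlinarith [norm_nonneg (N u)]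

end Abstract

/-- `lam` is in the essential spectrum (Weyl's criterion). -/
def EssW (N : Form1 →L[ℂ] Form1) (lam : ℂ) : Prop :=
  ∃ u : ℕ → Form1, Orthonormal ℂ u ∧ Tendsto (fun k => ‖N (u k) - lam • u k‖) atTop (𝓝 0)

/-- angular modes of forms -/
def fmode (m : ℤ × ℤ) : Submodule ℂ Form1 where
  carrier := {u | u.fst ∈ mode (m.1 + 1, m.2) ∧ u.snd ∈ mode (m.1, m.2 + 1)}
  add_mem' := by
    rintro u v ⟨h1, h2⟩ ⟨h3, h4⟩
    exact ⟨(mode _).add_mem h1 h3, (mode _).add_mem h2 h4⟩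
  zero_mem' := ⟨(mode _).zero_mem, (mode _).zero_mem⟩
  smul_mem' := by
    rintro c u ⟨h1, h2⟩
    exact ⟨(mode _).smul_mem c h1, (mode _).smul_mem c h2⟩

theorem mem_fmode {m : ℤ × ℤ} {u : Form1} :
    u ∈ fmode m ↔ u.fst ∈ mode (m.1 + 1, m.2) ∧ u.snd ∈ mode (m.1, m.2 + 1) := Iff.rfl

theorem isClosed_fmode (m : ℤ × ℤ) : IsClosed (fmode m : Set Form1) := by
  have h1 : Continuous fun u : Form1 => u.fst := (WithLp.fstL 2 ℂ L2 L2).continuous
  have h2 : Continuous fun u : Form1 => u.snd := (WithLp.sndL 2 ℂ L2 L2).continuous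
  exact ((isClosed_mode _).preimage h1).inter ((isClosed_mode _).preimage h2)

theorem inner_fmode {m n : ℤ × ℤ} (h : m ≠ n) {u v : Form1} (hu : u ∈ fmode m)
    (hv : v ∈ fmode n) : ⟪u, v⟫_ℂ = 0 := by
  rw [WithLp.prod_inner_apply]
  have h1 : ⟪u.fst, v.fst⟫_ℂ = 0 := by
    refine inner_mode ?_ hu.1 hv.1
    intro h2
    apply h
    simp only [Prod.mk.injEq] at h2
    exact Prod.ext (by omega) h2.2
  have h2 : ⟪u.snd, v.snd⟫_ℂ = 0 := by
    refine inner_mode ?_ hu.2 hv.2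
    intro h2
    apply h
    simp only [Prod.mk.injEq] at h2
    exact Prod.ext h2.1 (by omega)
  change ⟪u.fst, v.fst⟫_ℂ + ⟪u.snd, v.snd⟫_ℂ = 0
  rw [h1, h2, add_zero]

theorem mem_mode_of_conj_smul {m n : ℤ × ℤ} {f : L2}
    (h : ∀ s t : Circle, (chr n s t) • rot s t f = chr m s t • f) : f ∈ mode (m - n) := by
  intro s t
  have h1 := h s t
  have h2 : chr n s t ≠ 0 := by
    intro h0
    have := norm_chr n s t
    rw [h0, norm_zero] at this
    exact zero_ne_one this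
  have h3 : rot s t f = (chr n s t)⁻¹ • chr m s t • f := by
    rw [← h1, smul_smul, inv_mul_cancel₀ h2, one_smul]
  rw [h3, smul_smul]
  congr 1
  unfold chr
  rw [Prod.fst_sub, Prod.snd_sub, zpow_sub₀ (Circle.coe_ne_zero s),
    zpow_sub₀ (Circle.coe_ne_zero t), mul_inv]
  field_simp

theorem conj_eq_zpow (s : Circle) : conj (s : ℂ) = (s : ℂ) ^ (-1 : ℤ) := by
  rw [zpow_neg_one, ← Circle.coe_inv_eq_conj, Circle.coe_inv]

theorem fmode_of_rotF {m : ℤ × ℤ} {v : Form1} (h : ∀ s t : Circle, rotF s t v = chr m s t • v) :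
    v ∈ fmode m := by
  constructor
  · have h1 : v.fst ∈ mode (m - (-1, 0)) := by
      apply mem_mode_of_conj_smul
      intro s t
      have h2 := congrArg (fun w : Form1 => w.fst) (h s t)
      change conj (s : ℂ) • rot s t v.fst = chr m s t • v.fst at h2
      rw [← h2, conj_eq_zpow]
      unfold chr
      simp
    have e : m - (-1, 0) = (m.1 + 1, m.2) := by
      refine Prod.ext ?_ ?_
      · simp
      · simp
    rwa [e] at h1
  · have h1 : v.snd ∈ mode (m - (0, -1)) := by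
      apply mem_mode_of_conj_smul
      intro s t
      have h2 := congrArg (fun w : Form1 => w.snd) (h s t)
      change conj (t : ℂ) • rot s t v.snd = chr m s t • v.snd at h2
      rw [← h2, conj_eq_zpow]
      unfold chr
      simp
    have e : m - (0, -1) = (m.1, m.2 + 1) := by
      refine Prod.ext ?_ ?_
      · simp
      · simp
    rwa [e] at h1

theorem fmode_of_graph0 {m : ℤ × ℤ} {η : L2} {v : Form1} (h : (η, v) ∈ graph0)
    (hη : η ∈ mode m) : v ∈ fmode m := by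
  apply fmode_of_rotF
  intro s t
  have h1 := graph0_rot s t η v h
  have h2 := graph0.smul_mem (chr m s t) h
  have h3 := graph0.sub_mem h1 h2
  have h4 : (rot s t η, rotF s t v) - chr m s t • (η, v) =
      ((0 : L2), rotF s t v - chr m s t • v) := by
    refine Prod.ext ?_ rfl
    change rot s t η - chr m s t • η = 0
    rw [hη s t, sub_self]
  rw [h4] at h3
  exact sub_eq_zero.mp (graph0_unique h3)

theorem essW_of {N : Form1 →L[ℂ] Form1} {lam : ℂ} {m : ℕ → ℤ × ℤ} (hm : Function.Injective m)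
    (h : ∀ ε > 0, ∀ᶠ k in atTop, ∃ u ∈ fmode (m k), u ≠ 0 ∧ ‖N u - lam • u‖ ≤ ε * ‖u‖) :
    EssW N lam := by
  have h' : ∀ j : ℕ, ∀ᶠ k in atTop, ∃ u ∈ fmode (m k), ‖u‖ = 1 ∧
      ‖N u - lam • u‖ ≤ 1 / ((j : ℝ) + 1) := by
    intro j
    filter_upwards [h (1 / ((j : ℝ) + 1)) (by positivity)] with k hk
    obtain ⟨u, hu, hu0, hu1⟩ := hk
    have hpos : 0 < ‖u‖ := norm_pos_iff.mpr hu0
    refine ⟨((‖u‖⁻¹ : ℝ) : ℂ) • u, (fmode _).smul_mem _ hu, ?_, ?_⟩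
    · rw [norm_smul, Complex.norm_real, Real.norm_of_nonneg (by positivity)]
      exact inv_mul_cancel₀ hpos.ne'
    · rw [map_smul, smul_comm lam, ← smul_sub, norm_smul, Complex.norm_real,
        Real.norm_of_nonneg (by positivity)]
      calc ‖u‖⁻¹ * ‖N u - lam • u‖ ≤ ‖u‖⁻¹ * (1 / ((j : ℝ) + 1) * ‖u‖) := by gcongr
        _ = _ := by field_simp
  obtain ⟨g, hg, hg2⟩ := extraction_forall_of_eventually h'
  choose u hu1 hu2 hu3 using hg2
  refine ⟨u, ⟨hu2, fun i j hij => ?_⟩, ?_⟩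
  · exact inner_fmode (fun h => hij (hg.injective (hm h))) (hu1 i) (hu1 j)
  · exact squeeze_zero (fun k => norm_nonneg _) hu3 tendsto_one_div_add_atTop_nhds_zero_nat

variable {θ ρ : ℝ} {E : ℕ → ℕ → ℕ → L2} {y : ℕ → ℕ → ℕ → Form1} {md : ℕ → ℕ → ℕ → ℤ × ℤ}

theorem norm_y_le (hR : Reg θ ρ E y md) (a b k : ℕ) :
    Real.sqrt ((k : ℝ) + 1) * ‖y a b k‖ ≤ Real.sqrt (2 * nu 0 0) := by
  have h0 := nu_zero_pos
  have hk : (0 : ℝ) ≤ (k : ℝ) + 1 := by positivity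
  refine le_of_sq_le_sq ?_ (Real.sqrt_nonneg _)
  rw [mul_pow, Real.sq_sqrt hk, Real.sq_sqrt (by positivity)]
  exact hR.normy a b k

theorem sum_mem_graph0 {s : Finset ℕ} {η : ℕ → L2} {v : ℕ → Form1} (c : ℕ → ℂ)
    (h : ∀ i, (η i, v i) ∈ graph0) :
    (∑ i ∈ s, c i • η i, ∑ i ∈ s, c i • v i) ∈ graph0 := by
  have h1 := graph0.sum_mem (t := s) (f := fun i => c i • (η i, v i))
    (fun i _ => graph0.smul_mem _ (h i))
  have e : (∑ i ∈ s, c i • (η i, v i)) = (∑ i ∈ s, c i • η i, ∑ i ∈ s, c i • v i) := by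
    refine Prod.ext ?_ ?_
    · rw [Prod.fst_sum]; rfl
    · rw [Prod.snd_sum]; rfl
  rwa [e] at h1

/-- the algebraic identity behind the quasimodes -/
theorem chain_sum {n : ℕ} {κ : ℝ} {Y Z : ℕ → ℂ} (h : ∀ i : ℕ, Y (i + 1) = Y 0 - (i + 1) * Z i)
    (I : ℕ) : ∑ i ∈ Finset.range (I + 1), (tt n κ i : ℂ) * Y i -
      κ * ∑ i ∈ Finset.range (I + 1), ((tt n κ i / (n + i + 1) : ℝ) : ℂ) * Z i =
      ((∑ i ∈ Finset.range (I + 1), tt n κ i : ℝ) : ℂ) * Y 0 -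
        κ * ((tt n κ I / (n + I + 1) : ℝ) : ℂ) * Z I := by
  induction I with
  | zero => simp [mul_assoc]
  | succ I ih =>
    rw [Finset.sum_range_succ _ (I + 1), Finset.sum_range_succ _ (I + 1),
      Finset.sum_range_succ _ (I + 1), h I]
    have h1 := tt_succ n κ I
    have h1' : (tt n κ (I + 1) : ℂ) * ((I + 1) * (n + I + 1)) = -κ * tt n κ I := by
      exact_mod_cast h1
    have h2 : ((n : ℂ) + I + 1) ≠ 0 := by exact_mod_cast (by positivity : ((n : ℝ) + I + 1) ≠ 0)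
    have h3 : (κ : ℂ) * ((tt n κ I : ℂ) / (n + I + 1)) = - ((tt n κ (I + 1) : ℂ) * (I + 1)) := by
      field_simp
      linear_combination h1'
    push_cast at ih ⊢
    linear_combination ih - (Z I) * h3

theorem hasSum_tt' (n : ℕ) (κ : ℝ) :
    HasSum (fun i : ℕ => tt n κ i / (n + i + 1)) ((n ! : ℝ) * BB (n + 1) κ) := by
  have h := (summable_BB (n + 1) κ).hasSum.mul_left (n ! : ℝ)
  have e : (fun i : ℕ => tt n κ i / (n + i + 1)) =
      fun i : ℕ => (n ! : ℝ) * ((-κ) ^ i / ((i ! : ℝ) * ((n + 1 + i)! : ℝ))) := by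
    funext i
    unfold tt
    have h1 : n + 1 + i = (n + i) + 1 := by ring
    have h4 : (((n + i) + 1)! : ℝ) = ((n : ℝ) + i + 1) * ((n + i)! : ℝ) := by
      rw [Nat.factorial_succ]; push_cast; ring
    rw [h1, h4]
    have h5 : ((i)! : ℝ) ≠ 0 := by exact_mod_cast i.factorial_ne_zero
    have h6 : ((n + i)! : ℝ) ≠ 0 := by exact_mod_cast (n + i).factorial_ne_zero
    have h7 : (n : ℝ) + i + 1 ≠ 0 := by positivity
    field_simp
  rw [e]
  exact h

end Pool.Agent.Lib.MP_169ce5_an.Ess
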