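import Pool.Agent.Lib.MP_169ce5_an.EssSup

/-!
Quasimodes: every zero of `BB n` gives a point of the essential spectrum.
-/

open MeasureTheory Complex Filter Topology Set
open scoped ContDiff ComplexConjugate ENNReal InnerProductSpace Nat

noncomputable section

namespace Pool.Agent.Lib.MP_169ce5_an.Ess

variable {θ ρ : ℝ} {E : ℕ → ℕ → ℕ → L2} {y : ℕ → ℕ → ℕ → Form1} {md : ℕ → ℕ → ℕ → ℤ × ℤ}

/-- the size of the defect of the quasimodes -/
def CC (θ κ : ℝ) (n I : ℕ) : ℝ :=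
  θ * |∑ i ∈ Finset.range (I + 1), tt n κ i| * Real.sqrt (2 * nu 0 0) +
    4 * θ * κ * |tt n κ I / (n + I + 1)| * Real.sqrt (nu 0 0)

theorem Reg.quasimode (hR : Reg θ ρ E y md) (n : ℕ) {κ : ℝ} (hκ : 0 < κ) :
    ∃ (H : ℕ → ℕ → L2) (U : ℕ → ℕ → Form1), (∀ I k, (H I k, U I k) ∈ graph0) ∧
      (∀ I k, H I k ∈ mode (md 0 (n + 1) k)) ∧
      (∀ I, ∃ e : ℕ → ℝ, Tendsto e atTop (𝓝 0) ∧ (∀ k, 0 ≤ e k) ∧
        ∀ (k : ℕ) (h : L2) (v : Form1), (h, v) ∈ graph0 → (∀ K, (K, (0 : Form1)) ∈ graph0 → ⟪K, h⟫_ℂ = 0) →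
          Real.sqrt ((k : ℝ) + 1) * ‖⟪U I k, v⟫_ℂ - ((θ * κ : ℝ) : ℂ) * ⟪H I k, h⟫_ℂ‖ ≤
            (e k + CC θ κ n I) * ‖v‖) ∧
      ∀ I, Tendsto (fun k : ℕ => ((k : ℂ) + 1) * ⟪U I k, y 0 n k⟫_ℂ) atTop
        (𝓝 ((θ * ρ * nu 0 0 * ∑ i ∈ Finset.range (I + 1), tt n κ i / (n + i + 1) : ℝ) : ℂ)) := by
  have hθ := hR.hθ
  choose η v h1 h2 h3 h4 using fun i : ℕ => hR.quasi i (n + i)
  let s : ℕ → ℂ := fun i => ((tt n κ i / (n + i + 1) : ℝ) : ℂ)
  let H : ℕ → ℕ → L2 := fun I k => ∑ i ∈ Finset.range (I + 1), s i • η i k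
  let U : ℕ → ℕ → Form1 := fun I k => ∑ i ∈ Finset.range (I + 1), s i • v i k
  let Eh : ℕ → ℕ → L2 := fun I k =>
    ∑ i ∈ Finset.range (I + 1), s i • (η i k - E i (n + i + 1) k)
  let Ev : ℕ → ℕ → Form1 := fun I k =>
    ∑ i ∈ Finset.range (I + 1), s i • (v i k - ((θ * ((n + i : ℕ) + 1) : ℝ) : ℂ) • y i (n + i) k)
  have hEh : ∀ I, Small (Eh I) := fun I => Small.sum _ fun i _ => (h3 i).smul _
  have hEv : ∀ I, Small (Ev I) := fun I => Small.sum _ fun i _ => (h4 i).smul _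
  have hH : ∀ I k, H I k = Eh I k + ∑ i ∈ Finset.range (I + 1), s i • E i (n + i + 1) k := by
    intro I k
    simp only [H, Eh]
    rw [← Finset.sum_add_distrib]
    refine Finset.sum_congr rfl fun i _ => ?_
    rw [← smul_add, sub_add_cancel]
  have hU : ∀ I k, U I k = Ev I k +
      ∑ i ∈ Finset.range (I + 1), ((θ : ℂ) * (tt n κ i : ℂ)) • y i (n + i) k := by
    intro I k
    simp only [U, Ev]
    rw [← Finset.sum_add_distrib]
    refine Finset.sum_congr rfl fun i _ => ?_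
    have e : (θ : ℂ) * (tt n κ i : ℂ) = s i * ((θ * ((n + i : ℕ) + 1) : ℝ) : ℂ) := by
      simp only [s]
      have h2 : ((n : ℂ) + i + 1) ≠ 0 := by
        exact_mod_cast (by positivity : ((n : ℝ) + i + 1) ≠ 0)
      push_cast
      field_simp
    rw [e, smul_sub, smul_smul, sub_add_cancel]
  have hgr : ∀ I k, (H I k, U I k) ∈ graph0 := by
    intro I k
    exact sum_mem_graph0 (η := fun i => η i k) (v := fun i => v i k) s fun i => h1 i k
  have hmo : ∀ I k, H I k ∈ mode (md 0 (n + 1) k) := by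
    intro I k
    refine Submodule.sum_mem _ fun i _ => Submodule.smul_mem _ _ ?_
    have := h2 i k
    rwa [hR.md_congr (a := i) (b := n + i + 1) (a' := 0) (b' := n + 1) (by ring)] at this
  clear_value H U Eh Ev
  refine ⟨H, U, hgr, hmo, ?_, ?_⟩
  · intro I
    refine ⟨fun k => Real.sqrt ((k : ℝ) + 1) * ‖Ev I k‖ +
      4 * θ * κ * (Real.sqrt ((k : ℝ) + 1) * ‖Eh I k‖), ?_, fun k => by positivity, ?_⟩
    · have := Tendsto.add (hEv I) (Tendsto.const_mul (4 * θ * κ) (hEh I))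
      rw [mul_zero, add_zero] at this
      exact this
    · intro k h w hw hperp
      have hgap := gap_graph0 (y := (h, w)) hw hperp
      simp only at hgap
      let Y : ℕ → ℂ := fun i => ⟪y i (n + i) k, w⟫_ℂ
      let Z : ℕ → ℂ := fun i => ⟪E i (n + i + 1) k, h⟫_ℂ
      have hch : ∀ i : ℕ, Y (i + 1) = Y 0 - (i + 1) * Z i := by
        intro i
        induction i with
        | zero =>
          have h5 := hR.chain hw 0 n k
          simp only [Y, Z, Nat.cast_zero, zero_add, add_zero, zero_mul, sub_zero] at h5 ⊢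
          linear_combination -h5
        | succ i ih =>
          have h5 := hR.chain hw (i + 1) (n + i + 1) k
          simp only [Nat.add_sub_cancel] at h5
          simp only [Y, Z] at ih ⊢
          have e1 : n + (i + 1) = n + i + 1 := by ring
          have e2 : n + (i + 1 + 1) = n + i + 1 + 1 := by ring
          rw [e1] at ih ⊢
          rw [e2]
          push_cast at h5 ⊢
          linear_combination ih - h5
      have key := chain_sum (n := n) (κ := κ) hch I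
      have e1 : ⟪U I k, w⟫_ℂ = ⟪Ev I k, w⟫_ℂ +
          θ * ∑ i ∈ Finset.range (I + 1), (tt n κ i : ℂ) * Y i := by
        rw [hU, inner_add_left, sum_inner, Finset.mul_sum]
        congr 1
        refine Finset.sum_congr rfl fun i _ => ?_
        rw [inner_smul_left]
        simp only [map_mul, Complex.conj_ofReal, Y]
        ring
      have e2 : ⟪H I k, h⟫_ℂ = ⟪Eh I k, h⟫_ℂ +
          ∑ i ∈ Finset.range (I + 1), ((tt n κ i / (n + i + 1) : ℝ) : ℂ) * Z i := by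
        rw [hH, inner_add_left, sum_inner]
        congr 1
        refine Finset.sum_congr rfl fun i _ => ?_
        rw [inner_smul_left]
        simp only [Complex.conj_ofReal, Z, s]
      have e3 : ⟪U I k, w⟫_ℂ - ((θ * κ : ℝ) : ℂ) * ⟪H I k, h⟫_ℂ =
          ⟪Ev I k, w⟫_ℂ - ((θ * κ : ℝ) : ℂ) * ⟪Eh I k, h⟫_ℂ +
          (((θ * ∑ i ∈ Finset.range (I + 1), tt n κ i : ℝ) : ℂ) * Y 0 -
            ((θ * κ * (tt n κ I / (n + I + 1)) : ℝ) : ℂ) * Z I) := by
        rw [e1, e2]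
        push_cast at key ⊢
        linear_combination (θ : ℂ) * key
      have hsk : 0 ≤ Real.sqrt ((k : ℝ) + 1) := Real.sqrt_nonneg _
      have hw0 := norm_nonneg w
      have b1 : ‖⟪Ev I k, w⟫_ℂ‖ ≤ ‖Ev I k‖ * ‖w‖ := norm_inner_le_norm _ _
      have b2 : ‖((θ * κ : ℝ) : ℂ) * ⟪Eh I k, h⟫_ℂ‖ ≤ θ * κ * (‖Eh I k‖ * (4 * ‖w‖)) := by
        rw [norm_mul, Complex.norm_real, Real.norm_of_nonneg (by positivity)]
        gcongr
        exact (norm_inner_le_norm _ _).trans (by gcongr)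
      have b3 : ‖((θ * ∑ i ∈ Finset.range (I + 1), tt n κ i : ℝ) : ℂ) * Y 0‖ ≤
          θ * |∑ i ∈ Finset.range (I + 1), tt n κ i| * (‖y 0 n k‖ * ‖w‖) := by
        rw [norm_mul, Complex.norm_real, Real.norm_eq_abs, abs_mul, abs_of_pos hθ]
        gcongr
        exact norm_inner_le_norm _ _
      have b4 : ‖((θ * κ * (tt n κ I / (n + I + 1)) : ℝ) : ℂ) * Z I‖ ≤
          θ * κ * |tt n κ I / (n + I + 1)| * (‖E I (n + I + 1) k‖ * (4 * ‖w‖)) := by
        rw [norm_mul, Complex.norm_real, Real.norm_eq_abs, abs_mul, abs_of_pos (by positivity)]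
        gcongr
        exact (norm_inner_le_norm _ _).trans (by gcongr)
      have b5 := norm_y_le hR 0 n k
      have b6 := hR.normE_le I (n + I + 1) k
      rw [e3]
      calc Real.sqrt ((k : ℝ) + 1) * ‖_‖
          ≤ Real.sqrt ((k : ℝ) + 1) * ((‖Ev I k‖ * ‖w‖ + θ * κ * (‖Eh I k‖ * (4 * ‖w‖))) +
            (θ * |∑ i ∈ Finset.range (I + 1), tt n κ i| * (‖y 0 n k‖ * ‖w‖) +
            θ * κ * |tt n κ I / (n + I + 1)| * (‖E I (n + I + 1) k‖ * (4 * ‖w‖)))) := by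
            refine mul_le_mul_of_nonneg_left ?_ hsk
            refine (norm_add_le _ _).trans (add_le_add ?_ ?_)
            · exact (norm_sub_le _ _).trans (add_le_add b1 b2)
            · exact (norm_sub_le _ _).trans (add_le_add b3 b4)
        _ = (Real.sqrt ((k : ℝ) + 1) * ‖Ev I k‖ +
              4 * θ * κ * (Real.sqrt ((k : ℝ) + 1) * ‖Eh I k‖)) * ‖w‖ +
            (θ * |∑ i ∈ Finset.range (I + 1), tt n κ i| *
                (Real.sqrt ((k : ℝ) + 1) * ‖y 0 n k‖) +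
              4 * θ * κ * |tt n κ I / (n + I + 1)| *
                (Real.sqrt ((k : ℝ) + 1) * ‖E I (n + I + 1) k‖)) * ‖w‖ := by ring
        _ ≤ (Real.sqrt ((k : ℝ) + 1) * ‖Ev I k‖ +
              4 * θ * κ * (Real.sqrt ((k : ℝ) + 1) * ‖Eh I k‖)) * ‖w‖ +
            (θ * |∑ i ∈ Finset.range (I + 1), tt n κ i| * Real.sqrt (2 * nu 0 0) +
              4 * θ * κ * |tt n κ I / (n + I + 1)| * Real.sqrt (nu 0 0)) * ‖w‖ := by
            gcongr
        _ = _ := by unfold CC; ring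
  · intro I
    have t1 : Tendsto (fun k : ℕ => sk k * ⟪Ev I k, sk k • y 0 n k⟫_ℂ) atTop (𝓝 0) := by
      refine (hEv I).tendsto_inner (k := fun k => k) tendsto_id (C := Real.sqrt (2 * nu 0 0)) ?_
      refine Eventually.of_forall fun k => ?_
      rw [norm_smul, norm_sk]
      exact norm_y_le hR 0 n k
    have t2 : Tendsto (fun k : ℕ => ∑ i ∈ Finset.range (I + 1), ((θ : ℂ) * (tt n κ i : ℂ)) *
        (((k : ℂ) + 1) * ⟪y i (n + i) k, y 0 n k⟫_ℂ)) atTop
        (𝓝 (∑ i ∈ Finset.range (I + 1), ((θ : ℂ) * (tt n κ i : ℂ)) *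
          ((ρ * nu 0 0 / ((0 + (n + i) : ℕ) + 1) : ℝ) : ℂ))) := by
      refine tendsto_finsetSum _ fun i _ => ?_
      exact (hR.gramy (a := i) (b := n + i) (a' := 0) (b' := n) (by ring)).const_mul _
    have t3 := t1.add t2
    rw [zero_add] at t3
    have e : ((θ * ρ * nu 0 0 * ∑ i ∈ Finset.range (I + 1), tt n κ i / (n + i + 1) : ℝ) : ℂ) =
        ∑ i ∈ Finset.range (I + 1), ((θ : ℂ) * (tt n κ i : ℂ)) *
          ((ρ * nu 0 0 / ((0 + (n + i) : ℕ) + 1) : ℝ) : ℂ) := by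
      push_cast
      rw [Finset.mul_sum]
      refine Finset.sum_congr rfl fun i _ => ?_
      simp only [zero_add]
      ring
    rw [e]
    refine t3.congr fun k => ?_
    rw [hU, inner_add_left, sum_inner, inner_smul_right, mul_add, Finset.mul_sum,
      ← mul_assoc (sk k), sk_sq]
    congr 1
    refine Finset.sum_congr rfl fun i _ => ?_
    rw [inner_smul_left]
    simp only [map_mul, Complex.conj_ofReal]
    ring

theorem tendsto_CC {θ κ : ℝ} {n : ℕ} (hB : BB n κ = 0) :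
    Tendsto (CC θ κ n) atTop (𝓝 0) := by
  unfold CC
  have h1 := (tendsto_sum_tt n κ).abs
  rw [hB, mul_zero, abs_zero] at h1
  have h2 := (hasSum_tt' n κ).summable.tendsto_atTop_zero.abs
  rw [abs_zero] at h2
  have h3 := ((h1.const_mul θ).mul_const (Real.sqrt (2 * nu 0 0))).add
    ((h2.const_mul (4 * θ * κ)).mul_const (Real.sqrt (nu 0 0)))
  simp only [mul_zero, zero_mul, add_zero] at h3
  exact h3

theorem Reg.essW (hR : Reg θ ρ E y md) {N : Form1 →L[ℂ] Form1} (hN : IsNeumann1 N) {n : ℕ}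
    {κ : ℝ} (hκ : 0 < κ) (hB : BB n κ = 0) : EssW N (((θ * κ)⁻¹ : ℝ) : ℂ) := by
  have hθ := hR.hθ
  have hρ := hR.hρ
  have hnu := nu_zero_pos
  obtain ⟨H, U, hU1, hU2, hU3, hU4⟩ := hR.quasimode n hκ
  refine essW_of (hR.md_inj 0 (n + 1)) fun ε hε => ?_
  set L : ℝ := θ * ρ * nu 0 0 * |(n ! : ℝ) * BB (n + 1) κ| with hL
  have hLpos : 0 < L := by
    rw [hL]
    have h1 : 0 < |(n ! : ℝ) * BB (n + 1) κ| := by
      rw [abs_pos]
      exact mul_ne_zero (by exact_mod_cast n.factorial_ne_zero) (BB_consec hκ.ne' hB)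
    positivity
  set c : ℝ := L / 4 / Real.sqrt (2 * nu 0 0) with hc
  have hsq : 0 < Real.sqrt (2 * nu 0 0) := Real.sqrt_pos.mpr (by positivity)
  have hcpos : 0 < c := by rw [hc]; positivity
  set δ : ℝ := ε * (θ * κ) * c / 2 with hδ
  have hδpos : 0 < δ := by rw [hδ]; positivity
  -- choose `I`
  have e1 : ∀ᶠ I in atTop, CC θ κ n I < δ :=
    (tendsto_CC hB).eventually (gt_mem_nhds hδpos)
  have e2 : ∀ᶠ I in atTop, L / 2 < |θ * ρ * nu 0 0 *
      ∑ i ∈ Finset.range (I + 1), tt n κ i / (n + i + 1)| := by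
    have h1 := ((hasSum_tt' n κ).tendsto_sum_nat.comp (tendsto_add_atTop_nat 1)).const_mul
      (θ * ρ * nu 0 0)
    have h2 := h1.abs
    have h3 : |θ * ρ * nu 0 0 * ((n ! : ℝ) * BB (n + 1) κ)| = L := by
      rw [abs_mul, abs_of_pos (by positivity)]
    rw [h3] at h2
    exact h2.eventually (lt_mem_nhds (by linarith))
  obtain ⟨I, hI1, hI2⟩ := (e1.and e2).exists
  obtain ⟨e, he0, henn, he⟩ := hU3 I
  have e3 : ∀ᶠ k in atTop, e k < δ := he0.eventually (gt_mem_nhds hδpos)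
  have e4 : ∀ᶠ k : ℕ in atTop, L / 4 < ‖((k : ℂ) + 1) * ⟪U I k, y 0 n k⟫_ℂ‖ := by
    have h1 := (hU4 I).norm
    rw [Complex.norm_real, Real.norm_eq_abs] at h1
    exact h1.eventually (lt_mem_nhds (by linarith))
  filter_upwards [e3, e4] with k hk1 hk2
  have hsk : 0 < Real.sqrt ((k : ℝ) + 1) := Real.sqrt_pos.mpr (by positivity)
  have hUk : c < Real.sqrt ((k : ℝ) + 1) * ‖U I k‖ := by
    rw [hc, div_lt_iff₀ hsq]
    refine hk2.trans_le ?_
    have h1 : ‖(k : ℂ) + 1‖ = Real.sqrt ((k : ℝ) + 1) * Real.sqrt ((k : ℝ) + 1) := by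
      rw [← sk_sq, norm_mul, norm_sk]
    rw [norm_mul, h1]
    calc Real.sqrt ((k : ℝ) + 1) * Real.sqrt ((k : ℝ) + 1) * ‖⟪U I k, y 0 n k⟫_ℂ‖
        ≤ Real.sqrt ((k : ℝ) + 1) * Real.sqrt ((k : ℝ) + 1) * (‖U I k‖ * ‖y 0 n k‖) := by
          gcongr
          exact norm_inner_le_norm _ _
      _ = (Real.sqrt ((k : ℝ) + 1) * ‖U I k‖) * (Real.sqrt ((k : ℝ) + 1) * ‖y 0 n k‖) := by ring
      _ ≤ _ := by
          gcongr
          exact norm_y_le hR 0 n k
  refine ⟨U I k, fmode_of_graph0 (hU1 I k) (hU2 I k), ?_, ?_⟩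
  · intro h0
    rw [h0, norm_zero, mul_zero] at hUk
    linarith
  · have h1 := weyl_est Pool.Agent.Lib.MP_169ce5_an.hc (neumann_box hN).1 (hU1 I k) (κ := θ * κ)
      (ε := (e k + CC θ κ n I) / Real.sqrt ((k : ℝ) + 1)) (by positivity) ?_ ?_
    · refine h1.trans ?_
      have h2 : (e k + CC θ κ n I) ≤ 2 * δ := by linarith
      calc (θ * κ)⁻¹ * ((e k + CC θ κ n I) / Real.sqrt ((k : ℝ) + 1))
          ≤ (θ * κ)⁻¹ * (2 * δ / Real.sqrt ((k : ℝ) + 1)) := by gcongr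
        _ = ε * (c / Real.sqrt ((k : ℝ) + 1)) := by
            rw [hδ]; field_simp
        _ ≤ ε * ‖U I k‖ := by
            gcongr
            rw [div_le_iff₀ hsk]
            linarith
    · have h2 : 0 ≤ CC θ κ n I := by unfold CC; positivity
      have := henn k
      positivity
    · intro h v hv hperp
      have h2 := he k h v hv hperp
      rw [div_mul_eq_mul_div, le_div_iff₀ hsk, mul_comm]
      exact h2

end Pool.Agent.Lib.MP_169ce5_an.Ess
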