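import Pool.Agent.Lib.MP_169ce5_an.EssConj

/-!
An orthonormal basis of eigenforms of the `∂̄`-Neumann operator adapted to the angular modes and
to the splitting into `∂̄`-closed and `∂̄*`-closed forms; Weyl's criterion for diagonal operators.
-/

open MeasureTheory Complex Filter Topology Set
open scoped ContDiff ComplexConjugate ENNReal InnerProductSpace

noncomputable section

namespace Pool.Agent.Lib.MP_169ce5_an.Ess

section Abstract

variable {H : Type*} [NormedAddCommGroup H] [InnerProductSpace ℂ H] [CompleteSpace H]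

theorem total_modes {ι : Type*} {R : H →L[ℂ] H} (hR : (R : H →ₗ[ℂ] H).IsSymmetric)
    (V : ι → Submodule ℂ H) (hV : ∀ i, IsClosed (V i : Set H))
    (hinv : ∀ i, ∀ x ∈ V i, R x ∈ V i)
    (hcomp : ∀ i, ∀ ε > 0, ∃ F : Submodule ℂ H, FiniteDimensional ℂ F ∧
      ∀ x ∈ V i, ∃ y ∈ F, ‖R x - y‖ ≤ ε * ‖x‖)
    (htot : ∀ x : H, (∀ i, ∀ y ∈ V i, ⟪y, x⟫_ℂ = 0) → x = 0) {x : H}
    (hx : ∀ i (μ : ℂ) (e : H), e ∈ V i → R e = μ • e → ⟪e, x⟫_ℂ = 0) : x = 0 := by
  apply htot
  intro i
  have : CompleteSpace (V i) := (hV i).completeSpace_coe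
  let Ti : V i →L[ℂ] V i := R.restrict (hinv i)
  have hTi : ∀ v : V i, ((Ti v : V i) : H) = R v := fun v => rfl
  have hsymm : (Ti : V i →ₗ[ℂ] V i).IsSymmetric := by
    intro v w
    exact hR v w
  have hcompact : IsCompactOperator Ti := by
    have h1 : IsCompactOperator (R.comp (V i).subtypeL : V i →L[ℂ] H) := by
      choose F hF1 hF2 using hcomp i
      let u : ℕ → ℝ := fun n => 1 / ((n : ℝ) + 1)
      have hu : ∀ n, 0 < u n := fun n => by positivity
      have hu0 : Tendsto u atTop (𝓝 0) := tendsto_one_div_add_atTop_nhds_zero_nat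
      let A : ℕ → (V i →L[ℂ] H) := fun n =>
        haveI := hF1 (u n) (hu n)
        (F (u n) (hu n)).starProjection.comp (R.comp (V i).subtypeL)
      refine isCompactOperator_of_tendsto (l := atTop) (F := A) ?_ (Eventually.of_forall ?_)
      · rw [tendsto_iff_norm_sub_tendsto_zero]
        refine squeeze_zero (fun n => norm_nonneg _) (fun n => ?_) hu0
        refine ContinuousLinearMap.opNorm_le_bound _ (hu n).le fun v => ?_
        have := hF1 (u n) (hu n)
        obtain ⟨y, hy, hy2⟩ := hF2 (u n) (hu n) v v.2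
        have h3 : ‖R v - (F (u n) (hu n)).starProjection (R v)‖ ≤ ‖R v - y‖ := by
          rw [(Submodule.starProjection_minimal (U := F (u n) (hu n)) (R v))]
          exact ciInf_le ⟨0, by rintro _ ⟨w, rfl⟩; positivity⟩ (⟨y, hy⟩ : F (u n) (hu n))
        calc ‖(A n - R.comp (V i).subtypeL) v‖
            = ‖R v - (F (u n) (hu n)).starProjection (R v)‖ := by
              rw [norm_sub_rev]; rfl
          _ ≤ ‖R v - y‖ := h3
          _ ≤ u n * ‖(v : H)‖ := hy2
      · intro n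
        have := hF1 (u n) (hu n)
        have h4 : IsCompactOperator
            ((F (u n) (hu n)).orthogonalProjectionOnto : H →L[ℂ] F (u n) (hu n)) :=
          haveI : ProperSpace (F (u n) (hu n)) := FiniteDimensional.proper ℂ _
          isCompactOperator_of_locallyCompactSpace_dom
            ((F (u n) (hu n)).orthogonalProjectionOnto)
        exact (h4.clm_comp (F (u n) (hu n)).subtypeL).comp_clm (R.comp (V i).subtypeL)
    exact h1.codRestrict (fun v => hinv i v v.2) (hV i)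
  have hspec := ContinuousLinearMap.orthogonalComplement_iSup_eigenspaces_eq_bot hcompact hsymm
  let xi : V i := (V i).orthogonalProjectionOnto x
  have hxi : xi ∈ (⨆ μ, Module.End.eigenspace (Ti : Module.End ℂ (V i)) μ)ᗮ := by
    rw [Submodule.mem_orthogonal]
    intro w hw
    refine Submodule.iSup_induction _ (motive := fun w => ⟪w, xi⟫_ℂ = 0) hw ?_ ?_ ?_
    · intro μ e he
      have he' : Ti e = μ • e := Module.End.mem_eigenspace_iff.mp he
      have he2 : R (e : H) = μ • (e : H) := by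
        exact congrArg (fun v : V i => (v : H)) he'
      have h5 := hx i μ e e.2 he2
      have h6 : ⟪e, xi⟫_ℂ = ⟪(e : H), x⟫_ℂ := by
        simp only [xi]
        rw [Submodule.coe_inner]
        exact Submodule.inner_orthogonalProjectionOnto_eq_of_mem_left e x
      rw [h6, h5]
    · simp
    · intro a b ha hb
      rw [inner_add_left, ha, hb, add_zero]
  rw [hspec, Submodule.mem_bot] at hxi
  intro y hy
  have h7 : ⟪(⟨y, hy⟩ : V i), xi⟫_ℂ = ⟪y, x⟫_ℂ := by
    simp only [xi]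
    rw [Submodule.coe_inner]
    exact Submodule.inner_orthogonalProjectionOnto_eq_of_mem_left (⟨y, hy⟩ : V i) x
  rw [← h7, hxi, inner_zero_right]

/-- A Hilbert basis adapted to a total orthogonal family of closed subspaces. -/
theorem exists_adapted {J : Type} {H : Type} [NormedAddCommGroup H] [InnerProductSpace ℂ H]
    [CompleteSpace H] (V : J → Submodule ℂ H) (hV : ∀ i, IsClosed (V i : Set H))
    (hor : ∀ i j, i ≠ j → ∀ u ∈ V i, ∀ v ∈ V j, ⟪u, v⟫_ℂ = 0)
    (htot : ∀ x : H, (∀ i, ∀ u ∈ V i, ⟪u, x⟫_ℂ = 0) → x = 0) :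
    ∃ (ι : Type) (b : HilbertBasis ι ℂ H) (k : ι → J), ∀ i, b i ∈ V (k i) := by
  have hcs : ∀ i, CompleteSpace (V i) := fun i => (hV i).completeSpace_coe
  choose w b hb using fun i : J => exists_hilbertBasis ℂ (V i)
  let v : (Σ i : J, w i) → H := fun p => ((b p.1 p.2 : _) : H)
  have hfam : OrthogonalFamily ℂ (fun i => V i) fun i => (V i).subtypeₗᵢ := by
    intro i j hij u v
    exact hor i j hij u u.2 v v.2
  have hortho : Orthonormal ℂ v :=
    OrthogonalFamily.orthonormal_sigma_orthonormal (𝕜 := ℂ) hfam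
      (v_family := fun i => (b i : w i → _)) (fun i => (b i).orthonormal)
  have hspan : ⊤ ≤ (Submodule.span ℂ (Set.range v)).topologicalClosure := by
    rw [top_le_iff, Submodule.topologicalClosure_eq_top_iff, eq_bot_iff]
    intro x hx
    rw [Submodule.mem_bot]
    apply htot
    intro j e he
    have hcs' := hcs j
    let P := (V j).orthogonalProjectionOnto x
    have hP : ∀ i, ⟪b j i, P⟫_ℂ = 0 := by
      intro i
      have h2 : ⟪b j i, P⟫_ℂ = ⟪((b j i : _) : H), x⟫_ℂ := by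
        rw [Submodule.coe_inner]
        exact Submodule.inner_orthogonalProjectionOnto_eq_of_mem_left (b j i) x
      rw [h2]
      rw [Submodule.mem_orthogonal] at hx
      exact hx _ (Submodule.subset_span ⟨⟨j, i⟩, rfl⟩)
    have hP0 : P = 0 := by
      apply (b j).repr.injective
      ext i
      rw [(b j).repr_apply_apply, hP i]
      simp
    have h3 : ⟪(⟨e, he⟩ : V j), P⟫_ℂ = ⟪e, x⟫_ℂ := by
      rw [Submodule.coe_inner]
      exact Submodule.inner_orthogonalProjectionOnto_eq_of_mem_left (⟨e, he⟩ : V j) x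
    rw [← h3, hP0, inner_zero_right]
  refine ⟨_, HilbertBasis.mk hortho hspan, fun i => i.1, fun i => ?_⟩
  rw [HilbertBasis.coe_mk]
  exact (b i.1 i.2).2

theorem parseval_gen {ι : Type*} (b : HilbertBasis ι ℂ H) (x : H) :
    HasSum (fun i => ‖⟪b i, x⟫_ℂ‖ ^ 2) (‖x‖ ^ 2) := by
  have h := b.hasSum_inner_mul_inner x x
  rw [inner_self_eq_norm_sq_to_K] at h
  have h2 := Complex.reCLM.hasSum h
  convert h2 using 1
  · funext j
    simp only [Complex.reCLM_apply]
    rw [← inner_conj_symm x (b j), Complex.conj_mul']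
    norm_cast
  · simp only [Complex.reCLM_apply]
    norm_cast

/-- Weyl's criterion for a diagonal operator. -/
theorem infinite_of_weyl {ι : Type*} {N : H →L[ℂ] H} (hN : (N : H →ₗ[ℂ] H).IsSymmetric)
    (b : HilbertBasis ι ℂ H) {r : ι → ℝ} (hr : ∀ i, N (b i) = (r i : ℂ) • b i) {lam : ℂ}
    {u : ℕ → H} (hu : Orthonormal ℂ u)
    (hlim : Tendsto (fun k => ‖N (u k) - lam • u k‖) atTop (𝓝 0)) {δ : ℝ} (hδ : 0 < δ) :
    {i | ‖(r i : ℂ) - lam‖ < δ}.Infinite := by
  classical
  intro hfin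
  have hcoord : ∀ (x : H) (i : ι), ⟪b i, N x - lam • x⟫_ℂ = (r i - lam) * ⟪b i, x⟫_ℂ := by
    intro x i
    have h2 : ⟪b i, N x⟫_ℂ = r i * ⟪b i, x⟫_ℂ := by
      have h3 := hN (b i) x
      change ⟪N (b i), x⟫_ℂ = ⟪b i, N x⟫_ℂ at h3
      rw [← h3, hr, inner_smul_left, Complex.conj_ofReal]
    rw [inner_sub_right, inner_smul_right, h2]
    ring
  have hbelow : ∀ x : H, δ ^ 2 * (‖x‖ ^ 2 - ∑ i ∈ hfin.toFinset, ‖⟪b i, x⟫_ℂ‖ ^ 2) ≤
      ‖N x - lam • x‖ ^ 2 := by
    intro x
    have h1 := parseval_gen b x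
    have h2 := parseval_gen b (N x - lam • x)
    have h3 : HasSum (fun i => ‖⟪b i, x⟫_ℂ‖ ^ 2 -
        (if i ∈ hfin.toFinset then ‖⟪b i, x⟫_ℂ‖ ^ 2 else 0))
        (‖x‖ ^ 2 - ∑ i ∈ hfin.toFinset, ‖⟪b i, x⟫_ℂ‖ ^ 2) := by
      refine h1.sub ?_
      have h4 : ∑ i ∈ hfin.toFinset, ‖⟪b i, x⟫_ℂ‖ ^ 2 = ∑ i ∈ hfin.toFinset,
          (if i ∈ hfin.toFinset then ‖⟪b i, x⟫_ℂ‖ ^ 2 else 0) :=
        Finset.sum_congr rfl fun i hi => by rw [if_pos hi]
      rw [h4]
      exact hasSum_sum_of_ne_finset_zero fun i hi => by rw [if_neg hi]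
    refine hasSum_le (fun i => ?_) (h3.mul_left (δ ^ 2)) h2
    rw [hcoord, norm_mul, mul_pow]
    by_cases hi : i ∈ hfin.toFinset
    · rw [if_pos hi, sub_self, mul_zero]
      positivity
    · rw [if_neg hi, sub_zero]
      have h5 : δ ≤ ‖(r i : ℂ) - lam‖ := by
        by_contra hcon
        push Not at hcon
        exact hi (by simpa using hcon)
      gcongr
  have h0 : ∀ i : ι, Tendsto (fun k => ‖⟪b i, u k⟫_ℂ‖ ^ 2) atTop (𝓝 0) := by
    intro i
    have h1 := (hu.inner_products_summable (x := b i)).tendsto_atTop_zero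
    refine h1.congr fun k => ?_
    rw [norm_inner_symm]
  have h1 : Tendsto (fun k => δ ^ 2 * (‖u k‖ ^ 2 -
      ∑ i ∈ hfin.toFinset, ‖⟪b i, u k⟫_ℂ‖ ^ 2)) atTop (𝓝 (δ ^ 2 * (1 - 0))) := by
    refine Tendsto.const_mul _ (Tendsto.sub ?_ ?_)
    · refine tendsto_const_nhds.congr fun k => ?_
      rw [hu.1 k, one_pow]
    · have := tendsto_finsetSum (s := hfin.toFinset) (fun i _ => h0 i)
      rwa [Finset.sum_const_zero] at this
  have h2 : Tendsto (fun k => ‖N (u k) - lam • u k‖ ^ 2) atTop (𝓝 0) := by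
    have := hlim.pow 2
    rwa [zero_pow two_ne_zero] at this
  have h3 := le_of_tendsto_of_tendsto h1 h2 (Eventually.of_forall fun k => hbelow (u k))
  have : 0 < δ ^ 2 := by positivity
  linarith

theorem finite_of_orthonormal {ι : Type*} {v : ι → H} (hv : Orthonormal ℂ v) (x : H) {c : ℝ}
    (hc : 0 < c) : {i | c ≤ ‖⟪v i, x⟫_ℂ‖ ^ 2}.Finite := by
  have h1 := (hv.inner_products_summable (x := x)).tendsto_cofinite_zero
  have h2 := h1.eventually (gt_mem_nhds hc)
  rw [Filter.eventually_cofinite] at h2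
  refine h2.subset fun i hi => ?_
  simp only [mem_ofPred_eq] at hi ⊢
  exact not_lt.mpr hi

/-- orthonormal vectors having a large coefficient on a member of a finite set are finite in
number -/
theorem finite_of_image {ι J : Type*} {v : ι → H} (hv : Orthonormal ℂ v) (p : J → H) {c : ℝ}
    (hc : 0 < c) (g : ι → J) {S : Set ι} (hg : ∀ i ∈ S, c ≤ ‖⟪v i, p (g i)⟫_ℂ‖ ^ 2)
    (hS : (g '' S).Finite) : S.Finite := by
  refine Set.Finite.of_finite_fibers g hS fun j _ => ?_
  refine (finite_of_orthonormal hv (p j) hc).subset ?_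
  rintro i ⟨hi, hij⟩
  have := hg i hi
  rw [mem_preimage, mem_singleton_iff] at hij
  rw [hij] at this
  exact this

end Abstract

/-- the joint eigenspaces: modes, eigenvalues and type -/
def Wt (N : Form1 →L[ℂ] Form1) (j : Bool × (ℤ × ℤ) × ℂ) : Submodule ℂ Form1 where
  carrier := {u | u ∈ fmode j.2.1 ∧ N u = j.2.2 • u ∧
    (if j.1 then (u, (0 : L2)) ∈ graph0.adjoint else (u, (0 : L2)) ∈ graph1)}
  add_mem' := by
    rintro u v ⟨h1, h2, h3⟩ ⟨h4, h5, h6⟩
    refine ⟨(fmode _).add_mem h1 h4, by rw [map_add, h2, h5, smul_add], ?_⟩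
    rcases j with ⟨_ | _, j⟩
    · have := graph1.add_mem h3 h6
      simpa using this
    · have := (graph0.adjoint).add_mem h3 h6
      simpa using this
  zero_mem' := by
    refine ⟨(fmode _).zero_mem, by simp, ?_⟩
    rcases j with ⟨_ | _, j⟩
    · exact graph1.zero_mem
    · exact graph0.adjoint.zero_mem
  smul_mem' := by
    rintro c u ⟨h1, h2, h3⟩
    refine ⟨(fmode _).smul_mem c h1, by rw [map_smul, h2, smul_comm], ?_⟩
    rcases j with ⟨_ | _, j⟩
    · have := graph1.smul_mem c h3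
      simpa using this
    · have := (graph0.adjoint).smul_mem c h3
      simpa using this

theorem mem_Wt_false {N : Form1 →L[ℂ] Form1} {m : ℤ × ℤ} {μ : ℂ} {u : Form1} :
    u ∈ Wt N (false, m, μ) ↔ u ∈ fmode m ∧ N u = μ • u ∧ (u, (0 : L2)) ∈ graph1 := Iff.rfl

theorem mem_Wt_true {N : Form1 →L[ℂ] Form1} {m : ℤ × ℤ} {μ : ℂ} {u : Form1} :
    u ∈ Wt N (true, m, μ) ↔ u ∈ fmode m ∧ N u = μ • u ∧ (u, (0 : L2)) ∈ graph0.adjoint := Iff.rfl

theorem isClosed_Wt (N : Form1 →L[ℂ] Form1) (j : Bool × (ℤ × ℤ) × ℂ) :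
    IsClosed (Wt N j : Set Form1) := by
  have h1 : IsClosed {u : Form1 | N u = j.2.2 • u} :=
    isClosed_eq N.continuous (continuous_const_smul _)
  have h3 : Continuous fun u : Form1 => (u, (0 : L2)) := by fun_prop
  rcases j with ⟨_ | _, j⟩
  · exact (isClosed_fmode j.1).inter (h1.inter (isClosed_graph1.preimage h3))
  · have h2 : IsClosed (graph0.adjoint : Set (Form1 × L2)) := HC.isClosed_adj hc.adj0
    exact (isClosed_fmode j.1).inter (h1.inter (h2.preimage h3))

theorem inner_types {u v : Form1} (hu : (u, (0 : L2)) ∈ graph1)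
    (hv : (v, (0 : L2)) ∈ graph0.adjoint) : ⟪u, v⟫_ℂ = 0 := by
  obtain ⟨f, hf⟩ := hc.exact1 u hu
  rw [adj_inner hv hf, inner_zero_right]

theorem inner_Wt {N : Form1 →L[ℂ] Form1} (hN : IsNeumann1 N) {i j : Bool × (ℤ × ℤ) × ℂ}
    (hij : i ≠ j) {u v : Form1} (hu : u ∈ Wt N i) (hv : v ∈ Wt N j) : ⟪u, v⟫_ℂ = 0 := by
  by_cases h1 : i.2.1 = j.2.1
  · by_cases h2 : i.2.2 = j.2.2
    · obtain ⟨bi, i⟩ := i
      obtain ⟨bj, j⟩ := j
      have h3 : bi ≠ bj := by
        intro h3
        exact hij (Prod.ext h3 (Prod.ext h1 h2))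
      cases bi <;> cases bj
      · exact absurd rfl h3
      · exact inner_types hu.2.2 hv.2.2
      · rw [← inner_conj_symm, inner_types hv.2.2 hu.2.2, map_zero]
      · exact absurd rfl h3
    · have h3 := (neumann_symm hN).orthogonalFamily_eigenspaces h2
      exact h3 ⟨u, Module.End.mem_eigenspace_iff.mpr hu.2.1⟩
        ⟨v, Module.End.mem_eigenspace_iff.mpr hv.2.1⟩
  · exact inner_fmode h1 hu.1 hv.1

theorem total_res0 {R : L2 →L[ℂ] L2} {S : L2 →L[ℂ] Form1} (hR : Res graph0 R S) {x : L2}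
    (hx : ∀ (m : ℤ × ℤ) (μ : ℂ) (e : L2), e ∈ mode m → R e = μ • e → ⟪e, x⟫_ℂ = 0) : x = 0 := by
  refine total_modes hR.symm mode isClosed_mode (mode_inv_of_rot (res0_rot hR)) ?_
    (fun x hx => total_mode hx) hx
  intro m ε hε
  obtain ⟨F, hF, hF2⟩ := mode_compact m (ε := ε / 3) (by positivity)
  refine ⟨F, hF, fun x hx => ?_⟩
  obtain ⟨w, hw, hw1, hw2⟩ := graph0_WX (hR.mem x)
  have hm : w.1 ∈ mode m := by
    rw [hw1]; exact mode_inv_of_rot (res0_rot hR) m x hx
  obtain ⟨y, hy, hy2⟩ := hF2 w hw hm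
  refine ⟨y, hy, ?_⟩
  rw [hw1] at hy2
  have h1 := hR.norm_S_le x
  calc ‖R x - y‖ ≤ ε / 3 * ‖(WithLp.toLp 2 w.2 : Form1)‖ := hy2
    _ ≤ ε / 3 * (3 * ‖S x‖) := by gcongr
    _ = ε * ‖S x‖ := by ring
    _ ≤ ε * ‖x‖ := by gcongr

theorem total_res2 {R : L2 →L[ℂ] L2} {S : L2 →L[ℂ] Form1} (hR : Res graph1.adjoint R S) {x : L2}
    (hx : ∀ (m : ℤ × ℤ) (μ : ℂ) (e : L2), e ∈ mode m → R e = μ • e → ⟪e, x⟫_ℂ = 0) : x = 0 := by
  refine total_modes hR.symm mode isClosed_mode (mode_inv_of_rot (res2_rot hR)) ?_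
    (fun x hx => total_mode hx) hx
  intro m ε hε
  obtain ⟨F, hF, hF2⟩ := mode_compact m (ε := ε / 3) (by positivity)
  refine ⟨F, hF, fun x hx => ?_⟩
  obtain ⟨u, hu, hu2⟩ := adj1_graph0 (hR.mem x)
  obtain ⟨w, hw, hw1, hw2⟩ := graph0_WX hu
  have hm : w.1 ∈ mode m := by
    rw [hw1]; exact mode_inv_of_rot (res2_rot hR) m x hx
  obtain ⟨y, hy, hy2⟩ := hF2 w hw hm
  refine ⟨y, hy, ?_⟩
  rw [hw1] at hy2
  have h1 := hR.norm_S_le x
  calc ‖R x - y‖ ≤ ε / 3 * ‖(WithLp.toLp 2 w.2 : Form1)‖ := hy2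
    _ ≤ ε / 3 * (3 * ‖u‖) := by gcongr
    _ ≤ ε / 3 * (3 * ‖S x‖) := by gcongr
    _ = ε * ‖S x‖ := by ring
    _ ≤ ε * ‖x‖ := by gcongr

theorem total_Wt {N : Form1 →L[ℂ] Form1} (hN : IsNeumann1 N) {x : Form1}
    (hx : ∀ j, ∀ u ∈ Wt N j, ⟪u, x⟫_ℂ = 0) : x = 0 := by
  obtain ⟨R0, S0, hR0⟩ := exists_res graph0 isClosed_graph0
  obtain ⟨R2, S2, hR2⟩ := exists_res graph1.adjoint (HC.isClosed_adj hc.adj1)
  have hflip : ∀ v f, (v, f) ∈ graph1 ↔ ∀ y ∈ graph1.adjoint, ⟪y.2, v⟫_ℂ = ⟪y.1, f⟫_ℂ := by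
    intro v f
    constructor
    · intro hv y hy
      have := (hc.adj1 _ _).mp hy _ hv
      simp only at this
      rw [← inner_conj_symm, ← this, inner_conj_symm]
    · intro hv
      exact mem_of_adj_adj hc.cl1 hc.adj1 hv
  have hbox := (neumann_box hN).2
  -- common argument
  have key : ∀ (b : Bool) (m : ℤ × ℤ) (s : Form1) (μ : ℂ), μ ≠ 0 →
      Box graph0 graph1 graph0.adjoint graph1.adjoint s (((1 - μ) / μ) • s) → s ∈ fmode m →
      (if b then (s, (0 : L2)) ∈ graph0.adjoint else (s, (0 : L2)) ∈ graph1) →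
      ⟪s, x⟫_ℂ = 0 := by
    intro b m s μ hμ hB hs hb
    have h1 := hbox _ _ hB
    by_cases h2 : 1 - μ = 0
    · rw [h2, zero_div, zero_smul, map_zero] at h1
      rw [← h1, inner_zero_left]
    · refine hx (b, m, μ / (1 - μ)) s ⟨hs, ?_, hb⟩
      rw [map_smul] at h1
      have h3 : (μ / (1 - μ)) • ((1 - μ) / μ) • N s = (μ / (1 - μ)) • s := by rw [h1]
      rw [smul_smul, div_mul_div_cancel₀ h2, div_self hμ, one_smul] at h3
      exact h3
  have k0 : ∀ g : L2, ⟪x, S0 g⟫_ℂ = 0 := by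
    have h1 : ContinuousLinearMap.adjoint S0 x = 0 := by
      apply total_res0 hR0
      intro m μ e hem he
      rw [ContinuousLinearMap.adjoint_inner_right]
      by_cases hμ : μ = 0
      · have h2 := hR0.norm_sq e
        rw [he, hμ, zero_smul, norm_zero] at h2
        have h3 : ‖S0 e‖ = 0 := by nlinarith [sq_nonneg ‖S0 e‖]
        rw [norm_eq_zero.mp h3, inner_zero_left]
      · have m1 := hR0.mem e
        have m2 : (S0 e, (1 - μ) • e) ∈ graph0.adjoint := by
          rw [hc.adj0]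
          intro y hy
          have := hR0.eq e y hy
          rw [he, inner_smul_right] at this
          rw [inner_smul_right]
          linear_combination this
        refine key false m _ μ hμ ?_ ?_ (hc.comp _ m1)
        · refine ⟨(1 - μ) • e, 0, ((1 - μ) / μ) • S0 e, 0, m2, ?_, hc.comp _ m1,
            graph1.adjoint.zero_mem, by simp⟩
          have m3 := graph0.smul_mem ((1 - μ) / μ) m1
          rw [he] at m3
          have e3 : ((1 - μ) / μ) • (μ • e, S0 e) = ((1 - μ) • e, ((1 - μ) / μ) • S0 e) := by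
            rw [Prod.smul_mk, smul_smul, div_mul_cancel₀ _ hμ]
          rwa [e3] at m3
        · refine fmode_of_graph0 m1 ?_
          rw [he]
          exact (mode m).smul_mem _ hem
    intro g
    rw [← ContinuousLinearMap.adjoint_inner_left, h1, inner_zero_left]
  have k2 : ∀ g : L2, ⟪x, S2 g⟫_ℂ = 0 := by
    have h1 : ContinuousLinearMap.adjoint S2 x = 0 := by
      apply total_res2 hR2
      intro m μ e hem he
      rw [ContinuousLinearMap.adjoint_inner_right]
      by_cases hμ : μ = 0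
      · have h2 := hR2.norm_sq e
        rw [he, hμ, zero_smul, norm_zero] at h2
        have h3 : ‖S2 e‖ = 0 := by nlinarith [sq_nonneg ‖S2 e‖]
        rw [norm_eq_zero.mp h3, inner_zero_left]
      · have m1 := hR2.mem e
        have m2 : (S2 e, (1 - μ) • e) ∈ graph1 := by
          rw [hflip]
          intro y hy
          have := hR2.eq e y hy
          rw [he, inner_smul_right] at this
          rw [inner_smul_right]
          linear_combination this
        have m4 : (S2 e, (0 : L2)) ∈ graph0.adjoint := by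
          rw [hc.adj0]
          intro y hy
          have := (hc.adj1 _ _).mp m1 _ (hc.comp y hy)
          rw [inner_zero_right, ← this, inner_zero_left]
        refine key true (m - (1, 1)) _ μ hμ ?_ ?_ m4
        · refine ⟨0, (1 - μ) • e, 0, ((1 - μ) / μ) • S2 e, m4, graph0.zero_mem, m2, ?_, by simp⟩
          have m3 := (graph1.adjoint).smul_mem ((1 - μ) / μ) m1
          rw [he] at m3
          have e3 : ((1 - μ) / μ) • (μ • e, S2 e) = ((1 - μ) • e, ((1 - μ) / μ) • S2 e) := by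
            rw [Prod.smul_mk, smul_smul, div_mul_cancel₀ _ hμ]
          rwa [e3] at m3
        · refine fmode_of_adj1 m1 ?_
          rw [he]
          exact (mode m).smul_mem _ hem
    intro g
    rw [← ContinuousLinearMap.adjoint_inner_left, h1, inner_zero_left]
  have c0 := hR0.core hc.cl0 (fun _ hs => graph0_unique hs) k0
  have c2 := hR2.core (HC.isClosed_adj hc.adj1) (fun _ hs => adj1_zero hs) k2
  apply hc.harmonic
  · rw [hflip]
    intro y hy
    rw [inner_zero_right, ← inner_conj_symm, c2 y hy, map_zero]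
  · rw [hc.adj0]
    intro y hy
    rw [inner_zero_right, ← inner_conj_symm, c0 y hy, map_zero]

theorem exists_basis {N : Form1 →L[ℂ] Form1} (hN : IsNeumann1 N) :
    ∃ (ι : Type) (b : HilbertBasis ι ℂ Form1) (k : ι → Bool × (ℤ × ℤ) × ℂ),
      ∀ i, b i ∈ Wt N (k i) :=
  exists_adapted (Wt N) (isClosed_Wt N) (fun _ _ hij _ hu _ hv => inner_Wt hN hij hu hv)
    (fun _ hx => total_Wt hN hx)

end Pool.Agent.Lib.MP_169ce5_an.Ess
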