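import Pool.Agent.Lib.MP_169ce5_an.EssReg
import Pool.Agent.Lib.MP_169ce5_an.EssBessel

/-!
If `κ / θ` is not a zero of one of the functions `BB n`, then eigenfunctions of `□₀` with
eigenvalues tending to `κ` have no component in an asymptotic regime.
-/

open MeasureTheory Complex Filter Topology Set
open scoped ContDiff ComplexConjugate ENNReal InnerProductSpace

noncomputable section

namespace Pool.Agent.Lib.MP_169ce5_an.Ess

variable {θ ρ : ℝ} {E : ℕ → ℕ → ℕ → L2} {y : ℕ → ℕ → ℕ → Form1} {md : ℕ → ℕ → ℕ → ℤ × ℤ}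

/-- the factor `√(k+1)` -/
def sk (k : ℕ) : ℂ := ((Real.sqrt ((k : ℝ) + 1) : ℝ) : ℂ)

theorem norm_sk (k : ℕ) : ‖sk k‖ = Real.sqrt ((k : ℝ) + 1) := by
  unfold sk
  rw [Complex.norm_real, Real.norm_of_nonneg (Real.sqrt_nonneg _)]

theorem sk_sq (k : ℕ) : sk k * sk k = (k : ℂ) + 1 := by
  unfold sk
  rw [← Complex.ofReal_mul, Real.mul_self_sqrt (by positivity)]
  push_cast
  rfl

theorem Small.tendsto_inner {H : Type*} [NormedAddCommGroup H] [InnerProductSpace ℂ H]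
    {w : ℕ → H} (hw : Small w) {α : Type*} {l : Filter α} {k : α → ℕ} (hk : Tendsto k l atTop)
    {u : α → H} {C : ℝ} (hC : ∀ᶠ x in l, ‖u x‖ ≤ C) :
    Tendsto (fun x => sk (k x) * ⟪w (k x), u x⟫_ℂ) l (𝓝 0) := by
  have h1 := (Tendsto.comp hw hk).mul_const C
  rw [zero_mul] at h1
  refine squeeze_zero_norm' ?_ h1
  filter_upwards [hC] with x hx
  rw [norm_mul, norm_sk]
  simp only [Function.comp_apply]
  calc Real.sqrt ((k x : ℝ) + 1) * ‖⟪w (k x), u x⟫_ℂ‖
      ≤ Real.sqrt ((k x : ℝ) + 1) * (‖w (k x)‖ * ‖u x‖) := by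
        gcongr
        exact norm_inner_le_norm _ _
    _ ≤ Real.sqrt ((k x : ℝ) + 1) * (‖w (k x)‖ * C) := by gcongr
    _ = _ := by ring

theorem Reg.normE (hR : Reg θ ρ E y md) (a b k : ℕ) :
    ((k : ℝ) + 1) * ‖E a b k‖ ^ 2 = nu 0 0 / ((a + b : ℕ) + 1) := by
  have h := hR.gram (a := a) (b := b) (a' := a) (b' := b) (by omega) k
  rw [inner_self_eq_norm_sq_to_K] at h
  have h2 : ((((k : ℝ) + 1) * ‖E a b k‖ ^ 2 : ℝ) : ℂ) =
      ((nu 0 0 / ((a + b : ℕ) + 1) : ℝ) : ℂ) := by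
    rw [← h]
    push_cast
    rfl
  exact_mod_cast h2

theorem Reg.normE_le (hR : Reg θ ρ E y md) (a b k : ℕ) :
    Real.sqrt ((k : ℝ) + 1) * ‖E a b k‖ ≤ Real.sqrt (nu 0 0) := by
  have h0 := nu_zero_pos
  have hk : (0 : ℝ) ≤ (k : ℝ) + 1 := by positivity
  refine le_of_sq_le_sq ?_ (Real.sqrt_nonneg _)
  rw [mul_pow, Real.sq_sqrt hk, hR.normE, Real.sq_sqrt h0.le]
  refine div_le_self h0.le ?_
  have : (0 : ℝ) ≤ ((a + b : ℕ) : ℝ) := by positivity
  linarith

theorem adj_inner {u : Form1} {g : L2} (h : (u, g) ∈ graph0.adjoint) {η : L2} {v : Form1}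
    (hv : (η, v) ∈ graph0) : ⟪v, u⟫_ℂ = ⟪η, g⟫_ℂ :=
  (mem_adjoint_iff' graph0 u g).mp h _ hv

theorem norm_sq_eig {f : L2} {u : Form1} {κ : ℝ} (hf : (f, u) ∈ graph0)
    (hu : (u, ((κ : ℝ) : ℂ) • f) ∈ graph0.adjoint) : ‖u‖ ^ 2 = κ * ‖f‖ ^ 2 := by
  have h := adj_inner hu hf
  rw [inner_smul_right, inner_self_eq_norm_sq_to_K, inner_self_eq_norm_sq_to_K] at h
  have h2 : ((‖u‖ ^ 2 : ℝ) : ℂ) = ((κ * ‖f‖ ^ 2 : ℝ) : ℂ) := by
    push_cast
    exact h
  exact_mod_cast h2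

theorem hol_zero (hR : Reg θ ρ E y md) {f : L2} {u : Form1} {κ : ℝ} (hκ : κ ≠ 0)
    (hu : (u, ((κ : ℝ) : ℂ) • f) ∈ graph0.adjoint) (a k : ℕ) : ⟪E a 0 k, f⟫_ℂ = 0 := by
  have h := adj_inner hu (hR.hol a k)
  rw [inner_zero_left, inner_smul_right] at h
  exact (mul_eq_zero.mp h.symm).resolve_left (by exact_mod_cast hκ)

theorem Reg.tendsto_zero (hR : Reg θ ρ E y md) {α : Type*} {l : Filter α} {k : α → ℕ}
    (hk : Tendsto k l atTop) {κ : α → ℝ} {κ0 : ℝ} (hκ0 : 0 < κ0) (hκ : Tendsto κ l (𝓝 κ0))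
    (hκp : ∀ x, 0 < κ x) {f : α → L2} {u : α → Form1} (hf : ∀ x, (f x, u x) ∈ graph0)
    (hu : ∀ x, (u x, ((κ x : ℝ) : ℂ) • f x) ∈ graph0.adjoint) (hn : ∀ x, ‖f x‖ ≤ 1)
    (hB : ∀ n, BB n (κ0 / θ) ≠ 0) (a b : ℕ) :
    Tendsto (fun x => sk (k x) * ⟪E a b (k x), f x⟫_ℂ) l (𝓝 0) := by
  have hθ := hR.hθ
  have hθ0 : (θ : ℂ) ≠ 0 := by exact_mod_cast hθ.ne'
  rcases b with _ | b
  · have : (fun x => sk (k x) * ⟪E a 0 (k x), f x⟫_ℂ) = fun _ => 0 := by
      funext x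
      rw [hol_zero hR (hκp x).ne' (hu x), mul_zero]
    rw [this]
    exact tendsto_const_nhds
  -- the chain
  obtain ⟨p, q, i0, hpq, rfl, rfl⟩ : ∃ p q i0, (p = 0 ∨ q = 0) ∧ p + i0 = a ∧ q + i0 = b :=
    ⟨a - min a b, b - min a b, min a b, by omega, by omega, by omega⟩
  let Z : ℕ → α → ℂ := fun i x => sk (k x) * ⟪E (p + i) (q + i + 1) (k x), f x⟫_ℂ
  let Y : ℕ → α → ℂ := fun i x => sk (k x) * ⟪y (p + i) (q + i) (k x), u x⟫_ℂ
  have hZM : ∀ i x, ‖Z i x‖ ≤ Real.sqrt (nu 0 0) := by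
    intro i x
    simp only [Z]
    rw [norm_mul, norm_sk]
    calc Real.sqrt ((k x : ℝ) + 1) * ‖⟪E (p + i) (q + i + 1) (k x), f x⟫_ℂ‖
        ≤ Real.sqrt ((k x : ℝ) + 1) * (‖E (p + i) (q + i + 1) (k x)‖ * ‖f x‖) := by
          gcongr
          exact norm_inner_le_norm _ _
      _ ≤ Real.sqrt ((k x : ℝ) + 1) * (‖E (p + i) (q + i + 1) (k x)‖ * 1) := by
          gcongr
          exact hn x
      _ ≤ _ := by
          rw [mul_one]
          exact hR.normE_le _ _ _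
  have h1 : ∀ i x, Y (i + 1) x + ((p : ℂ) + i + 1) * Z i x = Y 0 x := by
    intro i x
    induction i with
    | zero =>
      have h := hR.chain (hf x) p q (k x)
      have h0 : (p : ℂ) * ⟪E (p - 1) q (k x), f x⟫_ℂ = 0 := by
        rcases hpq with rfl | rfl
        · simp
        · rw [hol_zero hR (hκp x).ne' (hu x), mul_zero]
      simp only [Y, Z, add_zero, zero_add]
      push_cast
      linear_combination (-sk (k x)) * h + sk (k x) * h0
    | succ i ih =>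
      have h := hR.chain (hf x) (p + (i + 1)) (q + (i + 1)) (k x)
      rw [← ih]
      have e1 : p + (i + 1) - 1 = p + i := by omega
      rw [e1] at h
      simp only [Y, Z]
      have e2 : p + (i + 1 + 1) = p + (i + 1) + 1 := by ring
      have e3 : q + (i + 1 + 1) = q + (i + 1) + 1 := by ring
      have e4 : q + (i + 1) = q + i + 1 := by ring
      rw [e2, e3]
      rw [e4] at h ⊢
      push_cast at h ⊢
      linear_combination (-sk (k x)) * h
  have hu1 : ∀ᶠ x in l, ‖u x‖ ≤ κ0 + 1 + 1 := by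
    have e : ∀ᶠ x in l, κ x < κ0 + 1 := hκ.eventually (gt_mem_nhds (by linarith))
    filter_upwards [e] with x hx
    have h := norm_sq_eig (hf x) (hu x)
    have h3 : ‖f x‖ ^ 2 ≤ 1 := by
      have := hn x
      have := norm_nonneg (f x)
      nlinarith
    have h4 : ‖u x‖ ^ 2 ≤ κ0 + 1 := by
      rw [h]
      calc κ x * ‖f x‖ ^ 2 ≤ (κ0 + 1) * 1 := by
            have := hκp x
            gcongr
        _ = _ := mul_one _
    have h5 := norm_nonneg (u x)
    by_contra hcon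
    push Not at hcon
    nlinarith
  have h2 : ∀ i, Tendsto (fun x => ((q : ℂ) + i + 1) * Y i x - ((κ0 / θ : ℝ) : ℂ) * Z i x) l
      (𝓝 0) := by
    intro i
    obtain ⟨η, v, hq1, _, hq3, hq4⟩ := hR.quasi (p + i) (q + i)
    have t1 := (hq4.tendsto_inner hk hu1).const_mul (-(1 / (θ : ℂ)))
    have hn' : ∀ᶠ x in l, ‖((κ x : ℝ) : ℂ) • f x‖ ≤ (κ0 + 1) * 1 := by
      have e : ∀ᶠ x in l, κ x < κ0 + 1 := hκ.eventually (gt_mem_nhds (by linarith))
      filter_upwards [e] with x hx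
      rw [norm_smul, Complex.norm_real, Real.norm_of_nonneg (hκp x).le]
      have := hκp x
      gcongr
      exact hn x
    have t2 := (hq3.tendsto_inner hk hn').const_mul (1 / (θ : ℂ))
    have t3 : Tendsto (fun x => ((κ x - κ0 : ℝ) : ℂ) * Z i x) l (𝓝 0) := by
      have e1 : Tendsto (fun x => |κ x - κ0| * Real.sqrt (nu 0 0)) l (𝓝 0) := by
        have := ((hκ.sub_const κ0).abs).mul_const (Real.sqrt (nu 0 0))
        rwa [sub_self, abs_zero, zero_mul] at this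
      refine squeeze_zero_norm (fun x => ?_) e1
      rw [norm_mul, Complex.norm_real, Real.norm_eq_abs]
      gcongr
      exact hZM i x
    have t4 := t3.const_mul (1 / (θ : ℂ))
    have t5 := (t1.add t2).add t4
    simp only [mul_zero, add_zero] at t5
    refine t5.congr fun x => ?_
    have h3 := adj_inner (hu x) (hq1 (k x))
    simp only [Y, Z]
    rw [inner_sub_left, inner_sub_left, inner_smul_left, inner_smul_right, inner_smul_right]
    rw [inner_smul_right] at h3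
    simp only [Complex.conj_ofReal]
    push_cast
    field_simp
    linear_combination (-sk (k x)) * h3
  exact chain_zero hpq (div_pos hκ0 hθ) (hB _) (fun i => Eventually.of_forall (hZM i)) h1 h2 i0

end Pool.Agent.Lib.MP_169ce5_an.Ess
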