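import Pool.Agent.Lib.MP_169ce5_an.Closed

/-!
Exactness: a closed `(0,1)`-form in `L²` on the Hartogs triangle is `∂̄ F` with `F` in `L²`.
-/

open MeasureTheory Complex Filter Topology Set
open scoped ContDiff ComplexConjugate ENNReal InnerProductSpace

noncomputable section

namespace Pool.Agent.Lib.MP_169ce5_an

/-- left hand side of the relation satisfied by closed forms -/
def p2 (a b c d : ℕ) : L2 := (a : ℂ) • eL (a - 1) b c d - ((a : ℂ) + 1) • eL a (b + 1) c d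

/-- right hand side of the relation satisfied by closed forms -/
def p1 (a b c d : ℕ) : L2 := (c : ℂ) • eL a b (c - 1) d - ((c : ℂ) + 1) • eL a b c (d + 1)

/-- forms satisfying all the closedness relations -/
def Rel : Submodule ℂ Form1 where
  carrier := {V | ∀ a b c d : ℕ, ⟪S2 (p2 a b c d), V.snd⟫_ℂ = ⟪S1 (p1 a b c d), V.fst⟫_ℂ}
  add_mem' := by
    intro V W hV hW a b c d
    rw [WithLp.add_fst, WithLp.add_snd, inner_add_right, inner_add_right, hV, hW]
  zero_mem' := by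
    intro a b c d
    rw [WithLp.zero_fst, WithLp.zero_snd, inner_zero_right, inner_zero_right]
  smul_mem' := by
    intro t V hV a b c d
    rw [WithLp.smul_fst, WithLp.smul_snd, inner_smul_right, inner_smul_right, hV]

theorem isClosed_Rel : IsClosed (Rel : Set Form1) := by
  have : (Rel : Set Form1) = ⋂ (a : ℕ) (b : ℕ) (c : ℕ) (d : ℕ),
      {V | ⟪S2 (p2 a b c d), V.snd⟫_ℂ = ⟪S1 (p1 a b c d), V.fst⟫_ℂ} := by
    ext V
    simp only [mem_iInter, mem_ofPred_eq]
    exact Iff.rfl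
  rw [this]
  refine isClosed_iInter fun a => isClosed_iInter fun b => isClosed_iInter fun c =>
    isClosed_iInter fun d => isClosed_eq ?_ ?_
  · exact continuous_const.inner continuous_form_snd
  · exact continuous_const.inner continuous_form_fst

theorem wx_rel {w : L2 × L2 × L2} (hw : w ∈ WX) : (WithLp.toLp 2 w.2 : Form1) ∈ Rel := by
  obtain ⟨g1, g2, h, e1, e2⟩ := hw
  intro a b c d
  change ⟪S2 (p2 a b c d), w.2.2⟫_ℂ = ⟪S1 (p1 a b c d), w.2.1⟫_ℂ
  rw [← e1, ← e2]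
  unfold p1 p2
  rw [map_sub, map_smul, map_smul, map_sub, map_smul, map_smul, inner_sub_left, inner_sub_left,
    inner_smul_left, inner_smul_left, inner_smul_left, inner_smul_left, weakX_pair1 h,
    weakX_pair1 h, weakX_pair2 h, weakX_pair2 h]
  simp only [inner_sub_left, inner_smul_left, map_add, map_natCast, map_one]
  rcases a with _ | a
  · rcases c with _ | c
    · simp
    · simp only [Nat.add_sub_cancel]
      push_cast
      ring
  · rcases c with _ | c
    · simp only [Nat.add_sub_cancel]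
      push_cast
      ring
    · simp only [Nat.add_sub_cancel]
      push_cast
      ring

/-- the test function `w1 w2 nMon` -/
def hh (a b c d : ℕ) (z : ℂ × ℂ) : ℂ := (w2 z : ℂ) * ((w1 z : ℂ) * nMon b a d c z)

theorem hh_eq (a b c d : ℕ) : hh a b c d = fun z =>
    (nMon b a d c z - nMon (b + 1) (a + 1) d c z) -
      (nMon b a (d + 1) (c + 1) z - nMon (b + 1) (a + 1) (d + 1) (c + 1) z) := by
  funext z
  unfold hh
  rw [w1_mul_nMon, mul_sub, w2_mul_nMon, w2_mul_nMon]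
  ring

theorem contDiffOn_hh (a b c d : ℕ) : ContDiffOn ℝ ∞ (hh a b c d) T := by
  rw [hh_eq]
  exact ((contDiffOn_nMon _ _ _ _).sub (contDiffOn_nMon _ _ _ _)).sub
    ((contDiffOn_nMon _ _ _ _).sub (contDiffOn_nMon _ _ _ _))

theorem hasX_hh (a b c d : ℕ) {z : ℂ × ℂ} (hz : z ∈ T) :
    HasX (hh a b c d) z ((w2 z : ℂ) * (a * nMon b (a - 1) d c z - (a + 1) * nMon (b + 1) a d c z))
      ((w1 z : ℂ) * (c * nMon b a d (c - 1) z - (c + 1) * nMon b a (d + 1) c z) -
        hh a b c d z * (conj z.2)⁻¹) := by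
  have hz2 := snd_ne_zero hz
  have h := ((hasX_nMon b a d c hz2).sub (hasX_nMon (b + 1) (a + 1) d c hz2)).sub
    ((hasX_nMon b a (d + 1) (c + 1) hz2).sub (hasX_nMon (b + 1) (a + 1) (d + 1) (c + 1) hz2))
  rw [hh_eq]
  refine h.congr_val ?_ ?_
  · simp only [Nat.add_sub_cancel]
    rw [mul_sub, ← mul_assoc, ← mul_assoc, mul_comm (w2 z : ℂ) (a : ℂ),
      mul_comm (w2 z : ℂ) ((a : ℂ) + 1), mul_assoc, mul_assoc, w2_mul_nMon, w2_mul_nMon]
    push_cast
    ring
  · simp only [Nat.add_sub_cancel]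
    rw [mul_sub, ← mul_assoc, ← mul_assoc, mul_comm (w1 z : ℂ) (c : ℂ),
      mul_comm (w1 z : ℂ) ((c : ℂ) + 1), mul_assoc, mul_assoc, w1_mul_nMon, w1_mul_nMon]
    push_cast
    ring

theorem norm_nM {a b c d : ℕ} {z : ℂ × ℂ} (hz : z ∈ T) : ‖nMon a b c d z‖ ≤ ‖z.2‖⁻¹ := by
  simpa using norm_nMon_le a b c d hz

theorem hh_bound1 (a b c d : ℕ) : ∀ z ∈ T, ‖hh a b c d z‖ ≤ 1 * w1 z * ‖z.2‖⁻¹ := by
  intro z hz
  have h1 := w1_pos hz
  have h2 := w2_pos hz
  have h3 := w2_le_one z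
  unfold hh
  rw [norm_mul, norm_mul, Complex.norm_real, Complex.norm_real, Real.norm_of_nonneg h1.le,
    Real.norm_of_nonneg h2.le, one_mul]
  calc w2 z * (w1 z * ‖nMon b a d c z‖) ≤ 1 * (w1 z * ‖z.2‖⁻¹) := by
        gcongr
        exact norm_nM hz
    _ = _ := by ring

theorem hh_bound2 (a b c d : ℕ) : ∀ z ∈ T, ‖hh a b c d z‖ ≤ 1 * w2 z * ‖z.2‖⁻¹ := by
  intro z hz
  have h1 := w1_pos hz
  have h2 := w2_pos hz
  have h3 := w1_le_one z
  unfold hh
  rw [norm_mul, norm_mul, Complex.norm_real, Complex.norm_real, Real.norm_of_nonneg h1.le,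
    Real.norm_of_nonneg h2.le, one_mul]
  calc w2 z * (w1 z * ‖nMon b a d c z‖) ≤ w2 z * (1 * ‖z.2‖⁻¹) := by
        gcongr
        exact norm_nM hz
    _ = _ := by ring

theorem hh_boundX1 (a b c d : ℕ) : ∀ z ∈ T, ‖X1 (hh a b c d) z‖ ≤
    (2 * a + 2 * c + 2) * ‖z.2‖⁻¹ := by
  intro z hz
  have h2 := w2_pos hz
  have h3 := w2_le_one z
  rw [(hasX_hh a b c d hz).e1, norm_mul, Complex.norm_real, Real.norm_of_nonneg h2.le]
  have h4 : ‖(a : ℂ) * nMon b (a - 1) d c z - (a + 1) * nMon (b + 1) a d c z‖ ≤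
      (2 * a + 1) * ‖z.2‖⁻¹ := by
    refine (norm_sub_le _ _).trans ?_
    rw [norm_mul, norm_mul]
    have e1 : ‖(a : ℂ)‖ = a := by simp
    have e2 : ‖(a : ℂ) + 1‖ = a + 1 := by
      have : ((a : ℂ) + 1) = ((a + 1 : ℕ) : ℂ) := by push_cast; ring
      rw [this, Complex.norm_natCast]; push_cast; ring
    rw [e1, e2]
    have n1 := norm_nM (a := b) (b := a - 1) (c := d) (d := c) hz
    have n2 := norm_nM (a := b + 1) (b := a) (c := d) (d := c) hz
    calc (a : ℝ) * ‖nMon b (a - 1) d c z‖ + (a + 1) * ‖nMon (b + 1) a d c z‖ ≤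
        a * ‖z.2‖⁻¹ + (a + 1) * ‖z.2‖⁻¹ := by gcongr
      _ = _ := by ring
  have h5 : 0 ≤ ‖z.2‖⁻¹ := by positivity
  calc w2 z * _ ≤ 1 * ((2 * a + 1) * ‖z.2‖⁻¹) := by gcongr
    _ ≤ _ := by
      rw [one_mul]
      apply mul_le_mul_of_nonneg_right _ h5
      have : (0 : ℝ) ≤ c := Nat.cast_nonneg c
      linarith

theorem hh_boundX2 (a b c d : ℕ) : ∀ z ∈ T, ‖X2 (hh a b c d) z + hh a b c d z * (conj z.2)⁻¹‖ ≤
    (2 * a + 2 * c + 2) * ‖z.2‖⁻¹ := by
  intro z hz
  have h2 := w1_pos hz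
  have h3 := w1_le_one z
  rw [(hasX_hh a b c d hz).e2, sub_add_cancel, norm_mul, Complex.norm_real,
    Real.norm_of_nonneg h2.le]
  have h4 : ‖(c : ℂ) * nMon b a d (c - 1) z - (c + 1) * nMon b a (d + 1) c z‖ ≤
      (2 * c + 1) * ‖z.2‖⁻¹ := by
    refine (norm_sub_le _ _).trans ?_
    rw [norm_mul, norm_mul]
    have e1 : ‖(c : ℂ)‖ = c := by simp
    have e2 : ‖(c : ℂ) + 1‖ = c + 1 := by
      have : ((c : ℂ) + 1) = ((c + 1 : ℕ) : ℂ) := by push_cast; ring
      rw [this, Complex.norm_natCast]; push_cast; ring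
    rw [e1, e2]
    have n1 := norm_nM (a := b) (b := a) (c := d) (d := c - 1) hz
    have n2 := norm_nM (a := b) (b := a) (c := d + 1) (d := c) hz
    calc (c : ℝ) * ‖nMon b a d (c - 1) z‖ + (c + 1) * ‖nMon b a (d + 1) c z‖ ≤
        c * ‖z.2‖⁻¹ + (c + 1) * ‖z.2‖⁻¹ := by gcongr
      _ = _ := by ring
  have h5 : 0 ≤ ‖z.2‖⁻¹ := by positivity
  calc w1 z * _ ≤ 1 * ((2 * c + 1) * ‖z.2‖⁻¹) := by gcongr
    _ ≤ _ := by
      rw [one_mul]
      apply mul_le_mul_of_nonneg_right _ h5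
      have : (0 : ℝ) ≤ a := Nat.cast_nonneg a
      linarith

theorem coeFn_p2 (a b c d : ℕ) : (p2 a b c d : ℂ × ℂ → ℂ) =ᵐ[muT] fun z =>
    (a : ℂ) * eMon (a - 1) b c d z - ((a : ℂ) + 1) * eMon a (b + 1) c d z := by
  unfold p2
  filter_upwards [Lp.coeFn_sub ((a : ℂ) • eL (a - 1) b c d) (((a : ℂ) + 1) • eL a (b + 1) c d),
    Lp.coeFn_smul (a : ℂ) (eL (a - 1) b c d), Lp.coeFn_smul ((a : ℂ) + 1) (eL a (b + 1) c d),
    coeFn_eL (a - 1) b c d, coeFn_eL a (b + 1) c d] with z h1 h2 h3 h4 h5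
  rw [h1, Pi.sub_apply, h2, h3, Pi.smul_apply, Pi.smul_apply, h4, h5, smul_eq_mul, smul_eq_mul]

theorem coeFn_p1 (a b c d : ℕ) : (p1 a b c d : ℂ × ℂ → ℂ) =ᵐ[muT] fun z =>
    (c : ℂ) * eMon a b (c - 1) d z - ((c : ℂ) + 1) * eMon a b c (d + 1) z := by
  unfold p1
  filter_upwards [Lp.coeFn_sub ((c : ℂ) • eL a b (c - 1) d) (((c : ℂ) + 1) • eL a b c (d + 1)),
    Lp.coeFn_smul (c : ℂ) (eL a b (c - 1) d), Lp.coeFn_smul ((c : ℂ) + 1) (eL a b c (d + 1)),
    coeFn_eL a b (c - 1) d, coeFn_eL a b c (d + 1)] with z h1 h2 h3 h4 h5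
  rw [h1, Pi.sub_apply, h2, h3, Pi.smul_apply, Pi.smul_apply, h4, h5, smul_eq_mul, smul_eq_mul]

/-- the weighted coordinates of a form -/
def VV (u : Form1) : Form1 := WithLp.toLp 2 (S1 (B2 u.fst), S2 (u.snd + Bz u.fst))

theorem VV_rel {u : Form1} (h : (u, (0 : L2)) ∈ graph1) : VV u ∈ Rel := by
  intro a b c d
  change ⟪S2 (p2 a b c d), S2 (u.snd + Bz u.fst)⟫_ℂ = ⟪S1 (p1 a b c d), S1 (B2 u.fst)⟫_ℂ
  rw [inner_S1, inner_S2]
  have key := closed_limit (closed_coords h) (contDiffOn_hh a b c d) (hh_bound1 a b c d)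
    (hh_bound2 a b c d) (hh_boundX1 a b c d) (hh_boundX2 a b c d)
  have e1 : ∫ z in T, ((u.snd + Bz u.fst : L2) : ℂ × ℂ → ℂ) z *
      ((w2 z : ℂ) * conj ((p2 a b c d : ℂ × ℂ → ℂ) z)) =
      ∫ z in T, ((u.snd + Bz u.fst : L2) : ℂ × ℂ → ℂ) z * X1 (hh a b c d) z := by
    refine integral_congr_ae ?_
    filter_upwards [coeFn_p2 a b c d, ae_restrict_mem measurableSet_T] with z h1 hz
    rw [h1, (hasX_hh a b c d hz).e1, map_sub, map_mul, map_mul, conj_eMon, conj_eMon, map_add,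
      map_natCast, map_one]
  have e2 : ∫ z in T, (B2 u.fst : ℂ × ℂ → ℂ) z *
      ((w1 z : ℂ) * conj ((p1 a b c d : ℂ × ℂ → ℂ) z)) =
      ∫ z in T, (B2 u.fst : ℂ × ℂ → ℂ) z * (X2 (hh a b c d) z + hh a b c d z * (conj z.2)⁻¹) := by
    refine integral_congr_ae ?_
    filter_upwards [coeFn_p1 a b c d, ae_restrict_mem measurableSet_T] with z h1 hz
    rw [h1, (hasX_hh a b c d hz).e2, sub_add_cancel, map_sub, map_mul, map_mul, conj_eMon,
      conj_eMon, map_add, map_natCast, map_one]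
  rw [e1, e2]
  exact key

/-! ### The algebraic uniqueness argument -/

theorem algebra_zero {σ τ : ℕ → ℕ → ℕ → ℕ → ℂ}
    (hO : ∀ a b c d : ℕ, (b : ℂ) * σ a (b - 1) c d + d * τ a b c (d - 1) = 0)
    (hC : ∀ a b c d : ℕ, (a : ℂ) * τ (a - 1) b c d - (a + 1) * τ a (b + 1) c d =
      c * σ a b (c - 1) d - (c + 1) * σ a b c (d + 1)) :
    (∀ a b c d, σ a b c d = 0) ∧ ∀ a b c d, τ a b c d = 0 := by
  have hs0 : ∀ a b c, σ a b c 0 = 0 := by
    intro a b c
    have := hO a (b + 1) c 0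
    simp only [Nat.add_sub_cancel, Nat.cast_zero, zero_mul, add_zero] at this
    rcases mul_eq_zero.mp this with h | h
    · exfalso
      have : ((b + 1 : ℕ) : ℂ) ≠ 0 := Nat.cast_ne_zero.mpr (Nat.succ_ne_zero b)
      exact this h
    · exact h
  have ht0 : ∀ a c d, τ a 0 c d = 0 := by
    intro a c d
    have := hO a 0 c (d + 1)
    simp only [Nat.add_sub_cancel, Nat.cast_zero, zero_mul, zero_add] at this
    rcases mul_eq_zero.mp this with h | h
    · exfalso
      have : ((d + 1 : ℕ) : ℂ) ≠ 0 := Nat.cast_ne_zero.mpr (Nat.succ_ne_zero d)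
      exact this h
    · exact h
  have key : ∀ n, ∀ a b c d, a + c = n → σ a b c (d + 1) = 0 ∧ τ a (b + 1) c d = 0 := by
    intro n
    induction n using Nat.strong_induction_on with
    | _ n ih =>
      intro a b c d hn
      have hC' := hC a b c d
      have hA : (a : ℂ) * τ (a - 1) b c d = 0 := by
        rcases a with _ | a
        · simp
        · rcases b with _ | b
          · rw [ht0, mul_zero]
          · simp only [Nat.add_sub_cancel]
            rw [(ih (a + c) (by omega) a b c d rfl).2, mul_zero]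
      have hB : (c : ℂ) * σ a b (c - 1) d = 0 := by
        rcases c with _ | c
        · simp
        · rcases d with _ | d
          · rw [hs0, mul_zero]
          · simp only [Nat.add_sub_cancel]
            rw [(ih (a + c) (by omega) a b c d rfl).1, mul_zero]
      rw [hA, hB, zero_sub, zero_sub] at hC'
      have hO' := hO a (b + 1) c (d + 1)
      simp only [Nat.add_sub_cancel] at hO'
      push_cast at hO'
      have h1 : (((a : ℂ) + 1) * (b + 1) + (c + 1) * (d + 1)) * τ a (b + 1) c d = 0 := by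
        linear_combination (-((b : ℂ) + 1)) * hC' + ((c : ℂ) + 1) * hO'
      have h2 : (((a : ℂ) + 1) * (b + 1) + (c + 1) * (d + 1)) ≠ 0 := by
        have : (((a : ℂ) + 1) * (b + 1) + (c + 1) * (d + 1)) =
          (((a + 1) * (b + 1) + (c + 1) * (d + 1) : ℕ) : ℂ) := by push_cast; ring
        rw [this]
        exact Nat.cast_ne_zero.mpr (by positivity)
      have h3 : τ a (b + 1) c d = 0 := by
        rcases mul_eq_zero.mp h1 with h | h
        · exact absurd h h2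
        · exact h
      refine ⟨?_, h3⟩
      rw [h3, mul_zero, add_zero] at hO'
      rcases mul_eq_zero.mp hO' with h | h
      · exfalso
        have : ((b + 1 : ℕ) : ℂ) ≠ 0 := Nat.cast_ne_zero.mpr (Nat.succ_ne_zero b)
        apply this
        push_cast
        exact h
      · exact h
  constructor
  · intro a b c d
    rcases d with _ | d
    · exact hs0 a b c
    · exact (key (a + c) a b c d rfl).1
  · intro a b c d
    rcases b with _ | b
    · exact ht0 a c d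
    · exact (key (a + c) a b c d rfl).2

theorem S1_symm (f g : L2) : ⟪S1 f, g⟫_ℂ = ⟪f, S1 g⟫_ℂ := by
  rw [inner_L2, inner_L2]
  refine integral_congr_ae ?_
  filter_upwards [coeFn_mulL measurable_s1 abs_s1_le f, coeFn_mulL measurable_s1 abs_s1_le g] with
    z h1 h2
  unfold S1
  rw [h1, h2, map_mul, Complex.conj_ofReal]; ring

theorem S2_symm (f g : L2) : ⟪S2 f, g⟫_ℂ = ⟪f, S2 g⟫_ℂ := by
  rw [inner_L2, inner_L2]
  refine integral_congr_ae ?_
  filter_upwards [coeFn_mulL measurable_s2 abs_s2_le f, coeFn_mulL measurable_s2 abs_s2_le g] with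
    z h1 h2
  unfold S2
  rw [h1, h2, map_mul, Complex.conj_ofReal]; ring

theorem S1_inj {f : L2} (h : S1 f = 0) : f = 0 := by
  apply Lp.ext
  have h0 := Lp.coeFn_zero ℂ 2 muT
  have h1 := coeFn_mulL measurable_s1 abs_s1_le f
  have e : mulL s1 measurable_s1 abs_s1_le f = 0 := h
  rw [e] at h1
  filter_upwards [h0, h1, ae_restrict_mem measurableSet_T] with z h0 h1 hz
  rw [h0] at h1 ⊢
  have h2 : (s1 z : ℂ) ≠ 0 := by
    have : 0 < s1 z := Real.sqrt_pos.mpr (w1_pos hz)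
    exact_mod_cast this.ne'
  rcases mul_eq_zero.mp h1.symm with h | h
  · exact absurd h h2
  · exact h

theorem S2_inj {f : L2} (h : S2 f = 0) : f = 0 := by
  apply Lp.ext
  have h0 := Lp.coeFn_zero ℂ 2 muT
  have h1 := coeFn_mulL measurable_s2 abs_s2_le f
  have e : mulL s2 measurable_s2 abs_s2_le f = 0 := h
  rw [e] at h1
  filter_upwards [h0, h1, ae_restrict_mem measurableSet_T] with z h0 h1 hz
  rw [h0] at h1 ⊢
  have h2 : (s2 z : ℂ) ≠ 0 := by
    have : 0 < s2 z := Real.sqrt_pos.mpr (w2_pos hz)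
    exact_mod_cast this.ne'
  rcases mul_eq_zero.mp h1.symm with h | h
  · exact absurd h h2
  · exact h

/-- the space of all `(√w1 X1 f, √w2 X2 f)` -/
def NN : Submodule ℂ Form1 :=
  WX.map ((WithLp.linearEquiv 2 ℂ (L2 × L2)).symm.toLinearMap ∘ₗ LinearMap.snd ℂ L2 (L2 × L2))

theorem mem_NN {V : Form1} : V ∈ NN ↔ ∃ w ∈ WX, (WithLp.toLp 2 w.2 : Form1) = V := Iff.rfl

theorem rel_orth_zero {Y : Form1} (hY : Y ∈ Rel) (hN : ∀ V ∈ NN, ⟪V, Y⟫_ℂ = 0) : Y = 0 := by
  have hO : ∀ a b c d : ℕ, (b : ℂ) * ⟪S1 (eL a (b - 1) c d), Y.fst⟫_ℂ +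
      d * ⟪S2 (eL a b c (d - 1)), Y.snd⟫_ℂ = 0 := by
    intro a b c d
    have h := hN _ (mem_NN.mpr ⟨_, (lap_eL a b c d).1, rfl⟩)
    rw [WithLp.prod_inner_apply] at h
    change ⟪S1 ((b : ℂ) • eL a (b - 1) c d), Y.fst⟫_ℂ +
      ⟪S2 ((d : ℂ) • eL a b c (d - 1)), Y.snd⟫_ℂ = 0 at h
    rw [map_smul, map_smul, inner_smul_left, inner_smul_left, map_natCast, map_natCast] at h
    exact h
  have hC : ∀ a b c d : ℕ, (a : ℂ) * ⟪S2 (eL (a - 1) b c d), Y.snd⟫_ℂ -
      (a + 1) * ⟪S2 (eL a (b + 1) c d), Y.snd⟫_ℂ =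
      c * ⟪S1 (eL a b (c - 1) d), Y.fst⟫_ℂ - (c + 1) * ⟪S1 (eL a b c (d + 1)), Y.fst⟫_ℂ := by
    intro a b c d
    have h := hY a b c d
    unfold p1 p2 at h
    rw [map_sub, map_smul, map_smul, map_sub, map_smul, map_smul, inner_sub_left, inner_sub_left,
      inner_smul_left, inner_smul_left, inner_smul_left, inner_smul_left] at h
    simp only [map_add, map_natCast, map_one] at h
    exact h
  obtain ⟨hs, ht⟩ := algebra_zero (σ := fun a b c d => ⟪S1 (eL a b c d), Y.fst⟫_ℂ)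
    (τ := fun a b c d => ⟪S2 (eL a b c d), Y.snd⟫_ℂ) hO hC
  have h1 : Y.fst = 0 := by
    apply S1_inj
    apply total_ei
    intro i
    rw [← S1_symm]
    exact hs _ _ _ _
  have h2 : Y.snd = 0 := by
    apply S2_inj
    apply total_ei
    intro i
    rw [← S2_symm]
    exact ht _ _ _ _
  exact WithLp.ofLp_injective 2 (Prod.ext h1 h2)

theorem rel_closure {V : Form1} (hV : V ∈ Rel) : V ∈ NN.topologicalClosure := by
  have hcs : CompleteSpace NN.topologicalClosure :=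
    NN.isClosed_topologicalClosure.completeSpace_coe
  have hsub : NN.topologicalClosure ≤ Rel := by
    apply Submodule.topologicalClosure_minimal _ _ isClosed_Rel
    rintro _ ⟨w, hw, rfl⟩
    exact wx_rel hw
  have h1 : V - NN.topologicalClosure.starProjection V ∈ Rel :=
    Rel.sub_mem hV (hsub (Submodule.starProjection_apply_mem _ _))
  have h2 := rel_orth_zero h1 (fun W hW => by
    rw [← inner_conj_symm, Submodule.starProjection_inner_eq_zero (K := NN.topologicalClosure) V W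
      (NN.le_topologicalClosure hW), map_zero])
  rw [sub_eq_zero] at h2
  rw [h2]
  exact Submodule.starProjection_apply_mem _ _

end Pool.Agent.Lib.MP_169ce5_an
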