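import Pool.Agent.Lib.MP_169ce5_an.Exact

/-!
Exactness, second part: construction of the primitive as a limit.
-/

open MeasureTheory Complex Filter Topology Set
open scoped ContDiff ComplexConjugate ENNReal InnerProductSpace

noncomputable section

namespace Pool.Agent.Lib.MP_169ce5_an

theorem contDiffAt_w1 {z : ℂ × ℂ} (hz : z ∈ T) : ContDiffAt ℝ ∞ w1 z := by
  have h1 := contDiffAt_zt (snd_ne_zero hz)
  have h2 : ContDiffAt ℝ ∞ (fun w : ℂ × ℂ => normSq (w.1 / w.2)) z := by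
    have h3 : ContDiffAt ℝ ∞ (fun w : ℂ × ℂ => ‖w.1 / w.2‖ ^ 2) z := h1.norm_sq ℝ
    refine h3.congr_of_eventuallyEq (Eventually.of_forall fun w => ?_)
    exact Complex.normSq_eq_norm_sq _
  exact contDiffAt_const.sub h2

theorem contDiffAt_w2 (z : ℂ × ℂ) : ContDiffAt ℝ ∞ w2 z := by
  have h1 : ContDiffAt ℝ ∞ (fun w : ℂ × ℂ => w.2) z := contDiffAt_snd
  have h2 : ContDiffAt ℝ ∞ (fun w : ℂ × ℂ => normSq w.2) z := by
    have h3 : ContDiffAt ℝ ∞ (fun w : ℂ × ℂ => ‖w.2‖ ^ 2) z := h1.norm_sq ℝ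
    refine h3.congr_of_eventuallyEq (Eventually.of_forall fun w => ?_)
    exact Complex.normSq_eq_norm_sq _
  exact contDiffAt_const.sub h2

theorem contDiffOn_inv_s1 : ContDiffOn ℝ ∞ (fun z : ℂ × ℂ => (((s1 z)⁻¹ : ℝ) : ℂ)) T := by
  intro z hz
  have h1 := w1_pos hz
  have h2 : ContDiffAt ℝ ∞ s1 z := (contDiffAt_w1 hz).sqrt h1.ne'
  have h3 : s1 z ≠ 0 := (Real.sqrt_pos.mpr h1).ne'
  exact (Complex.ofRealCLM.contDiff.contDiffAt.comp z (h2.inv h3)).contDiffWithinAt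

theorem contDiffOn_inv_s2 : ContDiffOn ℝ ∞ (fun z : ℂ × ℂ => (((s2 z)⁻¹ : ℝ) : ℂ)) T := by
  intro z hz
  have h1 := w2_pos hz
  have h2 : ContDiffAt ℝ ∞ s2 z := (contDiffAt_w2 z).sqrt h1.ne'
  have h3 : s2 z ≠ 0 := (Real.sqrt_pos.mpr h1).ne'
  exact (Complex.ofRealCLM.contDiff.contDiffAt.comp z (h2.inv h3)).contDiffWithinAt

theorem IsTest.div1 {φ : ℂ × ℂ → ℂ} (hφ : IsTest φ) :
    IsTest (fun z => (((s1 z)⁻¹ : ℝ) : ℂ) * φ z) := hφ.mul_left contDiffOn_inv_s1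

theorem IsTest.div2 {φ : ℂ × ℂ → ℂ} (hφ : IsTest φ) :
    IsTest (fun z => (((s2 z)⁻¹ : ℝ) : ℂ) * φ z) := hφ.mul_left contDiffOn_inv_s2

theorem pair_S1 {φ : ℂ × ℂ → ℂ} (hφ : IsTest φ) (g : L2) :
    pairL hφ.div1.memLp (S1 g) = pairL hφ.memLp g := by
  rw [pairL_apply, pairL_apply]
  refine integral_congr_ae ?_
  filter_upwards [coeFn_mulL measurable_s1 abs_s1_le g, ae_restrict_mem measurableSet_T] with
    z h1 hz
  unfold S1
  rw [h1]
  have h2 : (s1 z : ℂ) ≠ 0 := by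
    have : 0 < s1 z := Real.sqrt_pos.mpr (w1_pos hz)
    exact_mod_cast this.ne'
  push_cast
  field_simp

theorem pair_S2 {φ : ℂ × ℂ → ℂ} (hφ : IsTest φ) (g : L2) :
    pairL hφ.div2.memLp (S2 g) = pairL hφ.memLp g := by
  rw [pairL_apply, pairL_apply]
  refine integral_congr_ae ?_
  filter_upwards [coeFn_mulL measurable_s2 abs_s2_le g, ae_restrict_mem measurableSet_T] with
    z h1 hz
  unfold S2
  rw [h1]
  have h2 : (s2 z : ℂ) ≠ 0 := by
    have : 0 < s2 z := Real.sqrt_pos.mpr (w2_pos hz)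
    exact_mod_cast this.ne'
  push_cast
  field_simp

/-- the closure of `WX` -/
def WXc : Submodule ℂ (L2 × Form1) where
  carrier := {p | ∀ (φ : ℂ × ℂ → ℂ) (hφ : IsTest φ),
    pairL hφ.memLp_X1 p.1 = - pairL hφ.div1.memLp p.2.fst ∧
    pairL hφ.memLp_X2 p.1 = - pairL hφ.div2.memLp p.2.snd}
  add_mem' := by
    intro p q hp hq φ hφ
    obtain ⟨a, b⟩ := hp φ hφ
    obtain ⟨a', b'⟩ := hq φ hφ
    simp only [Prod.fst_add, Prod.snd_add, WithLp.add_fst, WithLp.add_snd, map_add, a, b, a', b']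
    constructor <;> ring
  zero_mem' := by
    intro φ hφ
    simp
  smul_mem' := by
    intro c p hp φ hφ
    obtain ⟨a, b⟩ := hp φ hφ
    simp only [Prod.smul_fst, Prod.smul_snd, WithLp.smul_fst, WithLp.smul_snd, map_smul, a, b,
      smul_eq_mul]
    constructor <;> ring

theorem isClosed_WXc : IsClosed (WXc : Set (L2 × Form1)) := by
  have : (WXc : Set (L2 × Form1)) = ⋂ φ : {φ : ℂ × ℂ → ℂ // IsTest φ},
      ({p | pairL φ.2.memLp_X1 p.1 = - pairL φ.2.div1.memLp p.2.fst} ∩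
        {p | pairL φ.2.memLp_X2 p.1 = - pairL φ.2.div2.memLp p.2.snd}) := by
    ext p
    simp only [mem_iInter, mem_inter_iff, mem_ofPred_eq, Subtype.forall]
    exact Iff.rfl
  rw [this]
  refine isClosed_iInter fun φ => IsClosed.inter (isClosed_eq ?_ ?_) (isClosed_eq ?_ ?_)
  · exact (pairL _).continuous.comp continuous_fst
  · exact ((pairL _).continuous.comp (continuous_form_fst.comp continuous_snd)).neg
  · exact (pairL _).continuous.comp continuous_fst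
  · exact ((pairL _).continuous.comp (continuous_form_snd.comp continuous_snd)).neg

theorem wx_sub {w : L2 × L2 × L2} (hw : w ∈ WX) : (w.1, (WithLp.toLp 2 w.2 : Form1)) ∈ WXc := by
  obtain ⟨g1, g2, h, e1, e2⟩ := hw
  intro φ hφ
  rw [WeakX.iff] at h
  obtain ⟨h1, h2⟩ := h φ hφ
  change pairL hφ.memLp_X1 w.1 = - pairL hφ.div1.memLp w.2.1 ∧
    pairL hφ.memLp_X2 w.1 = - pairL hφ.div2.memLp w.2.2
  rw [h1, h2, ← e1, ← e2, pair_S1 hφ, pair_S2 hφ]
  exact ⟨rfl, rfl⟩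

/-- closed span of the holomorphic basis vectors -/
def K0 : Submodule ℂ L2 :=
  (Submodule.span ℂ (pv '' {j : JJ | lam j.1 = 0})).topologicalClosure

theorem pv_mem_K0 {j : JJ} (hj : lam j.1 = 0) : pv j ∈ K0 :=
  Submodule.le_topologicalClosure _ (Submodule.subset_span ⟨j, hj, rfl⟩)

theorem pv_orth_K0 {j : JJ} (hj : lam j.1 ≠ 0) {k : L2} (hk : k ∈ K0) : ⟪pv j, k⟫_ℂ = 0 := by
  have hcl : IsClosed {k : L2 | ⟪pv j, k⟫_ℂ = 0} :=
    isClosed_eq (continuous_const.inner continuous_id) continuous_const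
  have hsub : ((Submodule.span ℂ (pv '' {j : JJ | lam j.1 = 0}) : Submodule ℂ L2) : Set L2) ⊆
      {k : L2 | ⟪pv j, k⟫_ℂ = 0} := by
    intro k hk
    refine Submodule.span_induction (p := fun k _ => ⟪pv j, k⟫_ℂ = 0) ?_ ?_ ?_ ?_ hk
    · rintro _ ⟨i, hi, rfl⟩
      apply orthonormal_pv.2
      rintro rfl
      exact hj hi
    · exact inner_zero_right _
    · intro a b _ _ ha hb
      rw [inner_add_right, ha, hb, add_zero]
    · intro c a _ ha
      rw [inner_smul_right, ha, mul_zero]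
  exact closure_minimal hsub hcl hk

theorem K0_WXc {k : L2} (hk : k ∈ K0) : (k, (0 : Form1)) ∈ WXc := by
  have hcl : IsClosed {k : L2 | (k, (0 : Form1)) ∈ WXc} :=
    isClosed_WXc.preimage (by fun_prop : Continuous fun k : L2 => (k, (0 : Form1)))
  have hsub : ((Submodule.span ℂ (pv '' {j : JJ | lam j.1 = 0}) : Submodule ℂ L2) : Set L2) ⊆
      {k : L2 | (k, (0 : Form1)) ∈ WXc} := by
    intro k hk
    refine Submodule.span_induction (p := fun k _ => (k, (0 : Form1)) ∈ WXc) ?_ ?_ ?_ ?_ hk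
    · rintro _ ⟨i, hi, rfl⟩
      have h1 := wx_sub (qv_spec i).1
      have h2 : qv i = 0 := by
        have := norm_qv_sq i
        rw [hi] at this
        have h3 : ‖qv i‖ = 0 := pow_eq_zero_iff (two_ne_zero) |>.mp this
        exact norm_eq_zero.mp h3
      have h3 : (WithLp.toLp 2 ((qv i).fst, (qv i).snd) : Form1) = 0 := by
        rw [h2]; rfl
      change (pv i, (WithLp.toLp 2 ((qv i).fst, (qv i).snd) : Form1)) ∈ WXc at h1
      rwa [h3] at h1
    · exact WXc.zero_mem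
    · intro a b _ _ ha hb
      have := WXc.add_mem ha hb
      simpa using this
    · intro c a _ ha
      have := WXc.smul_mem c ha
      simpa using this
  exact closure_minimal hsub hcl hk

instance : CompleteSpace K0 := (Submodule.isClosed_topologicalClosure _).completeSpace_coe

theorem norm_sub_K0_le {w : L2 × L2 × L2} (hw : w ∈ WX) :
    ‖w.1 - K0.starProjection w.1‖ ≤ ‖(WithLp.toLp 2 w.2 : Form1)‖ := by
  classical
  set x := w.1 - K0.starProjection w.1 with hx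
  have h0 : ∀ j : JJ, lam j.1 = 0 → ⟪pv j, x⟫_ℂ = 0 := by
    intro j hj
    rw [← inner_conj_symm, hx, Submodule.starProjection_inner_eq_zero (K := K0) w.1 _
      (pv_mem_K0 hj), map_zero]
  have h1 : ∀ j : JJ, lam j.1 ≠ 0 → ⟪pv j, x⟫_ℂ = ⟪pv j, w.1⟫_ℂ := by
    intro j hj
    rw [hx, inner_sub_right, pv_orth_K0 hj (Submodule.starProjection_apply_mem _ _), sub_zero]
  refine le_of_sq_le_sq ?_ (norm_nonneg _)
  refine hasSum_le_of_sum_le (parseval x) fun t => ?_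
  let t' : Finset JP := t.subtype (fun j => lam j.1 ≠ 0)
  have h2 : ∑ j ∈ t, ‖⟪pv j, x⟫_ℂ‖ ^ 2 ≤ ∑ j ∈ t', lam j.1.1 * ‖⟪pv j.1, w.1⟫_ℂ‖ ^ 2 := by
    have h3 : ∑ j ∈ t', lam j.1.1 * ‖⟪pv j.1, w.1⟫_ℂ‖ ^ 2 =
        ∑ j ∈ t.filter (fun j => lam j.1 ≠ 0), lam j.1 * ‖⟪pv j, w.1⟫_ℂ‖ ^ 2 := by
      rw [Finset.sum_subtype_eq_sum_filter (s := t)
        (f := fun j : JJ => lam j.1 * ‖⟪pv j, w.1⟫_ℂ‖ ^ 2) (p := fun j => lam j.1 ≠ 0)]
    rw [h3, Finset.sum_filter]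
    refine Finset.sum_le_sum fun j _ => ?_
    by_cases hj : lam j.1 = 0
    · rw [h0 j hj, if_neg (by simpa using hj)]
      simp
    · rw [h1 j hj, if_pos hj]
      have := one_le_lam hj
      calc ‖⟪pv j, w.1⟫_ℂ‖ ^ 2 = 1 * ‖⟪pv j, w.1⟫_ℂ‖ ^ 2 := (one_mul _).symm
        _ ≤ _ := mul_le_mul_of_nonneg_right this (by positivity)
  exact h2.trans (bessel hw t')

theorem exists_primitive {V : Form1} (hV : V ∈ NN.topologicalClosure) :
    ∃ F : L2, (F, V) ∈ WXc := by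
  have hV' : V ∈ closure (NN : Set Form1) := hV
  rw [mem_closure_iff_seq_limit] at hV'
  obtain ⟨v, hv, hlim⟩ := hV'
  choose w hw hwv using fun n => mem_NN.mp (hv n)
  let x : ℕ → L2 := fun n => (w n).1 - K0.starProjection (w n).1
  have hxv : ∀ n m, ‖x n - x m‖ ≤ ‖v n - v m‖ := by
    intro n m
    have h1 := norm_sub_K0_le (WX.sub_mem (hw n) (hw m))
    have e1 : (w n - w m).1 - K0.starProjection (w n - w m).1 = x n - x m := by
      simp only [x, Prod.fst_sub, map_sub]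
      abel
    have e2 : (WithLp.toLp 2 (w n - w m).2 : Form1) = v n - v m := by
      rw [← hwv n, ← hwv m]; rfl
    rw [e1, e2] at h1
    exact h1
  have hc : CauchySeq x := by
    rw [Metric.cauchySeq_iff]
    intro ε hε
    obtain ⟨N, hN⟩ := Metric.cauchySeq_iff.mp hlim.cauchySeq ε hε
    refine ⟨N, fun m hm n hn => ?_⟩
    have := hN m hm n hn
    rw [dist_eq_norm] at this ⊢
    exact lt_of_le_of_lt (hxv m n) this
  obtain ⟨F, hF⟩ := cauchySeq_tendsto_of_complete hc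
  refine ⟨F, isClosed_WXc.mem_of_tendsto (hF.prodMk_nhds hlim) (Eventually.of_forall fun n => ?_)⟩
  have h1 := wx_sub (hw n)
  have h2 := K0_WXc (Submodule.starProjection_apply_mem K0 (w n).1)
  have h3 := WXc.sub_mem h1 h2
  rw [hwv n] at h3
  have e : ((w n).1, v n) - (K0.starProjection (w n).1, (0 : Form1)) = (x n, v n) := by
    rw [Prod.mk_sub_mk, sub_zero]
  rw [e] at h3
  exact h3

/-- exactness in the middle -/
theorem exact_graph {u : Form1} (h : (u, (0 : L2)) ∈ graph1) : ∃ F : L2, (F, u) ∈ graph0 := by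
  obtain ⟨F, hF⟩ := exists_primitive (rel_closure (VV_rel h))
  refine ⟨F, WeakX.weakDbar0 ?_⟩
  rw [WeakX.iff]
  intro φ hφ
  obtain ⟨h1, h2⟩ := hF φ hφ
  change pairL hφ.memLp_X1 F = - pairL hφ.div1.memLp (S1 (B2 u.fst)) at h1
  change pairL hφ.memLp_X2 F = - pairL hφ.div2.memLp (S2 (u.snd + Bz u.fst)) at h2
  rw [h1, h2, pair_S1 hφ, pair_S2 hφ]
  exact ⟨rfl, rfl⟩

end Pool.Agent.Lib.MP_169ce5_an
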