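import Pool.Agent.Lib.MP_169ce5_an.Abs

/-!
Abstract Hodge theory for a two step Hilbert complex `H0 → H1 → H2`.
-/

open Filter Topology
open scoped InnerProductSpace ComplexConjugate

noncomputable section

namespace Pool.Agent.Lib.MP_169ce5_an

section DoubleAdj

variable {H G : Type*} [NormedAddCommGroup H] [InnerProductSpace ℂ H] [CompleteSpace H]
  [NormedAddCommGroup G] [InnerProductSpace ℂ G] [CompleteSpace G]

/-- a closed graph is its double adjoint -/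
theorem mem_of_adj_adj {Γ : Submodule ℂ (H × G)} (hΓ : IsClosed (Γ : Set (H × G)))
    {A : Submodule ℂ (G × H)}
    (hA : ∀ v f, (v, f) ∈ A ↔ ∀ y ∈ Γ, ⟪y.2, v⟫_ℂ = ⟪y.1, f⟫_ℂ) {x : H} {s : G}
    (h : ∀ y ∈ A, ⟪y.2, x⟫_ℂ = ⟪y.1, s⟫_ℂ) : (x, s) ∈ Γ := by
  let e : WithLp 2 (H × G) ≃L[ℂ] (H × G) := WithLp.prodContinuousLinearEquiv 2 ℂ H G
  let Γ' : Submodule ℂ (WithLp 2 (H × G)) := Γ.comap (e : WithLp 2 (H × G) →ₗ[ℂ] (H × G))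
  have hΓ' : IsClosed (Γ' : Set (WithLp 2 (H × G))) := hΓ.preimage e.continuous
  have : CompleteSpace Γ' := hΓ'.completeSpace_coe
  let X : WithLp 2 (H × G) := e.symm (x, s)
  let Q : WithLp 2 (H × G) := X - Γ'.starProjection X
  have hQ : ∀ y ∈ Γ', ⟪y, Q⟫_ℂ = 0 := by
    intro y hy
    rw [← inner_conj_symm, Submodule.starProjection_inner_eq_zero (K := Γ') X y hy, map_zero]
  have hQA : (Q.snd, - Q.fst) ∈ A := by
    rw [hA]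
    intro y hy
    have hy' : e.symm y ∈ Γ' := by
      change e (e.symm y) ∈ Γ
      rw [e.apply_symm_apply]; exact hy
    have h1 := hQ _ hy'
    rw [WithLp.prod_inner_apply] at h1
    have h2 : ⟪y.1, Q.fst⟫_ℂ + ⟪y.2, Q.snd⟫_ℂ = 0 := h1
    rw [inner_neg_right]
    linear_combination h2
  have h3 := h _ hQA
  simp only at h3
  have h4 : ⟪Q, X⟫_ℂ = 0 := by
    rw [WithLp.prod_inner_apply]
    change ⟪Q.fst, x⟫_ℂ + ⟪Q.snd, s⟫_ℂ = 0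
    rw [← h3, inner_neg_left]
    ring
  have h5 : ⟪Q, Γ'.starProjection X⟫_ℂ = 0 :=
    Submodule.starProjection_inner_eq_zero (K := Γ') X _ (Submodule.starProjection_apply_mem _ _)
  have h6 : ⟪Q, Q⟫_ℂ = 0 := by
    have : ⟪Q, Q⟫_ℂ = ⟪Q, X⟫_ℂ - ⟪Q, Γ'.starProjection X⟫_ℂ := by
      rw [← inner_sub_right]
    rw [this, h4, h5, sub_zero]
  have h7 : Q = 0 := inner_self_eq_zero.mp h6
  have h8 : X = Γ'.starProjection X := sub_eq_zero.mp h7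
  have h9 : X ∈ Γ' := by
    rw [h8]; exact Submodule.starProjection_apply_mem _ _
  have h10 : e X ∈ Γ := h9
  simpa [X] using h10

/-- the range of `(x, s) ↦ s` of a graph is dense in the orthogonal complement of the kernel of the
adjoint -/
theorem approx_range {A : Submodule ℂ (G × H)} {Γ : Submodule ℂ (H × G)}
    (hA : ∀ v f, (v, f) ∈ A ↔ ∀ y ∈ Γ, ⟪y.2, v⟫_ℂ = ⟪y.1, f⟫_ℂ) {u : G}
    (hu : ∀ k, (k, (0 : H)) ∈ A → ⟪k, u⟫_ℂ = 0) {ε : ℝ} (hε : 0 < ε) :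
    ∃ y ∈ Γ, ‖y.2 - u‖ < ε := by
  let S : Submodule ℂ G := Γ.map (LinearMap.snd ℂ H G)
  have hS : u ∈ S.topologicalClosure := by
    rw [← Submodule.orthogonal_orthogonal_eq_closure, Submodule.mem_orthogonal]
    intro k hk
    apply hu
    rw [hA]
    intro y hy
    rw [inner_zero_right]
    rw [Submodule.mem_orthogonal] at hk
    exact hk _ ⟨y, hy, rfl⟩
  have hS' : u ∈ closure (S : Set G) := hS
  rw [Metric.mem_closure_iff] at hS'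
  obtain ⟨s, ⟨y, hy, rfl⟩, hs⟩ := hS' ε hε
  refine ⟨y, hy, ?_⟩
  rw [dist_comm, dist_eq_norm] at hs
  exact hs

end DoubleAdj

variable {H0 H1 H2 : Type*} [NormedAddCommGroup H0] [InnerProductSpace ℂ H0] [CompleteSpace H0]
  [NormedAddCommGroup H1] [InnerProductSpace ℂ H1] [CompleteSpace H1]
  [NormedAddCommGroup H2] [InnerProductSpace ℂ H2] [CompleteSpace H2]

/-- A Hilbert complex with closed ranges and exact in the middle. -/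
structure HC (D0 : Submodule ℂ (H0 × H1)) (D1 : Submodule ℂ (H1 × H2))
    (A0 : Submodule ℂ (H1 × H0)) (A1 : Submodule ℂ (H2 × H1)) (C : ℝ) : Prop where
  cl0 : IsClosed (D0 : Set (H0 × H1))
  cl1 : IsClosed (D1 : Set (H1 × H2))
  adj0 : ∀ v f, (v, f) ∈ A0 ↔ ∀ y ∈ D0, ⟪y.2, v⟫_ℂ = ⟪y.1, f⟫_ℂ
  adj1 : ∀ g v, (g, v) ∈ A1 ↔ ∀ y ∈ D1, ⟪y.2, g⟫_ℂ = ⟪y.1, v⟫_ℂ
  comp : ∀ y ∈ D0, (y.2, (0 : H2)) ∈ D1
  hC : 0 ≤ C
  gap0 : ∀ y ∈ D0, (∀ k, (k, (0 : H1)) ∈ D0 → ⟪k, y.1⟫_ℂ = 0) → ‖y.1‖ ≤ C * ‖y.2‖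
  gap1 : ∀ y ∈ A1, ‖y.1‖ ≤ C * ‖y.2‖
  exact1 : ∀ u, (u, (0 : H2)) ∈ D1 → ∃ f, (f, u) ∈ D0

/-- `□ u = v` -/
def Box (D0 : Submodule ℂ (H0 × H1)) (D1 : Submodule ℂ (H1 × H2))
    (A0 : Submodule ℂ (H1 × H0)) (A1 : Submodule ℂ (H2 × H1)) (u v : H1) : Prop :=
  ∃ (f : H0) (h : H2) (a b : H1), (u, f) ∈ A0 ∧ (f, a) ∈ D0 ∧ (u, h) ∈ D1 ∧ (h, b) ∈ A1 ∧
    v = a + b

namespace HC

variable {D0 : Submodule ℂ (H0 × H1)} {D1 : Submodule ℂ (H1 × H2)}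
    {A0 : Submodule ℂ (H1 × H0)} {A1 : Submodule ℂ (H2 × H1)} {C : ℝ}

theorem ker_closed {H G : Type*} [NormedAddCommGroup H] [InnerProductSpace ℂ H]
    [NormedAddCommGroup G] [InnerProductSpace ℂ G] {Γ : Submodule ℂ (H × G)}
    (hΓ : IsClosed (Γ : Set (H × G))) :
    IsClosed ((Γ.comap (LinearMap.inl ℂ H G) : Submodule ℂ H) : Set H) := by
  exact hΓ.preimage (by fun_prop : Continuous fun x : H => (x, (0 : G)))

/-- the kernel of `D1` -/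
def Z (D1 : Submodule ℂ (H1 × H2)) : Submodule ℂ H1 := D1.comap (LinearMap.inl ℂ H1 H2)

theorem mem_Z {u : H1} : u ∈ Z D1 ↔ (u, (0 : H2)) ∈ D1 := Iff.rfl

theorem splitting (hX : HC D0 D1 A0 A1 C) (w : H1) : ∃ w' w'' : H1, w = w' + w'' ∧
    (w', (0 : H2)) ∈ D1 ∧ (w'', (0 : H0)) ∈ A0 ∧ (∀ k, (k, (0 : H2)) ∈ D1 → ⟪k, w''⟫_ℂ = 0) := by
  have hcl : IsClosed ((Z D1 : Submodule ℂ H1) : Set H1) := ker_closed hX.cl1
  have : CompleteSpace (Z D1) := hcl.completeSpace_coe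
  have hperp : ∀ k ∈ Z D1, ⟪k, w - (Z D1).starProjection w⟫_ℂ = 0 := by
    intro k hk
    rw [← inner_conj_symm, Submodule.starProjection_inner_eq_zero (K := Z D1) w k hk, map_zero]
  refine ⟨(Z D1).starProjection w, w - (Z D1).starProjection w, by abel,
    (Z D1).starProjection_apply_mem w, ?_, hperp⟩
  rw [hX.adj0]
  intro y hy
  rw [inner_zero_right]
  exact hperp _ (hX.comp y hy)

/-- the basic estimate -/
theorem basic (hX : HC D0 D1 A0 A1 C) {u : H1} {h : H2} {f : H0} (h1 : (u, h) ∈ D1)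
    (h0 : (u, f) ∈ A0) : ‖u‖ ≤ C * ‖f‖ + C * ‖h‖ := by
  obtain ⟨u', u'', rfl, k1, k2, k3⟩ := hX.splitting u
  have hC := hX.hC
  have e1 : ‖u'‖ ≤ C * ‖f‖ := by
    obtain ⟨f0, hf0⟩ := hX.exact1 u' k1
    -- project off the kernel of `D0`
    let K : Submodule ℂ H0 := D0.comap (LinearMap.inl ℂ H0 H1)
    have hcl : IsClosed (K : Set H0) := ker_closed hX.cl0
    have : CompleteSpace K := hcl.completeSpace_coe
    set f1 := f0 - K.starProjection f0 with hf1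
    have m1 : (f1, u') ∈ D0 := by
      have : (K.starProjection f0, (0 : H1)) ∈ D0 := K.starProjection_apply_mem f0
      have := D0.sub_mem hf0 this
      simpa using this
    have m2 : ∀ k, (k, (0 : H1)) ∈ D0 → ⟪k, f1⟫_ℂ = 0 := by
      intro k hk
      rw [← inner_conj_symm, Submodule.starProjection_inner_eq_zero (K := K) f0 k hk, map_zero]
    have m3 := hX.gap0 _ m1 m2
    simp only at m3
    have m4 : ⟪u', u' + u''⟫_ℂ = ⟪f1, f⟫_ℂ := (hX.adj0 _ _).mp h0 _ m1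
    have m5 : ⟪u', u''⟫_ℂ = 0 := k3 _ k1
    rw [inner_add_right, m5, add_zero, inner_self_eq_norm_sq_to_K] at m4
    have m6 : ‖u'‖ ^ 2 ≤ ‖f1‖ * ‖f‖ := by
      have := norm_inner_le_norm (𝕜 := ℂ) f1 f
      rw [← m4] at this
      simpa using this
    have m7 : ‖u'‖ ^ 2 ≤ C * ‖u'‖ * ‖f‖ := m6.trans (by gcongr)
    by_contra hcon
    push Not at hcon
    have hpos : 0 < ‖u'‖ := lt_of_le_of_lt (by positivity) hcon
    nlinarith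
  have hu' : (u'', h) ∈ D1 := by
    have := D1.sub_mem h1 k1
    simpa using this
  have e2 : ‖u''‖ ≤ C * ‖h‖ := by
    by_contra hcon
    push Not at hcon
    have hpos : 0 < ‖u''‖ := lt_of_le_of_lt (by positivity) hcon
    set δ := ‖u''‖ - C * ‖h‖ with hδ
    have hδ0 : 0 < δ := by rw [hδ]; linarith
    -- approximate
    have hflip : ∀ v f, (v, f) ∈ D1 ↔ ∀ y ∈ A1, ⟪y.2, v⟫_ℂ = ⟪y.1, f⟫_ℂ := by
      intro v f
      constructor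
      · intro hv y hy
        have := (hX.adj1 _ _).mp hy _ hv
        simp only at this
        rw [← inner_conj_symm, ← this, inner_conj_symm]
      · intro hv
        exact mem_of_adj_adj hX.cl1 hX.adj1 hv
    obtain ⟨ε, hε, hε2⟩ : ∃ ε > 0, ε * (C * ‖h‖ + ‖u''‖) < δ * ‖u''‖ := by
      refine ⟨δ * ‖u''‖ / (2 * (C * ‖h‖ + ‖u''‖)), by positivity, ?_⟩
      have h3 : 0 < C * ‖h‖ + ‖u''‖ := by positivity
      have h4 : 0 < δ * ‖u''‖ := by positivity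
      rw [div_mul_eq_mul_div, div_lt_iff₀ (by positivity)]
      nlinarith
    obtain ⟨y, hy, hy2⟩ := approx_range (Γ := A1) (A := D1) hflip (u := u'')
      (fun k hk => k3 k hk) hε
    have n1 := hX.gap1 _ hy
    have n2 : ‖y.2‖ ≤ ‖u''‖ + ε := by
      calc ‖y.2‖ = ‖u'' + (y.2 - u'')‖ := by congr 1; abel
        _ ≤ ‖u''‖ + ‖y.2 - u''‖ := norm_add_le _ _
        _ ≤ _ := by linarith
    have n3 : ⟪y.2, u''⟫_ℂ = ⟪y.1, h⟫_ℂ := (hflip _ _).mp hu' _ hy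
    have n4 : ‖⟪y.2, u''⟫_ℂ‖ ≤ C * (‖u''‖ + ε) * ‖h‖ := by
      rw [n3]
      calc ‖⟪y.1, h⟫_ℂ‖ ≤ ‖y.1‖ * ‖h‖ := norm_inner_le_norm _ _
        _ ≤ (C * ‖y.2‖) * ‖h‖ := by gcongr
        _ ≤ _ := by gcongr
    have n5 : ‖u''‖ ^ 2 ≤ C * (‖u''‖ + ε) * ‖h‖ + ε * ‖u''‖ := by
      have : ((‖u''‖ ^ 2 : ℝ) : ℂ) = ⟪y.2, u''⟫_ℂ - ⟪y.2 - u'', u''⟫_ℂ := by
        rw [inner_sub_left, inner_self_eq_norm_sq_to_K]
        push_cast
        simp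
      have h5 : ‖u''‖ ^ 2 = ‖((‖u''‖ ^ 2 : ℝ) : ℂ)‖ := by
        rw [Complex.norm_real, Real.norm_of_nonneg (by positivity)]
      rw [h5, this]
      calc _ ≤ ‖⟪y.2, u''⟫_ℂ‖ + ‖⟪y.2 - u'', u''⟫_ℂ‖ := norm_sub_le _ _
        _ ≤ C * (‖u''‖ + ε) * ‖h‖ + ‖y.2 - u''‖ * ‖u''‖ :=
            add_le_add n4 (norm_inner_le_norm _ _)
        _ ≤ _ := by gcongr
    nlinarith
  calc ‖u' + u''‖ ≤ ‖u'‖ + ‖u''‖ := norm_add_le _ _
    _ ≤ _ := add_le_add e1 e2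

/-- a harmonic form vanishes -/
theorem harmonic (hX : HC D0 D1 A0 A1 C) {u : H1} (h1 : (u, (0 : H2)) ∈ D1)
    (h0 : (u, (0 : H0)) ∈ A0) : u = 0 := by
  have := hX.basic h1 h0
  simp only [norm_zero, mul_zero, add_zero] at this
  exact norm_le_zero_iff.mp this

theorem box_inner {u v u' v' : H1} (hX : HC D0 D1 A0 A1 C) (h : Box D0 D1 A0 A1 u v)
    (h' : Box D0 D1 A0 A1 u' v') : ⟪v, u'⟫_ℂ = ⟪u, v'⟫_ℂ := by
  obtain ⟨f, g, a, b, m1, m2, m3, m4, rfl⟩ := h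
  obtain ⟨f', g', a', b', m1', m2', m3', m4', rfl⟩ := h'
  have e1 : ⟪a, u'⟫_ℂ = ⟪f, f'⟫_ℂ := (hX.adj0 _ _).mp m1' _ m2
  have e2 : ⟪a', u⟫_ℂ = ⟪f', f⟫_ℂ := (hX.adj0 _ _).mp m1 _ m2'
  have e3 : ⟪g', g⟫_ℂ = ⟪u', b⟫_ℂ := (hX.adj1 _ _).mp m4 _ m3'
  have e4 : ⟪g, g'⟫_ℂ = ⟪u, b'⟫_ℂ := (hX.adj1 _ _).mp m4' _ m3
  have e2' : ⟪u, a'⟫_ℂ = ⟪f, f'⟫_ℂ := by
    rw [← inner_conj_symm, e2, inner_conj_symm]
  have e3' : ⟪b, u'⟫_ℂ = ⟪g, g'⟫_ℂ := by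
    rw [← inner_conj_symm, ← e3, inner_conj_symm]
  rw [inner_add_left, inner_add_right, e1, e2', e3', ← e4]

theorem box_sub {u v u' v' : H1} (h : Box D0 D1 A0 A1 u v)
    (h' : Box D0 D1 A0 A1 u' v') : Box D0 D1 A0 A1 (u - u') (v - v') := by
  obtain ⟨f, g, a, b, m1, m2, m3, m4, rfl⟩ := h
  obtain ⟨f', g', a', b', m1', m2', m3', m4', rfl⟩ := h'
  exact ⟨f - f', g - g', a - a', b - b', A0.sub_mem m1 m1', D0.sub_mem m2 m2',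
    D1.sub_mem m3 m3', A1.sub_mem m4 m4', by abel⟩

theorem box_smul {u v : H1} (h : Box D0 D1 A0 A1 u v) (c : ℂ) :
    Box D0 D1 A0 A1 (c • u) (c • v) := by
  obtain ⟨f, g, a, b, m1, m2, m3, m4, rfl⟩ := h
  exact ⟨c • f, c • g, c • a, c • b, A0.smul_mem c m1, D0.smul_mem c m2,
    D1.smul_mem c m3, A1.smul_mem c m4, by rw [smul_add]⟩

theorem box_energy {u v : H1} (hX : HC D0 D1 A0 A1 C) (h : Box D0 D1 A0 A1 u v) :
    ∃ (f : H0) (g : H2), (u, f) ∈ A0 ∧ (u, g) ∈ D1 ∧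
      ((‖f‖ ^ 2 + ‖g‖ ^ 2 : ℝ) : ℂ) = ⟪v, u⟫_ℂ := by
  obtain ⟨f, g, a, b, m1, m2, m3, m4, rfl⟩ := h
  refine ⟨f, g, m1, m3, ?_⟩
  have e1 : ⟪a, u⟫_ℂ = ⟪f, f⟫_ℂ := (hX.adj0 _ _).mp m1 _ m2
  have e3 : ⟪g, g⟫_ℂ = ⟪u, b⟫_ℂ := (hX.adj1 _ _).mp m4 _ m3
  have e3' : ⟪b, u⟫_ℂ = ⟪g, g⟫_ℂ := by
    rw [← inner_conj_symm, ← e3, inner_conj_symm]
  rw [inner_add_left, e1, e3', inner_self_eq_norm_sq_to_K, inner_self_eq_norm_sq_to_K]
  push_cast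
  simp

/-- injectivity -/
theorem box_zero (hX : HC D0 D1 A0 A1 C) {u : H1} (h : Box D0 D1 A0 A1 u 0) : u = 0 := by
  obtain ⟨f, g, m1, m2, e⟩ := hX.box_energy h
  rw [inner_zero_left] at e
  have e' : ‖f‖ ^ 2 + ‖g‖ ^ 2 = 0 := by exact_mod_cast e
  have hf : f = 0 := by
    have : ‖f‖ = 0 := by nlinarith [sq_nonneg ‖f‖, sq_nonneg ‖g‖]
    exact norm_eq_zero.mp this
  have hg : g = 0 := by
    have : ‖g‖ = 0 := by nlinarith [sq_nonneg ‖f‖, sq_nonneg ‖g‖]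
    exact norm_eq_zero.mp this
  subst hf hg
  exact hX.harmonic m2 m1

end HC

end Pool.Agent.Lib.MP_169ce5_an
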