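import Pool.Agent.Lib.MP_169ce5_an.Test

/-!
Integration by parts against functions which are smooth on `T` but not compactly supported.
-/

open MeasureTheory Complex Filter Topology Set
open scoped ContDiff ComplexConjugate ENNReal

noncomputable section

namespace Pool.Agent.Lib.MP_169ce5_an

theorem X1_chi_bound (k : ℕ) {z : ℂ × ℂ} (hz : z ∈ T) : ‖X1 (chi k) z‖ * w1 z ≤ 2 * Ceta := by
  rw [(hasX_chi k hz).e1]
  have hw := w1_pos hz
  have hC := Ceta_pos
  have he : ∀ x : ℝ, ‖((eta x : ℝ) : ℂ)‖ ≤ 1 := fun x => by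
    rw [Complex.norm_real, Real.norm_eq_abs, abs_of_nonneg (Real.smoothTransition.nonneg x)]
    exact Real.smoothTransition.le_one x
  rw [norm_mul, norm_mul, norm_mul, norm_neg, Complex.norm_real, Real.norm_eq_abs]
  by_cases h : k * w1 z - 1 ≤ 1
  · have h1 : |(k : ℝ) * deriv eta (k * w1 z - 1)| ≤ k * Ceta := by
      rw [abs_mul, abs_of_nonneg (Nat.cast_nonneg k)]
      exact mul_le_mul_of_nonneg_left (deriv_eta_le _) (Nat.cast_nonneg k)
    have h2 : |(k : ℝ) * deriv eta (k * w1 z - 1)| * ‖z.1 / z.2‖ *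
        ‖((eta (k * w2 z - 1) : ℝ) : ℂ)‖ * ‖((eta (k * r2 z - 1) : ℝ) : ℂ)‖ ≤ k * Ceta := by
      calc _ ≤ |(k : ℝ) * deriv eta (k * w1 z - 1)| * 1 * 1 * 1 := by
            gcongr
            · exact (norm_zt_lt hz).le
            · exact he _
            · exact he _
        _ ≤ k * Ceta := by simpa using h1
    calc _ ≤ k * Ceta * w1 z := mul_le_mul_of_nonneg_right h2 hw.le
      _ = (k * w1 z) * Ceta := by ring
      _ ≤ 2 * Ceta := mul_le_mul_of_nonneg_right (by linarith) hC.le
  · push Not at h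
    rw [deriv_eta_of_gt h]
    simp only [mul_zero, abs_zero, zero_mul]
    positivity

/-- region near the origin -/
def Ak (k : ℕ) : Set (ℂ × ℂ) := {z | k * r2 z ≤ 2}

theorem X2_chi_bound (k : ℕ) {z : ℂ × ℂ} (hz : z ∈ T) :
    ‖X2 (chi k) z‖ * w2 z ≤
      (2 * Ceta + Ceta * (k * (Ak k).indicator (fun _ => (1 : ℝ)) z)) * ‖z.2‖ := by
  rw [(hasX_chi k hz).e2]
  have hw := w2_pos hz
  have hw' := w2_le_one z
  have hC := Ceta_pos
  have hz0 := norm_nonneg z.2
  have he : ∀ x : ℝ, ‖((eta x : ℝ) : ℂ)‖ ≤ 1 := fun x => by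
    rw [Complex.norm_real, Real.norm_eq_abs, abs_of_nonneg (Real.smoothTransition.nonneg x)]
    exact Real.smoothTransition.le_one x
  have hA : ‖((k * deriv eta (k * w2 z - 1) : ℝ) : ℂ)‖ * w2 z ≤ 2 * Ceta := by
    rw [Complex.norm_real, Real.norm_eq_abs]
    by_cases h : k * w2 z - 1 ≤ 1
    · rw [abs_mul, abs_of_nonneg (Nat.cast_nonneg k)]
      calc (k : ℝ) * |deriv eta (k * w2 z - 1)| * w2 z ≤ k * Ceta * w2 z := by
            gcongr
            exact deriv_eta_le _
        _ = (k * w2 z) * Ceta := by ring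
        _ ≤ 2 * Ceta := mul_le_mul_of_nonneg_right (by linarith) hC.le
    · push Not at h
      rw [deriv_eta_of_gt h]
      simp only [mul_zero, abs_zero, zero_mul]
      positivity
  have hB : ‖((k * deriv eta (k * r2 z - 1) : ℝ) : ℂ)‖ ≤
      Ceta * (k * (Ak k).indicator (fun _ => (1 : ℝ)) z) := by
    rw [Complex.norm_real, Real.norm_eq_abs]
    by_cases h : z ∈ Ak k
    · rw [indicator_of_mem h, abs_mul, abs_of_nonneg (Nat.cast_nonneg k), mul_one, mul_comm]
      exact mul_le_mul_of_nonneg_right (deriv_eta_le _) (Nat.cast_nonneg k)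
    · have h' : 1 < k * r2 z - 1 := by
        unfold Ak at h
        simp only [mem_ofPred_eq, not_le] at h
        linarith
      rw [deriv_eta_of_gt h', indicator_of_notMem h]
      simp
  set a := ((eta (k * w1 z - 1) : ℝ) : ℂ)
  set b := ((k * deriv eta (k * w2 z - 1) : ℝ) : ℂ)
  set c := ((eta (k * r2 z - 1) : ℝ) : ℂ)
  set d := ((eta (k * w2 z - 1) : ℝ) : ℂ)
  set e := ((k * deriv eta (k * r2 z - 1) : ℝ) : ℂ)
  have ha : ‖a‖ ≤ 1 := he _
  have hc : ‖c‖ ≤ 1 := he _
  have hd : ‖d‖ ≤ 1 := he _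
  have h1 : ‖a * (b * -z.2 * c + d * (e * z.2))‖ ≤ (‖b‖ + ‖e‖) * ‖z.2‖ := by
    calc ‖a * (b * -z.2 * c + d * (e * z.2))‖
        ≤ ‖a‖ * (‖b‖ * ‖z.2‖ * ‖c‖ + ‖d‖ * (‖e‖ * ‖z.2‖)) := by
          rw [norm_mul]
          gcongr
          refine (norm_add_le _ _).trans ?_
          simp only [norm_mul, norm_neg]
          exact le_refl _
      _ ≤ 1 * (‖b‖ * ‖z.2‖ * 1 + 1 * (‖e‖ * ‖z.2‖)) := by gcongr
      _ = _ := by ring
  calc ‖a * (b * -z.2 * c + d * (e * z.2))‖ * w2 z
      ≤ (‖b‖ + ‖e‖) * ‖z.2‖ * w2 z := mul_le_mul_of_nonneg_right h1 hw.le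
    _ = (‖b‖ * w2 z + ‖e‖ * w2 z) * ‖z.2‖ := by ring
    _ ≤ (2 * Ceta + Ceta * (k * (Ak k).indicator (fun _ => (1 : ℝ)) z)) * ‖z.2‖ := by
        have h5 : ‖e‖ * w2 z ≤ Ceta * (k * (Ak k).indicator (fun _ => (1 : ℝ)) z) :=
          calc ‖e‖ * w2 z ≤ ‖e‖ * 1 := by gcongr
            _ = ‖e‖ := mul_one _
            _ ≤ _ := hB
        exact mul_le_mul_of_nonneg_right (add_le_add hA h5) hz0

theorem eventually_big {c : ℝ} (hc : 0 < c) (M : ℝ) : ∀ᶠ k : ℕ in atTop, M < k * c := by
  have : Tendsto (fun k : ℕ => (k : ℝ) * c) atTop atTop :=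
    tendsto_natCast_atTop_atTop.atTop_mul_const hc
  exact this.eventually_gt_atTop M

theorem X1_chi_eventually {z : ℂ × ℂ} (hz : z ∈ T) : ∀ᶠ k : ℕ in atTop, X1 (chi k) z = 0 := by
  filter_upwards [eventually_big (w1_pos hz) 2] with k hk
  rw [(hasX_chi k hz).e1, deriv_eta_of_gt (by linarith)]
  simp

theorem X2_chi_eventually {z : ℂ × ℂ} (hz : z ∈ T) : ∀ᶠ k : ℕ in atTop, X2 (chi k) z = 0 := by
  filter_upwards [eventually_big (w2_pos hz) 2, eventually_big (r2_pos hz) 2] with k hk hk'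
  rw [(hasX_chi k hz).e2, deriv_eta_of_gt (x := k * w2 z - 1) (by linarith),
    deriv_eta_of_gt (x := k * r2 z - 1) (by linarith)]
  simp

theorem measurableSet_Ak (k : ℕ) : MeasurableSet (Ak k) := by
  have h2 : Continuous fun z : ℂ × ℂ => normSq z.2 := Complex.continuous_normSq.comp continuous_snd
  exact (isClosed_le (continuous_const.mul h2) continuous_const).measurableSet

theorem volume_Ak_le {k : ℕ} (hk : 0 < k) :
    muT (Ak k) ≤ ENNReal.ofReal ((Real.pi * (2 / k)) ^ 2) := by
  rw [Measure.restrict_apply (measurableSet_Ak k)]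
  set s := Real.sqrt (2 / k) with hs
  have hk' : (0 : ℝ) < k := by exact_mod_cast hk
  have hs0 : 0 ≤ s := Real.sqrt_nonneg _
  have hs2 : s ^ 2 = 2 / k := Real.sq_sqrt (by positivity)
  have hsub : Ak k ∩ T ⊆ Metric.closedBall (0 : ℂ) s ×ˢ Metric.closedBall (0 : ℂ) s := by
    rintro z ⟨h1, h2⟩
    have h3 : ‖z.2‖ ≤ s := by
      unfold Ak at h1
      simp only [mem_ofPred_eq] at h1
      unfold r2 at h1
      rw [Complex.normSq_eq_norm_sq] at h1
      rw [hs]
      apply Real.le_sqrt_of_sq_le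
      rw [le_div_iff₀ hk', mul_comm]
      exact h1
    rw [mem_prod, mem_closedBall_zero_iff, mem_closedBall_zero_iff]
    exact ⟨h2.1.le.trans h3, h3⟩
  refine (measure_mono hsub).trans ?_
  have hvol : (volume : Measure (ℂ × ℂ)) = (volume : Measure ℂ).prod (volume : Measure ℂ) := rfl
  rw [hvol, Measure.prod_prod, Complex.volume_closedBall]
  rw [← ENNReal.ofReal_pow hs0, hs2]
  have hpi : (NNReal.pi : ℝ≥0∞) = ENNReal.ofReal Real.pi := by
    rw [← NNReal.coe_real_pi, ENNReal.ofReal_coe_nnreal]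
  rw [hpi, ← ENNReal.ofReal_mul (by positivity), ← ENNReal.ofReal_mul (by positivity)]
  apply ENNReal.ofReal_le_ofReal
  apply le_of_eq
  ring

theorem tendsto_core (f : L2) :
    Tendsto (fun k : ℕ => ∫ z in T, (k * (Ak k).indicator (fun _ => (1 : ℝ)) z) * ‖f z‖)
      atTop (𝓝 0) := by
  have hf := Lp.memLp f
  have hf2 : Integrable (fun z => ‖f z‖ ^ 2) muT := (memLp_two_iff_integrable_sq_norm hf.1).mp hf
  -- second factor
  have h2 : Tendsto (fun k : ℕ => ∫ z in T, (Ak k).indicator (fun z => ‖f z‖ ^ 2) z)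
      atTop (𝓝 0) := by
    have h0 : (0 : ℝ) = ∫ z in T, (0 : ℝ) := by simp
    rw [h0]
    refine tendsto_integral_of_dominated_convergence (fun z => ‖f z‖ ^ 2) ?_ hf2 ?_ ?_
    · intro k
      exact hf2.1.indicator (measurableSet_Ak k)
    · intro k
      filter_upwards with z
      by_cases h : z ∈ Ak k
      · rw [indicator_of_mem h, Real.norm_eq_abs, abs_of_nonneg (by positivity)]
      · rw [indicator_of_notMem h]; simp
    · filter_upwards [ae_restrict_mem measurableSet_T] with z hz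
      refine tendsto_const_nhds.congr' ?_
      filter_upwards [eventually_big (r2_pos hz) 2] with k hk
      rw [indicator_of_notMem]
      intro h
      have : k * r2 z ≤ 2 := h
      linarith
  have h3 : Tendsto (fun k : ℕ => (4 * Real.pi ^ 2) ^ (1 / (2 : ℝ)) *
      (∫ z in T, (Ak k).indicator (fun z => ‖f z‖ ^ 2) z) ^ (1 / (2 : ℝ))) atTop (𝓝 0) := by
    have := (h2.rpow_const (p := 1 / (2 : ℝ)) (Or.inr (by norm_num))).const_mul
      ((4 * Real.pi ^ 2) ^ (1 / (2 : ℝ)))
    simpa using this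
  refine squeeze_zero' ?_ ?_ h3
  · filter_upwards with k
    refine integral_nonneg fun z => ?_
    have : 0 ≤ (Ak k).indicator (fun _ => (1 : ℝ)) z := indicator_nonneg (fun _ _ => zero_le_one) _
    positivity
  · filter_upwards [eventually_gt_atTop 0] with k hk
    have e1 : ∀ z, ((k : ℝ) * (Ak k).indicator (fun _ => (1 : ℝ)) z) * ‖f z‖ =
        ((k : ℝ) * (Ak k).indicator (fun _ => (1 : ℝ)) z) *
          (Ak k).indicator (fun z => ‖f z‖) z := by
      intro z
      by_cases h : z ∈ Ak k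
      · simp [indicator_of_mem h]
      · simp [indicator_of_notMem h]
    simp only [e1]
    have hm1 : MemLp (fun z => (k : ℝ) * (Ak k).indicator (fun _ => (1 : ℝ)) z)
        (ENNReal.ofReal 2) muT := by
      refine MemLp.of_bound ?_ k ?_
      · exact ((measurable_const.indicator (measurableSet_Ak k)).const_mul _).aestronglyMeasurable
      · filter_upwards with z
        by_cases h : z ∈ Ak k
        · simp [indicator_of_mem h]
        · simp [indicator_of_notMem h]
    have hm2 : MemLp (fun z => (Ak k).indicator (fun z => ‖f z‖) z) (ENNReal.ofReal 2) muT := by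
      have : ENNReal.ofReal 2 = 2 := by simp
      rw [this]
      exact hf.norm.indicator (measurableSet_Ak k)
    have hh := integral_mul_le_Lp_mul_Lq_of_nonneg (μ := muT) Real.HolderConjugate.two_two
      (f := fun z => (k : ℝ) * (Ak k).indicator (fun _ => (1 : ℝ)) z)
      (g := fun z => (Ak k).indicator (fun z => ‖f z‖) z)
      (by
        filter_upwards with z
        have : 0 ≤ (Ak k).indicator (fun _ => (1 : ℝ)) z :=
          indicator_nonneg (fun _ _ => zero_le_one) _
        exact mul_nonneg (Nat.cast_nonneg k) this)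
      (by
        filter_upwards with z
        exact indicator_nonneg (fun _ _ => norm_nonneg _) _)
      hm1 hm2
    refine hh.trans ?_
    have e2 : ∫ z in T, ((k : ℝ) * (Ak k).indicator (fun _ => (1 : ℝ)) z) ^ (2 : ℝ)
        ≤ 4 * Real.pi ^ 2 := by
      have e3 : ∀ z, ((k : ℝ) * (Ak k).indicator (fun _ => (1 : ℝ)) z) ^ (2 : ℝ) =
          (Ak k).indicator (fun _ => (k : ℝ) ^ 2) z := by
        intro z
        by_cases h : z ∈ Ak k
        · simp [indicator_of_mem h]
        · simp [indicator_of_notMem h]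
      simp only [e3]
      rw [integral_indicator (measurableSet_Ak k), setIntegral_const, smul_eq_mul]
      have hreal : muT.real (Ak k) ≤ (Real.pi * (2 / k)) ^ 2 := by
        rw [Measure.real]
        exact ENNReal.toReal_le_of_le_ofReal (by positivity) (volume_Ak_le hk)
      have hk' : (0 : ℝ) < k := by exact_mod_cast hk
      calc muT.real (Ak k) * (k : ℝ) ^ 2 ≤ (Real.pi * (2 / k)) ^ 2 * (k : ℝ) ^ 2 := by gcongr
        _ = 4 * Real.pi ^ 2 := by field_simp; ring
    have e4 : ∫ z in T, ((Ak k).indicator (fun z => ‖f z‖) z) ^ (2 : ℝ) =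
        ∫ z in T, (Ak k).indicator (fun z => ‖f z‖ ^ 2) z := by
      congr 1
      funext z
      by_cases h : z ∈ Ak k
      · simp [indicator_of_mem h]
      · simp [indicator_of_notMem h]
    rw [e4]
    have hnn : 0 ≤ ∫ z in T, (Ak k).indicator (fun z => ‖f z‖ ^ 2) z :=
      integral_nonneg fun z => indicator_nonneg (fun _ _ => by positivity) _
    have hnn2 : 0 ≤ ∫ z in T, ((k : ℝ) * (Ak k).indicator (fun _ => (1 : ℝ)) z) ^ (2 : ℝ) := by
      refine integral_nonneg fun z => ?_
      have : 0 ≤ (Ak k).indicator (fun _ => (1 : ℝ)) z :=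
        indicator_nonneg (fun _ _ => zero_le_one) _
      positivity
    gcongr

theorem tendsto_err {E b : ℕ → (ℂ × ℂ) → ℝ} {a : (ℂ × ℂ) → ℝ} (hE0 : ∀ k z, 0 ≤ E k z)
    (hm : ∀ k, AEStronglyMeasurable (E k) muT) (ha0 : ∀ᵐ z ∂muT, 0 ≤ a z)
    (hb0 : ∀ k, ∀ᵐ z ∂muT, 0 ≤ b k z)
    (hE : ∀ k, ∀ᵐ z ∂muT, E k z ≤ a z + b k z) (ha : Integrable a muT)
    (hb : ∀ k, Integrable (b k) muT) (hbl : Tendsto (fun k => ∫ z in T, b k z) atTop (𝓝 0))
    (hpt : ∀ᵐ z ∂muT, Tendsto (fun k => E k z) atTop (𝓝 0)) :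
    Tendsto (fun k => ∫ z in T, E k z) atTop (𝓝 0) := by
  have h1 : Tendsto (fun k => ∫ z in T, min (E k z) (a z)) atTop (𝓝 0) := by
    have h0 : (0 : ℝ) = ∫ z in T, (0 : ℝ) := by simp
    rw [h0]
    refine tendsto_integral_of_dominated_convergence a ?_ ha ?_ ?_
    · intro k
      exact (hm k).inf ha.1
    · intro k
      filter_upwards [ha0] with z hz
      rw [Real.norm_eq_abs, abs_of_nonneg (le_min (hE0 k z) hz)]
      exact min_le_right _ _
    · filter_upwards [hpt, ha0] with z hz hz0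
      have := hz.min (tendsto_const_nhds (x := a z))
      rw [min_eq_left hz0] at this
      exact this
  have h2 := h1.add hbl
  rw [add_zero] at h2
  refine squeeze_zero (fun k => integral_nonneg (hE0 k)) (fun k => ?_) h2
  have hmin : Integrable (fun z => min (E k z) (a z)) muT := by
    refine ha.mono ((hm k).inf ha.1) ?_
    filter_upwards [ha0] with z hz
    rw [Real.norm_eq_abs, Real.norm_eq_abs, abs_of_nonneg (le_min (hE0 k z) hz), abs_of_nonneg hz]
    exact min_le_right _ _
  rw [← integral_add hmin (hb k)]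
  refine integral_mono_of_nonneg (ae_of_all _ (hE0 k)) (hmin.add (hb k)) ?_
  filter_upwards [hE k, hb0 k] with z hz hz0
  change E k z ≤ min (E k z) (a z) + b k z
  rcases le_total (E k z) (a z) with h | h
  · rw [min_eq_left h]; linarith
  · rw [min_eq_right h]; exact hz

theorem tendsto_chi_mul {F : ℂ × ℂ → ℂ} (hF : Integrable F muT) :
    Tendsto (fun k : ℕ => ∫ z in T, chi k z * F z) atTop (𝓝 (∫ z in T, F z)) := by
  refine tendsto_integral_of_dominated_convergence (fun z => ‖F z‖) ?_ hF.norm ?_ ?_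
  · intro k
    exact ((isTest_chi k).1.continuous.aestronglyMeasurable).mul hF.1
  · intro k
    filter_upwards with z
    rw [norm_mul]
    exact mul_le_of_le_one_left (norm_nonneg _) (norm_chi_le k z)
  · filter_upwards [ae_restrict_mem measurableSet_T] with z hz
    refine tendsto_const_nhds.congr' ?_
    filter_upwards [chi_eventually_one hz] with k hk
    rw [hk, one_mul]

theorem continuousOn_dzbar1 {h : ℂ × ℂ → ℂ} (hh : ContDiffOn ℝ ∞ h T) :
    ContinuousOn (dzbar1 h) T := by
  have h1 := hh.continuousOn_fderiv_of_isOpen isOpen_T (by simp)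
  unfold dzbar1
  exact continuousOn_const.mul ((h1.clm_apply continuousOn_const).add
    (continuousOn_const.mul (h1.clm_apply continuousOn_const)))

theorem continuousOn_dzbar2 {h : ℂ × ℂ → ℂ} (hh : ContDiffOn ℝ ∞ h T) :
    ContinuousOn (dzbar2 h) T := by
  have h1 := hh.continuousOn_fderiv_of_isOpen isOpen_T (by simp)
  unfold dzbar2
  exact continuousOn_const.mul ((h1.clm_apply continuousOn_const).add
    (continuousOn_const.mul (h1.clm_apply continuousOn_const)))

theorem continuousOn_zt : ContinuousOn (fun z : ℂ × ℂ => z.1 / z.2) T :=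
  fun _ hz => (contDiffAt_zt (snd_ne_zero hz)).continuousAt.continuousWithinAt

theorem continuousOn_X1 {h : ℂ × ℂ → ℂ} (hh : ContDiffOn ℝ ∞ h T) :
    ContinuousOn (X1 h) T := by
  unfold X1
  exact (Complex.continuous_conj.comp continuous_snd).continuousOn.mul (continuousOn_dzbar1 hh)

theorem continuousOn_X2 {h : ℂ × ℂ → ℂ} (hh : ContDiffOn ℝ ∞ h T) :
    ContinuousOn (X2 h) T := by
  unfold X2
  exact (continuousOn_dzbar2 hh).add
    ((Complex.continuous_conj.comp_continuousOn continuousOn_zt).mul (continuousOn_dzbar1 hh))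

theorem continuousOn_inv_conj_snd : ContinuousOn (fun z : ℂ × ℂ => (conj z.2)⁻¹) T := by
  refine ContinuousOn.inv₀ (Complex.continuous_conj.comp continuous_snd).continuousOn ?_
  intro z hz
  simpa using snd_ne_zero hz

theorem aesm_of_continuousOn {h : ℂ × ℂ → ℂ} (hh : ContinuousOn h T) :
    AEStronglyMeasurable h muT := hh.aestronglyMeasurable measurableSet_T

theorem hasX_of_contDiffOn {h : ℂ × ℂ → ℂ} (hh : ContDiffOn ℝ ∞ h T) {z : ℂ × ℂ} (hz : z ∈ T) :
    HasX h z (X1 h z) (X2 h z) :=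
  ⟨(hh.contDiffAt (isOpen_T.mem_nhds hz)).differentiableAt (by simp), rfl, rfl⟩

theorem limit_core {f g : L2} {h x : ℂ × ℂ → ℂ} {Y : ℕ → ℂ × ℂ → ℂ} (hh : MemLp h 2 muT)
    (hx : MemLp x 2 muT) (hY : ∀ k, Integrable (fun z => f z * (h z * Y k z)) muT)
    (hlim : Tendsto (fun k => ∫ z in T, ‖f z * (h z * Y k z)‖) atTop (𝓝 0))
    (key : ∀ k, ∫ z in T, f z * (chi k z * x z + h z * Y k z) =
      - ∫ z in T, g z * (chi k z * h z)) :
    ∫ z in T, f z * x z = - ∫ z in T, g z * h z := by
  have i1 : Integrable (fun z => f z * x z) muT := integrable_mul hx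
  have i2 : Integrable (fun z => g z * h z) muT := integrable_mul hh
  have l1 := tendsto_chi_mul i1
  have l2 := tendsto_chi_mul i2
  have l3 : Tendsto (fun k => ∫ z in T, f z * (h z * Y k z)) atTop (𝓝 0) :=
    squeeze_zero_norm (fun k => norm_integral_le_integral_norm _) hlim
  have l4 := l1.add l3
  rw [add_zero] at l4
  have e : (fun k => (∫ z in T, chi k z * (f z * x z)) + ∫ z in T, f z * (h z * Y k z)) =
      fun k => - ∫ z in T, chi k z * (g z * h z) := by
    funext k
    have ic : Integrable (fun z => chi k z * (f z * x z)) muT := by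
      refine i1.norm.mono' ((isTest_chi k).1.continuous.aestronglyMeasurable.mul i1.1) ?_
      filter_upwards with z
      rw [norm_mul]
      exact mul_le_of_le_one_left (norm_nonneg _) (norm_chi_le k z)
    rw [← integral_add ic (hY k)]
    have k1 := key k
    have e1 : ∀ z, chi k z * (f z * x z) + f z * (h z * Y k z) =
        f z * (chi k z * x z + h z * Y k z) := fun z => by ring
    have e2 : ∀ z, chi k z * (g z * h z) = g z * (chi k z * h z) := fun z => by ring
    simp only [e1, e2]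
    exact k1
  rw [e] at l4
  exact tendsto_nhds_unique l4 l2.neg

theorem ibp1 {f g : L2}
    (hW : ∀ φ, IsTest φ → ∫ z in T, f z * X1 φ z = - ∫ z in T, g z * φ z)
    {h : ℂ × ℂ → ℂ} (hh : ContDiffOn ℝ ∞ h T) {C C' : ℝ}
    (hb : ∀ z ∈ T, ‖h z‖ ≤ C * w1 z * ‖z.2‖⁻¹)
    (hx : ∀ z ∈ T, ‖X1 h z‖ ≤ C' * ‖z.2‖⁻¹) :
    ∫ z in T, f z * X1 h z = - ∫ z in T, g z * h z := by
  have hC : 0 ≤ C ∨ True := Or.inr trivial
  have hxm : MemLp (X1 h) 2 muT := memLp_of_bound (aesm_of_continuousOn (continuousOn_X1 hh)) hx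
  have hhb : ∀ z ∈ T, ‖h z‖ ≤ |C| * ‖z.2‖⁻¹ := by
    intro z hz
    refine (hb z hz).trans ?_
    have h1 := w1_pos hz
    have h2 := w1_le_one z
    have h3 : C * w1 z ≤ |C| := by
      calc C * w1 z ≤ |C| * w1 z := mul_le_mul_of_nonneg_right (le_abs_self C) h1.le
        _ ≤ |C| * 1 := mul_le_mul_of_nonneg_left h2 (abs_nonneg _)
        _ = |C| := mul_one _
    exact mul_le_mul_of_nonneg_right h3 (by positivity)
  have hhm : MemLp h 2 muT := memLp_of_bound (ContDiffOn.aesm hh) hhb
  have hbound : ∀ k, ∀ z ∈ T, ‖h z * X1 (chi k) z‖ ≤ (|C| * (2 * Ceta)) * ‖z.2‖⁻¹ := by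
    intro k z hz
    rw [norm_mul]
    have hn2 : 0 ≤ ‖z.2‖⁻¹ := by positivity
    calc ‖h z‖ * ‖X1 (chi k) z‖ ≤ (C * w1 z * ‖z.2‖⁻¹) * ‖X1 (chi k) z‖ :=
          mul_le_mul_of_nonneg_right (hb z hz) (norm_nonneg _)
      _ ≤ (|C| * w1 z * ‖z.2‖⁻¹) * ‖X1 (chi k) z‖ := by
          have := w1_pos hz
          gcongr
          exact le_abs_self C
      _ = |C| * (‖X1 (chi k) z‖ * w1 z) * ‖z.2‖⁻¹ := by ring
      _ ≤ |C| * (2 * Ceta) * ‖z.2‖⁻¹ :=
          mul_le_mul_of_nonneg_right (mul_le_mul_of_nonneg_left (X1_chi_bound k hz)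
            (abs_nonneg _)) hn2
  have hYm : ∀ k, MemLp (fun z => h z * X1 (chi k) z) 2 muT := by
    intro k
    refine memLp_of_bound ?_ (hbound k)
    exact (ContDiffOn.aesm hh).mul
      (aesm_of_continuousOn (continuousOn_X1 (isTest_chi k).1.contDiffOn))
  refine limit_core (Y := fun k => X1 (chi k)) hhm hxm (fun k => integrable_mul (hYm k)) ?_ ?_
  · refine tendsto_err (E := fun k z => ‖f z * (h z * X1 (chi k) z)‖) (b := fun _ _ => 0)
      (a := fun z => ‖f z * ((|C| * (2 * Ceta) : ℝ) * (z.2)⁻¹)‖)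
      (fun k z => norm_nonneg _) (fun k => (integrable_mul (hYm k)).1.norm)
      (ae_of_all _ fun z => norm_nonneg _) (fun k => ae_of_all _ fun z => le_refl _) ?_ ?_ ?_ ?_ ?_
    · intro k
      filter_upwards [ae_restrict_mem measurableSet_T] with z hz
      rw [add_zero, norm_mul (f z), norm_mul (f z)]
      refine mul_le_mul_of_nonneg_left ?_ (norm_nonneg _)
      rw [norm_mul ((|C| * (2 * Ceta) : ℝ) : ℂ), Complex.norm_real, norm_inv, Real.norm_eq_abs,
        abs_of_nonneg (mul_nonneg (abs_nonneg C) (by linarith [Ceta_pos]))]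
      exact hbound k z hz
    · exact (integrable_mul (memLp_inv_snd.const_mul _)).norm
    · intro k; exact integrable_zero _ _ _
    · simp
    · filter_upwards [ae_restrict_mem measurableSet_T] with z hz
      refine tendsto_const_nhds.congr' ?_
      filter_upwards [X1_chi_eventually hz] with k hk
      rw [hk]; simp
  · intro k
    have ht : IsTest (fun z => h z * chi k z) := (isTest_chi k).mul_left hh
    have h1 := hW _ ht
    have e1 : ∫ z in T, f z * X1 (fun z => h z * chi k z) z =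
        ∫ z in T, f z * (chi k z * X1 h z + h z * X1 (chi k) z) := by
      refine setIntegral_congr_fun measurableSet_T ?_
      intro z hz
      have := ((hasX_of_contDiffOn hh hz).mul (hasX_of_contDiffOn (isTest_chi k).1.contDiffOn hz)).e1
      simp only [this]
      ring
    have e2 : ∫ z in T, g z * (h z * chi k z) = ∫ z in T, g z * (chi k z * h z) := by
      congr 1; funext z; ring
    rw [e1, e2] at h1
    exact h1

theorem ibp2 {f g : L2}
    (hW : ∀ φ, IsTest φ → ∫ z in T, f z * (X2 φ z + φ z * (conj z.2)⁻¹) = - ∫ z in T, g z * φ z)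
    {h : ℂ × ℂ → ℂ} (hh : ContDiffOn ℝ ∞ h T) {C C' : ℝ}
    (hb : ∀ z ∈ T, ‖h z‖ ≤ C * w2 z * ‖z.2‖⁻¹)
    (hx : ∀ z ∈ T, ‖X2 h z + h z * (conj z.2)⁻¹‖ ≤ C' * ‖z.2‖⁻¹) :
    ∫ z in T, f z * (X2 h z + h z * (conj z.2)⁻¹) = - ∫ z in T, g z * h z := by
  have hxm : MemLp (fun z => X2 h z + h z * (conj z.2)⁻¹) 2 muT :=
    memLp_of_bound (aesm_of_continuousOn ((continuousOn_X2 hh).add
      (hh.continuousOn.mul continuousOn_inv_conj_snd))) hx
  have hhb : ∀ z ∈ T, ‖h z‖ ≤ |C| * ‖z.2‖⁻¹ := by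
    intro z hz
    refine (hb z hz).trans ?_
    have h1 := w2_pos hz
    have h2 := w2_le_one z
    have h3 : C * w2 z ≤ |C| := by
      calc C * w2 z ≤ |C| * w2 z := mul_le_mul_of_nonneg_right (le_abs_self C) h1.le
        _ ≤ |C| * 1 := mul_le_mul_of_nonneg_left h2 (abs_nonneg _)
        _ = |C| := mul_one _
    exact mul_le_mul_of_nonneg_right h3 (by positivity)
  have hhm : MemLp h 2 muT := memLp_of_bound (ContDiffOn.aesm hh) hhb
  have hbound : ∀ k, ∀ z ∈ T, ‖h z * X2 (chi k) z‖ ≤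
      |C| * (2 * Ceta + Ceta * (k * (Ak k).indicator (fun _ => (1 : ℝ)) z)) := by
    intro k z hz
    rw [norm_mul]
    have hn := norm_snd_pos hz
    calc ‖h z‖ * ‖X2 (chi k) z‖ ≤ (C * w2 z * ‖z.2‖⁻¹) * ‖X2 (chi k) z‖ :=
          mul_le_mul_of_nonneg_right (hb z hz) (norm_nonneg _)
      _ ≤ (|C| * w2 z * ‖z.2‖⁻¹) * ‖X2 (chi k) z‖ := by
          have := w2_pos hz
          gcongr
          exact le_abs_self C
      _ = |C| * (‖X2 (chi k) z‖ * w2 z) * ‖z.2‖⁻¹ := by ring
      _ ≤ |C| * ((2 * Ceta + Ceta * (k * (Ak k).indicator (fun _ => (1 : ℝ)) z)) * ‖z.2‖) *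
            ‖z.2‖⁻¹ :=
          mul_le_mul_of_nonneg_right (mul_le_mul_of_nonneg_left (X2_chi_bound k hz)
            (abs_nonneg _)) (by positivity)
      _ = _ := by field_simp
  have hind : ∀ k : ℕ, ∀ z, (k : ℝ) * (Ak k).indicator (fun _ => (1 : ℝ)) z ≤ k := by
    intro k z
    have : (Ak k).indicator (fun _ => (1 : ℝ)) z ≤ 1 :=
      indicator_le_self' (fun _ _ => zero_le_one) z |>.trans (le_refl _)
    calc (k : ℝ) * (Ak k).indicator (fun _ => (1 : ℝ)) z ≤ k * 1 := by gcongr
      _ = k := mul_one _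
  have hind0 : ∀ k : ℕ, ∀ z, 0 ≤ (k : ℝ) * (Ak k).indicator (fun _ => (1 : ℝ)) z := by
    intro k z
    have : 0 ≤ (Ak k).indicator (fun _ => (1 : ℝ)) z := indicator_nonneg (fun _ _ => zero_le_one) z
    positivity
  have hYm : ∀ k, MemLp (fun z => h z * X2 (chi k) z) 2 muT := by
    intro k
    refine memLp_of_bounded (C := |C| * (2 * Ceta + Ceta * k)) ?_ fun z hz => ?_
    · exact (ContDiffOn.aesm hh).mul
        (aesm_of_continuousOn (continuousOn_X2 (isTest_chi k).1.contDiffOn))
    · refine (hbound k z hz).trans ?_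
      have := Ceta_pos
      gcongr
      exact hind k z
  have hif : ∀ k : ℕ, Integrable
      (fun z => (k * (Ak k).indicator (fun _ => (1 : ℝ)) z) * ‖f z‖) muT := by
    intro k
    have h1 : Integrable (fun z => ‖f z‖) muT := ((Lp.memLp f).integrable (by norm_num)).norm
    refine (h1.const_mul (k : ℝ)).mono ?_ ?_
    · exact ((measurable_const.indicator (measurableSet_Ak k)).const_mul
        _).aestronglyMeasurable.mul h1.1
    · filter_upwards with z
      rw [norm_mul (_ * _), norm_mul, norm_norm, ← norm_mul, Real.norm_of_nonneg (hind0 k z),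
        Real.norm_of_nonneg (mul_nonneg (Nat.cast_nonneg k) (norm_nonneg (f z)))]
      exact mul_le_mul_of_nonneg_right (hind k z) (norm_nonneg _)
  refine limit_core (Y := fun k => X2 (chi k)) hhm hxm (fun k => integrable_mul (hYm k)) ?_ ?_
  · refine tendsto_err (E := fun k z => ‖f z * (h z * X2 (chi k) z)‖)
      (b := fun k z => (|C| * Ceta) *
        ((k * (Ak k).indicator (fun _ => (1 : ℝ)) z) * ‖f z‖))
      (a := fun z => (|C| * (2 * Ceta)) * ‖f z‖)
      (fun k z => norm_nonneg _) (fun k => (integrable_mul (hYm k)).1.norm)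
      (ae_of_all _ fun z => by have := Ceta_pos; positivity)
      (fun k => ae_of_all _ fun z => by
        have := Ceta_pos
        have := hind0 k z
        positivity) ?_ ?_ ?_ ?_ ?_
    · intro k
      filter_upwards [ae_restrict_mem measurableSet_T] with z hz
      rw [norm_mul]
      calc ‖f z‖ * ‖h z * X2 (chi k) z‖ ≤ ‖f z‖ *
          (|C| * (2 * Ceta + Ceta * (k * (Ak k).indicator (fun _ => (1 : ℝ)) z))) :=
            mul_le_mul_of_nonneg_left (hbound k z hz) (norm_nonneg _)
        _ = _ := by ring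
    · exact ((Lp.memLp f).integrable (by norm_num)).norm.const_mul _
    · intro k; exact (hif k).const_mul _
    · simp only [integral_const_mul]
      have := (tendsto_core f).const_mul (|C| * Ceta)
      rw [mul_zero] at this
      exact this
    · filter_upwards [ae_restrict_mem measurableSet_T] with z hz
      refine tendsto_const_nhds.congr' ?_
      filter_upwards [X2_chi_eventually hz] with k hk
      rw [hk]; simp
  · intro k
    have ht : IsTest (fun z => h z * chi k z) := (isTest_chi k).mul_left hh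
    have h1 := hW _ ht
    have e1 : ∫ z in T, f z * (X2 (fun z => h z * chi k z) z + h z * chi k z * (conj z.2)⁻¹) =
        ∫ z in T, f z * (chi k z * (X2 h z + h z * (conj z.2)⁻¹) + h z * X2 (chi k) z) := by
      refine setIntegral_congr_fun measurableSet_T ?_
      intro z hz
      have := ((hasX_of_contDiffOn hh hz).mul (hasX_of_contDiffOn (isTest_chi k).1.contDiffOn hz)).e2
      simp only [this]
      ring
    have e2 : ∫ z in T, g z * (h z * chi k z) = ∫ z in T, g z * (chi k z * h z) := by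
      congr 1; funext z; ring
    rw [e1, e2] at h1
    exact h1

end Pool.Agent.Lib.MP_169ce5_an
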