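import Pool.Agent.Lib.MP_169ce5_an.Hodge

/-!
Existence of the inverse of the Laplacian of a Hilbert complex and its spectral theory.
-/

open Filter Topology
open scoped InnerProductSpace ComplexConjugate

noncomputable section

namespace Pool.Agent.Lib.MP_169ce5_an

section

variable {H0 H1 H2 : Type*} [NormedAddCommGroup H0] [InnerProductSpace ℂ H0] [CompleteSpace H0]
  [NormedAddCommGroup H1] [InnerProductSpace ℂ H1] [CompleteSpace H1]
  [NormedAddCommGroup H2] [InnerProductSpace ℂ H2] [CompleteSpace H2]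

namespace HC

variable {D0 : Submodule ℂ (H0 × H1)} {D1 : Submodule ℂ (H1 × H2)}
    {A0 : Submodule ℂ (H1 × H0)} {A1 : Submodule ℂ (H2 × H1)} {C : ℝ}

theorem isClosed_adj {H G : Type*} [NormedAddCommGroup H] [InnerProductSpace ℂ H]
    [NormedAddCommGroup G] [InnerProductSpace ℂ G] {Γ : Submodule ℂ (H × G)}
    {A : Submodule ℂ (G × H)}
    (hA : ∀ v f, (v, f) ∈ A ↔ ∀ y ∈ Γ, ⟪y.2, v⟫_ℂ = ⟪y.1, f⟫_ℂ) :
    IsClosed (A : Set (G × H)) := by
  have : (A : Set (G × H)) = ⋂ y ∈ Γ, {p : G × H | ⟪y.2, p.1⟫_ℂ = ⟪y.1, p.2⟫_ℂ} := by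
    ext p
    simp only [Set.mem_iInter, Set.mem_ofPred_eq]
    exact hA p.1 p.2
  rw [this]
  refine isClosed_biInter fun y _ => isClosed_eq ?_ ?_
  · exact continuous_const.inner continuous_fst
  · exact continuous_const.inner continuous_snd

/-- the graph of `u ↦ (∂* u, ∂ u)` -/
def Gam (D1 : Submodule ℂ (H1 × H2)) (A0 : Submodule ℂ (H1 × H0)) :
    Submodule ℂ (H1 × WithLp 2 (H0 × H2)) where
  carrier := {p | (p.1, p.2.fst) ∈ A0 ∧ (p.1, p.2.snd) ∈ D1}
  add_mem' := by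
    rintro p q ⟨h1, h2⟩ ⟨h3, h4⟩
    exact ⟨A0.add_mem h1 h3, D1.add_mem h2 h4⟩
  zero_mem' := ⟨A0.zero_mem, D1.zero_mem⟩
  smul_mem' := by
    rintro c p ⟨h1, h2⟩
    exact ⟨A0.smul_mem c h1, D1.smul_mem c h2⟩

theorem isClosed_Gam (hX : HC D0 D1 A0 A1 C) :
    IsClosed (Gam D1 A0 : Set (H1 × WithLp 2 (H0 × H2))) := by
  have h1 : Continuous fun p : H1 × WithLp 2 (H0 × H2) => (p.1, p.2.fst) :=
    continuous_fst.prodMk ((WithLp.fstL 2 ℂ H0 H2).continuous.comp continuous_snd)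
  have h2 : Continuous fun p : H1 × WithLp 2 (H0 × H2) => (p.1, p.2.snd) :=
    continuous_fst.prodMk ((WithLp.sndL 2 ℂ H0 H2).continuous.comp continuous_snd)
  exact ((isClosed_adj hX.adj0).preimage h1).inter (hX.cl1.preimage h2)

theorem exists_inverse (hX : HC D0 D1 A0 A1 C) :
    ∃ N : H1 →L[ℂ] H1, (∀ v, Box D0 D1 A0 A1 (N v) v) ∧
      ∀ u v, Box D0 D1 A0 A1 u v → N v = u := by
  obtain ⟨R, S, hR⟩ := exists_res (Gam D1 A0) hX.isClosed_Gam
  have hC := hX.hC
  set ρ : ℝ := (2 * C ^ 2 + 1) / (2 * C ^ 2 + 2) with hρ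
  have hρ1 : ρ < 1 := by
    rw [hρ, div_lt_one (by positivity)]; linarith
  have hρ0 : 0 ≤ ρ := by rw [hρ]; positivity
  have hnorm : ‖R‖ ≤ ρ := by
    refine ContinuousLinearMap.opNorm_le_bound _ hρ0 fun f => ?_
    have h1 := hR.norm_sq f
    obtain ⟨m0, m1⟩ := hR.mem f
    have h2 := hX.basic m1 m0
    simp only at h2
    have h3 : ‖S f‖ ^ 2 = ‖(S f).fst‖ ^ 2 + ‖(S f).snd‖ ^ 2 := WithLp.prod_norm_sq_eq_of_L2 _
    have h4 : ‖R f‖ ^ 2 ≤ 2 * C ^ 2 * ‖S f‖ ^ 2 := by
      calc ‖R f‖ ^ 2 ≤ (C * ‖(S f).fst‖ + C * ‖(S f).snd‖) ^ 2 := by gcongr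
        _ ≤ 2 * C ^ 2 * (‖(S f).fst‖ ^ 2 + ‖(S f).snd‖ ^ 2) := by
            nlinarith [sq_nonneg (C * ‖(S f).fst‖ - C * ‖(S f).snd‖)]
        _ = _ := by rw [h3]
    by_cases h0 : ‖R f‖ = 0
    · rw [h0]; positivity
    · have hpos : 0 < ‖R f‖ := lt_of_le_of_ne (norm_nonneg _) (Ne.symm h0)
      have h5 : ‖R f‖ * (‖R f‖ * (2 * C ^ 2 + 2)) ≤ ‖R f‖ * ((2 * C ^ 2 + 1) * ‖f‖) := by
        nlinarith [sq_nonneg C]
      have h6 := le_of_mul_le_mul_left h5 hpos
      rw [hρ, div_mul_eq_mul_div, le_div_iff₀ (by positivity)]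
      exact h6
  obtain ⟨U, hU⟩ := isUnit_one_sub_of_norm_lt_one (lt_of_le_of_lt hnorm hρ1)
  let W : H1 →L[ℂ] H1 := ((U⁻¹ : (H1 →L[ℂ] H1)ˣ) : H1 →L[ℂ] H1)
  have hW : ∀ v, W v - R (W v) = v := by
    intro v
    have h1 : (1 - R) * W = 1 := by
      rw [← hU]; exact U.mul_inv
    have := congrArg (fun A : H1 →L[ℂ] H1 => A v) h1
    exact this
  have hbox : ∀ v, Box D0 D1 A0 A1 (R (W v)) v := by
    intro v
    obtain ⟨m0, m1⟩ := hR.mem (W v)
    have hweak : ∀ y ∈ Gam D1 A0, ⟪y.2, S (W v)⟫_ℂ = ⟪y.1, v⟫_ℂ := by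
      intro y hy
      have h1 := hR.eq (W v) y hy
      have h2 : ⟪y.1, W v⟫_ℂ - ⟪y.1, R (W v)⟫_ℂ = ⟪y.1, v⟫_ℂ := by
        rw [← inner_sub_right, hW]
      linear_combination h1 + h2
    obtain ⟨v', v'', hv, k1, k2, k3⟩ := hX.splitting v
    refine ⟨(S (W v)).fst, (S (W v)).snd, v', v'', m0, ?_, m1, ?_, hv⟩
    · refine mem_of_adj_adj hX.cl0 hX.adj0 ?_
      intro y hy
      obtain ⟨w', w'', hw, l1, l2, l3⟩ := hX.splitting y.1
      have hw' : (w', y.2) ∈ A0 := by
        have := A0.sub_mem hy l2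
        have e : y - (w'', (0 : H0)) = (w', y.2) := by
          ext
          · simp [hw]
          · simp
        rwa [e] at this
      have hG : (w', WithLp.toLp 2 (y.2, (0 : H2))) ∈ Gam D1 A0 := ⟨hw', l1⟩
      have h1 := hweak _ hG
      rw [WithLp.prod_inner_apply] at h1
      have h2 : ⟪y.2, (S (W v)).fst⟫_ℂ + ⟪(0 : H2), (S (W v)).snd⟫_ℂ = ⟪w', v⟫_ℂ := h1
      rw [inner_zero_left, add_zero] at h2
      rw [h2, hv, inner_add_right, k3 _ l1, add_zero, hw, inner_add_left]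
      have : ⟪w'', v'⟫_ℂ = 0 := by
        rw [← inner_conj_symm, l3 _ k1, map_zero]
      rw [this, add_zero]
    · rw [hX.adj1]
      intro y hy
      obtain ⟨w', w'', hw, l1, l2, l3⟩ := hX.splitting y.1
      have hw' : (w'', y.2) ∈ D1 := by
        have := D1.sub_mem hy l1
        have e : y - (w', (0 : H2)) = (w'', y.2) := by
          ext
          · simp [hw]
          · simp
        rwa [e] at this
      have hG : (w'', WithLp.toLp 2 ((0 : H0), y.2)) ∈ Gam D1 A0 := ⟨l2, hw'⟩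
      have h1 := hweak _ hG
      rw [WithLp.prod_inner_apply] at h1
      have h2 : ⟪(0 : H0), (S (W v)).fst⟫_ℂ + ⟪y.2, (S (W v)).snd⟫_ℂ = ⟪w'', v⟫_ℂ := h1
      rw [inner_zero_left, zero_add] at h2
      have : ⟪w'', v'⟫_ℂ = 0 := by
        rw [← inner_conj_symm, l3 _ k1, map_zero]
      rw [h2, hv, inner_add_right, this, zero_add, hw, inner_add_left, k3 _ l1, zero_add]
  refine ⟨R.comp W, hbox, fun u v h => ?_⟩
  have h1 := box_sub (hbox v) h
  rw [sub_self] at h1
  exact sub_eq_zero.mp (hX.box_zero h1)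

/-- eigenvectors of the resolvents give eigenvectors of `N`; they are total -/
theorem eigTotal_inverse (hX : HC D0 D1 A0 A1 C) (hg0 : ∀ s, ((0 : H0), s) ∈ D0 → s = 0)
    (hg1 : ∀ s, ((0 : H2), s) ∈ A1 → s = 0)
    {R0 : H0 →L[ℂ] H0} {S0 : H0 →L[ℂ] H1} (hR0 : Res D0 R0 S0) (ht0 : EigTotal R0)
    {R2 : H2 →L[ℂ] H2} {S2 : H2 →L[ℂ] H1} (hR2 : Res A1 R2 S2) (ht2 : EigTotal R2)
    {N : H1 →L[ℂ] H1} (hN : ∀ u v, Box D0 D1 A0 A1 u v → N v = u) : EigTotal N := by
  have hflip : ∀ v f, (v, f) ∈ D1 ↔ ∀ y ∈ A1, ⟪y.2, v⟫_ℂ = ⟪y.1, f⟫_ℂ := by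
    intro v f
    constructor
    · intro hv y hy
      have := (hX.adj1 _ _).mp hy _ hv
      simp only at this
      rw [← inner_conj_symm, ← this, inner_conj_symm]
    · intro hv
      exact mem_of_adj_adj hX.cl1 hX.adj1 hv
  intro x hx
  -- common argument
  have key : ∀ (s : H1) (μ : ℂ), μ ≠ 0 → Box D0 D1 A0 A1 s (((1 - μ) / μ) • s) →
      ⟪s, x⟫_ℂ = 0 := by
    intro s μ hμ hB
    have h1 := hN _ _ hB
    by_cases h2 : 1 - μ = 0
    · rw [h2, zero_div, zero_smul, map_zero] at h1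
      rw [← h1, inner_zero_left]
    · refine hx (μ / (1 - μ)) s ?_
      rw [map_smul] at h1
      have h3 : (μ / (1 - μ)) • ((1 - μ) / μ) • N s = (μ / (1 - μ)) • s := by rw [h1]
      rw [smul_smul, div_mul_div_cancel₀ h2, div_self hμ, one_smul] at h3
      exact h3
  have k0 : ∀ g : H0, ⟪x, S0 g⟫_ℂ = 0 := by
    have h1 : ContinuousLinearMap.adjoint S0 x = 0 := by
      apply ht0
      intro μ e he
      rw [ContinuousLinearMap.adjoint_inner_right]
      by_cases hμ : μ = 0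
      · have h2 := hR0.norm_sq e
        rw [he, hμ, zero_smul, norm_zero] at h2
        have h3 : ‖S0 e‖ = 0 := by nlinarith [sq_nonneg ‖S0 e‖]
        rw [norm_eq_zero.mp h3, inner_zero_left]
      · apply key _ μ hμ
        have m1 := hR0.mem e
        have m2 : (S0 e, (1 - μ) • e) ∈ A0 := by
          rw [hX.adj0]
          intro y hy
          have := hR0.eq e y hy
          rw [he, inner_smul_right] at this
          rw [inner_smul_right]
          linear_combination this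
        refine ⟨(1 - μ) • e, 0, ((1 - μ) / μ) • S0 e, 0, m2, ?_, hX.comp _ m1, A1.zero_mem,
          by simp⟩
        have m3 := D0.smul_mem ((1 - μ) / μ) m1
        rw [he] at m3
        have e3 : ((1 - μ) / μ) • (μ • e, S0 e) = ((1 - μ) • e, ((1 - μ) / μ) • S0 e) := by
          rw [Prod.smul_mk, smul_smul, div_mul_cancel₀ _ hμ]
        rwa [e3] at m3
    intro g
    rw [← ContinuousLinearMap.adjoint_inner_left, h1, inner_zero_left]
  have k2 : ∀ g : H2, ⟪x, S2 g⟫_ℂ = 0 := by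
    have h1 : ContinuousLinearMap.adjoint S2 x = 0 := by
      apply ht2
      intro μ e he
      rw [ContinuousLinearMap.adjoint_inner_right]
      by_cases hμ : μ = 0
      · have h2 := hR2.norm_sq e
        rw [he, hμ, zero_smul, norm_zero] at h2
        have h3 : ‖S2 e‖ = 0 := by nlinarith [sq_nonneg ‖S2 e‖]
        rw [norm_eq_zero.mp h3, inner_zero_left]
      · apply key _ μ hμ
        have m1 := hR2.mem e
        have m2 : (S2 e, (1 - μ) • e) ∈ D1 := by
          rw [hflip]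
          intro y hy
          have := hR2.eq e y hy
          rw [he, inner_smul_right] at this
          rw [inner_smul_right]
          linear_combination this
        refine ⟨0, (1 - μ) • e, 0, ((1 - μ) / μ) • S2 e, ?_, D0.zero_mem, m2, ?_, by simp⟩
        · rw [hX.adj0]
          intro y hy
          have := (hX.adj1 _ _).mp m1 _ (hX.comp y hy)
          rw [inner_zero_right, ← this, inner_zero_left]
        · have m3 := A1.smul_mem ((1 - μ) / μ) m1
          rw [he] at m3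
          have e3 : ((1 - μ) / μ) • (μ • e, S2 e) = ((1 - μ) • e, ((1 - μ) / μ) • S2 e) := by
            rw [Prod.smul_mk, smul_smul, div_mul_cancel₀ _ hμ]
          rwa [e3] at m3
    intro g
    rw [← ContinuousLinearMap.adjoint_inner_left, h1, inner_zero_left]
  have c0 := hR0.core hX.cl0 hg0 k0
  have c2 := hR2.core (isClosed_adj hX.adj1) hg1 k2
  apply hX.harmonic
  · rw [hflip]
    intro y hy
    rw [inner_zero_right, ← inner_conj_symm, c2 y hy, map_zero]
  · rw [hX.adj0]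
    intro y hy
    rw [inner_zero_right, ← inner_conj_symm, c0 y hy, map_zero]

theorem symm_inverse (hX : HC D0 D1 A0 A1 C) {N : H1 →L[ℂ] H1}
    (hN : ∀ v, Box D0 D1 A0 A1 (N v) v) : (N : H1 →ₗ[ℂ] H1).IsSymmetric := by
  intro v w
  exact (box_inner hX (hN v) (hN w)).symm

theorem pos_eigenvalue (hX : HC D0 D1 A0 A1 C) (hg0 : ∀ s, ((0 : H0), s) ∈ D0 → s = 0)
    (hg1 : ∀ s, ((0 : H2), s) ∈ A1 → s = 0) {N : H1 →L[ℂ] H1}
    (hN : ∀ v, Box D0 D1 A0 A1 (N v) v) {μ : ℂ} {e : H1} (he : N e = μ • e) (h0 : e ≠ 0) :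
    ∃ r : ℝ, 0 < r ∧ μ = r := by
  obtain ⟨f, g, m1, m2, h⟩ := hX.box_energy (hN e)
  rw [he, inner_smul_right, inner_self_eq_norm_sq_to_K] at h
  have hpos : 0 < ‖e‖ := norm_pos_iff.mpr h0
  refine ⟨(‖f‖ ^ 2 + ‖g‖ ^ 2) / ‖e‖ ^ 2, ?_, ?_⟩
  · rcases lt_or_eq_of_le (show 0 ≤ (‖f‖ ^ 2 + ‖g‖ ^ 2) / ‖e‖ ^ 2 by positivity) with h1 | h1
    · exact h1
    · exfalso
      have h2 : ‖f‖ ^ 2 + ‖g‖ ^ 2 = 0 := by
        rcases div_eq_zero_iff.mp h1.symm with h | h
        · exact h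
        · exfalso; nlinarith
      rw [h2] at h
      have h3 : μ = 0 := by
        rcases mul_eq_zero.mp h.symm with h | h
        · exact h
        · exfalso
          apply h0
          have : (‖e‖ : ℂ) = 0 := by simpa using h
          have : ‖e‖ = 0 := by exact_mod_cast this
          exact norm_eq_zero.mp this
      rw [h3, zero_smul] at he
      have h4 := hN e
      rw [he] at h4
      -- `Box 0 e` forces `e = 0`
      obtain ⟨f', g', a', b', n1, n2, n3, n4, n5⟩ := h4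
      apply h0
      have hf : f' = 0 := by
        have h6 : ∀ y ∈ D0, ⟪y.1, f'⟫_ℂ = 0 := by
          intro y hy
          rw [← (hX.adj0 _ _).mp n1 y hy, inner_zero_right]
        have h7 := h6 _ n2
        exact inner_self_eq_zero.mp h7
      have hg : g' = 0 := by
        have h6 := (hX.adj1 _ _).mp n4 _ n3
        simp only [inner_zero_left] at h6
        exact inner_self_eq_zero.mp h6
      subst hf hg
      rw [n5, hg0 _ n2, hg1 _ n4, add_zero]
  · have hne : ((‖e‖ : ℂ)) ≠ 0 := by exact_mod_cast hpos.ne'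
    push_cast
    push_cast at h
    rw [h]
    field_simp
    simp

/-- The eigenvalues of `N` are the inverses of the nonzero eigenvalues of the two outer
Laplacians. -/
theorem eigenvalue_iff (hX : HC D0 D1 A0 A1 C) (hg0 : ∀ s, ((0 : H0), s) ∈ D0 → s = 0)
    (hg1 : ∀ s, ((0 : H2), s) ∈ A1 → s = 0) {N : H1 →L[ℂ] H1}
    (hN : ∀ v, Box D0 D1 A0 A1 (N v) v) (hN' : ∀ u v, Box D0 D1 A0 A1 u v → N v = u) {μ : ℂ} :
    (∃ e, e ≠ 0 ∧ N e = μ • e) ↔ μ ≠ 0 ∧
      ((∃ (f : H0) (a : H1), f ≠ 0 ∧ (f, a) ∈ D0 ∧ (a, μ⁻¹ • f) ∈ A0) ∨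
        ∃ (h : H2) (b : H1), h ≠ 0 ∧ (h, b) ∈ A1 ∧ (b, μ⁻¹ • h) ∈ D1) := by
  have hflip : ∀ v f, (v, f) ∈ D1 ↔ ∀ y ∈ A1, ⟪y.2, v⟫_ℂ = ⟪y.1, f⟫_ℂ := by
    intro v f
    constructor
    · intro hv y hy
      have := (hX.adj1 _ _).mp hy _ hv
      simp only at this
      rw [← inner_conj_symm, ← this, inner_conj_symm]
    · intro hv
      exact mem_of_adj_adj hX.cl1 hX.adj1 hv
  constructor
  · rintro ⟨e, he0, he⟩
    obtain ⟨r, hr, rfl⟩ := hX.pos_eigenvalue hg0 hg1 hN he he0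
    have hr0 : (r : ℂ) ≠ 0 := by exact_mod_cast hr.ne'
    refine ⟨hr0, ?_⟩
    obtain ⟨f, h, a, b, m1, m2, m3, m4, m5⟩ := hN e
    rw [he] at m1 m3
    have n1 : (e, (r : ℂ)⁻¹ • f) ∈ A0 := by
      have := A0.smul_mem (r : ℂ)⁻¹ m1
      rwa [Prod.smul_mk, smul_smul, inv_mul_cancel₀ hr0, one_smul] at this
    have n3 : (e, (r : ℂ)⁻¹ • h) ∈ D1 := by
      have := D1.smul_mem (r : ℂ)⁻¹ m3
      rwa [Prod.smul_mk, smul_smul, inv_mul_cancel₀ hr0, one_smul] at this
    have n2 : (a, (0 : H2)) ∈ D1 := hX.comp _ m2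
    have n4 : (b, (0 : H0)) ∈ A0 := by
      rw [hX.adj0]
      intro y hy
      have := (hX.adj1 _ _).mp m4 _ (hX.comp y hy)
      rw [inner_zero_right, ← this, inner_zero_left]
    by_cases hf : f = 0
    · right
      have ha : a = 0 := by
        rw [hf] at m2; exact hg0 _ m2
      rw [ha, zero_add] at m5
      refine ⟨h, b, ?_, m4, ?_⟩
      · rintro rfl
        apply he0
        rw [m5]; exact hg1 _ m4
      · rw [← m5]; exact n3
    · left
      refine ⟨f, a, hf, m2, ?_⟩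
      have := A0.sub_mem n1 n4
      have e1 : (e, (r : ℂ)⁻¹ • f) - (b, (0 : H0)) = (a, (r : ℂ)⁻¹ • f) := by
        rw [Prod.mk_sub_mk, sub_zero, m5, add_sub_cancel_right]
      rwa [e1] at this
  · rintro ⟨hμ, h⟩
    have fin : ∀ s : H1, s ≠ 0 → Box D0 D1 A0 A1 s (μ⁻¹ • s) → ∃ e, e ≠ 0 ∧ N e = μ • e := by
      intro s hs hB
      refine ⟨s, hs, ?_⟩
      have h1 := hN' _ _ hB
      rw [map_smul] at h1
      have h2 : μ • μ⁻¹ • N s = μ • s := by rw [h1]
      rwa [smul_smul, mul_inv_cancel₀ hμ, one_smul] at h2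
    rcases h with ⟨f, a, hf, m1, m2⟩ | ⟨h, b, hh, m1, m2⟩
    · apply fin a
      · rintro rfl
        apply hf
        have h1 := (hX.adj0 _ _).mp m2 _ m1
        simp only [inner_zero_right, inner_smul_right] at h1
        rcases mul_eq_zero.mp h1.symm with h | h
        · exact absurd h (inv_ne_zero hμ)
        · exact inner_self_eq_zero.mp h
      · refine ⟨μ⁻¹ • f, 0, μ⁻¹ • a, 0, m2, ?_, hX.comp _ m1, A1.zero_mem, by simp⟩
        exact D0.smul_mem μ⁻¹ m1
    · apply fin b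
      · rintro rfl
        apply hh
        have h1 := (hflip _ _).mp m2 _ m1
        simp only [inner_zero_right, inner_smul_right] at h1
        rcases mul_eq_zero.mp h1.symm with h | h
        · exact absurd h (inv_ne_zero hμ)
        · exact inner_self_eq_zero.mp h
      · refine ⟨0, μ⁻¹ • h, 0, μ⁻¹ • b, ?_, D0.zero_mem, m2, A1.smul_mem μ⁻¹ m1, by simp⟩
        rw [hX.adj0]
        intro y hy
        have := (hX.adj1 _ _).mp m1 _ (hX.comp y hy)
        rw [inner_zero_right, ← this, inner_zero_left]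

end HC

end

/-- A bounded symmetric operator whose eigenvectors are total: the spectrum is the closure of the
set of eigenvalues. -/
theorem spectrum_eq_closure {H : Type} [NormedAddCommGroup H]
    [InnerProductSpace ℂ H] [CompleteSpace H] {N : H →L[ℂ] H}
    (hN : (N : H →ₗ[ℂ] H).IsSymmetric) (htot : EigTotal N) :
    spectrum ℂ N = closure {μ : ℂ | Module.End.HasEigenvalue (N : Module.End ℂ H) μ} := by
  apply Set.Subset.antisymm
  · intro z hz
    by_contra hcl
    apply hz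
    rw [Metric.mem_closure_iff] at hcl
    push Not at hcl
    obtain ⟨δ, hδ, hcl⟩ := hcl
    obtain ⟨ι, b, hb⟩ := exists_hilbertBasis_of_eigTotal hN htot
    choose μ hμ using hb
    have hμe : ∀ i, Module.End.HasEigenvalue (N : Module.End ℂ H) (μ i) := by
      intro i
      refine Module.End.hasEigenvalue_of_hasEigenvector (x := b i) ⟨?_, ?_⟩
      · exact Module.End.mem_eigenspace_iff.mpr (hμ i)
      · intro h0
        have := b.orthonormal.1 i
        rw [h0, norm_zero] at this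
        exact zero_ne_one this
    have hreal : ∀ i, conj (μ i) = μ i := by
      intro i
      exact hN.conj_eigenvalue_eq_self (hμe i)
    have hcoord : ∀ x i, ⟪b i, (algebraMap ℂ (H →L[ℂ] H) z - N) x⟫_ℂ = (z - μ i) * ⟪b i, x⟫_ℂ := by
      intro x i
      have h1 : (algebraMap ℂ (H →L[ℂ] H) z - N) x = z • x - N x := by
        rw [sub_apply, Algebra.algebraMap_eq_smul_one]
        rfl
      have h2 : ⟪b i, N x⟫_ℂ = μ i * ⟪b i, x⟫_ℂ := by
        have h3 := hN (b i) x
        change ⟪N (b i), x⟫_ℂ = ⟪b i, N x⟫_ℂ at h3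
        rw [← h3, hμ, inner_smul_left, hreal]
      rw [h1, inner_sub_right, inner_smul_right, h2]
      ring
    have hpars : ∀ x : H, HasSum (fun i => ‖⟪b i, x⟫_ℂ‖ ^ 2) (‖x‖ ^ 2) := by
      intro x
      have h := b.hasSum_inner_mul_inner x x
      rw [inner_self_eq_norm_sq_to_K] at h
      have h2 := Complex.reCLM.hasSum h
      convert h2 using 1
      · funext j
        simp only [Complex.reCLM_apply]
        rw [← inner_conj_symm x (b j), Complex.conj_mul']
        norm_cast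
      · simp only [Complex.reCLM_apply]
        norm_cast
    have hbelow : ∀ x, δ * ‖x‖ ≤ ‖(algebraMap ℂ (H →L[ℂ] H) z - N) x‖ := by
      intro x
      have h1 := (hpars x).mul_left (δ ^ 2)
      have h2 := hpars ((algebraMap ℂ (H →L[ℂ] H) z - N) x)
      have h3 : δ ^ 2 * ‖x‖ ^ 2 ≤ ‖(algebraMap ℂ (H →L[ℂ] H) z - N) x‖ ^ 2 := by
        refine hasSum_le (fun i => ?_) h1 h2
        rw [hcoord, norm_mul, mul_pow]
        have h4 : δ ≤ ‖z - μ i‖ := by
          have := hcl (μ i) (hμe i)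
          rwa [dist_eq_norm] at this
        gcongr
      have h5 : (δ * ‖x‖) ^ 2 ≤ ‖(algebraMap ℂ (H →L[ℂ] H) z - N) x‖ ^ 2 := by
        rw [mul_pow]; exact h3
      exact le_of_sq_le_sq h5 (norm_nonneg _)
    have hanti : AntilipschitzWith (Real.toNNReal δ⁻¹) (algebraMap ℂ (H →L[ℂ] H) z - N) := by
      refine ContinuousLinearMap.antilipschitz_of_bound _ fun x => ?_
      rw [Real.coe_toNNReal _ (by positivity)]
      have := hbelow x
      rw [inv_mul_eq_div, le_div_iff₀ hδ]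
      linarith
    change IsUnit (algebraMap ℂ (H →L[ℂ] H) z - N)
    rw [ContinuousLinearMap.isUnit_iff_bijective]
    refine ⟨hanti.injective, ?_⟩
    have hclosed : IsClosed ((algebraMap ℂ (H →L[ℂ] H) z - N).range : Set H) :=
      hanti.isClosed_range (algebraMap ℂ (H →L[ℂ] H) z - N).uniformContinuous
    have : CompleteSpace (algebraMap ℂ (H →L[ℂ] H) z - N).range := hclosed.completeSpace_coe
    have hsurj : (algebraMap ℂ (H →L[ℂ] H) z - N).range = ⊤ → Function.Surjective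
        (algebraMap ℂ (H →L[ℂ] H) z - N) := fun h => LinearMap.range_eq_top.mp h
    apply hsurj
    rw [← Submodule.orthogonal_eq_bot_iff, eq_bot_iff]
    intro y hy
    rw [Submodule.mem_bot]
    rw [Submodule.mem_orthogonal] at hy
    have h6 : ∀ i, ⟪b i, y⟫_ℂ = 0 := by
      intro i
      have h7 := hy _ ⟨b i, rfl⟩
      have h8 : (algebraMap ℂ (H →L[ℂ] H) z - N) (b i) = (z - μ i) • b i := by
        rw [sub_apply, Algebra.algebraMap_eq_smul_one, hμ, sub_smul]
        rfl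
      change ⟪(algebraMap ℂ (H →L[ℂ] H) z - N) (b i), y⟫_ℂ = 0 at h7
      rw [h8, inner_smul_left] at h7
      rcases mul_eq_zero.mp h7 with h | h
      · exfalso
        have h9 : z - μ i = 0 := by
          have := congrArg conj h
          simpa using this
        have h10 := hcl (μ i) (hμe i)
        rw [dist_eq_norm, h9, norm_zero] at h10
        linarith
      · exact h
    apply b.repr.injective
    ext i
    rw [b.repr_apply_apply, h6 i]
    simp
  · refine closure_minimal ?_ (spectrum.isClosed N)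
    intro μ hμ
    obtain ⟨x, hx, hx0⟩ := hμ.exists_hasEigenvector
    intro hu
    change IsUnit (algebraMap ℂ (H →L[ℂ] H) μ - N) at hu
    rw [ContinuousLinearMap.isUnit_iff_bijective] at hu
    apply hx0
    apply hu.1
    have h1 : N x = μ • x := Module.End.mem_eigenspace_iff.mp hx
    rw [map_zero, sub_apply, Algebra.algebraMap_eq_smul_one, h1]
    exact sub_self _

end Pool.Agent.Lib.MP_169ce5_an
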