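import Pool.Agent.Lib.MP_169ce5_an.Eig

/-!
The graphs of the operators `∂̄` on functions and on `(0,1)`-forms on the Hartogs triangle.
-/

open MeasureTheory Complex Filter Topology Set
open scoped ContDiff ComplexConjugate ENNReal InnerProductSpace

noncomputable section

namespace Pool.Agent.Lib.MP_169ce5_an

theorem weakDbar0_iff {f : L2} {u : Form1} : WeakDbar0 f u ↔
    ∀ (φ : ℂ × ℂ → ℂ) (hφ : IsTest φ),
      pairL hφ.memLp_dzbar1 f = - pairL hφ.memLp u.fst ∧
      pairL hφ.memLp_dzbar2 f = - pairL hφ.memLp u.snd := by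
  simp only [pairL_apply]
  exact Iff.rfl

theorem weakDbar1_iff {u : Form1} {h : L2} : WeakDbar1 u h ↔
    ∀ (φ : ℂ × ℂ → ℂ) (hφ : IsTest φ),
      pairL hφ.memLp_dzbar1 u.snd - pairL hφ.memLp_dzbar2 u.fst = - pairL hφ.memLp h := by
  simp only [pairL_apply]
  constructor
  · intro H φ hφ
    rw [← H φ hφ, integral_sub (integrable_mul hφ.memLp_dzbar1) (integrable_mul hφ.memLp_dzbar2)]
  · intro H φ hφ
    rw [← H φ hφ, integral_sub (integrable_mul hφ.memLp_dzbar1) (integrable_mul hφ.memLp_dzbar2)]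

/-- The graph of the maximal (weak) `∂̄` on functions: all pairs `(f, ∂̄f)` with `f ∈ L²(T)` and
`∂̄ f ∈ L²_{0,1}(T)` in the sense of distributions. -/
def graph0 : Submodule ℂ (L2 × Form1) where
  carrier := {p | WeakDbar0 p.1 p.2}
  add_mem' := by
    intro p q hp hq
    simp only [mem_ofPred_eq, weakDbar0_iff] at hp hq ⊢
    intro φ hφ
    obtain ⟨a, b⟩ := hp φ hφ
    obtain ⟨a', b'⟩ := hq φ hφ
    simp only [Prod.fst_add, Prod.snd_add, WithLp.add_fst, WithLp.add_snd, map_add, a, b, a', b']
    constructor <;> ring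
  zero_mem' := by
    simp only [mem_ofPred_eq, weakDbar0_iff]
    intro φ hφ
    simp
  smul_mem' := by
    intro c p hp
    simp only [mem_ofPred_eq, weakDbar0_iff] at hp ⊢
    intro φ hφ
    obtain ⟨a, b⟩ := hp φ hφ
    simp only [Prod.smul_fst, Prod.smul_snd, WithLp.smul_fst, WithLp.smul_snd, map_smul, a, b,
      smul_eq_mul]
    constructor <;> ring

/-- The graph of the maximal (weak) `∂̄` on `(0,1)`-forms. -/
def graph1 : Submodule ℂ (Form1 × L2) where
  carrier := {p | WeakDbar1 p.1 p.2}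
  add_mem' := by
    intro p q hp hq
    simp only [mem_ofPred_eq, weakDbar1_iff] at hp hq ⊢
    intro φ hφ
    have a := hp φ hφ
    have b := hq φ hφ
    simp only [Prod.fst_add, Prod.snd_add, WithLp.add_fst, WithLp.add_snd, map_add]
    linear_combination a + b
  zero_mem' := by
    simp only [mem_ofPred_eq, weakDbar1_iff]
    intro φ hφ
    simp
  smul_mem' := by
    intro c p hp
    simp only [mem_ofPred_eq, weakDbar1_iff] at hp ⊢
    intro φ hφ
    have a := hp φ hφ
    simp only [Prod.smul_fst, Prod.smul_snd, WithLp.smul_fst, WithLp.smul_snd, map_smul,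
      smul_eq_mul]
    linear_combination c * a

end Pool.Agent.Lib.MP_169ce5_an
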