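import Pool.Agent.Lib.MP_169ce5_an.Operators
import Pool.Agent.Lib.MP_169ce5_an.Basis

/-!
Basic properties of the operators: closedness, density, test functions are in the domains.
-/

open MeasureTheory Complex Filter Topology Set
open scoped ContDiff ComplexConjugate ENNReal InnerProductSpace

noncomputable section

namespace Pool.Agent.Lib.MP_169ce5_an

theorem isTest_ofReal {g : ℂ × ℂ → ℝ} (hg : ContDiff ℝ ∞ g) (hc : HasCompactSupport g)
    (hs : tsupport g ⊆ T) : IsTest (fun z => (g z : ℂ)) := by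
  have h1 : Function.support (fun z => (g z : ℂ)) = Function.support g := by
    ext z; simp
  have h2 : tsupport (fun z => (g z : ℂ)) = tsupport g := by
    unfold tsupport; rw [h1]
  refine ⟨Complex.ofRealCLM.contDiff.comp hg, ?_, ?_⟩
  · unfold HasCompactSupport; rw [h2]; exact hc
  · rw [h2]; exact hs

theorem eq_zero_of_test {x : L2} (hx : ∀ φ, IsTest φ → ∫ z in T, x z * φ z = 0) : x = 0 := by
  have hxi : Integrable (fun z => x z) muT := (Lp.memLp x).integrable (by norm_num)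
  have h4 : ∀ᵐ z ∂(volume : Measure (ℂ × ℂ)), z ∈ T → x z = 0 := by
    refine isOpen_T.ae_eq_zero_of_integral_contDiff_smul_eq_zero ?_ ?_
    · exact (IntegrableOn.locallyIntegrableOn hxi)
    · intro g hg hgc hgs
      have h5 := hx _ (isTest_ofReal hg hgc hgs)
      rw [← setIntegral_eq_integral_of_forall_compl_eq_zero (s := T)]
      · rw [← h5]
        refine integral_congr_ae (ae_of_all _ fun z => ?_)
        simp only [Complex.real_smul]
        ring
      · intro z hz
        have : g z = 0 := image_eq_zero_of_notMem_tsupport fun h => hz (hgs h)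
        rw [this, zero_smul]
  apply Lp.ext
  have h5 : ∀ᵐ z ∂muT, x z = 0 := by
    rw [ae_restrict_iff' measurableSet_T]
    exact h4
  filter_upwards [h5, Lp.coeFn_zero ℂ 2 muT] with z hz hz2
  rw [hz, hz2]
  rfl

theorem graph0_unique {u : Form1} (h : ((0 : L2), u) ∈ graph0) : u = 0 := by
  have h' : WeakDbar0 0 u := h
  rw [weakDbar0_iff] at h'
  have h1 : u.fst = 0 := by
    apply eq_zero_of_test
    intro φ hφ
    have := (h' φ hφ).1
    rw [map_zero, zero_eq_neg, pairL_apply] at this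
    exact this
  have h2 : u.snd = 0 := by
    apply eq_zero_of_test
    intro φ hφ
    have := (h' φ hφ).2
    rw [map_zero, zero_eq_neg, pairL_apply] at this
    exact this
  exact WithLp.ofLp_injective 2 (Prod.ext h1 h2)

theorem graph1_unique {h : L2} (hh : ((0 : Form1), h) ∈ graph1) : h = 0 := by
  have h' : WeakDbar1 0 h := hh
  rw [weakDbar1_iff] at h'
  apply eq_zero_of_test
  intro φ hφ
  have := h' φ hφ
  simp only [WithLp.zero_fst, WithLp.zero_snd, map_zero, sub_zero, zero_eq_neg] at this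
  rw [pairL_apply] at this
  exact this

theorem continuous_form_fst : Continuous fun u : Form1 => u.fst :=
  (WithLp.fstL 2 ℂ L2 L2).continuous

theorem continuous_form_snd : Continuous fun u : Form1 => u.snd :=
  (WithLp.sndL 2 ℂ L2 L2).continuous

theorem isClosed_graph0 : IsClosed (graph0 : Set (L2 × Form1)) := by
  have : (graph0 : Set (L2 × Form1)) = ⋂ φ : {φ : ℂ × ℂ → ℂ // IsTest φ},
      ({p | pairL φ.2.memLp_dzbar1 p.1 = - pairL φ.2.memLp p.2.fst} ∩
        {p | pairL φ.2.memLp_dzbar2 p.1 = - pairL φ.2.memLp p.2.snd}) := by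
    ext p
    simp only [mem_iInter, mem_inter_iff, mem_ofPred_eq, Subtype.forall]
    exact weakDbar0_iff
  rw [this]
  refine isClosed_iInter fun φ => IsClosed.inter (isClosed_eq ?_ ?_) (isClosed_eq ?_ ?_)
  · exact (pairL _).continuous.comp continuous_fst
  · exact ((pairL _).continuous.comp (continuous_form_fst.comp continuous_snd)).neg
  · exact (pairL _).continuous.comp continuous_fst
  · exact ((pairL _).continuous.comp (continuous_form_snd.comp continuous_snd)).neg

theorem isClosed_graph1 : IsClosed (graph1 : Set (Form1 × L2)) := by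
  have : (graph1 : Set (Form1 × L2)) = ⋂ φ : {φ : ℂ × ℂ → ℂ // IsTest φ},
      {p | pairL φ.2.memLp_dzbar1 p.1.snd - pairL φ.2.memLp_dzbar2 p.1.fst =
        - pairL φ.2.memLp p.2} := by
    ext p
    simp only [mem_iInter, mem_ofPred_eq, Subtype.forall]
    exact weakDbar1_iff
  rw [this]
  refine isClosed_iInter fun φ => isClosed_eq ?_ ?_
  · exact ((pairL _).continuous.comp (continuous_form_snd.comp continuous_fst)).sub
      ((pairL _).continuous.comp (continuous_form_fst.comp continuous_fst))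
  · exact ((pairL _).continuous.comp continuous_snd).neg

/-! ### Test functions are in the domains -/

theorem IsTest.mul {φ ψ : ℂ × ℂ → ℂ} (hφ : IsTest φ) (hψ : IsTest ψ) :
    IsTest (fun z => φ z * ψ z) := hψ.mul_left hφ.1.contDiffOn

theorem IsTest.ibp1 {φ : ℂ × ℂ → ℂ} (hφ : ContDiffOn ℝ ∞ φ T) (hm : MemLp φ 2 muT)
    (hm' : MemLp (dzbar1 φ) 2 muT) {ψ : ℂ × ℂ → ℂ} (hψ : IsTest ψ) :
    ∫ z in T, φ z * dzbar1 ψ z = - ∫ z in T, dzbar1 φ z * ψ z := by
  have h0 := (hψ.mul_left hφ).integral_dzbar1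
  have e : ∫ z in T, dzbar1 (fun z => φ z * ψ z) z =
      ∫ z in T, (φ z * dzbar1 ψ z + dzbar1 φ z * ψ z) := by
    refine setIntegral_congr_fun measurableSet_T fun z hz => ?_
    rw [dzbar1_mul ((hφ.contDiffAt (isOpen_T.mem_nhds hz)).differentiableAt (by simp))
      (hψ.differentiableAt z)]
    ring
  have i1 : Integrable (fun z => φ z * dzbar1 ψ z) muT := hm.integrable_mul hψ.memLp_dzbar1
  have i2 : Integrable (fun z => dzbar1 φ z * ψ z) muT := hm'.integrable_mul hψ.memLp
  rw [e, integral_add i1 i2] at h0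
  exact eq_neg_of_add_eq_zero_left h0

theorem IsTest.ibp2 {φ : ℂ × ℂ → ℂ} (hφ : ContDiffOn ℝ ∞ φ T) (hm : MemLp φ 2 muT)
    (hm' : MemLp (dzbar2 φ) 2 muT) {ψ : ℂ × ℂ → ℂ} (hψ : IsTest ψ) :
    ∫ z in T, φ z * dzbar2 ψ z = - ∫ z in T, dzbar2 φ z * ψ z := by
  have h0 := (hψ.mul_left hφ).integral_dzbar2
  have e : ∫ z in T, dzbar2 (fun z => φ z * ψ z) z =
      ∫ z in T, (φ z * dzbar2 ψ z + dzbar2 φ z * ψ z) := by
    refine setIntegral_congr_fun measurableSet_T fun z hz => ?_
    rw [dzbar2_mul ((hφ.contDiffAt (isOpen_T.mem_nhds hz)).differentiableAt (by simp))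
      (hψ.differentiableAt z)]
    ring
  have i1 : Integrable (fun z => φ z * dzbar2 ψ z) muT := hm.integrable_mul hψ.memLp_dzbar2
  have i2 : Integrable (fun z => dzbar2 φ z * ψ z) muT := hm'.integrable_mul hψ.memLp
  rw [e, integral_add i1 i2] at h0
  exact eq_neg_of_add_eq_zero_left h0

theorem integral_toLp_mul {g : ℂ × ℂ → ℂ} (hg : MemLp g 2 muT) (F : ℂ × ℂ → ℂ) :
    ∫ z in T, (hg.toLp g : ℂ × ℂ → ℂ) z * F z = ∫ z in T, g z * F z := by
  refine integral_congr_ae ?_
  filter_upwards [hg.coeFn_toLp] with z hz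
  rw [hz]

/-- classical derivatives in `L²` are weak derivatives -/
theorem mem_graph0_of_classical {φ : ℂ × ℂ → ℂ} (hφ : ContDiffOn ℝ ∞ φ T) (hm : MemLp φ 2 muT)
    (hm1 : MemLp (dzbar1 φ) 2 muT) (hm2 : MemLp (dzbar2 φ) 2 muT) :
    (hm.toLp φ, (WithLp.toLp 2 (hm1.toLp _, hm2.toLp _) : Form1)) ∈ graph0 := by
  intro ψ hψ
  constructor
  · change ∫ z in T, (hm.toLp φ : ℂ × ℂ → ℂ) z * dzbar1 ψ z =
      - ∫ z in T, (hm1.toLp _ : ℂ × ℂ → ℂ) z * ψ z
    rw [integral_toLp_mul, integral_toLp_mul]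
    exact IsTest.ibp1 hφ hm hm1 hψ
  · change ∫ z in T, (hm.toLp φ : ℂ × ℂ → ℂ) z * dzbar2 ψ z =
      - ∫ z in T, (hm2.toLp _ : ℂ × ℂ → ℂ) z * ψ z
    rw [integral_toLp_mul, integral_toLp_mul]
    exact IsTest.ibp2 hφ hm hm2 hψ

/-- classical derivatives in `L²` are weak derivatives: `(0, φ)` -/
theorem mem_graph1_of_classical_snd {φ : ℂ × ℂ → ℂ} (hφ : ContDiffOn ℝ ∞ φ T)
    (hm : MemLp φ 2 muT) (hm1 : MemLp (dzbar1 φ) 2 muT) :
    ((WithLp.toLp 2 ((0 : L2), hm.toLp φ) : Form1), hm1.toLp _) ∈ graph1 := by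
  change WeakDbar1 _ _
  rw [weakDbar1_iff]
  intro ψ hψ
  change pairL hψ.memLp_dzbar1 (hm.toLp φ) - pairL hψ.memLp_dzbar2 (0 : L2) = _
  rw [map_zero, sub_zero, pairL_apply, pairL_apply, integral_toLp_mul, integral_toLp_mul]
  exact IsTest.ibp1 hφ hm hm1 hψ

/-- classical derivatives in `L²` are weak derivatives: `(φ, 0)` -/
theorem mem_graph1_of_classical_fst {φ : ℂ × ℂ → ℂ} (hφ : ContDiffOn ℝ ∞ φ T)
    (hm : MemLp φ 2 muT) (hm2 : MemLp (dzbar2 φ) 2 muT) :
    ((WithLp.toLp 2 (hm.toLp φ, (0 : L2)) : Form1), - hm2.toLp _) ∈ graph1 := by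
  change WeakDbar1 _ _
  rw [weakDbar1_iff]
  intro ψ hψ
  change pairL hψ.memLp_dzbar1 (0 : L2) - pairL hψ.memLp_dzbar2 (hm.toLp φ) = _
  rw [map_zero, zero_sub, map_neg, pairL_apply, pairL_apply, integral_toLp_mul,
    integral_toLp_mul, neg_neg, IsTest.ibp2 hφ hm hm2 hψ, neg_neg]

theorem eq_zero_of_inner_test {x : L2}
    (hx : ∀ (φ : ℂ × ℂ → ℂ) (hφ : IsTest φ), ⟪hφ.memLp.toLp φ, x⟫_ℂ = 0) : x = 0 := by
  apply eq_zero_of_test
  intro φ hφ
  have hc : IsTest (fun z => conj (φ z)) := by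
    obtain ⟨h1, h2, h3⟩ := hφ
    have hs : Function.support (fun z => conj (φ z)) = Function.support φ := by
      ext z; simp
    refine ⟨(Complex.conjCLE : ℂ →L[ℝ] ℂ).contDiff.comp h1, ?_, ?_⟩
    · unfold HasCompactSupport tsupport; rw [hs]; exact h2
    · unfold tsupport; rw [hs]; exact h3
  have := hx _ hc
  rw [inner_L2] at this
  rw [← this]
  refine integral_congr_ae ?_
  filter_upwards [hc.memLp.coeFn_toLp] with z hz
  rw [hz, Complex.conj_conj]

/-- density of the domain of `∂̄` on `(0,1)`-forms -/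
theorem dense_graph1 {x : Form1} (hx : ∀ y ∈ graph1, ⟪y.1, x⟫_ℂ = 0) : x = 0 := by
  have h1 : x.fst = 0 := by
    apply eq_zero_of_inner_test
    intro φ hφ
    have := hx _ (mem_graph1_of_classical_fst hφ.1.contDiffOn hφ.memLp hφ.memLp_dzbar2)
    rw [WithLp.prod_inner_apply] at this
    simpa using this
  have h2 : x.snd = 0 := by
    apply eq_zero_of_inner_test
    intro φ hφ
    have := hx _ (mem_graph1_of_classical_snd hφ.1.contDiffOn hφ.memLp hφ.memLp_dzbar1)
    rw [WithLp.prod_inner_apply] at this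
    simpa using this
  exact WithLp.ofLp_injective 2 (Prod.ext h1 h2)

end Pool.Agent.Lib.MP_169ce5_an
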