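import Pool.Agent.Lib.MP_169ce5_an.Eig
import Pool.Agent.Lib.MP_169ce5_an.Abs

/-!
The action of the torus and the angular modes.
-/

open MeasureTheory Complex Filter Topology Set
open scoped ContDiff ComplexConjugate ENNReal InnerProductSpace

noncomputable section

namespace Pool.Agent.Lib.MP_169ce5_an

/-- the rotation `(z₁, z₂) ↦ (u z₁, v z₂)` -/
def rho (u v : Circle) : (ℂ × ℂ) ≃L[ℝ] (ℂ × ℂ) :=
  (rotation u).toContinuousLinearEquiv.prodCongr (rotation v).toContinuousLinearEquiv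

theorem rho_apply (u v : Circle) (z : ℂ × ℂ) : rho u v z = (u * z.1, v * z.2) := rfl

theorem rho_rho_inv (u v : Circle) (z : ℂ × ℂ) : rho u v (rho u⁻¹ v⁻¹ z) = z := by
  rw [rho_apply, rho_apply]
  ext
  · simp only [← mul_assoc, ← Circle.coe_mul]
    simp
  · simp only [← mul_assoc, ← Circle.coe_mul]
    simp

theorem rho_inv_rho (u v : Circle) (z : ℂ × ℂ) : rho u⁻¹ v⁻¹ (rho u v z) = z := by
  have := rho_rho_inv u⁻¹ v⁻¹ z
  simpa using this

theorem measurePreserving_rho (u v : Circle) :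
    MeasurePreserving (rho u v) (volume : Measure (ℂ × ℂ)) volume := by
  have h1 : MeasurePreserving (rotation u) volume volume := (rotation u).measurePreserving
  have h2 : MeasurePreserving (rotation v) volume volume := (rotation v).measurePreserving
  exact h1.prod h2

theorem rho_mem_T {u v : Circle} {z : ℂ × ℂ} : rho u v z ∈ T ↔ z ∈ T := by
  unfold T
  simp only [mem_ofPred_eq, rho_apply, norm_mul, Circle.norm_coe, one_mul]

theorem rho_preimage_T (u v : Circle) : rho u v ⁻¹' T = T := by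
  ext z; exact rho_mem_T

theorem measurePreserving_rho_T (u v : Circle) : MeasurePreserving (rho u v) muT muT := by
  have h := (measurePreserving_rho u v).restrict_preimage measurableSet_T
  rw [rho_preimage_T] at h
  exact h

theorem int_rho (u v : Circle) (F : ℂ × ℂ → ℂ) :
    ∫ z in T, F (rho u v z) = ∫ z in T, F z :=
  (measurePreserving_rho_T u v).integral_comp
    (rho u v).toHomeomorph.measurableEmbedding F

/-- the unitary operator `f ↦ f ∘ rho u v` -/
def rot (u v : Circle) : L2 →ₗᵢ[ℂ] L2 :=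
  Lp.compMeasurePreservingₗᵢ ℂ (rho u v) (measurePreserving_rho_T u v)

theorem coeFn_rot (u v : Circle) (f : L2) :
    (rot u v f : ℂ × ℂ → ℂ) =ᵐ[muT] fun z => f (rho u v z) :=
  Lp.coeFn_compMeasurePreserving f (measurePreserving_rho_T u v)

theorem rot_rot_inv (u v : Circle) (f : L2) : rot u v (rot u⁻¹ v⁻¹ f) = f := by
  apply Lp.ext
  have h1 := coeFn_rot u v (rot u⁻¹ v⁻¹ f)
  have h2 := coeFn_rot u⁻¹ v⁻¹ f
  have h3 := (measurePreserving_rho_T u v).quasiMeasurePreserving.ae_eq_comp h2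
  filter_upwards [h1, h3] with z hz1 hz3
  rw [hz1]
  simp only [Function.comp_apply] at hz3
  rw [hz3, rho_inv_rho]

theorem rot_inv_rot (u v : Circle) (f : L2) : rot u⁻¹ v⁻¹ (rot u v f) = f := by
  have := rot_rot_inv u⁻¹ v⁻¹ f
  simpa using this

theorem inner_rot_left (u v : Circle) (f g : L2) :
    ⟪rot u v f, g⟫_ℂ = ⟪f, rot u⁻¹ v⁻¹ g⟫_ℂ := by
  rw [← (rot u v).inner_map_map f (rot u⁻¹ v⁻¹ g), rot_rot_inv]

/-- characters of the torus -/
def chr (m : ℤ × ℤ) (u v : Circle) : ℂ := (u : ℂ) ^ m.1 * (v : ℂ) ^ m.2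

theorem norm_chr (m : ℤ × ℤ) (u v : Circle) : ‖chr m u v‖ = 1 := by
  unfold chr
  rw [norm_mul, norm_zpow, norm_zpow, Circle.norm_coe, Circle.norm_coe, one_zpow, one_zpow,
    mul_one]

/-- the angular mode `m` -/
def mode (m : ℤ × ℤ) : Submodule ℂ L2 where
  carrier := {f | ∀ u v : Circle, rot u v f = chr m u v • f}
  add_mem' := by
    intro f g hf hg u v
    rw [map_add, hf u v, hg u v, smul_add]
  zero_mem' := by intro u v; simp
  smul_mem' := by
    intro c f hf u v
    rw [map_smul, hf u v, smul_comm]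

theorem isClosed_mode (m : ℤ × ℤ) : IsClosed (mode m : Set L2) := by
  have : (mode m : Set L2) = ⋂ u : Circle, ⋂ v : Circle, {f | rot u v f = chr m u v • f} := by
    ext f
    simp only [mem_iInter, mem_ofPred_eq]
    exact Iff.rfl
  rw [this]
  refine isClosed_iInter fun u => isClosed_iInter fun v => ?_
  exact isClosed_eq (rot u v).continuous (continuous_const_smul _)

theorem exists_chr_ne {m n : ℤ × ℤ} (h : m ≠ n) : ∃ u v : Circle, chr m u v ≠ chr n u v := by
  -- pick a primitive direction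
  have key : ∀ k : ℤ, k ≠ 0 → ∃ u : Circle, (u : ℂ) ^ k ≠ 1 := by
    intro k hk
    refine ⟨Circle.exp (Real.pi / k), ?_⟩
    have hk' : (k : ℂ) ≠ 0 := by exact_mod_cast hk
    rw [Circle.coe_exp, ← Complex.exp_int_mul]
    have e : (k : ℂ) * (((Real.pi / k : ℝ) : ℂ) * I) = Real.pi * I := by
      push_cast
      field_simp
    rw [e, Complex.exp_pi_mul_I]
    norm_num
  by_contra hcon
  push Not at hcon
  apply h
  have h1 : m.1 = n.1 := by
    by_contra h1
    obtain ⟨u, hu⟩ := key (m.1 - n.1) (sub_ne_zero.mpr h1)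
    have := hcon u 1
    unfold chr at this
    simp only [Circle.coe_one, one_zpow, mul_one] at this
    apply hu
    rw [zpow_sub₀ (Circle.coe_ne_zero u), this, div_self (zpow_ne_zero _
      (Circle.coe_ne_zero u))]
  have h2 : m.2 = n.2 := by
    by_contra h2
    obtain ⟨u, hu⟩ := key (m.2 - n.2) (sub_ne_zero.mpr h2)
    have := hcon 1 u
    unfold chr at this
    simp only [Circle.coe_one, one_zpow, one_mul] at this
    apply hu
    rw [zpow_sub₀ (Circle.coe_ne_zero u), this, div_self (zpow_ne_zero _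
      (Circle.coe_ne_zero u))]
  exact Prod.ext h1 h2

theorem inner_mode {m n : ℤ × ℤ} (h : m ≠ n) {f g : L2} (hf : f ∈ mode m) (hg : g ∈ mode n) :
    ⟪f, g⟫_ℂ = 0 := by
  obtain ⟨u, v, huv⟩ := exists_chr_ne h
  have h1 := (rot u v).inner_map_map f g
  rw [hf u v, hg u v, inner_smul_left, inner_smul_right] at h1
  by_contra hne
  apply huv
  have h2 : conj (chr m u v) * chr n u v = 1 := by
    have : (conj (chr m u v) * chr n u v) * ⟪f, g⟫_ℂ = 1 * ⟪f, g⟫_ℂ := by
      rw [one_mul, mul_assoc]; exact h1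
    exact mul_right_cancel₀ hne this
  have h3 : chr m u v * conj (chr m u v) = 1 := by
    rw [Complex.mul_conj, Complex.normSq_eq_norm_sq, norm_chr]
    simp
  calc chr m u v = chr m u v * (conj (chr m u v) * chr n u v) := by rw [h2, mul_one]
    _ = (chr m u v * conj (chr m u v)) * chr n u v := by ring
    _ = chr n u v := by rw [h3, one_mul]

/-- the mode of a monomial -/
def modeOf (i : Idx) : ℤ × ℤ :=
  ((i.1 : ℤ) - i.2.1, (i.2.2.1 : ℤ) - i.2.2.2 - 1 - ((i.1 : ℤ) - i.2.1))

theorem eMon_rho (a b c d : ℕ) (u v : Circle) (z : ℂ × ℂ) :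
    eMon a b c d (rho u v z) = chr (modeOf (a, b, c, d)) u v * eMon a b c d z := by
  unfold eMon Mon chr modeOf
  rw [rho_apply]
  simp only
  have hu := Circle.coe_ne_zero u
  have hv := Circle.coe_ne_zero v
  have cu : conj (u : ℂ) = (u : ℂ)⁻¹ := by rw [← Circle.coe_inv_eq_conj, Circle.coe_inv]
  have cv : conj (v : ℂ) = (v : ℂ)⁻¹ := by rw [← Circle.coe_inv_eq_conj, Circle.coe_inv]
  have e1 : (u : ℂ) * z.1 / (v * z.2) = (u * (v : ℂ)⁻¹) * (z.1 / z.2) := by
    rw [mul_div_mul_comm]; rfl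
  rw [e1]
  simp only [map_mul, map_inv₀, cu, cv, inv_inv, mul_pow, mul_inv]
  have e2 : (u : ℂ) ^ ((a : ℤ) - b) = u ^ a * ((u : ℂ)⁻¹) ^ b := by
    rw [zpow_sub₀ hu, zpow_natCast, zpow_natCast, inv_pow]; rfl
  have e3 : (v : ℂ) ^ ((c : ℤ) - d - 1 - ((a : ℤ) - b)) =
      (v : ℂ)⁻¹ ^ a * (v : ℂ) ^ b * v ^ c * (v : ℂ)⁻¹ ^ d * (v : ℂ)⁻¹ := by
    have : ((c : ℤ) - d - 1 - ((a : ℤ) - b)) = (c : ℤ) + b - (d + 1 + a : ℕ) := by
      push_cast; ring
    rw [this, zpow_sub₀ hv, zpow_add₀ hv, zpow_natCast, zpow_natCast, zpow_natCast, inv_pow,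
      inv_pow, pow_add, pow_add, pow_one]
    field_simp
  rw [e2, e3]
  ring

theorem ei_mem_mode (i : Idx) : ei i ∈ mode (modeOf i) := by
  intro u v
  obtain ⟨a, b, c, d⟩ := i
  apply Lp.ext
  have h2 := (measurePreserving_rho_T u v).quasiMeasurePreserving.ae_eq_comp (coeFn_eL a b c d)
  filter_upwards [coeFn_rot u v (ei (a, b, c, d)), h2, coeFn_eL a b c d,
    Lp.coeFn_smul (chr (modeOf (a, b, c, d)) u v) (ei (a, b, c, d))] with z h1 h2 h3 h4
  rw [h1, h4, Pi.smul_apply]
  simp only [Function.comp_apply] at h2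
  change (eL a b c d : ℂ × ℂ → ℂ) (rho u v z) = _ • (eL a b c d : ℂ × ℂ → ℂ) z
  rw [h2, h3, eMon_rho, smul_eq_mul]

theorem modeOf_low {i : Idx} {k l : ℕ} (h1 : k ≤ i.1) (h2 : k ≤ i.2.1) (h3 : l ≤ i.2.2.1)
    (h4 : l ≤ i.2.2.2) : modeOf (low i k l) = modeOf i := by
  unfold modeOf low
  simp only [Prod.mk.injEq]
  omega

theorem lowSpan_le_mode (i : Idx) : lowSpan i ≤ mode (modeOf i) := by
  unfold lowSpan
  rw [Submodule.span_le]
  rintro x ⟨k, l, h1, h2, h3, h4, h5, rfl⟩
  rw [← modeOf_low h1 h2 h3 h4]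
  exact ei_mem_mode _

theorem ehat_mem_mode (i : Idx) : ehat i ∈ mode (modeOf i) :=
  (mode (modeOf i)).sub_mem (ei_mem_mode i)
    (lowSpan_le_mode i (Submodule.starProjection_apply_mem _ _))

theorem mul_strictMono {a b a' b' : ℕ} (h : (a : ℤ) - b = (a' : ℤ) - b') (hb : b < b') :
    b * (a + 1) < b' * (a' + 1) := by
  have ha : a < a' := by omega
  calc b * (a + 1) ≤ b' * (a + 1) := Nat.mul_le_mul_right _ hb.le
    _ < b' * (a' + 1) := Nat.mul_lt_mul_of_pos_left (by omega) (by omega)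

theorem inner_ehat {i j : Idx} (h : i ≠ j) : ⟪ehat i, ehat j⟫_ℂ = 0 := by
  by_cases hm : modeOf i = modeOf j
  · refine (jEig_ehat i).inner_eq (jEig_ehat j) ?_
    by_contra hcon
    push Not at hcon
    obtain ⟨h1, h2⟩ := hcon
    apply h
    unfold lam1 at h1
    unfold lam2 at h2
    obtain ⟨a, b, c, d⟩ := i
    obtain ⟨a', b', c', d'⟩ := j
    unfold modeOf at hm
    simp only [Prod.mk.injEq] at hm h1 h2 ⊢
    have h1' : b * (a + 1) = b' * (a' + 1) := by exact_mod_cast h1
    have h2' : d * (c + 1) = d' * (c' + 1) := by exact_mod_cast h2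
    have hb : b = b' := by
      rcases lt_trichotomy b b' with hb | hb | hb
      · have := mul_strictMono (a := a) (a' := a') hm.1 hb
        omega
      · exact hb
      · have := mul_strictMono (a := a') (a' := a) hm.1.symm hb
        omega
    have hd : d = d' := by
      have hcd : (c : ℤ) - d = (c' : ℤ) - d' := by omega
      rcases lt_trichotomy d d' with hd | hd | hd
      · have := mul_strictMono (a := c) (a' := c') hcd hd
        omega
      · exact hd
      · have := mul_strictMono (a := c') (a' := c) hcd.symm hd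
        omega
    subst hb hd
    omega
  · exact inner_mode hm (ehat_mem_mode i) (ehat_mem_mode j)

end Pool.Agent.Lib.MP_169ce5_an
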