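import Pool.Agent.Lib.MP_169ce5_an.Conv
import Pool.Agent.Lib.MP_169ce5_an.Neumann

/-!
Rotation invariance of the operators, and completeness of the eigenvectors of the resolvent of
`∂̄` on functions.
-/

open MeasureTheory Complex Filter Topology Set
open scoped ContDiff ComplexConjugate ENNReal InnerProductSpace

noncomputable section

namespace Pool.Agent.Lib.MP_169ce5_an

theorem Res.commute {H G : Type*} [NormedAddCommGroup H] [InnerProductSpace ℂ H]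
    [NormedAddCommGroup G] [InnerProductSpace ℂ G] {Γ : Submodule ℂ (H × G)}
    {R : H →L[ℂ] H} {S : H →L[ℂ] G} (hR : Res Γ R S) {U U' : H → H} {V V' : G → G}
    (hU : ∀ x y, ⟪x, U y⟫_ℂ = ⟪U' x, y⟫_ℂ) (hV : ∀ x y, ⟪x, V y⟫_ℂ = ⟪V' x, y⟫_ℂ)
    (h1 : ∀ x s, (x, s) ∈ Γ → (U x, V s) ∈ Γ) (h2 : ∀ x s, (x, s) ∈ Γ → (U' x, V' s) ∈ Γ)
    (f : H) : R (U f) = U (R f) := by
  refine (hR.unique (h1 _ _ (hR.mem f)) ?_).1
  intro y hy
  rw [hU, hV, hU]
  exact hR.eq f _ (h2 _ _ hy)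

theorem smul_pair (L : (ℂ × ℂ) →L[ℝ] ℂ) (u : ℂ) :
    L (u, 0) = u.re * L (1, 0) + u.im * L (I, 0) := by
  have : ((u, 0) : ℂ × ℂ) = u.re • ((1, 0) : ℂ × ℂ) + u.im • ((I, 0) : ℂ × ℂ) := by
    ext
    · simp [Complex.re_add_im]
    · simp
  rw [this, map_add, map_smul, map_smul]
  simp

theorem smul_pair' (L : (ℂ × ℂ) →L[ℝ] ℂ) (u : ℂ) :
    L (0, u) = u.re * L (0, 1) + u.im * L (0, I) := by
  have : ((0, u) : ℂ × ℂ) = u.re • ((0, 1) : ℂ × ℂ) + u.im • ((0, I) : ℂ × ℂ) := by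
    ext
    · simp
    · simp [Complex.re_add_im]
  rw [this, map_add, map_smul, map_smul]
  simp

theorem dzbar1_comp_rho {φ : ℂ × ℂ → ℂ} (u v : Circle) (z : ℂ × ℂ)
    (hφ : DifferentiableAt ℝ φ (rho u v z)) :
    dzbar1 (fun w => φ (rho u v w)) z = conj (u : ℂ) * dzbar1 φ (rho u v z) := by
  have h1 : fderiv ℝ (fun w => φ (rho u v w)) z =
      (fderiv ℝ φ (rho u v z)).comp (rho u v : (ℂ × ℂ) →L[ℝ] (ℂ × ℂ)) := by
    have := fderiv_comp z hφ (rho u v).differentiableAt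
    rw [(rho u v).fderiv] at this
    exact this
  unfold dzbar1
  rw [h1]
  generalize fderiv ℝ φ (rho u v z) = L
  simp only [ContinuousLinearMap.comp_apply, ContinuousLinearEquiv.coe_coe, rho_apply, mul_zero,
    mul_one]
  rw [smul_pair _ (u : ℂ), smul_pair _ ((u : ℂ) * I)]
  have e1 : ((u : ℂ) * I).re = - (u : ℂ).im := by simp
  have e2 : ((u : ℂ) * I).im = (u : ℂ).re := by simp
  have e3 : conj (u : ℂ) = (u : ℂ).re - (u : ℂ).im * I := by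
    apply Complex.ext <;> simp
  rw [e1, e2, e3]
  push_cast
  have hI : I * I = -1 := Complex.I_mul_I
  linear_combination ((1 / 2) * ((u : ℂ).im : ℂ) * L (I, 0)) * hI

theorem dzbar2_comp_rho {φ : ℂ × ℂ → ℂ} (u v : Circle) (z : ℂ × ℂ)
    (hφ : DifferentiableAt ℝ φ (rho u v z)) :
    dzbar2 (fun w => φ (rho u v w)) z = conj (v : ℂ) * dzbar2 φ (rho u v z) := by
  have h1 : fderiv ℝ (fun w => φ (rho u v w)) z =
      (fderiv ℝ φ (rho u v z)).comp (rho u v : (ℂ × ℂ) →L[ℝ] (ℂ × ℂ)) := by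
    have := fderiv_comp z hφ (rho u v).differentiableAt
    rw [(rho u v).fderiv] at this
    exact this
  unfold dzbar2
  rw [h1]
  generalize fderiv ℝ φ (rho u v z) = L
  simp only [ContinuousLinearMap.comp_apply, ContinuousLinearEquiv.coe_coe, rho_apply, mul_zero,
    mul_one]
  rw [smul_pair' _ (v : ℂ), smul_pair' _ ((v : ℂ) * I)]
  have e1 : ((v : ℂ) * I).re = - (v : ℂ).im := by simp
  have e2 : ((v : ℂ) * I).im = (v : ℂ).re := by simp
  have e3 : conj (v : ℂ) = (v : ℂ).re - (v : ℂ).im * I := by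
    apply Complex.ext <;> simp
  rw [e1, e2, e3]
  push_cast
  have hI : I * I = -1 := Complex.I_mul_I
  linear_combination ((1 / 2) * ((v : ℂ).im : ℂ) * L (0, I)) * hI

theorem IsTest.comp_rho {φ : ℂ × ℂ → ℂ} (hφ : IsTest φ) (u v : Circle) :
    IsTest (fun z => φ (rho u v z)) := by
  obtain ⟨h1, h2, h3⟩ := hφ
  refine ⟨h1.comp (rho u v).contDiff, ?_, ?_⟩
  · exact h2.comp_homeomorph (rho u v).toHomeomorph
  · intro z hz
    have : rho u v z ∈ tsupport φ := by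
      have h4 := tsupport_comp_subset_preimage φ (f := rho u v) (rho u v).continuous
      exact h4 hz
    exact rho_mem_T.mp (h3 this)

theorem coe_inv_mul (u : Circle) : conj (u : ℂ) * u = 1 := by
  rw [← Circle.coe_inv_eq_conj, Circle.coe_inv]
  exact inv_mul_cancel₀ (Circle.coe_ne_zero u)

theorem conj_coe_inv (u : Circle) : conj ((u⁻¹ : Circle) : ℂ) = u := by
  rw [Circle.coe_inv_eq_conj, Complex.conj_conj]

/-- rotation of forms -/
def rotF (u v : Circle) (w : Form1) : Form1 :=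
  WithLp.toLp 2 (conj (u : ℂ) • rot u v w.fst, conj (v : ℂ) • rot u v w.snd)

/-- rotation of `(0,2)`-forms -/
def rotG (u v : Circle) (h : L2) : L2 := (conj (u : ℂ) * conj (v : ℂ)) • rot u v h

theorem inner_rot_right (u v : Circle) (f g : L2) :
    ⟪f, rot u v g⟫_ℂ = ⟪rot u⁻¹ v⁻¹ f, g⟫_ℂ := by
  rw [inner_rot_left, inv_inv, inv_inv]

theorem inner_rotF (u v : Circle) (x y : Form1) :
    ⟪x, rotF u v y⟫_ℂ = ⟪rotF u⁻¹ v⁻¹ x, y⟫_ℂ := by
  rw [WithLp.prod_inner_apply, WithLp.prod_inner_apply]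
  change ⟪x.fst, conj (u : ℂ) • rot u v y.fst⟫_ℂ + ⟪x.snd, conj (v : ℂ) • rot u v y.snd⟫_ℂ =
    ⟪conj ((u⁻¹ : Circle) : ℂ) • rot u⁻¹ v⁻¹ x.fst, y.fst⟫_ℂ +
    ⟪conj ((v⁻¹ : Circle) : ℂ) • rot u⁻¹ v⁻¹ x.snd, y.snd⟫_ℂ
  rw [inner_smul_right, inner_smul_right, inner_smul_left, inner_smul_left, inner_rot_right,
    inner_rot_right, conj_coe_inv, conj_coe_inv]

theorem inner_rotG (u v : Circle) (x y : L2) :
    ⟪x, rotG u v y⟫_ℂ = ⟪rotG u⁻¹ v⁻¹ x, y⟫_ℂ := by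
  unfold rotG
  rw [inner_smul_right, inner_smul_left, inner_rot_right, map_mul, conj_coe_inv, conj_coe_inv]

theorem integral_smul_rot (u v : Circle) (c : ℂ) (f : L2) (F : ℂ × ℂ → ℂ) :
    ∫ z in T, ((c • rot u v f : L2) : ℂ × ℂ → ℂ) z * F z =
      c * ∫ z in T, f z * F (rho u⁻¹ v⁻¹ z) := by
  rw [← integral_const_mul, ← int_rho u v (fun z => c * (f z * F (rho u⁻¹ v⁻¹ z)))]
  refine integral_congr_ae ?_
  filter_upwards [Lp.coeFn_smul c (rot u v f), coeFn_rot u v f] with z h1 h2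
  rw [h1, Pi.smul_apply, h2, rho_inv_rho, smul_eq_mul]
  ring

theorem integral_rot (u v : Circle) (f : L2) (F : ℂ × ℂ → ℂ) :
    ∫ z in T, (rot u v f : ℂ × ℂ → ℂ) z * F z =
      ∫ z in T, f z * F (rho u⁻¹ v⁻¹ z) := by
  have := integral_smul_rot u v 1 f F
  rwa [one_smul, one_mul] at this

theorem dz1_key {φ : ℂ × ℂ → ℂ} (hφ : IsTest φ) (u v : Circle) (z : ℂ × ℂ) :
    dzbar1 φ (rho u⁻¹ v⁻¹ z) =
      conj (u : ℂ) * dzbar1 (fun w => φ (rho u⁻¹ v⁻¹ w)) z := by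
  rw [dzbar1_comp_rho u⁻¹ v⁻¹ z (hφ.differentiableAt _), conj_coe_inv, ← mul_assoc, coe_inv_mul,
    one_mul]

theorem dz2_key {φ : ℂ × ℂ → ℂ} (hφ : IsTest φ) (u v : Circle) (z : ℂ × ℂ) :
    dzbar2 φ (rho u⁻¹ v⁻¹ z) =
      conj (v : ℂ) * dzbar2 (fun w => φ (rho u⁻¹ v⁻¹ w)) z := by
  rw [dzbar2_comp_rho u⁻¹ v⁻¹ z (hφ.differentiableAt _), conj_coe_inv, ← mul_assoc, coe_inv_mul,
    one_mul]

theorem graph0_rot (u v : Circle) (f : L2) (w : Form1) (h : (f, w) ∈ graph0) :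
    (rot u v f, rotF u v w) ∈ graph0 := by
  intro φ hφ
  have ht := hφ.comp_rho u⁻¹ v⁻¹
  obtain ⟨h1, h2⟩ := h _ ht
  constructor
  · change ∫ z in T, (rot u v f : ℂ × ℂ → ℂ) z * dzbar1 φ z =
      - ∫ z in T, ((conj (u : ℂ) • rot u v w.fst : L2) : ℂ × ℂ → ℂ) z * φ z
    rw [integral_smul_rot, integral_rot]
    simp only [dz1_key hφ]
    rw [← mul_neg, ← h1, ← integral_const_mul]
    congr 1; funext z; ring
  · change ∫ z in T, (rot u v f : ℂ × ℂ → ℂ) z * dzbar2 φ z =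
      - ∫ z in T, ((conj (v : ℂ) • rot u v w.snd : L2) : ℂ × ℂ → ℂ) z * φ z
    rw [integral_smul_rot, integral_rot]
    simp only [dz2_key hφ]
    rw [← mul_neg, ← h2, ← integral_const_mul]
    congr 1; funext z; ring

theorem graph1_rot (u v : Circle) (w : Form1) (h : L2) (hw : (w, h) ∈ graph1) :
    (rotF u v w, rotG u v h) ∈ graph1 := by
  change WeakDbar1 _ _
  rw [weakDbar1_iff]
  intro φ hφ
  have ht := hφ.comp_rho u⁻¹ v⁻¹
  have h1 : WeakDbar1 w h := hw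
  rw [weakDbar1_iff] at h1
  have h2 := h1 _ ht
  rw [pairL_apply, pairL_apply, pairL_apply] at h2 ⊢
  change (∫ z in T, ((conj (v : ℂ) • rot u v w.snd : L2) : ℂ × ℂ → ℂ) z * dzbar1 φ z) -
    (∫ z in T, ((conj (u : ℂ) • rot u v w.fst : L2) : ℂ × ℂ → ℂ) z * dzbar2 φ z) =
    - ∫ z in T, (((conj (u : ℂ) * conj (v : ℂ)) • rot u v h : L2) : ℂ × ℂ → ℂ) z * φ z
  rw [integral_smul_rot, integral_smul_rot, integral_smul_rot]
  simp only [dz1_key hφ, dz2_key hφ]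
  have e1 : ∫ z in T, w.snd z * (conj (u : ℂ) * dzbar1 (fun w => φ (rho u⁻¹ v⁻¹ w)) z) =
      conj (u : ℂ) * ∫ z in T, w.snd z * dzbar1 (fun w => φ (rho u⁻¹ v⁻¹ w)) z := by
    rw [← integral_const_mul]; congr 1; funext z; ring
  have e2 : ∫ z in T, w.fst z * (conj (v : ℂ) * dzbar2 (fun w => φ (rho u⁻¹ v⁻¹ w)) z) =
      conj (v : ℂ) * ∫ z in T, w.fst z * dzbar2 (fun w => φ (rho u⁻¹ v⁻¹ w)) z := by
    rw [← integral_const_mul]; congr 1; funext z; ring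
  rw [e1, e2]
  linear_combination (conj (u : ℂ) * conj (v : ℂ)) * h2

theorem mem_adjoint_iff' {H G : Type*} [NormedAddCommGroup H] [InnerProductSpace ℂ H]
    [NormedAddCommGroup G] [InnerProductSpace ℂ G] (Γ : Submodule ℂ (H × G)) (v : G) (f : H) :
    (v, f) ∈ Γ.adjoint ↔ ∀ y ∈ Γ, ⟪y.2, v⟫_ℂ = ⟪y.1, f⟫_ℂ := by
  rw [Submodule.mem_adjoint_iff]
  constructor
  · intro h y hy
    exact sub_eq_zero.mp (h y.1 y.2 hy)
  · intro h a b hab
    exact sub_eq_zero.mpr (h (a, b) hab)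

theorem adj1_rot (u v : Circle) (g : L2) (w : Form1) (h : (g, w) ∈ graph1.adjoint) :
    (rotG u v g, rotF u v w) ∈ graph1.adjoint := by
  rw [mem_adjoint_iff'] at h ⊢
  intro y hy
  rw [inner_rotG, inner_rotF]
  exact h _ (graph1_rot u⁻¹ v⁻¹ _ _ hy)

theorem res0_rot {R : L2 →L[ℂ] L2} {S : L2 →L[ℂ] Form1} (hR : Res graph0 R S) (u v : Circle)
    (f : L2) : R (rot u v f) = rot u v (R f) :=
  hR.commute (U := rot u v) (U' := rot u⁻¹ v⁻¹) (V := rotF u v) (V' := rotF u⁻¹ v⁻¹)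
    (fun x y => inner_rot_right u v x y) (fun x y => inner_rotF u v x y)
    (fun x s h => graph0_rot u v x s h) (fun x s h => graph0_rot u⁻¹ v⁻¹ x s h) f

theorem res2_rot {R : L2 →L[ℂ] L2} {S : L2 →L[ℂ] Form1} (hR : Res graph1.adjoint R S)
    (u v : Circle) (f : L2) : R (rot u v f) = rot u v (R f) := by
  have h := hR.commute (U := rotG u v) (U' := rotG u⁻¹ v⁻¹) (V := rotF u v) (V' := rotF u⁻¹ v⁻¹)
    (fun x y => inner_rotG u v x y) (fun x y => inner_rotF u v x y)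
    (fun x s h => adj1_rot u v x s h) (fun x s h => adj1_rot u⁻¹ v⁻¹ x s h) f
  unfold rotG at h
  rw [map_smul] at h
  have hne : (conj (u : ℂ) * conj (v : ℂ)) ≠ 0 := by
    refine mul_ne_zero ?_ ?_
    · simp
    · simp
  exact smul_right_injective _ hne h

theorem mode_inv_of_rot {R : L2 →L[ℂ] L2} (h : ∀ (u v : Circle) f, R (rot u v f) = rot u v (R f))
    (m : ℤ × ℤ) : ∀ x ∈ mode m, R x ∈ mode m := by
  intro x hx u v
  rw [← h, hx u v, map_smul]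

theorem total_mode {x : L2} (h : ∀ m : ℤ × ℤ, ∀ y ∈ mode m, ⟪y, x⟫_ℂ = 0) : x = 0 := by
  apply total_ei
  intro i
  exact h _ _ (ei_mem_mode i)

theorem eigTotal_res0 {R : L2 →L[ℂ] L2} {S : L2 →L[ℂ] Form1} (hR : Res graph0 R S) :
    EigTotal R := by
  refine eigTotal_of_modes hR.symm mode isClosed_mode (mode_inv_of_rot (res0_rot hR)) ?_
    (fun x hx => total_mode hx)
  intro m ε hε
  obtain ⟨F, hF, hF2⟩ := mode_compact m (ε := ε / 3) (by positivity)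
  refine ⟨F, hF, fun x hx => ?_⟩
  obtain ⟨w, hw, hw1, hw2⟩ := graph0_WX (hR.mem x)
  have hm : w.1 ∈ mode m := by
    rw [hw1]; exact mode_inv_of_rot (res0_rot hR) m x hx
  obtain ⟨y, hy, hy2⟩ := hF2 w hw hm
  refine ⟨y, hy, ?_⟩
  rw [hw1] at hy2
  have h1 := hR.norm_S_le x
  calc ‖R x - y‖ ≤ ε / 3 * ‖(WithLp.toLp 2 w.2 : Form1)‖ := hy2
    _ ≤ ε / 3 * (3 * ‖S x‖) := by gcongr
    _ = ε * ‖S x‖ := by ring
    _ ≤ ε * ‖x‖ := by gcongr

end Pool.Agent.Lib.MP_169ce5_an
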