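import Pool.Agent.Lib.MP_169ce5_an.RotInv

/-!
Second derivatives of test functions, `∂̄ ∂̄ = 0`, the adjoint of `∂̄` on `(0,1)`-forms as the
closure of its restriction to test functions, the Poincare inequality.
-/

open MeasureTheory Complex Filter Topology Set
open scoped ContDiff ComplexConjugate ENNReal InnerProductSpace

noncomputable section

namespace Pool.Agent.Lib.MP_169ce5_an

theorem IsTest.dv {φ : ℂ × ℂ → ℂ} (hφ : IsTest φ) (v : ℂ × ℂ) :
    IsTest (fun z => fderiv ℝ φ z v) := by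
  obtain ⟨h1, h2, h3⟩ := hφ
  refine ⟨?_, h2.fderiv_apply (𝕜 := ℝ) v, ?_⟩
  · exact (h1.fderiv_right (m := ∞) (by simp)).clm_apply contDiff_const
  · refine subset_trans ?_ h3
    refine closure_minimal ?_ (isClosed_tsupport φ)
    intro z hz
    by_contra hcon
    have h4 : φ =ᶠ[𝓝 z] 0 := notMem_tsupport_iff_eventuallyEq.mp hcon
    apply hz
    change fderiv ℝ φ z v = 0
    rw [h4.fderiv_eq (𝕜 := ℝ)]
    have : fderiv ℝ (0 : ℂ × ℂ → ℂ) z = 0 := fderiv_const_apply (c := (0 : ℂ))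
    rw [this]
    rfl

theorem IsTest.const_mul {φ : ℂ × ℂ → ℂ} (hφ : IsTest φ) (c : ℂ) : IsTest (fun z => c * φ z) :=
  hφ.mul_left contDiffOn_const

theorem IsTest.add {φ ψ : ℂ × ℂ → ℂ} (hφ : IsTest φ) (hψ : IsTest ψ) :
    IsTest (fun z => φ z + ψ z) := by
  refine ⟨hφ.1.add hψ.1, hφ.2.1.add hψ.2.1, ?_⟩
  refine (closure_minimal ?_ ((isClosed_tsupport φ).union (isClosed_tsupport ψ))).trans
    (union_subset hφ.2.2 hψ.2.2)
  intro z hz
  by_contra hcon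
  simp only [mem_union, not_or] at hcon
  apply hz
  change φ z + ψ z = 0
  rw [image_eq_zero_of_notMem_tsupport hcon.1, image_eq_zero_of_notMem_tsupport hcon.2, add_zero]

theorem IsTest.conj {φ : ℂ × ℂ → ℂ} (hφ : IsTest φ) : IsTest (fun z => conj (φ z)) := by
  obtain ⟨h1, h2, h3⟩ := hφ
  have hs : Function.support (fun z => (starRingEnd ℂ) (φ z)) = Function.support φ := by
    ext z; simp
  refine ⟨(Complex.conjCLE : ℂ →L[ℝ] ℂ).contDiff.comp h1, ?_, ?_⟩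
  · unfold HasCompactSupport tsupport; rw [hs]; exact h2
  · unfold tsupport; rw [hs]; exact h3

theorem IsTest.dzbar1 {φ : ℂ × ℂ → ℂ} (hφ : IsTest φ) : IsTest (dzbar1 φ) :=
  ((hφ.dv (1, 0)).add ((hφ.dv (I, 0)).const_mul I)).const_mul (1 / 2)

theorem IsTest.dzbar2 {φ : ℂ × ℂ → ℂ} (hφ : IsTest φ) : IsTest (dzbar2 φ) :=
  ((hφ.dv (0, 1)).add ((hφ.dv (0, I)).const_mul I)).const_mul (1 / 2)

theorem IsTest.sym2 {φ : ℂ × ℂ → ℂ} (hφ : IsTest φ) (v w z : ℂ × ℂ) :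
    fderiv ℝ (fun z => fderiv ℝ φ z v) z w = fderiv ℝ (fun z => fderiv ℝ φ z w) z v := by
  have h1 : IsSymmSndFDerivAt ℝ φ z := hφ.1.contDiffAt.isSymmSndFDerivAt (by
    simp only [minSmoothness_of_isRCLikeNormedField]
    exact ENat.LEInfty.out)
  have hd : DifferentiableAt ℝ (fderiv ℝ φ) z :=
    ((hφ.1.fderiv_right (m := ∞) (by simp)).differentiable (by simp)) z
  have e : ∀ a : ℂ × ℂ, fderiv ℝ (fun z => fderiv ℝ φ z a) z =
      (fderiv ℝ (fderiv ℝ φ) z).flip a := by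
    intro a
    rw [fderiv_clm_apply hd (differentiableAt_const a)]
    simp
  rw [e, e]
  simp only [ContinuousLinearMap.flip_apply]
  exact h1 w v

theorem IsTest.fderiv_dzbar1 {φ : ℂ × ℂ → ℂ} (hφ : IsTest φ) (z v : ℂ × ℂ) :
    fderiv ℝ (Pool.Agent.Lib.MP_169ce5_an.dzbar1 φ) z v =
      (1 / 2) * (fderiv ℝ (fun z => fderiv ℝ φ z (1, 0)) z v +
        I * fderiv ℝ (fun z => fderiv ℝ φ z (I, 0)) z v) := by
  have h1 := (hφ.dv (1, 0)).differentiableAt z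
  have h2 := (hφ.dv (I, 0)).differentiableAt z
  have e : HasFDerivAt (Pool.Agent.Lib.MP_169ce5_an.dzbar1 φ) _ z :=
    (h1.hasFDerivAt.add (h2.hasFDerivAt.const_mul I)).const_mul (1 / 2 : ℂ)
  rw [e.fderiv]
  simp only [smul_apply, add_apply, smul_eq_mul]

theorem IsTest.fderiv_dzbar2 {φ : ℂ × ℂ → ℂ} (hφ : IsTest φ) (z v : ℂ × ℂ) :
    fderiv ℝ (Pool.Agent.Lib.MP_169ce5_an.dzbar2 φ) z v =
      (1 / 2) * (fderiv ℝ (fun z => fderiv ℝ φ z (0, 1)) z v +
        I * fderiv ℝ (fun z => fderiv ℝ φ z (0, I)) z v) := by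
  have h1 := (hφ.dv (0, 1)).differentiableAt z
  have h2 := (hφ.dv (0, I)).differentiableAt z
  have e : HasFDerivAt (Pool.Agent.Lib.MP_169ce5_an.dzbar2 φ) _ z :=
    (h1.hasFDerivAt.add (h2.hasFDerivAt.const_mul I)).const_mul (1 / 2 : ℂ)
  rw [e.fderiv]
  simp only [smul_apply, add_apply, smul_eq_mul]

theorem dzbar_comm {φ : ℂ × ℂ → ℂ} (hφ : IsTest φ) (z : ℂ × ℂ) :
    dzbar2 (dzbar1 φ) z = dzbar1 (dzbar2 φ) z := by
  have e1 : dzbar2 (dzbar1 φ) z = (1 / 2) * (fderiv ℝ (dzbar1 φ) z (0, 1) +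
    I * fderiv ℝ (dzbar1 φ) z (0, I)) := rfl
  have e2 : dzbar1 (dzbar2 φ) z = (1 / 2) * (fderiv ℝ (dzbar2 φ) z (1, 0) +
    I * fderiv ℝ (dzbar2 φ) z (I, 0)) := rfl
  rw [e1, e2, hφ.fderiv_dzbar1, hφ.fderiv_dzbar1, hφ.fderiv_dzbar2, hφ.fderiv_dzbar2,
    hφ.sym2 (1, 0) (0, 1), hφ.sym2 (1, 0) (0, I), hφ.sym2 (I, 0) (0, 1), hφ.sym2 (I, 0) (0, I)]
  ring

/-- `∂̄ ∂̄ = 0` -/
theorem dd_zero {f : L2} {u : Form1} (h : (f, u) ∈ graph0) : (u, (0 : L2)) ∈ graph1 := by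
  change WeakDbar1 _ _
  rw [weakDbar1_iff]
  intro φ hφ
  rw [map_zero, neg_zero, pairL_apply, pairL_apply]
  have h1 := (h _ hφ.dzbar1).2
  have h2 := (h _ hφ.dzbar2).1
  simp only [dzbar_comm hφ] at h1
  simp only at h1 h2
  rw [h1] at h2
  linear_combination -h2

/-! ### The adjoint of `∂̄` on `(0,1)`-forms -/

/-- the element of the graph of the formal adjoint given by a test function -/
def yt {ψ : ℂ × ℂ → ℂ} (hψ : IsTest ψ) : L2 × Form1 :=
  ((memLp_conj hψ.memLp).toLp _,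
    WithLp.toLp 2 ((memLp_conj hψ.memLp_dzbar2).toLp _, - (memLp_conj hψ.memLp_dzbar1).toLp _))

theorem graph1_iff {u : Form1} {h : L2} : (u, h) ∈ graph1 ↔
    ∀ (ψ : ℂ × ℂ → ℂ) (hψ : IsTest ψ), ⟪(yt hψ).2, u⟫_ℂ = ⟪(yt hψ).1, h⟫_ℂ := by
  have : (u, h) ∈ graph1 ↔ WeakDbar1 u h := Iff.rfl
  rw [this, weakDbar1_iff]
  refine forall_congr' fun ψ => forall_congr' fun hψ => ?_
  rw [WithLp.prod_inner_apply]
  change pairL hψ.memLp_dzbar1 u.snd - pairL hψ.memLp_dzbar2 u.fst = - pairL hψ.memLp h ↔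
    pairL hψ.memLp_dzbar2 u.fst + ⟪- (memLp_conj hψ.memLp_dzbar1).toLp _, u.snd⟫_ℂ =
      pairL hψ.memLp h
  rw [inner_neg_left]
  change pairL hψ.memLp_dzbar1 u.snd - pairL hψ.memLp_dzbar2 u.fst = - pairL hψ.memLp h ↔
    pairL hψ.memLp_dzbar2 u.fst + - pairL hψ.memLp_dzbar1 u.snd = pairL hψ.memLp h
  constructor
  · intro h; linear_combination -h
  · intro h; linear_combination -h

theorem yt_add {ψ ψ' : ℂ × ℂ → ℂ} (hψ : IsTest ψ) (hψ' : IsTest ψ') :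
    yt (hψ.add hψ') = yt hψ + yt hψ' := by
  have e1 : dzbar1 (fun z => ψ z + ψ' z) = fun z => dzbar1 ψ z + dzbar1 ψ' z := by
    funext z; exact dzbar1_add (hψ.differentiableAt z) (hψ'.differentiableAt z)
  have e2 : dzbar2 (fun z => ψ z + ψ' z) = fun z => dzbar2 ψ z + dzbar2 ψ' z := by
    funext z; exact dzbar2_add (hψ.differentiableAt z) (hψ'.differentiableAt z)
  unfold yt
  refine Prod.ext ?_ (WithLp.ofLp_injective 2 (Prod.ext ?_ ?_))
  · change (memLp_conj (hψ.add hψ').memLp).toLp _ = (memLp_conj hψ.memLp).toLp _ +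
      (memLp_conj hψ'.memLp).toLp _
    rw [← MemLp.toLp_add]
    apply (MemLp.toLp_eq_toLp_iff _ _).mpr
    exact ae_of_all _ fun z => by simp
  · change (memLp_conj (hψ.add hψ').memLp_dzbar2).toLp _ = (memLp_conj hψ.memLp_dzbar2).toLp _ +
      (memLp_conj hψ'.memLp_dzbar2).toLp _
    rw [← MemLp.toLp_add]
    apply (MemLp.toLp_eq_toLp_iff _ _).mpr
    exact ae_of_all _ fun z => by simp [e2]
  · change - (memLp_conj (hψ.add hψ').memLp_dzbar1).toLp _ =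
      - (memLp_conj hψ.memLp_dzbar1).toLp _ + - (memLp_conj hψ'.memLp_dzbar1).toLp _
    rw [← neg_add, ← MemLp.toLp_add]
    congr 1
    apply (MemLp.toLp_eq_toLp_iff _ _).mpr
    exact ae_of_all _ fun z => by simp [e1]

theorem yt_smul {ψ : ℂ × ℂ → ℂ} (hψ : IsTest ψ) (c : ℂ) :
    yt (hψ.const_mul (conj c)) = c • yt hψ := by
  have e1 : dzbar1 (fun z => conj c * ψ z) = fun z => conj c * dzbar1 ψ z := by
    funext z
    rw [dzbar1_mul (differentiableAt_const _) (hψ.differentiableAt z), dzbar1_const]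
    ring
  have e2 : dzbar2 (fun z => conj c * ψ z) = fun z => conj c * dzbar2 ψ z := by
    funext z
    rw [dzbar2_mul (differentiableAt_const _) (hψ.differentiableAt z), dzbar2_const]
    ring
  unfold yt
  refine Prod.ext ?_ (WithLp.ofLp_injective 2 (Prod.ext ?_ ?_))
  · change (memLp_conj (hψ.const_mul (conj c)).memLp).toLp _ = c • (memLp_conj hψ.memLp).toLp _
    rw [← MemLp.toLp_const_smul]
    apply (MemLp.toLp_eq_toLp_iff _ _).mpr
    exact ae_of_all _ fun z => by simp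
  · change (memLp_conj (hψ.const_mul (conj c)).memLp_dzbar2).toLp _ =
      c • (memLp_conj hψ.memLp_dzbar2).toLp _
    rw [← MemLp.toLp_const_smul]
    apply (MemLp.toLp_eq_toLp_iff _ _).mpr
    exact ae_of_all _ fun z => by simp [e2]
  · change - (memLp_conj (hψ.const_mul (conj c)).memLp_dzbar1).toLp _ =
      c • - (memLp_conj hψ.memLp_dzbar1).toLp _
    rw [smul_neg, ← MemLp.toLp_const_smul]
    congr 1
    apply (MemLp.toLp_eq_toLp_iff _ _).mpr
    exact ae_of_all _ fun z => by simp [e1]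

/-- the graph of the formal adjoint on test functions -/
def Yt : Submodule ℂ (L2 × Form1) where
  carrier := {y | ∃ (ψ : ℂ × ℂ → ℂ) (hψ : IsTest ψ), y = yt hψ}
  add_mem' := by
    rintro _ _ ⟨ψ, hψ, rfl⟩ ⟨ψ', hψ', rfl⟩
    exact ⟨_, hψ.add hψ', (yt_add hψ hψ').symm⟩
  zero_mem' := by
    have h0 : IsTest (fun _ : ℂ × ℂ => (0 : ℂ)) := by
      refine ⟨contDiff_const, HasCompactSupport.zero, ?_⟩
      have : tsupport (fun _ : ℂ × ℂ => (0 : ℂ)) = ∅ := by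
        unfold tsupport; simp
      rw [this]; exact empty_subset _
    exact ⟨_, h0.const_mul (conj (0 : ℂ)), by rw [yt_smul h0, zero_smul]⟩
  smul_mem' := by
    rintro c _ ⟨ψ, hψ, rfl⟩
    exact ⟨_, hψ.const_mul (conj c), (yt_smul hψ c).symm⟩

theorem graph1_iff_closure {u : Form1} {h : L2} : (u, h) ∈ graph1 ↔
    ∀ y ∈ Yt.topologicalClosure, ⟪y.2, u⟫_ℂ = ⟪y.1, h⟫_ℂ := by
  rw [graph1_iff]
  constructor
  · intro H y hy
    have hcl : IsClosed {y : L2 × Form1 | ⟪y.2, u⟫_ℂ = ⟪y.1, h⟫_ℂ} :=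
      isClosed_eq (continuous_snd.inner continuous_const) (continuous_fst.inner continuous_const)
    refine closure_minimal ?_ hcl (hy : y ∈ closure (Yt : Set (L2 × Form1)))
    rintro _ ⟨ψ, hψ, rfl⟩
    exact H ψ hψ
  · intro H ψ hψ
    exact H _ (Yt.le_topologicalClosure ⟨ψ, hψ, rfl⟩)

theorem adj1_sub_closure {g : L2} {w : Form1} (h : (g, w) ∈ graph1.adjoint) :
    (g, w) ∈ Yt.topologicalClosure := by
  rw [mem_adjoint_iff'] at h
  exact mem_of_adj_adj Yt.isClosed_topologicalClosure (fun v f => graph1_iff_closure) h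

theorem yt_mem_adj {ψ : ℂ × ℂ → ℂ} (hψ : IsTest ψ) : yt hψ ∈ graph1.adjoint := by
  have e : yt hψ = ((yt hψ).1, (yt hψ).2) := rfl
  rw [e, mem_adjoint_iff']
  intro y hy
  have := graph1_iff.mp (hy : (y.1, y.2) ∈ graph1) ψ hψ
  rw [← inner_conj_symm, ← this, inner_conj_symm]

theorem adj1_zero {w : Form1} (h : ((0 : L2), w) ∈ graph1.adjoint) : w = 0 := by
  rw [mem_adjoint_iff'] at h
  apply dense_graph1
  intro y hy
  rw [← h _ hy, inner_zero_right]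

end Pool.Agent.Lib.MP_169ce5_an
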