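import Mathlib

/-!
Definitions for the `∂̄`-Neumann problem on the Hartogs triangle.
-/

open MeasureTheory Complex
open scoped ContDiff ComplexConjugate InnerProductSpace

noncomputable section

namespace Pool.Agent.Lib.MP_169ce5_an.Hartogs

/-- The Hartogs triangle `T = {(z₁, z₂) : |z₁| < |z₂| < 1}` in `ℂ²`. -/
def T : Set (ℂ × ℂ) := {z | ‖z.1‖ < ‖z.2‖ ∧ ‖z.2‖ < 1}

/-- `L²(T)` with respect to Lebesgue measure on `ℂ²`. This is the space `L²_{0,0}(T)` of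
functions and also the space `L²_{0,2}(T)` of forms `h dz̄₁ ∧ dz̄₂`, identified with their
coefficient `h`. -/
def Fn : Type := Lp ℂ 2 ((volume : Measure (ℂ × ℂ)).restrict T)

instance instNACGFn : NormedAddCommGroup Fn :=
  @Lp.instNormedAddCommGroup (ℂ × ℂ) ℂ _ 2 (volume.restrict T) _ _

instance instIPSFn : InnerProductSpace ℂ Fn :=
  @L2.innerProductSpace (ℂ × ℂ) ℂ ℂ _ _ (volume.restrict T) _ _

/-- the function (defined almost everywhere) underlying an element of `L²(T)` -/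
def Fn.val (f : Fn) : ℂ × ℂ → ℂ :=
  AEEqFun.cast (f : Lp ℂ 2 ((volume : Measure (ℂ × ℂ)).restrict T)).1

/-- `L²_{0,1}(T)`: a `(0,1)`-form `u₁ dz̄₁ + u₂ dz̄₂` is the pair `(u₁, u₂)` of its coefficients,
with the Hilbert space norm `‖u‖² = ∫ |u₁|² + |u₂|²`. -/
def Form : Type := WithLp 2 (Fn × Fn)

instance instNACGForm : NormedAddCommGroup Form :=
  @WithLp.instProdNormedAddCommGroup 2 Fn Fn _ _ _

instance instIPSForm : InnerProductSpace ℂ Form :=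
  @WithLp.instProdInnerProductSpace ℂ Fn Fn _ _ _ _ _

/-- the coefficient `u₁` of `dz̄₁` -/
def Form.c1 (u : Form) : Fn := WithLp.fst (p := 2) u

/-- the coefficient `u₂` of `dz̄₂` -/
def Form.c2 (u : Form) : Fn := WithLp.snd (p := 2) u

/-- Test functions on `T`: smooth functions with compact support contained in `T`. -/
def IsTest (φ : ℂ × ℂ → ℂ) : Prop :=
  ContDiff ℝ ∞ φ ∧ HasCompactSupport φ ∧ tsupport φ ⊆ T

/-- The classical Wirtinger derivative `∂φ/∂z̄₁ = (∂φ/∂x₁ + i ∂φ/∂y₁)/2`. -/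
def dzbar1 (φ : ℂ × ℂ → ℂ) (z : ℂ × ℂ) : ℂ :=
  (1 / 2) * (fderiv ℝ φ z (1, 0) + I * fderiv ℝ φ z (I, 0))

/-- The classical Wirtinger derivative `∂φ/∂z̄₂ = (∂φ/∂x₂ + i ∂φ/∂y₂)/2`. -/
def dzbar2 (φ : ℂ × ℂ → ℂ) (z : ℂ × ℂ) : ℂ :=
  (1 / 2) * (fderiv ℝ φ z (0, 1) + I * fderiv ℝ φ z (0, I))

/-- `∂̄ f = u` in the sense of distributions on `T`, for a function `f` and a `(0,1)`-form
`u = u₁ dz̄₁ + u₂ dz̄₂`: for every test function `φ` and `j = 1, 2`,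
`∫_T f ∂φ/∂z̄ⱼ = - ∫_T uⱼ φ`. -/
def WeakDbar0 (f : Fn) (u : Form) : Prop :=
  ∀ φ : ℂ × ℂ → ℂ, IsTest φ →
    (∫ z in T, f.val z * dzbar1 φ z = - ∫ z in T, u.c1.val z * φ z) ∧
    (∫ z in T, f.val z * dzbar2 φ z = - ∫ z in T, u.c2.val z * φ z)

/-- `∂̄ u = h dz̄₁ ∧ dz̄₂` in the sense of distributions on `T`, for a `(0,1)`-form
`u = u₁ dz̄₁ + u₂ dz̄₂`, i.e. `∂u₂/∂z̄₁ - ∂u₁/∂z̄₂ = h`: for every test function `φ`,
`∫_T (u₂ ∂φ/∂z̄₁ - u₁ ∂φ/∂z̄₂) = - ∫_T h φ`. -/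
def WeakDbar1 (u : Form) (h : Fn) : Prop :=
  ∀ φ : ℂ × ℂ → ℂ, IsTest φ →
    ∫ z in T, (u.c2.val z * dzbar1 φ z - u.c1.val z * dzbar2 φ z) = - ∫ z in T, h.val z * φ z

/-- `v` is in the domain of the Hilbert space adjoint `∂̄*` of `∂̄ : L²_{0,0}(T) → L²_{0,1}(T)`
and `∂̄* v = f`: for every `g` in the domain of `∂̄`, with `∂̄ g = u`, `⟪∂̄ g, v⟫ = ⟪g, f⟫`. -/
def AdjDbar0 (v : Form) (f : Fn) : Prop :=
  ∀ (g : Fn) (u : Form), WeakDbar0 g u → ⟪u, v⟫_ℂ = ⟪g, f⟫_ℂ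

/-- `h` is in the domain of the Hilbert space adjoint `∂̄*` of `∂̄ : L²_{0,1}(T) → L²_{0,2}(T)`
and `∂̄* h = v`: for every `u` in the domain of `∂̄`, with `∂̄ u = k`, `⟪∂̄ u, h⟫ = ⟪u, v⟫`. -/
def AdjDbar1 (h : Fn) (v : Form) : Prop :=
  ∀ (u : Form) (k : Fn), WeakDbar1 u k → ⟪k, h⟫_ℂ = ⟪u, v⟫_ℂ

/-- `□₁ u = v`, where `□₁ = ∂̄ ∂̄* + ∂̄* ∂̄` has its natural domain: `u` is in the domains of
`∂̄*` and of `∂̄`, `∂̄* u = f` is in the domain of `∂̄`, `∂̄ u = h` is in the domain of `∂̄*`, and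
`v = ∂̄ ∂̄* u + ∂̄* ∂̄ u`. -/
def IsBox1 (u v : Form) : Prop :=
  ∃ (f h : Fn) (a b : Form),
    AdjDbar0 u f ∧ WeakDbar0 f a ∧ WeakDbar1 u h ∧ AdjDbar1 h b ∧ v = a + b

/-- `f` satisfies `□₀ f = κ f`, where `□₀ = ∂̄* ∂̄` on functions, with its natural domain. -/
def IsEig0 (f : Fn) (κ : ℂ) : Prop :=
  ∃ a : Form, WeakDbar0 f a ∧ AdjDbar0 a (κ • f)

/-- `h` satisfies `□₂ h = κ h`, where `□₂ = ∂̄ ∂̄*` on `(0,2)`-forms, with its natural domain. -/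
def IsEig2 (h : Fn) (κ : ℂ) : Prop :=
  ∃ b : Form, AdjDbar1 h b ∧ WeakDbar1 b (κ • h)

/-- `N` is the `∂̄`-Neumann operator `N₁ = □₁⁻¹` on `L²_{0,1}(T)`: for every form `v`, `N v` is
in the domain of `□₁` and `□₁ (N v) = v`, and `N (□₁ u) = u` for every `u` in the domain of
`□₁`. -/
def IsNeumann1 (N : Form →L[ℂ] Form) : Prop :=
  (∀ v, IsBox1 (N v) v) ∧ ∀ u v, IsBox1 u v → N v = u

/-- the set of eigenvalues of the bounded operator `N` -/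
def eigenvalues (N : Form →L[ℂ] Form) : Set ℂ := {μ | ∃ u : Form, u ≠ 0 ∧ N u = μ • u}

/-- `L²_{0,1}(T)` has an orthonormal basis (Hilbert basis) of eigenvectors of `N`, with positive
eigenvalues. -/
def HasEigenbasis (N : Form →L[ℂ] Form) : Prop :=
  ∃ (ι : Type) (b : HilbertBasis ι ℂ Form), ∀ i, ∃ r : ℝ, 0 < r ∧ N (b i) = (r : ℂ) • b i

end Pool.Agent.Lib.MP_169ce5_an.Hartogs
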