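import Pool.Agent.Lib.MP_169ce5_an.Statement

/-!
Definitions for the essential spectrum of the `∂̄`-Neumann operator on the Hartogs triangle. The
operator and its domain are defined in `Statement.lean`.
-/

open Filter Topology
open scoped Nat InnerProductSpace

noncomputable section

namespace Pool.Agent.Lib.MP_169ce5_an.Hartogs

/-- The Bessel function `J_n` of the first kind of integer order `n ≥ 0`, by its power series
`J_n(x) = ∑_k (-1)^k / (k! (n+k)!) (x/2)^(2k+n)`. -/
def besselJ (n : ℕ) (x : ℝ) : ℝ :=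
  ∑' k : ℕ, (-1) ^ k / ((k ! : ℝ) * ((n + k)! : ℝ)) * (x / 2) ^ (2 * k + n)

/-- `l` belongs to the essential spectrum of the bounded self-adjoint operator `N` (Weyl's
criterion): there is an orthonormal sequence `u₀, u₁, …` of forms with `‖N uₖ - l uₖ‖ → 0`. -/
def IsEss (N : Form →L[ℂ] Form) (l : ℂ) : Prop :=
  ∃ u : ℕ → Form, Orthonormal ℂ u ∧ Tendsto (fun k => ‖N (u k) - l • u k‖) atTop (𝓝 0)

/-- `l` is a discrete point of the spectrum of `N`: an eigenvalue, isolated in the spectrum, whose
eigenspace is finite dimensional (contained in the span of finitely many forms). -/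
def IsDiscrete (N : Form →L[ℂ] Form) (l : ℂ) : Prop :=
  l ∈ eigenvalues N ∧ (∃ δ > 0, ∀ μ ∈ spectrum ℂ N, ‖μ - l‖ < δ → μ = l) ∧
    ∃ (n : ℕ) (e : Fin n → Form), ∀ u : Form, N u = l • u →
      ∃ c : Fin n → ℂ, u = ∑ i, c i • e i

end Pool.Agent.Lib.MP_169ce5_an.Hartogs
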