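import Pool.Agent.Lib.MP_169ce5_an.Wirt

/-!
Basic facts on the Hartogs triangle and the Laurent monomials.
-/

open MeasureTheory Complex Filter Topology Set
open scoped ContDiff ComplexConjugate ENNReal

noncomputable section

namespace Pool.Agent.Lib.MP_169ce5_an

/-- Lebesgue measure on `T`. -/
abbrev muT : Measure (ℂ × ℂ) := (volume : Measure (ℂ × ℂ)).restrict T

theorem isOpen_T : IsOpen T := by
  have h1 : IsOpen {z : ℂ × ℂ | ‖z.1‖ < ‖z.2‖} :=
    isOpen_lt (continuous_fst.norm) (continuous_snd.norm)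
  have h2 : IsOpen {z : ℂ × ℂ | ‖z.2‖ < 1} := isOpen_lt (continuous_snd.norm) continuous_const
  exact h1.inter h2

theorem measurableSet_T : MeasurableSet T := isOpen_T.measurableSet

theorem snd_ne_zero {z : ℂ × ℂ} (hz : z ∈ T) : z.2 ≠ 0 := by
  intro h
  have := hz.1
  rw [h, norm_zero] at this
  exact absurd this (not_lt.mpr (norm_nonneg _))

theorem norm_snd_pos {z : ℂ × ℂ} (hz : z ∈ T) : 0 < ‖z.2‖ := norm_pos_iff.mpr (snd_ne_zero hz)

theorem norm_zt_lt {z : ℂ × ℂ} (hz : z ∈ T) : ‖z.1 / z.2‖ < 1 := by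
  rw [norm_div, div_lt_one (norm_snd_pos hz)]
  exact hz.1

theorem T_subset_ball : T ⊆ Metric.ball (0 : ℂ × ℂ) 1 := by
  intro z hz
  rw [mem_ball_zero_iff, Prod.norm_def, max_lt_iff]
  exact ⟨hz.1.trans hz.2, hz.2⟩

theorem volume_T_lt_top : (volume : Measure (ℂ × ℂ)) T < ⊤ :=
  (measure_mono T_subset_ball).trans_lt measure_ball_lt_top

instance : IsFiniteMeasure muT := ⟨by
  rw [Measure.restrict_apply_univ]
  exact volume_T_lt_top⟩

theorem memLp_inv_snd : MemLp (fun z : ℂ × ℂ => (z.2)⁻¹) 2 muT := by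
  have hmeas : Measurable (fun z : ℂ × ℂ => (z.2)⁻¹) := measurable_snd.inv
  refine ⟨hmeas.aestronglyMeasurable, ?_⟩
  rw [eLpNorm_lt_top_iff_lintegral_rpow_enorm_lt_top (by norm_num) (by norm_num)]
  rw [← lintegral_indicator measurableSet_T]
  have hvol : (volume : Measure (ℂ × ℂ)) = (volume : Measure ℂ).prod (volume : Measure ℂ) := rfl
  rw [hvol, lintegral_prod_symm]
  · have hb : ∀ y : ℂ, ∫⁻ x : ℂ, T.indicator
        (fun z : ℂ × ℂ => ‖(z.2)⁻¹‖ₑ ^ (2 : ℝ≥0∞).toReal) (x, y)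
        ≤ (Metric.ball (0 : ℂ) 1).indicator (fun _ => (NNReal.pi : ℝ≥0∞)) y := by
      intro y
      by_cases hy : ‖y‖ < 1
      · by_cases hy0 : y = 0
        · have : ∀ x : ℂ, T.indicator
            (fun z : ℂ × ℂ => ‖(z.2)⁻¹‖ₑ ^ (2 : ℝ≥0∞).toReal) (x, y) = 0 := by
            intro x
            rw [indicator_of_notMem]
            intro h
            exact snd_ne_zero h hy0
          simp only [this, lintegral_zero]
          exact zero_le
        · have e1 : ∀ x : ℂ, T.indicator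
            (fun z : ℂ × ℂ => ‖(z.2)⁻¹‖ₑ ^ (2 : ℝ≥0∞).toReal) (x, y)
            = (Metric.ball (0 : ℂ) ‖y‖).indicator
              (fun _ => ‖y⁻¹‖ₑ ^ (2 : ℝ≥0∞).toReal) x := by
            intro x
            by_cases hx : ‖x‖ < ‖y‖
            · rw [indicator_of_mem (show (x, y) ∈ T from ⟨hx, hy⟩),
                indicator_of_mem (by simpa using hx)]
            · rw [indicator_of_notMem (fun h : (x, y) ∈ T => hx h.1),
                indicator_of_notMem (by simpa using hx)]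
          simp only [e1]
          rw [lintegral_indicator Metric.isOpen_ball.measurableSet, lintegral_const,
            Measure.restrict_apply_univ, indicator_of_mem (by simpa using hy)]
          rw [Complex.volume_ball]
          have hy' : (0 : ℝ) < ‖y‖ := norm_pos_iff.mpr hy0
          have e2 : ‖y⁻¹‖ₑ ^ (2 : ℝ≥0∞).toReal = ENNReal.ofReal (‖y‖⁻¹ ^ 2) := by
            rw [← ofReal_norm, norm_inv]
            rw [ENNReal.toReal_ofNat, ENNReal.ofReal_rpow_of_pos (by positivity)]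
            congr 1
            norm_num
          rw [e2, ← ENNReal.ofReal_pow hy'.le, ← mul_assoc, ← ENNReal.ofReal_mul (by positivity)]
          have e3 : ‖y‖⁻¹ ^ 2 * ‖y‖ ^ 2 = 1 := by
            rw [← mul_pow, inv_mul_cancel₀ hy'.ne', one_pow]
          rw [e3]
          simp
      · have : ∀ x : ℂ, T.indicator
            (fun z : ℂ × ℂ => ‖(z.2)⁻¹‖ₑ ^ (2 : ℝ≥0∞).toReal) (x, y) = 0 := by
          intro x
          rw [indicator_of_notMem]
          intro h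
          exact hy h.2
        simp only [this, lintegral_zero]
        exact zero_le
    refine (lintegral_mono hb).trans_lt ?_
    rw [lintegral_indicator Metric.isOpen_ball.measurableSet, lintegral_const,
      Measure.restrict_apply_univ]
    exact ENNReal.mul_lt_top ENNReal.coe_lt_top measure_ball_lt_top
  · refine (Measurable.indicator ?_ measurableSet_T).aemeasurable
    exact (hmeas.enorm).pow_const _


/-- A function which is a.e. measurable and bounded by `C / |z₂|` on `T` is in `L²(T)`. -/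
theorem memLp_of_bound {h : ℂ × ℂ → ℂ} (hm : AEStronglyMeasurable h muT) {C : ℝ}
    (hb : ∀ z ∈ T, ‖h z‖ ≤ C * ‖z.2‖⁻¹) : MemLp h 2 muT := by
  refine MemLp.of_le_mul (c := C) memLp_inv_snd hm ?_
  filter_upwards [ae_restrict_mem measurableSet_T] with z hz
  rw [norm_inv]
  exact hb z hz

theorem memLp_of_bounded {h : ℂ × ℂ → ℂ} (hm : AEStronglyMeasurable h muT) {C : ℝ}
    (hb : ∀ z ∈ T, ‖h z‖ ≤ C) : MemLp h 2 muT := by
  refine MemLp.of_bound hm C ?_
  filter_upwards [ae_restrict_mem measurableSet_T] with z hz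
  exact hb z hz

theorem ContDiffOn.aesm {h : ℂ × ℂ → ℂ} (hh : ContDiffOn ℝ ∞ h T) :
    AEStronglyMeasurable h muT :=
  hh.continuousOn.aestronglyMeasurable measurableSet_T

theorem integrable_mul {f : L2} {g : ℂ × ℂ → ℂ} (hg : MemLp g 2 muT) :
    Integrable (fun z => f z * g z) muT :=
  (Lp.memLp f).integrable_mul hg

/-- The integral pairing as an inner product. -/
theorem integral_pair (f : L2) {g : ℂ × ℂ → ℂ} (hg : MemLp (fun z => conj (g z)) 2 muT) :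
    ∫ z in T, f z * g z = inner ℂ (hg.toLp _) f := by
  rw [L2.inner_def]
  refine integral_congr_ae ?_
  filter_upwards [hg.coeFn_toLp] with z hz
  rw [hz, RCLike.inner_apply]
  simp

theorem memLp_conj {g : ℂ × ℂ → ℂ} (hg : MemLp g 2 muT) : MemLp (fun z => conj (g z)) 2 muT := by
  refine MemLp.of_le_mul (c := 1) hg ?_ ?_
  · exact Complex.continuous_conj.comp_aestronglyMeasurable hg.1
  · filter_upwards with z
    simp

/-! ### Monomials -/

/-- `ζ^a ζ̄^b z₂^c z̄₂^d` with `ζ = z₁/z₂`. -/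
def Mon (a b c d : ℕ) (z : ℂ × ℂ) : ℂ :=
  (z.1 / z.2) ^ a * (conj (z.1 / z.2)) ^ b * z.2 ^ c * (conj z.2) ^ d

/-- `ζ^a ζ̄^b z₂^c z̄₂^d / z₂`. -/
def eMon (a b c d : ℕ) (z : ℂ × ℂ) : ℂ := Mon a b c d z * (z.2)⁻¹

/-- `ζ^a ζ̄^b z₂^c z̄₂^d / z̄₂`. -/
def nMon (a b c d : ℕ) (z : ℂ × ℂ) : ℂ := Mon a b c d z * (conj z.2)⁻¹

theorem conj_eMon (a b c d : ℕ) (z : ℂ × ℂ) : conj (eMon a b c d z) = nMon b a d c z := by
  unfold eMon nMon Mon
  simp only [map_mul, map_pow, map_inv₀, Complex.conj_conj]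
  ring

theorem norm_Mon_le (a b c d : ℕ) {z : ℂ × ℂ} (hz : z ∈ T) : ‖Mon a b c d z‖ ≤ 1 := by
  unfold Mon
  simp only [norm_mul, norm_pow, RCLike.norm_conj]
  have h1 := (norm_zt_lt hz).le
  have h2 := hz.2.le
  have h3 : ‖z.1 / z.2‖ ^ a ≤ 1 := pow_le_one₀ (norm_nonneg _) h1
  have h4 : ‖z.1 / z.2‖ ^ b ≤ 1 := pow_le_one₀ (norm_nonneg _) h1
  have h5 : ‖z.2‖ ^ c ≤ 1 := pow_le_one₀ (norm_nonneg _) h2
  have h6 : ‖z.2‖ ^ d ≤ 1 := pow_le_one₀ (norm_nonneg _) h2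
  have p1 : (0 : ℝ) ≤ ‖z.1 / z.2‖ ^ a := by positivity
  have p2 : (0 : ℝ) ≤ ‖z.1 / z.2‖ ^ b := by positivity
  have p3 : (0 : ℝ) ≤ ‖z.2‖ ^ c := by positivity
  have p4 : (0 : ℝ) ≤ ‖z.2‖ ^ d := by positivity
  exact mul_le_one₀ (mul_le_one₀ (mul_le_one₀ h3 p2 h4) p3 h5) p4 h6

theorem norm_eMon_le (a b c d : ℕ) {z : ℂ × ℂ} (hz : z ∈ T) :
    ‖eMon a b c d z‖ ≤ 1 * ‖z.2‖⁻¹ := by
  unfold eMon
  rw [norm_mul, norm_inv]
  exact mul_le_mul_of_nonneg_right (norm_Mon_le a b c d hz) (by positivity)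

theorem norm_nMon_le (a b c d : ℕ) {z : ℂ × ℂ} (hz : z ∈ T) :
    ‖nMon a b c d z‖ ≤ 1 * ‖z.2‖⁻¹ := by
  unfold nMon
  rw [norm_mul, norm_inv, RCLike.norm_conj]
  exact mul_le_mul_of_nonneg_right (norm_Mon_le a b c d hz) (by positivity)

theorem contDiffAt_zt {z : ℂ × ℂ} (hz : z.2 ≠ 0) :
    ContDiffAt ℝ ∞ (fun w : ℂ × ℂ => w.1 / w.2) z := by
  have h1 : ContDiffAt ℝ ∞ (fun w : ℂ × ℂ => w.1) z := contDiffAt_fst
  have h2 : ContDiffAt ℝ ∞ (fun w : ℂ × ℂ => w.2) z := contDiffAt_snd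
  have e : (fun w : ℂ × ℂ => w.1 / w.2) = fun w => w.1 * (w.2)⁻¹ := by
    funext w; rw [div_eq_mul_inv]
  rw [e]
  exact h1.mul (h2.inv hz)

theorem contDiffAt_conj {h : ℂ × ℂ → ℂ} {z : ℂ × ℂ} (hh : ContDiffAt ℝ ∞ h z) :
    ContDiffAt ℝ ∞ (fun w => conj (h w)) z :=
  (Complex.conjCLE : ℂ →L[ℝ] ℂ).contDiff.contDiffAt.comp z hh

theorem contDiffAt_Mon (a b c d : ℕ) {z : ℂ × ℂ} (hz : z.2 ≠ 0) :
    ContDiffAt ℝ ∞ (Mon a b c d) z := by
  have h1 := contDiffAt_zt hz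
  have h2 : ContDiffAt ℝ ∞ (fun w : ℂ × ℂ => w.2) z := contDiffAt_snd
  exact (((h1.pow a).mul ((contDiffAt_conj h1).pow b)).mul (h2.pow c)).mul
    ((contDiffAt_conj h2).pow d)

theorem contDiffAt_eMon (a b c d : ℕ) {z : ℂ × ℂ} (hz : z.2 ≠ 0) :
    ContDiffAt ℝ ∞ (eMon a b c d) z := by
  have h2 : ContDiffAt ℝ ∞ (fun w : ℂ × ℂ => w.2) z := contDiffAt_snd
  exact (contDiffAt_Mon a b c d hz).mul (h2.inv hz)

theorem contDiffAt_nMon (a b c d : ℕ) {z : ℂ × ℂ} (hz : z.2 ≠ 0) :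
    ContDiffAt ℝ ∞ (nMon a b c d) z := by
  have h2 : ContDiffAt ℝ ∞ (fun w : ℂ × ℂ => w.2) z := contDiffAt_snd
  exact (contDiffAt_Mon a b c d hz).mul ((contDiffAt_conj h2).inv (by simpa using hz))

theorem contDiffOn_eMon (a b c d : ℕ) : ContDiffOn ℝ ∞ (eMon a b c d) T := fun _ hz =>
  (contDiffAt_eMon a b c d (snd_ne_zero hz)).contDiffWithinAt

theorem contDiffOn_nMon (a b c d : ℕ) : ContDiffOn ℝ ∞ (nMon a b c d) T := fun _ hz =>
  (contDiffAt_nMon a b c d (snd_ne_zero hz)).contDiffWithinAt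

theorem contDiffOn_Mon (a b c d : ℕ) : ContDiffOn ℝ ∞ (Mon a b c d) T := fun _ hz =>
  (contDiffAt_Mon a b c d (snd_ne_zero hz)).contDiffWithinAt

theorem memLp_eMon (a b c d : ℕ) : MemLp (eMon a b c d) 2 muT :=
  memLp_of_bound (ContDiffOn.aesm (contDiffOn_eMon a b c d)) fun _ hz => norm_eMon_le a b c d hz

theorem memLp_nMon (a b c d : ℕ) : MemLp (nMon a b c d) 2 muT :=
  memLp_of_bound (ContDiffOn.aesm (contDiffOn_nMon a b c d)) fun _ hz => norm_nMon_le a b c d hz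

theorem hasX_zt {z : ℂ × ℂ} (hz : z.2 ≠ 0) : HasX (fun w => w.1 / w.2) z 0 0 := by
  have := (hasX_fst z).mul ((hasX_snd z).inv hz)
  have e : (fun w : ℂ × ℂ => w.1 / w.2) = fun w => w.1 * (w.2)⁻¹ := by
    funext w; rw [div_eq_mul_inv]
  rw [e]
  exact this.congr_val (by simp) (by simp)

theorem hasX_conj_zt {z : ℂ × ℂ} (hz : z.2 ≠ 0) :
    HasX (fun w => conj (w.1 / w.2)) z 1 0 := by
  have hz' : conj z.2 ≠ 0 := by simpa using hz
  have := (hasX_conj_fst z).mul ((hasX_conj_snd z).inv hz')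
  have e : (fun w : ℂ × ℂ => conj (w.1 / w.2)) = fun w => conj w.1 * (conj w.2)⁻¹ := by
    funext w; rw [map_div₀, div_eq_mul_inv]
  rw [e]
  refine this.congr_val ?_ ?_
  · field_simp
    ring
  · rw [map_div₀]
    field_simp
    ring

theorem hasX_Mon (a b c d : ℕ) {z : ℂ × ℂ} (hz : z.2 ≠ 0) :
    HasX (Mon a b c d) z (b * Mon a (b - 1) c d z) (d * Mon a b c (d - 1) z) := by
  have := ((((hasX_zt hz).pow a).mul ((hasX_conj_zt hz).pow b)).mul ((hasX_snd z).pow c)).mul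
    ((hasX_conj_snd z).pow d)
  refine this.congr_val ?_ ?_
  · unfold Mon; ring
  · unfold Mon; ring

theorem hasX_eMon (a b c d : ℕ) {z : ℂ × ℂ} (hz : z.2 ≠ 0) :
    HasX (eMon a b c d) z (b * eMon a (b - 1) c d z) (d * eMon a b c (d - 1) z) := by
  have := (hasX_Mon a b c d hz).mul ((hasX_snd z).inv hz)
  refine this.congr_val ?_ ?_
  · unfold eMon; ring
  · unfold eMon; ring

theorem hasX_nMon (a b c d : ℕ) {z : ℂ × ℂ} (hz : z.2 ≠ 0) :
    HasX (nMon a b c d) z (b * nMon a (b - 1) c d z)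
      (d * nMon a b c (d - 1) z - nMon a b c d z * (conj z.2)⁻¹) := by
  have hz' : conj z.2 ≠ 0 := by simpa using hz
  have := (hasX_Mon a b c d hz).mul ((hasX_conj_snd z).inv hz')
  refine this.congr_val ?_ ?_
  · unfold nMon; ring
  · unfold nMon
    field_simp
    ring

end Pool.Agent.Lib.MP_169ce5_an
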