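import Pool.Agent.Lib.MP_169ce5_an.TBasic

/-!
Test functions and cutoffs on the Hartogs triangle.
-/

open MeasureTheory Complex Filter Topology Set
open scoped ContDiff ComplexConjugate ENNReal

noncomputable section

namespace Pool.Agent.Lib.MP_169ce5_an

theorem IsTest.mul_left {h φ : ℂ × ℂ → ℂ} (hφ : IsTest φ) (hh : ContDiffOn ℝ ∞ h T) :
    IsTest (fun z => h z * φ z) := by
  obtain ⟨h1, h2, h3⟩ := hφ
  refine ⟨?_, h2.mul_left, (tsupport_mul_subset_right).trans h3⟩
  rw [contDiff_iff_contDiffAt]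
  intro z
  by_cases hz : z ∈ tsupport φ
  · exact (hh.contDiffAt (isOpen_T.mem_nhds (h3 hz))).mul h1.contDiffAt
  · have h4 : φ =ᶠ[𝓝 z] 0 := notMem_tsupport_iff_eventuallyEq.mp hz
    have h5 : (fun z => h z * φ z) =ᶠ[𝓝 z] fun _ => 0 := by
      filter_upwards [h4] with w hw
      rw [hw]; simp
    exact contDiffAt_const.congr_of_eventuallyEq h5

theorem IsTest.zero_of_notMem {φ : ℂ × ℂ → ℂ} (hφ : IsTest φ) {z : ℂ × ℂ} (hz : z ∉ T) :
    φ z = 0 := image_eq_zero_of_notMem_tsupport fun h => hz (hφ.2.2 h)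

theorem IsTest.fderiv_zero_of_notMem {φ : ℂ × ℂ → ℂ} (hφ : IsTest φ) {z : ℂ × ℂ} (hz : z ∉ T) :
    fderiv ℝ φ z = 0 := by
  have h4 : φ =ᶠ[𝓝 z] 0 := notMem_tsupport_iff_eventuallyEq.mp fun h => hz (hφ.2.2 h)
  have := h4.fderiv_eq (𝕜 := ℝ)
  rw [this]
  exact fderiv_const_apply (c := (0 : ℂ))

theorem IsTest.differentiableAt {φ : ℂ × ℂ → ℂ} (hφ : IsTest φ) (z : ℂ × ℂ) :
    DifferentiableAt ℝ φ z := hφ.1.differentiable (by simp) z

theorem IsTest.integrable_fderiv {φ : ℂ × ℂ → ℂ} (hφ : IsTest φ) (v : ℂ × ℂ) :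
    Integrable (fun z => fderiv ℝ φ z v) volume := by
  apply Continuous.integrable_of_hasCompactSupport
  · exact (hφ.1.continuous_fderiv (by simp)).clm_apply continuous_const
  · exact (hφ.2.1.fderiv_apply (𝕜 := ℝ) v)

instance : (volume : Measure (ℂ × ℂ)).IsAddHaarMeasure :=
  inferInstanceAs (((volume : Measure ℂ).prod (volume : Measure ℂ)).IsAddHaarMeasure)

theorem IsTest.integral_fderiv {φ : ℂ × ℂ → ℂ} (hφ : IsTest φ) (v : ℂ × ℂ) :
    ∫ z, fderiv ℝ φ z v = 0 := by
  have := integral_mul_fderiv_eq_neg_fderiv_mul_of_integrable (𝕜 := ℂ)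
    (μ := (volume : Measure (ℂ × ℂ))) (f := fun _ => (1 : ℂ)) (g := φ) (v := v)
    (by simp) (by simpa using hφ.integrable_fderiv v)
    (by simpa using hφ.1.continuous.integrable_of_hasCompactSupport hφ.2.1)
    (fun x _ => differentiableAt_const _) (fun x _ => hφ.differentiableAt x)
  simpa using this

theorem IsTest.integral_dzbar1 {φ : ℂ × ℂ → ℂ} (hφ : IsTest φ) :
    ∫ z in T, dzbar1 φ z = 0 := by
  rw [setIntegral_eq_integral_of_forall_compl_eq_zero]
  · unfold dzbar1
    rw [integral_const_mul, integral_add (hφ.integrable_fderiv _)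
      ((hφ.integrable_fderiv _).const_mul _), integral_const_mul, hφ.integral_fderiv,
      hφ.integral_fderiv]
    simp
  · intro z hz
    unfold dzbar1
    rw [hφ.fderiv_zero_of_notMem hz]
    simp

theorem IsTest.integral_dzbar2 {φ : ℂ × ℂ → ℂ} (hφ : IsTest φ) :
    ∫ z in T, dzbar2 φ z = 0 := by
  rw [setIntegral_eq_integral_of_forall_compl_eq_zero]
  · unfold dzbar2
    rw [integral_const_mul, integral_add (hφ.integrable_fderiv _)
      ((hφ.integrable_fderiv _).const_mul _), integral_const_mul, hφ.integral_fderiv,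
      hφ.integral_fderiv]
    simp
  · intro z hz
    unfold dzbar2
    rw [hφ.fderiv_zero_of_notMem hz]
    simp

/-! ### Cutoffs -/

/-- weight `1 - |z₁/z₂|²` -/
def w1 (z : ℂ × ℂ) : ℝ := 1 - normSq (z.1 / z.2)

/-- weight `1 - |z₂|²` -/
def w2 (z : ℂ × ℂ) : ℝ := 1 - normSq z.2

/-- `|z₂|²` -/
def r2 (z : ℂ × ℂ) : ℝ := normSq z.2

theorem w1_pos {z : ℂ × ℂ} (hz : z ∈ T) : 0 < w1 z := by
  unfold w1
  have := norm_zt_lt hz
  rw [Complex.normSq_eq_norm_sq]
  have h0 := norm_nonneg (z.1 / z.2)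
  nlinarith

theorem w1_le_one (z : ℂ × ℂ) : w1 z ≤ 1 := by
  unfold w1
  have := Complex.normSq_nonneg (z.1 / z.2)
  linarith

theorem w2_pos {z : ℂ × ℂ} (hz : z ∈ T) : 0 < w2 z := by
  unfold w2
  have := hz.2
  rw [Complex.normSq_eq_norm_sq]
  have h0 := norm_nonneg z.2
  nlinarith

theorem w2_le_one (z : ℂ × ℂ) : w2 z ≤ 1 := by
  unfold w2
  have := Complex.normSq_nonneg z.2
  linarith

theorem r2_pos {z : ℂ × ℂ} (hz : z ∈ T) : 0 < r2 z := Complex.normSq_pos.mpr (snd_ne_zero hz)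

theorem hasX_w1 {z : ℂ × ℂ} (hz : z.2 ≠ 0) :
    HasX (fun v => ((w1 v : ℝ) : ℂ)) z (-(z.1 / z.2)) 0 := by
  have := (hasX_const 1 z).sub ((hasX_zt hz).mul (hasX_conj_zt hz))
  have e : (fun v => ((w1 v : ℝ) : ℂ)) = fun v : ℂ × ℂ => 1 - v.1 / v.2 * conj (v.1 / v.2) := by
    funext v
    unfold w1
    rw [Complex.mul_conj]
    push_cast
    ring
  rw [e]
  exact this.congr_val (by ring) (by ring)

theorem hasX_r2 (z : ℂ × ℂ) : HasX (fun v => ((r2 v : ℝ) : ℂ)) z 0 z.2 := by
  have := ((hasX_snd z).mul (hasX_conj_snd z))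
  have e : (fun v => ((r2 v : ℝ) : ℂ)) = fun v : ℂ × ℂ => v.2 * conj v.2 := by
    funext v
    unfold r2
    rw [Complex.mul_conj]
  rw [e]
  exact this.congr_val (by ring) (by ring)

theorem hasX_w2 (z : ℂ × ℂ) : HasX (fun v => ((w2 v : ℝ) : ℂ)) z 0 (-z.2) := by
  have := (hasX_const 1 z).sub (hasX_r2 z)
  have e : (fun v => ((w2 v : ℝ) : ℂ)) = fun v : ℂ × ℂ => 1 - ((r2 v : ℝ) : ℂ) := by
    funext v
    unfold w2 r2
    push_cast
    ring
  rw [e]
  exact this.congr_val (by ring) (by ring)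

/-- smooth step -/
abbrev eta : ℝ → ℝ := Real.smoothTransition

theorem eta_one {x : ℝ} (h : 1 ≤ x) : eta x = 1 := Real.smoothTransition.one_of_one_le h

theorem eta_zero {x : ℝ} (h : x ≤ 0) : eta x = 0 := Real.smoothTransition.zero_of_nonpos h

theorem eta_contDiff : ContDiff ℝ ∞ eta := Real.smoothTransition.contDiff

theorem eta_hasDerivAt (x : ℝ) : HasDerivAt eta (deriv eta x) x :=
  (eta_contDiff.differentiable (by simp) x).hasDerivAt

theorem deriv_eta_of_gt {x : ℝ} (hx : 1 < x) : deriv eta x = 0 := by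
  have h : eta =ᶠ[𝓝 x] fun _ => 1 := by
    filter_upwards [Ioi_mem_nhds hx] with y hy
    exact Real.smoothTransition.one_of_one_le (le_of_lt hy)
  rw [h.deriv_eq, deriv_const]

theorem deriv_eta_of_lt {x : ℝ} (hx : x < 0) : deriv eta x = 0 := by
  have h : eta =ᶠ[𝓝 x] fun _ => 0 := by
    filter_upwards [Iio_mem_nhds hx] with y hy
    exact Real.smoothTransition.zero_of_nonpos (le_of_lt hy)
  rw [h.deriv_eq, deriv_const]

theorem exists_eta_bound : ∃ C : ℝ, 0 < C ∧ ∀ x, |deriv eta x| ≤ C := by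
  have hc : Continuous (deriv eta) := eta_contDiff.continuous_deriv (by simp)
  obtain ⟨C, hC⟩ := (isCompact_Icc (a := (0 : ℝ)) (b := 1)).exists_bound_of_continuousOn
    hc.continuousOn
  refine ⟨max C 1, by positivity, fun x => ?_⟩
  by_cases hx : x ∈ Icc (0 : ℝ) 1
  · exact (hC x hx).trans (le_max_left _ _)
  · have : deriv eta x = 0 := by
      rw [mem_Icc, not_and_or, not_le, not_le] at hx
      rcases hx with hx | hx
      · exact deriv_eta_of_lt hx
      · exact deriv_eta_of_gt hx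
    rw [this, abs_zero]
    positivity

/-- The bound for the derivative of the smooth step. -/
def Ceta : ℝ := exists_eta_bound.choose

theorem Ceta_pos : 0 < Ceta := exists_eta_bound.choose_spec.1

theorem deriv_eta_le (x : ℝ) : |deriv eta x| ≤ Ceta := exists_eta_bound.choose_spec.2 x

/-- cutoff functions -/
def chi (k : ℕ) (z : ℂ × ℂ) : ℂ :=
  ((eta (k * w1 z - 1) : ℝ) : ℂ) * ((eta (k * w2 z - 1) : ℝ) : ℂ) *
    ((eta (k * r2 z - 1) : ℝ) : ℂ)

theorem norm_chi_le (k : ℕ) (z : ℂ × ℂ) : ‖chi k z‖ ≤ 1 := by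
  unfold chi
  rw [norm_mul, norm_mul]
  simp only [Complex.norm_real, Real.norm_eq_abs]
  have h : ∀ x : ℝ, |eta x| ≤ 1 := fun x => by
    rw [abs_of_nonneg (Real.smoothTransition.nonneg x)]
    exact Real.smoothTransition.le_one x
  exact mul_le_one₀ (mul_le_one₀ (h _) (abs_nonneg _) (h _)) (abs_nonneg _) (h _)

theorem chi_eventually_one {z : ℂ × ℂ} (hz : z ∈ T) : ∀ᶠ k : ℕ in atTop, chi k z = 1 := by
  have h1 : ∀ c : ℝ, 0 < c → ∀ᶠ k : ℕ in atTop, 1 ≤ k * c - 1 := by
    intro c hc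
    have : Tendsto (fun k : ℕ => (k : ℝ) * c) atTop atTop :=
      tendsto_natCast_atTop_atTop.atTop_mul_const hc
    filter_upwards [this.eventually_ge_atTop 2] with k hk
    linarith
  filter_upwards [h1 _ (w1_pos hz), h1 _ (w2_pos hz), h1 _ (r2_pos hz)] with k a b c
  unfold chi
  rw [eta_one a, eta_one b, eta_one c]
  simp

/-- The compact set carrying `chi k`. -/
def Kset (k : ℕ) : Set (ℂ × ℂ) :=
  {z | 1 ≤ k * r2 z ∧ 1 ≤ k * w2 z ∧ k * normSq z.1 ≤ (k - 1) * normSq z.2}

theorem chi_eq_zero_of_notMem {k : ℕ} {z : ℂ × ℂ} (hz : z ∉ Kset k) : chi k z = 0 := by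
  unfold chi
  by_cases h3 : 1 ≤ k * r2 z
  · by_cases h2 : 1 ≤ k * w2 z
    · have h1 : ¬ (k * normSq z.1 ≤ (k - 1) * normSq z.2) := fun h => hz ⟨h3, h2, h⟩
      have : k * w1 z - 1 ≤ 0 := by
        have hr : 0 < normSq z.2 := by
          by_contra h
          push Not at h
          have h0 : normSq z.2 = 0 := le_antisymm h (normSq_nonneg _)
          unfold r2 at h3
          rw [h0, mul_zero] at h3
          linarith
        unfold w1
        rw [map_div₀]
        push Not at h1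
        have h4 : (k : ℝ) * (1 - normSq z.1 / normSq z.2) - 1
          = ((k - 1) * normSq z.2 - k * normSq z.1) / normSq z.2 := by
          field_simp
          ring
        rw [h4]
        exact div_nonpos_of_nonpos_of_nonneg (by linarith) hr.le
      rw [eta_zero this]
      simp
    · rw [eta_zero (show k * w2 z - 1 ≤ 0 by linarith)]
      simp
  · rw [eta_zero (show k * r2 z - 1 ≤ 0 by linarith)]
    simp

theorem Kset_subset_T (k : ℕ) : Kset k ⊆ T := by
  rintro z ⟨h1, h2, h3⟩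
  have hk : (0 : ℝ) < k := by
    rcases Nat.eq_zero_or_pos k with h | h
    · subst h
      simp at h1
      linarith
    · exact_mod_cast h
  unfold r2 at h1
  unfold w2 at h2
  have hr : 0 < normSq z.2 := by
    by_contra h
    push Not at h
    have h0 : normSq z.2 = 0 := le_antisymm h (normSq_nonneg _)
    rw [h0, mul_zero] at h1
    linarith
  have h4 : normSq z.2 < 1 := by
    by_contra h
    push Not at h
    nlinarith
  have h5 : normSq z.1 < normSq z.2 := by
    by_contra h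
    push Not at h
    nlinarith
  rw [Complex.normSq_eq_norm_sq] at h4
  rw [Complex.normSq_eq_norm_sq, Complex.normSq_eq_norm_sq] at h5
  constructor
  · exact lt_of_pow_lt_pow_left₀ 2 (norm_nonneg _) h5
  · by_contra h
    push Not at h
    nlinarith

theorem isClosed_Kset (k : ℕ) : IsClosed (Kset k) := by
  have h1 : Continuous fun z : ℂ × ℂ => normSq z.1 := Complex.continuous_normSq.comp continuous_fst
  have h2 : Continuous fun z : ℂ × ℂ => normSq z.2 := Complex.continuous_normSq.comp continuous_snd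
  have a1 : IsClosed {z : ℂ × ℂ | 1 ≤ (k : ℝ) * r2 z} :=
    isClosed_le continuous_const (continuous_const.mul h2)
  have a2 : IsClosed {z : ℂ × ℂ | 1 ≤ (k : ℝ) * w2 z} :=
    isClosed_le continuous_const (continuous_const.mul (continuous_const.sub h2))
  have a3 : IsClosed {z : ℂ × ℂ | (k : ℝ) * normSq z.1 ≤ (k - 1) * normSq z.2} :=
    isClosed_le (continuous_const.mul h1) (continuous_const.mul h2)
  exact a1.inter (a2.inter a3)

theorem isCompact_Kset (k : ℕ) : IsCompact (Kset k) := by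
  refine Metric.isCompact_of_isClosed_isBounded (isClosed_Kset k) ?_
  exact Metric.isBounded_ball.subset ((Kset_subset_T k).trans T_subset_ball)

theorem isTest_chi (k : ℕ) : IsTest (chi k) := by
  have hsupp : Function.support (chi k) ⊆ Kset k := by
    intro z hz
    by_contra h
    exact hz (chi_eq_zero_of_notMem h)
  have hts : tsupport (chi k) ⊆ Kset k := closure_minimal hsupp (isClosed_Kset k)
  refine ⟨?_, HasCompactSupport.of_support_subset_isCompact (isCompact_Kset k) hsupp,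
    hts.trans (Kset_subset_T k)⟩
  rw [contDiff_iff_contDiffAt]
  intro z
  by_cases hz : z ∈ T
  · have hz2 := snd_ne_zero hz
    have hn : ContDiff ℝ ∞ (fun w : ℂ => normSq w) := by
      have : (fun w : ℂ => normSq w) = fun w => ‖w‖ ^ 2 := by
        funext w; exact Complex.normSq_eq_norm_sq w
      rw [this]
      exact contDiff_norm_sq ℝ
    have e1 : ContDiffAt ℝ ∞ w1 z := by
      exact contDiffAt_const.sub (hn.contDiffAt.comp z (contDiffAt_zt hz2))
    have e3 : ContDiffAt ℝ ∞ r2 z := hn.contDiffAt.comp z contDiffAt_snd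
    have e2 : ContDiffAt ℝ ∞ w2 z := contDiffAt_const.sub e3
    have f : ∀ w : ℂ × ℂ → ℝ, ContDiffAt ℝ ∞ w z →
        ContDiffAt ℝ ∞ (fun v => ((eta (k * w v - 1) : ℝ) : ℂ)) z := by
      intro w hw
      have g1 : ContDiffAt ℝ ∞ (fun v => (k : ℝ) * w v - 1) z :=
        (contDiffAt_const.mul hw).sub contDiffAt_const
      have g2 : ContDiffAt ℝ ∞ (fun v => eta (k * w v - 1)) z :=
        eta_contDiff.contDiffAt.comp z g1
      exact Complex.ofRealCLM.contDiff.contDiffAt.comp z g2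
    exact ((f w1 e1).mul (f w2 e2)).mul (f r2 e3)
  · have h4 : chi k =ᶠ[𝓝 z] fun _ => 0 :=
      notMem_tsupport_iff_eventuallyEq.mp fun h => hz (Kset_subset_T k (hts h))
    exact contDiffAt_const.congr_of_eventuallyEq h4

theorem hasX_chi (k : ℕ) {z : ℂ × ℂ} (hz : z ∈ T) :
    HasX (chi k) z
      ((k * deriv eta (k * w1 z - 1) : ℝ) * (-(z.1 / z.2)) *
        (eta (k * w2 z - 1) : ℝ) * (eta (k * r2 z - 1) : ℝ))
      ((eta (k * w1 z - 1) : ℝ) * ((k * deriv eta (k * w2 z - 1) : ℝ) * (-z.2) *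
        (eta (k * r2 z - 1) : ℝ) + (eta (k * w2 z - 1) : ℝ) *
          ((k * deriv eta (k * r2 z - 1) : ℝ) * z.2))) := by
  have hz2 := snd_ne_zero hz
  have f : ∀ (w : ℂ × ℂ → ℝ) (x1 x2 : ℂ), HasX (fun v => ((w v : ℝ) : ℂ)) z x1 x2 →
      HasX (fun v => ((eta (k * w v - 1) : ℝ) : ℂ)) z
        ((k * deriv eta (k * w z - 1) : ℝ) * x1) ((k * deriv eta (k * w z - 1) : ℝ) * x2) := by
    intro w x1 x2 hw
    have hd : HasDerivAt (fun t : ℝ => eta (k * t - 1)) (k * deriv eta (k * w z - 1)) (w z) := by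
      have h1 : HasDerivAt (fun t : ℝ => (k : ℝ) * t - 1) k (w z) := by
        simpa using ((hasDerivAt_id (w z)).const_mul (k : ℝ)).sub_const 1
      have h2 := (eta_hasDerivAt (k * w z - 1)).comp (w z) h1
      rw [mul_comm]
      exact h2
    exact hw.comp_real (η := fun t : ℝ => eta (k * t - 1)) hd
  have := ((f w1 _ _ (hasX_w1 hz2)).mul (f w2 _ _ (hasX_w2 z))).mul (f r2 _ _ (hasX_r2 z))
  refine this.congr_val ?_ ?_ <;> ring

end Pool.Agent.Lib.MP_169ce5_an
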