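import Pool.Agent.Lib.MP_169ce5_an.IBP

/-!
The weak class: functions with weak `X1`, `X2` derivatives in `L²(T)`, weights, and the basic
integration by parts identities for the monomials.
-/

open MeasureTheory Complex Filter Topology Set
open scoped ContDiff ComplexConjugate ENNReal InnerProductSpace

noncomputable section

namespace Pool.Agent.Lib.MP_169ce5_an

/-- weak `X1` and `X2` derivatives -/
def WeakX (f g1 g2 : L2) : Prop :=
  (∀ φ, IsTest φ → ∫ z in T, f z * X1 φ z = - ∫ z in T, g1 z * φ z) ∧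
  (∀ φ, IsTest φ → ∫ z in T, f z * (X2 φ z + φ z * (conj z.2)⁻¹) = - ∫ z in T, g2 z * φ z)

theorem IsTest.integral_X1 {φ : ℂ × ℂ → ℂ} (hφ : IsTest φ) : ∫ z in T, X1 φ z = 0 := by
  have hs : ContDiffOn ℝ ∞ (fun z : ℂ × ℂ => conj z.2) T := fun z _ =>
    (contDiffAt_conj contDiffAt_snd).contDiffWithinAt
  have ht := hφ.mul_left hs
  rw [← ht.integral_dzbar1]
  refine setIntegral_congr_fun measurableSet_T ?_
  intro z hz
  have h1 := (fderiv_conj_snd z).differentiableAt
  rw [dzbar1_mul h1 (hφ.differentiableAt z)]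
  have h2 : dzbar1 (fun w : ℂ × ℂ => conj w.2) z = 0 := by
    unfold dzbar1
    rw [(fderiv_conj_snd z).fderiv]
    simp
  rw [h2]
  unfold X1
  ring

theorem contDiffOn_conj_zt : ContDiffOn ℝ ∞ (fun z : ℂ × ℂ => conj (z.1 / z.2)) T := fun _ hz =>
  (contDiffAt_conj (contDiffAt_zt (snd_ne_zero hz))).contDiffWithinAt

theorem contDiffOn_inv_conj_snd : ContDiffOn ℝ ∞ (fun z : ℂ × ℂ => (conj z.2)⁻¹) T := by
  intro z hz
  have h2 : ContDiffAt ℝ ∞ (fun w : ℂ × ℂ => w.2) z := contDiffAt_snd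
  exact ((contDiffAt_conj h2).inv (by simpa using snd_ne_zero hz)).contDiffWithinAt

theorem dzbar1_conj_zt {z : ℂ × ℂ} (hz : z.2 ≠ 0) :
    dzbar1 (fun w : ℂ × ℂ => conj (w.1 / w.2)) z = (conj z.2)⁻¹ := by
  have h := (hasX_conj_zt hz).e1
  have hz' : conj z.2 ≠ 0 := by simpa using hz
  unfold X1 at h
  exact eq_inv_of_mul_eq_one_right h

theorem IsTest.integral_X2 {φ : ℂ × ℂ → ℂ} (hφ : IsTest φ) :
    ∫ z in T, (X2 φ z + φ z * (conj z.2)⁻¹) = 0 := by
  have ht := hφ.mul_left contDiffOn_conj_zt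
  have i1 : Integrable (fun z => dzbar1 (fun w => conj (w.1 / w.2) * φ w) z) muT := by
    unfold dzbar1
    exact (((ht.integrable_fderiv _).add ((ht.integrable_fderiv _).const_mul _)).const_mul
      _).restrict
  have i2 : Integrable (fun z => dzbar2 φ z) muT := by
    unfold dzbar2
    exact (((hφ.integrable_fderiv _).add ((hφ.integrable_fderiv _).const_mul _)).const_mul
      _).restrict
  have h0 : ∫ z in T, (dzbar2 φ z + dzbar1 (fun w => conj (w.1 / w.2) * φ w) z) = 0 := by
    rw [integral_add i2 i1, ht.integral_dzbar1, hφ.integral_dzbar2, add_zero]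
  rw [← h0]
  refine setIntegral_congr_fun measurableSet_T ?_
  intro z hz
  have hz2 := snd_ne_zero hz
  simp only
  rw [dzbar1_mul (hasX_conj_zt hz2).diff (hφ.differentiableAt z), dzbar1_conj_zt hz2]
  unfold X2
  ring

/-- The monomials as elements of `L²(T)`. -/
def eL (a b c d : ℕ) : L2 := (memLp_eMon a b c d).toLp _

theorem coeFn_eL (a b c d : ℕ) : (eL a b c d : ℂ × ℂ → ℂ) =ᵐ[muT] eMon a b c d :=
  (memLp_eMon a b c d).coeFn_toLp

theorem integral_congr_eL (a b c d : ℕ) (F : ℂ × ℂ → ℂ) :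
    ∫ z in T, (eL a b c d : ℂ × ℂ → ℂ) z * F z = ∫ z in T, eMon a b c d z * F z := by
  refine integral_congr_ae ?_
  filter_upwards [coeFn_eL a b c d] with z hz
  rw [hz]

theorem integral_congr_smul_eL (m : ℂ) (a b c d : ℕ) (F : ℂ × ℂ → ℂ) :
    ∫ z in T, ((m • eL a b c d : L2) : ℂ × ℂ → ℂ) z * F z =
      ∫ z in T, (m * eMon a b c d z) * F z := by
  refine integral_congr_ae ?_
  filter_upwards [coeFn_eL a b c d, Lp.coeFn_smul m (eL a b c d)] with z hz hz2
  rw [hz2, Pi.smul_apply, hz, smul_eq_mul]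

theorem weakX_eL (a b c d : ℕ) :
    WeakX (eL a b c d) ((b : ℂ) • eL a (b - 1) c d) ((d : ℂ) • eL a b c (d - 1)) := by
  constructor
  · intro φ hφ
    rw [integral_congr_eL, integral_congr_smul_eL]
    have ht := hφ.mul_left (contDiffOn_eMon a b c d)
    have h0 := ht.integral_X1
    have e1 : ∫ z in T, X1 (fun z => eMon a b c d z * φ z) z =
        ∫ z in T, (eMon a b c d z * X1 φ z + (b * eMon a (b - 1) c d z) * φ z) := by
      refine setIntegral_congr_fun measurableSet_T ?_
      intro z hz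
      have := ((hasX_eMon a b c d (snd_ne_zero hz)).mul
        (hasX_of_contDiffOn hφ.1.contDiffOn hz)).e1
      simp only [this]
      ring
    rw [e1, integral_add] at h0
    · exact eq_neg_of_add_eq_zero_left h0
    · have hm : MemLp (X1 φ) 2 muT := by
        have hc : Continuous (X1 φ) := by
          unfold X1 dzbar1
          have h1 := hφ.1.continuous_fderiv (by simp)
          exact (Complex.continuous_conj.comp continuous_snd).mul
            (continuous_const.mul ((h1.clm_apply continuous_const).add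
              (continuous_const.mul (h1.clm_apply continuous_const))))
        obtain ⟨C, hC⟩ := (isCompact_closedBall (0 : ℂ × ℂ) 1).exists_bound_of_continuousOn
          hc.continuousOn
        exact memLp_of_bounded hc.aestronglyMeasurable fun z hz =>
          hC z (Metric.ball_subset_closedBall (T_subset_ball hz))
      exact (memLp_eMon a b c d).integrable_mul hm
    · have hm : MemLp φ 2 muT := by
        obtain ⟨C, hC⟩ := (isCompact_closedBall (0 : ℂ × ℂ) 1).exists_bound_of_continuousOn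
          hφ.1.continuous.continuousOn
        exact memLp_of_bounded hφ.1.continuous.aestronglyMeasurable fun z hz =>
          hC z (Metric.ball_subset_closedBall (T_subset_ball hz))
      exact ((memLp_eMon a (b - 1) c d).const_mul (b : ℂ)).integrable_mul hm
  · intro φ hφ
    rw [integral_congr_eL, integral_congr_smul_eL]
    have ht := hφ.mul_left (contDiffOn_eMon a b c d)
    have h0 := ht.integral_X2
    have e1 : ∫ z in T, (X2 (fun z => eMon a b c d z * φ z) z +
          eMon a b c d z * φ z * (conj z.2)⁻¹) =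
        ∫ z in T, (eMon a b c d z * (X2 φ z + φ z * (conj z.2)⁻¹) +
          (d * eMon a b c (d - 1) z) * φ z) := by
      refine setIntegral_congr_fun measurableSet_T ?_
      intro z hz
      have := ((hasX_eMon a b c d (snd_ne_zero hz)).mul
        (hasX_of_contDiffOn hφ.1.contDiffOn hz)).e2
      simp only [this]
      ring
    rw [e1, integral_add] at h0
    · exact eq_neg_of_add_eq_zero_left h0
    · -- bounded with compact support
      have ht2 := hφ.mul_left contDiffOn_inv_conj_snd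
      have ht3 := hφ.mul_left contDiffOn_conj_zt
      have hc : Continuous (fun z => dzbar2 φ z + dzbar1 (fun w => conj (w.1 / w.2) * φ w) z) := by
        have h1 := hφ.1.continuous_fderiv (by simp)
        have h3 := ht3.1.continuous_fderiv (by simp)
        unfold dzbar1 dzbar2
        exact (continuous_const.mul ((h1.clm_apply continuous_const).add
              (continuous_const.mul (h1.clm_apply continuous_const)))).add
            (continuous_const.mul ((h3.clm_apply continuous_const).add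
              (continuous_const.mul (h3.clm_apply continuous_const))))
      have hm : MemLp (fun z => dzbar2 φ z + dzbar1 (fun w => conj (w.1 / w.2) * φ w) z) 2 muT := by
        obtain ⟨C, hC⟩ := (isCompact_closedBall (0 : ℂ × ℂ) 1).exists_bound_of_continuousOn
          hc.continuousOn
        exact memLp_of_bounded hc.aestronglyMeasurable fun z hz =>
          hC z (Metric.ball_subset_closedBall (T_subset_ball hz))
      have hm2 := (memLp_eMon a b c d).integrable_mul hm
      refine hm2.congr ?_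
      filter_upwards [ae_restrict_mem measurableSet_T] with z hz
      have hz2 := snd_ne_zero hz
      simp only [Pi.mul_apply]
      rw [dzbar1_mul (hasX_conj_zt hz2).diff (hφ.differentiableAt z), dzbar1_conj_zt hz2]
      unfold X2
      ring
    · have hm : MemLp φ 2 muT := by
        obtain ⟨C, hC⟩ := (isCompact_closedBall (0 : ℂ × ℂ) 1).exists_bound_of_continuousOn
          hφ.1.continuous.continuousOn
        exact memLp_of_bounded hφ.1.continuous.aestronglyMeasurable fun z hz =>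
          hC z (Metric.ball_subset_closedBall (T_subset_ball hz))
      exact ((memLp_eMon a b c (d - 1)).const_mul (d : ℂ)).integrable_mul hm

/-! ### Multiplication by bounded real functions -/

theorem memLp_mulReal {m : ℂ × ℂ → ℝ} (hm : Measurable m) (hb : ∀ z, |m z| ≤ 1)
    (f : L2) : MemLp (fun z => (m z : ℂ) * f z) 2 muT := by
  refine MemLp.of_le_mul (c := 1) (Lp.memLp f) ?_ ?_
  · exact (Complex.measurable_ofReal.comp hm).aestronglyMeasurable.mul (Lp.memLp f).1
  · filter_upwards with z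
    rw [norm_mul, Complex.norm_real, Real.norm_eq_abs, one_mul]
    exact mul_le_of_le_one_left (norm_nonneg _) (hb z)

/-- Multiplication operator by a real function bounded by one. -/
def mulL (m : ℂ × ℂ → ℝ) (hm : Measurable m) (hb : ∀ z, |m z| ≤ 1) : L2 →L[ℂ] L2 :=
  LinearMap.mkContinuous
    { toFun := fun f => (memLp_mulReal hm hb f).toLp _
      map_add' := fun f g => by
        rw [← MemLp.toLp_add]
        apply (MemLp.toLp_eq_toLp_iff _ _).mpr
        filter_upwards [Lp.coeFn_add f g] with z hz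
        rw [hz, Pi.add_apply, Pi.add_apply]
        ring
      map_smul' := fun c f => by
        rw [RingHom.id_apply, ← MemLp.toLp_const_smul]
        apply (MemLp.toLp_eq_toLp_iff _ _).mpr
        filter_upwards [Lp.coeFn_smul c f] with z hz
        rw [hz, Pi.smul_apply, Pi.smul_apply, smul_eq_mul, smul_eq_mul]
        ring } 1 (by
      intro f
      rw [one_mul]
      refine Lp.norm_le_norm_of_ae_le ?_
      simp only [LinearMap.coe_mk, AddHom.coe_mk]
      filter_upwards [(memLp_mulReal hm hb f).coeFn_toLp] with z hz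
      rw [hz, norm_mul, Complex.norm_real, Real.norm_eq_abs]
      exact mul_le_of_le_one_left (norm_nonneg _) (hb z))

theorem coeFn_mulL {m : ℂ × ℂ → ℝ} (hm : Measurable m) (hb : ∀ z, |m z| ≤ 1) (f : L2) :
    (mulL m hm hb f : ℂ × ℂ → ℂ) =ᵐ[muT] fun z => (m z : ℂ) * f z :=
  (memLp_mulReal hm hb f).coeFn_toLp

theorem norm_mulL_le {m : ℂ × ℂ → ℝ} (hm : Measurable m) (hb : ∀ z, |m z| ≤ 1) (f : L2) :
    ‖mulL m hm hb f‖ ≤ ‖f‖ := by
  refine Lp.norm_le_norm_of_ae_le ?_
  filter_upwards [coeFn_mulL hm hb f] with z hz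
  rw [hz, norm_mul, Complex.norm_real, Real.norm_eq_abs]
  exact mul_le_of_le_one_left (norm_nonneg _) (hb z)

theorem measurable_w1 : Measurable w1 := by
  unfold w1
  have h : Measurable fun z : ℂ × ℂ => z.1 / z.2 := measurable_fst.div measurable_snd
  exact measurable_const.sub (Complex.continuous_normSq.measurable.comp h)

theorem measurable_w2 : Measurable w2 := by
  unfold w2
  exact measurable_const.sub (Complex.continuous_normSq.measurable.comp measurable_snd)

/-- `√w1` -/
def s1 (z : ℂ × ℂ) : ℝ := Real.sqrt (w1 z)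

/-- `√w2` -/
def s2 (z : ℂ × ℂ) : ℝ := Real.sqrt (w2 z)

theorem measurable_s1 : Measurable s1 := measurable_w1.sqrt

theorem measurable_s2 : Measurable s2 := measurable_w2.sqrt

theorem abs_s1_le (z : ℂ × ℂ) : |s1 z| ≤ 1 := by
  unfold s1
  rw [abs_of_nonneg (Real.sqrt_nonneg _)]
  exact Real.sqrt_le_one.mpr (w1_le_one z)

theorem abs_s2_le (z : ℂ × ℂ) : |s2 z| ≤ 1 := by
  unfold s2
  rw [abs_of_nonneg (Real.sqrt_nonneg _)]
  exact Real.sqrt_le_one.mpr (w2_le_one z)

/-- multiplication by `√w1` -/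
def S1 : L2 →L[ℂ] L2 := mulL s1 measurable_s1 abs_s1_le

/-- multiplication by `√w2` -/
def S2 : L2 →L[ℂ] L2 := mulL s2 measurable_s2 abs_s2_le

theorem s1_mul_self {z : ℂ × ℂ} (hz : z ∈ T) : s1 z * s1 z = w1 z :=
  Real.mul_self_sqrt (w1_pos hz).le

theorem s2_mul_self {z : ℂ × ℂ} (hz : z ∈ T) : s2 z * s2 z = w2 z :=
  Real.mul_self_sqrt (w2_pos hz).le

theorem inner_S1 (f g : L2) :
    ⟪S1 f, S1 g⟫_ℂ = ∫ z in T, g z * ((w1 z : ℂ) * conj (f z)) := by
  rw [L2.inner_def]
  refine integral_congr_ae ?_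
  filter_upwards [coeFn_mulL measurable_s1 abs_s1_le f, coeFn_mulL measurable_s1 abs_s1_le g,
    ae_restrict_mem measurableSet_T] with z h1 h2 hz
  change ⟪(S1 f : ℂ × ℂ → ℂ) z, (S1 g : ℂ × ℂ → ℂ) z⟫_ℂ = _
  unfold S1
  rw [h1, h2, RCLike.inner_apply]
  simp only [map_mul, Complex.conj_ofReal]
  have := s1_mul_self hz
  have h3 : ((s1 z : ℝ) : ℂ) * ((s1 z : ℝ) : ℂ) = ((w1 z : ℝ) : ℂ) := by
    rw [← Complex.ofReal_mul, this]
  rw [← h3]
  ring

theorem inner_S2 (f g : L2) :
    ⟪S2 f, S2 g⟫_ℂ = ∫ z in T, g z * ((w2 z : ℂ) * conj (f z)) := by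
  rw [L2.inner_def]
  refine integral_congr_ae ?_
  filter_upwards [coeFn_mulL measurable_s2 abs_s2_le f, coeFn_mulL measurable_s2 abs_s2_le g,
    ae_restrict_mem measurableSet_T] with z h1 h2 hz
  change ⟪(S2 f : ℂ × ℂ → ℂ) z, (S2 g : ℂ × ℂ → ℂ) z⟫_ℂ = _
  unfold S2
  rw [h1, h2, RCLike.inner_apply]
  simp only [map_mul, Complex.conj_ofReal]
  have := s2_mul_self hz
  have h3 : ((s2 z : ℝ) : ℂ) * ((s2 z : ℝ) : ℂ) = ((w2 z : ℝ) : ℂ) := by
    rw [← Complex.ofReal_mul, this]
  rw [← h3]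
  ring

theorem inner_L2 (f g : L2) : ⟪f, g⟫_ℂ = ∫ z in T, g z * conj (f z) := by
  rw [L2.inner_def]
  refine integral_congr_ae ?_
  filter_upwards with z
  rw [RCLike.inner_apply]

theorem w1_eq {z : ℂ × ℂ} : ((w1 z : ℝ) : ℂ) = 1 - z.1 / z.2 * conj (z.1 / z.2) := by
  unfold w1
  rw [Complex.mul_conj]
  push_cast
  ring

theorem w2_eq {z : ℂ × ℂ} : ((w2 z : ℝ) : ℂ) = 1 - z.2 * conj z.2 := by
  unfold w2
  rw [Complex.mul_conj]
  push_cast
  ring

theorem w1_mul_nMon (a b c d : ℕ) (z : ℂ × ℂ) :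
    (w1 z : ℂ) * nMon a b c d z = nMon a b c d z - nMon (a + 1) (b + 1) c d z := by
  rw [w1_eq]
  unfold nMon Mon
  ring

theorem w2_mul_nMon (a b c d : ℕ) (z : ℂ × ℂ) :
    (w2 z : ℂ) * nMon a b c d z = nMon a b c d z - nMon a b (c + 1) (d + 1) z := by
  rw [w2_eq]
  unfold nMon Mon
  ring

theorem contDiffOn_w1_mul_nMon (a b c d : ℕ) :
    ContDiffOn ℝ ∞ (fun z => (w1 z : ℂ) * nMon a b c d z) T := by
  have : (fun z => (w1 z : ℂ) * nMon a b c d z) =
      fun z => nMon a b c d z - nMon (a + 1) (b + 1) c d z := by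
    funext z; exact w1_mul_nMon a b c d z
  rw [this]
  exact (contDiffOn_nMon a b c d).sub (contDiffOn_nMon _ _ _ _)

theorem contDiffOn_w2_mul_nMon (a b c d : ℕ) :
    ContDiffOn ℝ ∞ (fun z => (w2 z : ℂ) * nMon a b c d z) T := by
  have : (fun z => (w2 z : ℂ) * nMon a b c d z) =
      fun z => nMon a b c d z - nMon a b (c + 1) (d + 1) z := by
    funext z; exact w2_mul_nMon a b c d z
  rw [this]
  exact (contDiffOn_nMon a b c d).sub (contDiffOn_nMon _ _ _ _)

theorem X1_w1_mul_nMon (a b c d : ℕ) {z : ℂ × ℂ} (hz : z ∈ T) :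
    X1 (fun z => (w1 z : ℂ) * nMon a b c d z) z =
      b * nMon a (b - 1) c d z - (b + 1) * nMon (a + 1) b c d z := by
  have : (fun z => (w1 z : ℂ) * nMon a b c d z) =
      fun z => nMon a b c d z - nMon (a + 1) (b + 1) c d z := by
    funext z; exact w1_mul_nMon a b c d z
  rw [this]
  have h := ((hasX_nMon a b c d (snd_ne_zero hz)).sub
    (hasX_nMon (a + 1) (b + 1) c d (snd_ne_zero hz))).e1
  rw [h]
  simp only [Nat.add_sub_cancel]
  push_cast
  ring

theorem X2_w2_mul_nMon (a b c d : ℕ) {z : ℂ × ℂ} (hz : z ∈ T) :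
    X2 (fun z => (w2 z : ℂ) * nMon a b c d z) z + ((w2 z : ℂ) * nMon a b c d z) * (conj z.2)⁻¹ =
      d * nMon a b c (d - 1) z - (d + 1) * nMon a b (c + 1) d z := by
  have e : (fun z => (w2 z : ℂ) * nMon a b c d z) =
      fun z => nMon a b c d z - nMon a b (c + 1) (d + 1) z := by
    funext z; exact w2_mul_nMon a b c d z
  rw [e, w2_mul_nMon]
  have h := ((hasX_nMon a b c d (snd_ne_zero hz)).sub
    (hasX_nMon a b (c + 1) (d + 1) (snd_ne_zero hz))).e2
  rw [h]
  simp only [Nat.add_sub_cancel]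
  push_cast
  ring

/-- `X1`-integration by parts against `w1 * conj(eMon a b c d)`. -/
theorem weakX_pair1 {f g1 g2 : L2} (h : WeakX f g1 g2) (a b c d : ℕ) :
    ⟪S1 (eL a b c d), S1 g1⟫_ℂ =
      ⟪((a : ℂ) + 1) • eL a (b + 1) c d - (a : ℂ) • eL (a - 1) b c d, f⟫_ℂ := by
  have hn : ∀ z ∈ T, ‖nMon b a d c z‖ ≤ 1 * ‖z.2‖⁻¹ := fun z hz => norm_nMon_le b a d c hz
  have key := ibp1 (f := f) (g := g1) h.1 (contDiffOn_w1_mul_nMon b a d c) (C := 1)
    (C' := 2 * a + 1) (by
      intro z hz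
      have hw := w1_pos hz
      rw [norm_mul, Complex.norm_real, Real.norm_of_nonneg hw.le, one_mul]
      exact mul_le_mul_of_nonneg_left (by simpa using hn z hz) hw.le) (by
      intro z hz
      rw [X1_w1_mul_nMon b a d c hz]
      have n1 := norm_nMon_le b (a - 1) d c hz
      have n2 := norm_nMon_le (b + 1) a d c hz
      calc ‖(a : ℂ) * nMon b (a - 1) d c z - (a + 1) * nMon (b + 1) a d c z‖
          ≤ ‖(a : ℂ) * nMon b (a - 1) d c z‖ + ‖((a : ℂ) + 1) * nMon (b + 1) a d c z‖ :=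
            norm_sub_le _ _
        _ ≤ a * (1 * ‖z.2‖⁻¹) + (a + 1) * (1 * ‖z.2‖⁻¹) := by
            rw [norm_mul, norm_mul, Complex.norm_natCast]
            have : ‖(a : ℂ) + 1‖ = a + 1 := by
              have h1 : ((a : ℂ) + 1) = ((a + 1 : ℕ) : ℂ) := by push_cast; ring
              rw [h1, Complex.norm_natCast]; push_cast; ring
            rw [this]
            gcongr
        _ = (2 * a + 1) * ‖z.2‖⁻¹ := by ring)
  have e1 : ⟪S1 (eL a b c d), S1 g1⟫_ℂ = ∫ z in T, g1 z * ((w1 z : ℂ) * nMon b a d c z) := by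
    rw [inner_S1]
    refine integral_congr_ae ?_
    filter_upwards [coeFn_eL a b c d] with z hz
    rw [hz, conj_eMon]
  have e2 : ⟪((a : ℂ) + 1) • eL a (b + 1) c d - (a : ℂ) • eL (a - 1) b c d, f⟫_ℂ =
      - ∫ z in T, f z * X1 (fun z => (w1 z : ℂ) * nMon b a d c z) z := by
    rw [inner_L2, ← integral_neg]
    refine integral_congr_ae ?_
    filter_upwards [coeFn_eL a (b + 1) c d, coeFn_eL (a - 1) b c d,
      Lp.coeFn_sub (((a : ℂ) + 1) • eL a (b + 1) c d) ((a : ℂ) • eL (a - 1) b c d),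
      Lp.coeFn_smul ((a : ℂ) + 1) (eL a (b + 1) c d), Lp.coeFn_smul (a : ℂ) (eL (a - 1) b c d),
      ae_restrict_mem measurableSet_T] with z h1 h2 h3 h4 h5 hz
    rw [h3, Pi.sub_apply, h4, h5, Pi.smul_apply, Pi.smul_apply, h1, h2, smul_eq_mul, smul_eq_mul,
      X1_w1_mul_nMon b a d c hz]
    simp only [map_sub, map_mul, conj_eMon, map_add, map_one, map_natCast]
    ring
  rw [e1, e2, key, neg_neg]

/-- `X2`-integration by parts against `w2 * conj(eMon a b c d)`. -/
theorem weakX_pair2 {f g1 g2 : L2} (h : WeakX f g1 g2) (a b c d : ℕ) :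
    ⟪S2 (eL a b c d), S2 g2⟫_ℂ =
      ⟪((c : ℂ) + 1) • eL a b c (d + 1) - (c : ℂ) • eL a b (c - 1) d, f⟫_ℂ := by
  have hn : ∀ z ∈ T, ‖nMon b a d c z‖ ≤ 1 * ‖z.2‖⁻¹ := fun z hz => norm_nMon_le b a d c hz
  have key := ibp2 (f := f) (g := g2) h.2 (contDiffOn_w2_mul_nMon b a d c) (C := 1)
    (C' := 2 * c + 1) (by
      intro z hz
      have hw := w2_pos hz
      rw [norm_mul, Complex.norm_real, Real.norm_of_nonneg hw.le, one_mul]
      exact mul_le_mul_of_nonneg_left (by simpa using hn z hz) hw.le) (by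
      intro z hz
      rw [X2_w2_mul_nMon b a d c hz]
      have n1 := norm_nMon_le b a d (c - 1) hz
      have n2 := norm_nMon_le b a (d + 1) c hz
      calc ‖(c : ℂ) * nMon b a d (c - 1) z - (c + 1) * nMon b a (d + 1) c z‖
          ≤ ‖(c : ℂ) * nMon b a d (c - 1) z‖ + ‖((c : ℂ) + 1) * nMon b a (d + 1) c z‖ :=
            norm_sub_le _ _
        _ ≤ c * (1 * ‖z.2‖⁻¹) + (c + 1) * (1 * ‖z.2‖⁻¹) := by
            rw [norm_mul, norm_mul, Complex.norm_natCast]
            have : ‖(c : ℂ) + 1‖ = c + 1 := by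
              have h1 : ((c : ℂ) + 1) = ((c + 1 : ℕ) : ℂ) := by push_cast; ring
              rw [h1, Complex.norm_natCast]; push_cast; ring
            rw [this]
            gcongr
        _ = (2 * c + 1) * ‖z.2‖⁻¹ := by ring)
  have e1 : ⟪S2 (eL a b c d), S2 g2⟫_ℂ = ∫ z in T, g2 z * ((w2 z : ℂ) * nMon b a d c z) := by
    rw [inner_S2]
    refine integral_congr_ae ?_
    filter_upwards [coeFn_eL a b c d] with z hz
    rw [hz, conj_eMon]
  have e2 : ⟪((c : ℂ) + 1) • eL a b c (d + 1) - (c : ℂ) • eL a b (c - 1) d, f⟫_ℂ =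
      - ∫ z in T, f z * (X2 (fun z => (w2 z : ℂ) * nMon b a d c z) z +
        ((w2 z : ℂ) * nMon b a d c z) * (conj z.2)⁻¹) := by
    rw [inner_L2, ← integral_neg]
    refine integral_congr_ae ?_
    filter_upwards [coeFn_eL a b c (d + 1), coeFn_eL a b (c - 1) d,
      Lp.coeFn_sub (((c : ℂ) + 1) • eL a b c (d + 1)) ((c : ℂ) • eL a b (c - 1) d),
      Lp.coeFn_smul ((c : ℂ) + 1) (eL a b c (d + 1)), Lp.coeFn_smul (c : ℂ) (eL a b (c - 1) d),
      ae_restrict_mem measurableSet_T] with z h1 h2 h3 h4 h5 hz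
    rw [h3, Pi.sub_apply, h4, h5, Pi.smul_apply, Pi.smul_apply, h1, h2, smul_eq_mul, smul_eq_mul,
      X2_w2_mul_nMon b a d c hz]
    simp only [map_sub, map_mul, conj_eMon, map_add, map_one, map_natCast]
    ring
  rw [e1, e2, key, neg_neg]

end Pool.Agent.Lib.MP_169ce5_an
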