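import Pool.Agent.Lib.MP_169ce5_an.Defs

/-!
Wirtinger calculus adapted to the Hartogs triangle: the derivations
`X1 = z̄₂ ∂/∂z̄₁` and `X2 = ∂/∂z̄₂ + (z̄₁/z̄₂) ∂/∂z̄₁`.
-/

open MeasureTheory Complex Filter Topology
open scoped ContDiff ComplexConjugate

noncomputable section

namespace Pool.Agent.Lib.MP_169ce5_an

/-- `X1 h = z̄₂ ∂h/∂z̄₁`. -/
def X1 (h : ℂ × ℂ → ℂ) (z : ℂ × ℂ) : ℂ := conj z.2 * dzbar1 h z

/-- `X2 h = ∂h/∂z̄₂ + (z̄₁/z̄₂) ∂h/∂z̄₁`. -/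
def X2 (h : ℂ × ℂ → ℂ) (z : ℂ × ℂ) : ℂ := dzbar2 h z + conj (z.1 / z.2) * dzbar1 h z

/-- `h` is real differentiable at `z` with `X1 h = x1`, `X2 h = x2` there. -/
structure HasX (h : ℂ × ℂ → ℂ) (z : ℂ × ℂ) (x1 x2 : ℂ) : Prop where
  diff : DifferentiableAt ℝ h z
  e1 : X1 h z = x1
  e2 : X2 h z = x2

theorem dzbar1_mul {h g : ℂ × ℂ → ℂ} {z : ℂ × ℂ} (hh : DifferentiableAt ℝ h z)
    (hg : DifferentiableAt ℝ g z) :
    dzbar1 (fun w => h w * g w) z = h z * dzbar1 g z + g z * dzbar1 h z := by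
  unfold dzbar1
  rw [fderiv_fun_mul hh hg]
  simp only [add_apply, smul_apply, smul_eq_mul]
  ring

theorem dzbar2_mul {h g : ℂ × ℂ → ℂ} {z : ℂ × ℂ} (hh : DifferentiableAt ℝ h z)
    (hg : DifferentiableAt ℝ g z) :
    dzbar2 (fun w => h w * g w) z = h z * dzbar2 g z + g z * dzbar2 h z := by
  unfold dzbar2
  rw [fderiv_fun_mul hh hg]
  simp only [add_apply, smul_apply, smul_eq_mul]
  ring

theorem dzbar1_add {h g : ℂ × ℂ → ℂ} {z : ℂ × ℂ} (hh : DifferentiableAt ℝ h z)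
    (hg : DifferentiableAt ℝ g z) :
    dzbar1 (fun w => h w + g w) z = dzbar1 h z + dzbar1 g z := by
  unfold dzbar1
  rw [fderiv_fun_add hh hg]
  simp only [add_apply]
  ring

theorem dzbar2_add {h g : ℂ × ℂ → ℂ} {z : ℂ × ℂ} (hh : DifferentiableAt ℝ h z)
    (hg : DifferentiableAt ℝ g z) :
    dzbar2 (fun w => h w + g w) z = dzbar2 h z + dzbar2 g z := by
  unfold dzbar2
  rw [fderiv_fun_add hh hg]
  simp only [add_apply]
  ring

theorem dzbar1_const (c : ℂ) (z : ℂ × ℂ) : dzbar1 (fun _ => c) z = 0 := by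
  unfold dzbar1; simp

theorem dzbar2_const (c : ℂ) (z : ℂ × ℂ) : dzbar2 (fun _ => c) z = 0 := by
  unfold dzbar2; simp

theorem HasX.mul {h g : ℂ × ℂ → ℂ} {z : ℂ × ℂ} {x1 x2 y1 y2 : ℂ} (hh : HasX h z x1 x2)
    (hg : HasX g z y1 y2) :
    HasX (fun w => h w * g w) z (h z * y1 + g z * x1) (h z * y2 + g z * x2) := by
  refine ⟨hh.diff.mul hg.diff, ?_, ?_⟩
  · rw [← hh.e1, ← hg.e1]
    unfold X1
    rw [dzbar1_mul hh.diff hg.diff]; ring
  · rw [← hh.e2, ← hg.e2]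
    unfold X2
    rw [dzbar1_mul hh.diff hg.diff, dzbar2_mul hh.diff hg.diff]; ring

theorem HasX.add {h g : ℂ × ℂ → ℂ} {z : ℂ × ℂ} {x1 x2 y1 y2 : ℂ} (hh : HasX h z x1 x2)
    (hg : HasX g z y1 y2) :
    HasX (fun w => h w + g w) z (x1 + y1) (x2 + y2) := by
  refine ⟨hh.diff.add hg.diff, ?_, ?_⟩
  · rw [← hh.e1, ← hg.e1]
    unfold X1
    rw [dzbar1_add hh.diff hg.diff]; ring
  · rw [← hh.e2, ← hg.e2]
    unfold X2
    rw [dzbar1_add hh.diff hg.diff, dzbar2_add hh.diff hg.diff]; ring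

theorem hasX_const (c : ℂ) (z : ℂ × ℂ) : HasX (fun _ => c) z 0 0 := by
  refine ⟨differentiableAt_const _, ?_, ?_⟩
  · unfold X1; rw [dzbar1_const]; ring
  · unfold X2; rw [dzbar1_const, dzbar2_const]; ring

theorem HasX.congr_val {h : ℂ × ℂ → ℂ} {z : ℂ × ℂ} {x1 x2 y1 y2 : ℂ} (hh : HasX h z x1 x2)
    (h1 : x1 = y1) (h2 : x2 = y2) : HasX h z y1 y2 := by
  subst h1; subst h2; exact hh

theorem HasX.pow {h : ℂ × ℂ → ℂ} {z : ℂ × ℂ} {x1 x2 : ℂ} (hh : HasX h z x1 x2) (n : ℕ) :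
    HasX (fun w => h w ^ n) z (n * h z ^ (n - 1) * x1) (n * h z ^ (n - 1) * x2) := by
  induction n with
  | zero => simpa using hasX_const 1 z
  | succ n ih =>
    have := ih.mul hh
    have e : (fun w => h w ^ (n + 1)) = fun w => h w ^ n * h w := by
      funext w; rw [pow_succ]
    rw [e]
    refine this.congr_val ?_ ?_
    · rcases n with _ | n
      · simp
      · simp only [Nat.add_sub_cancel, Nat.cast_add, Nat.cast_one]
        ring
    · rcases n with _ | n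
      · simp
      · simp only [Nat.add_sub_cancel, Nat.cast_add, Nat.cast_one]
        ring

theorem HasX.const_mul {h : ℂ × ℂ → ℂ} {z : ℂ × ℂ} {x1 x2 : ℂ} (hh : HasX h z x1 x2) (c : ℂ) :
    HasX (fun w => c * h w) z (c * x1) (c * x2) := by
  have := (hasX_const c z).mul hh
  exact this.congr_val (by ring) (by ring)

theorem HasX.neg {h : ℂ × ℂ → ℂ} {z : ℂ × ℂ} {x1 x2 : ℂ} (hh : HasX h z x1 x2) :
    HasX (fun w => - h w) z (-x1) (-x2) := by
  have := hh.const_mul (-1)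
  have e : (fun w => - h w) = fun w => (-1) * h w := by funext w; ring
  rw [e]
  exact this.congr_val (by ring) (by ring)

theorem HasX.sub {h g : ℂ × ℂ → ℂ} {z : ℂ × ℂ} {x1 x2 y1 y2 : ℂ} (hh : HasX h z x1 x2)
    (hg : HasX g z y1 y2) :
    HasX (fun w => h w - g w) z (x1 - y1) (x2 - y2) := by
  have := hh.add hg.neg
  have e : (fun w => h w - g w) = fun w => h w + - g w := by funext w; ring
  rw [e]
  exact this.congr_val (by ring) (by ring)

/-- Composition with a function which has a derivative (of the simple multiplicative form). -/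
theorem HasX.of_fderiv {h k : ℂ × ℂ → ℂ} {z : ℂ × ℂ} {x1 x2 : ℂ} (hh : HasX h z x1 x2) (c : ℂ)
    (hk : HasFDerivAt k (c • fderiv ℝ h z) z) : HasX k z (c * x1) (c * x2) := by
  refine ⟨hk.differentiableAt, ?_, ?_⟩
  · rw [← hh.e1]
    unfold X1 dzbar1
    rw [hk.fderiv]
    simp only [smul_apply, smul_eq_mul]
    ring
  · rw [← hh.e2]
    unfold X2 dzbar1 dzbar2
    rw [hk.fderiv]
    simp only [smul_apply, smul_eq_mul]
    ring

theorem HasX.inv {h : ℂ × ℂ → ℂ} {z : ℂ × ℂ} {x1 x2 : ℂ} (hh : HasX h z x1 x2)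
    (h0 : h z ≠ 0) :
    HasX (fun w => (h w)⁻¹) z (-(h z ^ 2)⁻¹ * x1) (-(h z ^ 2)⁻¹ * x2) := by
  apply hh.of_fderiv
  have h1 : HasFDerivAt (𝕜 := ℝ) (fun x : ℂ => x⁻¹)
      ((ContinuousLinearMap.toSpanSingleton ℂ (-(h z ^ 2)⁻¹)).restrictScalars ℝ) (h z) :=
    (hasDerivAt_inv h0).hasFDerivAt.restrictScalars ℝ
  have h2 := h1.comp z hh.diff.hasFDerivAt
  have key : (-(h z ^ 2)⁻¹) • fderiv ℝ h z =
      ((ContinuousLinearMap.toSpanSingleton ℂ (-(h z ^ 2)⁻¹)).restrictScalars ℝ).comp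
        (fderiv ℝ h z) := by
    refine ContinuousLinearMap.ext fun v => ?_
    simp [mul_comm]
  rw [key]
  exact h2

/-- real valued compositions: cutoffs -/
theorem HasX.comp_real {w : ℂ × ℂ → ℝ} {z : ℂ × ℂ} {x1 x2 : ℂ} {η : ℝ → ℝ} {η' : ℝ}
    (hw : HasX (fun v => ((w v : ℝ) : ℂ)) z x1 x2) (hη : HasDerivAt η η' (w z)) :
    HasX (fun v => ((η (w v) : ℝ) : ℂ)) z (η' * x1) (η' * x2) := by
  apply hw.of_fderiv
  have hwd : DifferentiableAt ℝ w z := by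
    have := Complex.reCLM.differentiableAt.comp z hw.diff
    exact this
  have h1 : HasFDerivAt (fun v => η (w v)) (η' • fderiv ℝ w z) z := by
    have := hη.comp_hasFDerivAt z hwd.hasFDerivAt
    exact this
  have h2 := Complex.ofRealCLM.hasFDerivAt.comp z h1
  have h3 : fderiv ℝ (fun v => ((w v : ℝ) : ℂ)) z = Complex.ofRealCLM.comp (fderiv ℝ w z) := by
    have := (Complex.ofRealCLM.hasFDerivAt.comp z hwd.hasFDerivAt).fderiv
    exact this
  rw [h3]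
  have key : ((η' : ℝ) : ℂ) • Complex.ofRealCLM.comp (fderiv ℝ w z) =
      Complex.ofRealCLM.comp (η' • fderiv ℝ w z) := by
    refine ContinuousLinearMap.ext fun v => ?_
    simp
  rw [key]
  exact h2

theorem hasX_fst (z : ℂ × ℂ) : HasX (fun w => w.1) z 0 0 := by
  refine ⟨differentiableAt_fst, ?_, ?_⟩
  · unfold X1 dzbar1
    rw [fderiv_fst]
    simp
  · unfold X2 dzbar1 dzbar2
    rw [fderiv_fst]
    simp

theorem hasX_snd (z : ℂ × ℂ) : HasX (fun w => w.2) z 0 0 := by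
  refine ⟨differentiableAt_snd, ?_, ?_⟩
  · unfold X1 dzbar1
    rw [fderiv_snd]
    simp
  · unfold X2 dzbar1 dzbar2
    rw [fderiv_snd]
    simp

theorem fderiv_conj_fst (z : ℂ × ℂ) : HasFDerivAt (𝕜 := ℝ) (fun w : ℂ × ℂ => conj w.1)
    ((Complex.conjCLE : ℂ →L[ℝ] ℂ).comp (ContinuousLinearMap.fst ℝ ℂ ℂ)) z :=
  ((Complex.conjCLE : ℂ →L[ℝ] ℂ).comp (ContinuousLinearMap.fst ℝ ℂ ℂ)).hasFDerivAt

theorem fderiv_conj_snd (z : ℂ × ℂ) : HasFDerivAt (𝕜 := ℝ) (fun w : ℂ × ℂ => conj w.2)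
    ((Complex.conjCLE : ℂ →L[ℝ] ℂ).comp (ContinuousLinearMap.snd ℝ ℂ ℂ)) z :=
  ((Complex.conjCLE : ℂ →L[ℝ] ℂ).comp (ContinuousLinearMap.snd ℝ ℂ ℂ)).hasFDerivAt

theorem hasX_conj_fst (z : ℂ × ℂ) :
    HasX (fun w => conj w.1) z (conj z.2) (conj (z.1 / z.2)) := by
  refine ⟨(fderiv_conj_fst z).differentiableAt, ?_, ?_⟩
  · unfold X1 dzbar1
    rw [(fderiv_conj_fst z).fderiv]
    simp
    ring
  · unfold X2 dzbar1 dzbar2
    rw [(fderiv_conj_fst z).fderiv]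
    simp
    ring

theorem hasX_conj_snd (z : ℂ × ℂ) : HasX (fun w => conj w.2) z 0 1 := by
  refine ⟨(fderiv_conj_snd z).differentiableAt, ?_, ?_⟩
  · unfold X1 dzbar1
    rw [(fderiv_conj_snd z).fderiv]
    simp
  · unfold X2 dzbar1 dzbar2
    rw [(fderiv_conj_snd z).fderiv]
    simp
    ring

end Pool.Agent.Lib.MP_169ce5_an
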